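import Pool.Agent.MP_19ffc6_ag.LU4.Spec

/-! Module DEG of PROJECT LU4: the local degree is at most the Weierstrass degree. -/

namespace Pool.Agent.MP_19ffc6_ag.LU4

open Polynomial IntermediateField Pool.Agent.MP_19ffc6_ag.LU Pool.Agent.MP_19ffc6_ag.LU3

universe u

namespace Deg

variable {Ω : Type u} [NontriviallyNormedField Ω] [IsUltrametricDist Ω]

/-- The quotient by a linear factor with a small root is integral. -/
theorem quot_le {a : Ω} {Q : Polynomial Ω} (ha : ‖a‖ < 1)
    (h : ∀ i, ‖((X - C a) * Q).coeff i‖ ≤ 1) (i : ℕ) : ‖Q.coeff i‖ ≤ 1 := by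
  have key : ∀ n i, Q.natDegree < i + n → ‖Q.coeff i‖ ≤ 1 := by
    intro n
    induction n with
    | zero => intro i hi; rw [coeff_eq_zero_of_natDegree_lt (by omega)]; simp
    | succ n ih =>
      intro i hi
      have h1 := h (i + 1)
      have h2 := ih (i + 1) (by omega)
      rw [coeff_X_sub_C_mul] at h1
      rw [show Q.coeff i = (Q.coeff i - a * Q.coeff (i + 1)) + a * Q.coeff (i + 1) by ring]
      refine norm_add_le_of h1 ?_
      rw [norm_mul]
      exact mul_le_one₀ ha.le (norm_nonneg _) h2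
  exact key (Q.natDegree + 1) i (by omega)

/-- The number of small roots is at most the index of a unit coefficient. -/
theorem card_le (s : Multiset Ω) : ∀ (P : Polynomial Ω) (d : ℕ), (∀ a ∈ s, ‖a‖ < 1) →
    (s.map fun a => X - C a).prod ∣ P → (∀ i, ‖P.coeff i‖ ≤ 1) → ‖P.coeff d‖ = 1 →
    s.card ≤ d := by
  induction s using Multiset.induction_on with
  | empty => intros; simp
  | cons a s ih =>
    rintro _ d hs ⟨Q, rfl⟩ hP hd
    have ha := hs a (Multiset.mem_cons_self _ _)
    rw [Multiset.map_cons, Multiset.prod_cons, mul_assoc] at hP hd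
    have hQ := quot_le ha hP
    have hsm : ∀ i, ‖a * ((s.map fun a => X - C a).prod * Q).coeff i‖ < 1 := fun i => by
      rw [norm_mul]
      exact mul_lt_one_of_nonneg_of_lt_one_left (norm_nonneg _) ha (hQ i)
    rcases d with _ | d
    · rw [mul_coeff_zero, coeff_sub, coeff_X_zero, coeff_C_zero, zero_sub, neg_mul, norm_neg] at hd
      exact absurd hd (hsm 0).ne
    · rw [coeff_X_sub_C_mul] at hd
      rw [Multiset.card_cons]
      refine Nat.succ_le_succ (ih _ d (fun b hb => hs b (Multiset.mem_cons_of_mem hb))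
        (dvd_mul_right _ Q) hQ (le_antisymm (hQ d) (not_lt.1 fun hlt => ?_)))
      exact (norm_sub_lt_of hlt (hsm _)).ne hd

variable {k : Type*} [Field k] [Algebra k Ω] [IsAlgClosed Ω]

/-- The degree of a small root over a henselian field. -/
theorem natDegree_le {L : IntermediateField k Ω} (hL : IsH L) {z : Ω} {P : Polynomial Ω} {d : ℕ}
    (hP : ∀ i, P.coeff i ∈ L ∧ ‖P.coeff i‖ ≤ 1) (hd : ‖P.coeff d‖ = 1) (hz : ‖z‖ < 1)
    (h0 : P.eval z = 0) (hi : IsAlgebraic L z) : (minpoly L z).natDegree ≤ d := by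
  obtain ⟨Q, rfl⟩ : ∃ Q : Polynomial L, Q.map (algebraMap L Ω) = P :=
    (lifts_iff_coeff_lifts P).2 fun i => ⟨⟨_, (hP i).1⟩, rfl⟩
  rw [eval_map_algebraMap] at h0
  have hsp := IsAlgClosed.splits ((minpoly L z).map (algebraMap L Ω))
  rw [← natDegree_map (algebraMap L Ω), hsp.natDegree_eq_card_roots]
  refine card_le _ _ d (fun a ha => ?_) ?_ (fun i => (hP i).2) hd
  · have h3 := isRoot_of_mem_roots ha
    rw [IsRoot.def, eval_map_algebraMap] at h3
    rwa [hL.root hi h3]
  · rw [← hsp.eq_prod_roots_of_monic ((minpoly.monic hi.isIntegral).map _)]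
    exact Polynomial.map_dvd _ (minpoly.dvd L z h0)

end Deg

variable {k : Type*} {Ω : Type u} [Field k] [NontriviallyNormedField Ω] [Algebra k Ω]
  [IsUltrametricDist Ω] [IsAlgClosed k] [IsAlgClosed Ω] [Ctx k Ω]

theorem deg : DegS k Ω := by
  intro K0 z P d hP hd hz h0
  have ha : IsAlgebraic K0 z := by
    obtain ⟨Q, rfl⟩ : ∃ Q : Polynomial K0, Q.map (algebraMap K0 Ω) = P :=
      (lifts_iff_coeff_lifts P).2 fun i => ⟨⟨_, (hP i).1⟩, rfl⟩
    rw [eval_map_algebraMap] at h0
    exact ⟨Q, by rintro rfl; simp at hd, h0⟩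
  refine ⟨ha, ?_⟩
  have hi : IsAlgebraic (hens K0) z := isAlgebraic_of_le (le_hens K0) ha
  have hfin := adjoin.finiteDimensional hi.isIntegral
  have hH : IsH (hens K0 ⊔ adjoin k {z}) := (isH_hens K0).mono le_sup_left fun a h =>
    (isAlgebraic_algebraMap_iff (A := Ω) Subtype.val_injective).2
      (IsAlgebraic.of_finite (hens K0)
        (⟨a, mem_sup_iff_mem_adjoin.1 h⟩ : adjoin (hens K0) {z}))
  have hle : hens (K0 ⊔ adjoin k {z}) ≤ hens K0 ⊔ adjoin k {z} :=
    hH.hens_le (sup_le_sup_right (le_hens K0) _)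
  have h1 : Submodule.span (hens K0) (hens (K0 ⊔ adjoin k {z}) : Set Ω) ≤
      (adjoin (hens K0) {z}).toSubalgebra.toSubmodule :=
    Submodule.span_le.2 fun a h => mem_sup_iff_mem_adjoin.1 (hle h)
  rw [relrank_eq_rank_span (hens_mono le_sup_left)]
  refine (Submodule.rank_mono h1).trans ?_
  change Module.rank (hens K0) (adjoin (hens K0) {z}) ≤ d
  rw [← Module.finrank_eq_rank, adjoin.finrank hi.isIntegral]
  exact_mod_cast Deg.natDegree_le (isH_hens K0) (fun i => ⟨le_hens K0 (hP i).1, (hP i).2⟩) hd hz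
    h0 hi

end Pool.Agent.MP_19ffc6_ag.LU4
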