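import Pool.Agent.MP_19ffc6_ag.LU4.Spec

/-! Module IND of PROJECT LU4: the induction on the transcendence degree. -/

namespace Pool.Agent.MP_19ffc6_ag.LU4

open IntermediateField Pool.Agent.MP_19ffc6_ag.LU Pool.Agent.MP_19ffc6_ag.LU3 Mv

universe u

variable {k : Type*} {Ω : Type u} [Field k] [NontriviallyNormedField Ω] [Algebra k Ω]

namespace Ind

theorem drop {B F : IntermediateField k Ω} {t : Ω} (hB : B ≤ Pd.acl F) (ht : t ∈ Pd.acl F)
    (h : Transcendental B t) : Algebra.trdeg k B + 1 ≤ Algebra.trdeg k F := by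
  refine le_trans ?_ (Pd.trdeg_le_of_alg (le_refl (Pd.acl F)))
  change _ ≤ Algebra.trdeg k (extendScalars hB)
  have : FaithfulSMul B (extendScalars hB) :=
    (faithfulSMul_iff_algebraMap_injective _ _).2 (algebraMap B _).injective
  have : Algebra.Transcendental B (extendScalars hB) :=
    ⟨⟨t, ht⟩, fun a => h (a.algHom (extendScalars hB).val)⟩
  rw [← trdeg_add_eq k B (A := extendScalars hB)]
  exact add_le_add_right (Cardinal.one_le_iff_pos.2 (trdeg_pos _ _)) _

theorem move {F : IntermediateField k Ω} (hF : QFull F) {r : ℕ} {x : Fin r → Ω}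
    (h0 : ∀ i, x i ≠ 0) (hx : LinearIndependent ℤ fun i => nu (x i)) :
    ∃ b : Fin r → Ω, (∀ i, b i ∈ F ∧ b i ≠ 0) ∧ LinearIndependent ℤ fun i => nu (b i) := by
  have h1 : ∀ i, ∃ d : ℕ, 0 < d ∧ ∃ b ∈ F, b ≠ 0 ∧ nu b = d * nu (x i) := fun i => by
    obtain ⟨d, hd, h⟩ := exists_mul_mem_closure (hF _ (h0 i))
    rw [AddSubgroup.closure_eq] at h
    exact ⟨d, hd, h⟩
  choose d hd b hb hb0 e using h1
  refine ⟨b, fun i => ⟨hb i, hb0 i⟩, Fintype.linearIndependent_iff.2 fun g hg i => ?_⟩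
  have h2 := Fintype.linearIndependent_iff.1 hx (fun i => g i * d i) (by
    rw [← hg]
    refine Finset.sum_congr rfl fun j _ => ?_
    simp only [e, zsmul_eq_mul]
    push_cast
    ring) i
  exact (mul_eq_zero.1 h2).resolve_right (by exact_mod_cast (hd i).ne')

end Ind

theorem ind4 [IsUltrametricDist Ω] [IsAlgClosed k] [IsAlgClosed Ω] [Ctx k Ω] (p : ℕ)
    [Fact p.Prime] (hP : ∀ n, PfStmt k Ω n) (hR : RulStmt k Ω) (hT : TameS k Ω p)
    (hM : MonoS k Ω) : IndS k Ω := by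
  intro r x h0 hx hr
  have hp : (1 : Cardinal.{u}) < p := by exact_mod_cast (Fact.out : p.Prime).one_lt
  have tm : ∀ K0 K : IntermediateField k Ω, K0.FG → K.FG → K0 ≤ hens K → K ≤ hens K0 →
      SG k K0 → SG k K := fun K0 K h1 h2 h3 h4 =>
    hT K0 K h1 h2 h3 (by rwa [relrank_eq_one_iff.2 (hens_le_hens h4)])
  suffices h : ∀ d, d ≤ r + 2 → IHF k Ω d from h _ le_rfl
  intro d
  induction d using Nat.strong_induction_on with
  | _ d ih =>
    intro hd F hF hn hq
    obtain ⟨b, hb, hbi⟩ := Ind.move hq h0 hx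
    rcases hR F hF hq r b hb hbi hr (hn.trans (by exact_mod_cast hd)) with
      ⟨m, y, y0, yi, y1, y2⟩ | ⟨B, t, b1, b2, b3, b4, b5⟩
    · exact tm _ F (fg_adjoin_of_finite (Set.finite_range y)) hF y1 y2
        (hM m y (ind _ y y0 yi) yi)
    · have h1 := b4.trans (Pd.hens_le_acl F)
      have h2 := (Ind.drop (le_sup_left.trans h1) (h1 (Pd.self_mem B t)) b3).trans hn
      obtain ⟨e, he⟩ := Cardinal.lt_aleph0.1
        ((le_self_add.trans h2).trans_lt Cardinal.natCast_lt_aleph0)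
      rw [he] at h2
      have h3 : e + 1 ≤ d := by exact_mod_cast h2
      exact tm _ F (fg_sup b1 (fg_adjoin_of_finite (Set.finite_singleton t))) hF b4 b5
        (hP e (ih e h3 (by omega)) B t b1 he.le b3 b2)

end Pool.Agent.MP_19ffc6_ag.LU4
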