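import Pool.Agent.MP_19ffc6_ag.LU4.Spec

/-! PROJECT LU4: transport of the structure of the henselization. -/

namespace Pool.Agent.MP_19ffc6_ag.LU4

open Polynomial IntermediateField Pool.Agent.MP_19ffc6_ag.LU Pool.Agent.MP_19ffc6_ag.LU3

universe u

namespace RulT

theorem big {k : Type*} {Ω : Type u} [Field k] [NontriviallyNormedField Ω] [Algebra k Ω]
    {F : IntermediateField k Ω} {a : Ω} (ha : a ∈ F) (h0 : a ≠ 0) (h1 : nu a ≠ 0) :
    ∃ m ∈ F, 1 < ‖m‖ := by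
  have h2 : ‖a‖ ≠ 1 := fun e => h1 (by simp [nu, e])
  rcases h2.lt_or_gt with c | c
  · exact ⟨a⁻¹, inv_mem ha, by rw [norm_inv]; exact (one_lt_inv₀ (norm_pos_iff.2 h0)).2 c⟩
  · exact ⟨a, ha, c⟩

end RulT

theorem rulT {k : Type*} {Ω : Type u} [Field k] [NontriviallyNormedField Ω] [Algebra k Ω]
    [IsUltrametricDist Ω] [IsAlgClosed k] [IsAlgClosed Ω] [Ctx k Ω]
    (h : ∀ (W : Type u) [NontriviallyNormedField W] [IsUltrametricDist W] [Algebra k W]
      [IsAlgClosed W] [Ctx k W], RulW k W) : RulStmt k Ω := by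
  classical
  intro K hK hq r x hx hli hr htr
  obtain ⟨m, hm, hm1⟩ := RulT.big (hx ⟨0, by omega⟩).1 (hx ⟨0, by omega⟩).2
    (hli.ne_zero ⟨0, by omega⟩)
  let W := (algebraicClosure K Ω).restrictScalars k
  have hW : ∀ a, a ∈ W ↔ IsAlgebraic K a := fun a => mem_algebraicClosure_iff
  let : NontriviallyNormedField W :=
    { (inferInstance : NormedField W) with non_trivial := ⟨⟨m, (hW m).2 (alg_of_mem hm)⟩, hm1⟩ }
  have : IsAlgClosed W := (algebraicClosure.isAlgClosure K Ω).isAlgClosed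
  have : Ctx k W := ⟨fun c hc => Ctx.norm_alg (Ω := Ω) c hc, fun a ha => Ctx.res (a : Ω) ha⟩
  have h1 := h W
  let j : W →ₐ[k] Ω := W.val
  have hj : ∀ x, ‖j x‖ = ‖x‖ := fun _ => rfl
  obtain ⟨Z, hZ⟩ := hK
  have hKW : ∀ z ∈ K, z ∈ W := fun z hz => (hW z).2 (alg_of_mem hz)
  have hZW : ∀ z ∈ Z, z ∈ W := fun z hz => hKW z (hZ ▸ subset_adjoin _ _ hz)
  let K' : IntermediateField k W := adjoin k (Set.range fun z : Z => (⟨z, hZW z z.2⟩ : W))
  have hK' : K'.map j = K := by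
    rw [adjoin_map, ← Set.range_comp, ← hZ]
    congr 1
    exact Subtype.range_coe
  have halg : Algebra.IsAlgebraic K' W := ⟨fun a => (alg_map_iff j).1 (hK' ▸ (hW _).1 a.2)⟩
  have hn' : Algebra.trdeg k K' ≤ r + 2 := by rwa [(equivMap K' j).trdeg_eq, hK']
  have hx' : ∀ i, (⟨x i, hKW _ (hx i).1⟩ : W) ∈ K' ∧ (⟨x i, hKW _ (hx i).1⟩ : W) ≠ 0 := fun i => by
    refine ⟨?_, fun e => (hx i).2 (congrArg Subtype.val e)⟩
    obtain ⟨b, hb, e⟩ : x i ∈ K'.map j := hK' ▸ (hx i).1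
    have e' : b = ⟨x i, hKW _ (hx i).1⟩ := Subtype.ext e
    exact e' ▸ hb
  have push : ∀ A B : IntermediateField k W, A ≤ hens B → A.map j ≤ hens (B.map j) :=
    fun A B hab => hens_map hj B ▸ map_mono j hab
  rcases h1 K' (fg_adjoin_of_finite (Set.finite_range _)) halg r _ hx' hli hr hn' with
    ⟨n, y, y0, yl, y1, y2⟩ | ⟨B, t, b1, b2, b3, b4, b5⟩
  · have e : (adjoin k (Set.range y)).map j = adjoin k (Set.range fun i => j (y i)) := by
      rw [adjoin_map, ← Set.range_comp]; rfl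
    refine Or.inl ⟨n, fun i => j (y i), fun i => (_root_.map_ne_zero j).2 (y0 i), yl, ?_, ?_⟩
    · rw [← e, ← hK']
      exact push _ _ y1
    · rw [← e, ← hK']
      exact push _ _ y2
  · have e : (B ⊔ adjoin k {t}).map j = B.map j ⊔ adjoin k {j t} := by
      rw [IntermediateField.map_sup, adjoin_map, Set.image_singleton]
    refine Or.inr ⟨B.map j, j t, ?_, fun a ha => ?_, fun c => b3 ((alg_map_iff j).1 c), ?_, ?_⟩
    · obtain ⟨S, rfl⟩ := b1
      rw [adjoin_map]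
      exact fg_adjoin_of_finite (S.finite_toSet.image _)
    · refine Submodule.span_le.2 ?_ (hq a ha)
      rintro _ ⟨b, hb, h0, rfl⟩
      exact qv_map hj B (b2 ⟨b, hKW b hb⟩ fun c => h0 (congrArg Subtype.val c))
    · rw [← e, ← hK']
      exact push _ _ b4
    · rw [← e, ← hK']
      exact push _ _ b5

end Pool.Agent.MP_19ffc6_ag.LU4
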