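import Pool.Agent.MP_19ffc6_ag.LU4.Spec
import Pool.Agent.MP_19ffc6_ag.LU2.All

/-! PROJECT LU4, module RULW: the structure of the henselization. -/

namespace Pool.Agent.MP_19ffc6_ag.LU4

open Polynomial IntermediateField Pool.Agent.MP_19ffc6_ag.LU

universe u

variable {k : Type*} {Ω : Type u} [Field k] [NontriviallyNormedField Ω] [Algebra k Ω]

namespace RulWM

theorem M_eq (s : Stage Ω) : s.M k = adjoin k (s.mon '' s.Λ) ⊔ adjoin k {s.y} := by
  rw [Stage.M, Stage.gens, adjoin_union]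

theorem qfull (s : Stage Ω) {B : IntermediateField k Ω} (h : ∀ α ∈ s.Λ, s.mon α ∈ B) :
    LU3.QFull B := fun a ha => by
  obtain ⟨d, hd, h1⟩ := s.full a ha
  have h2 := LU3.nu_mem_qv (h _ h1)
  rw [s.nu_mon h1] at h2
  exact LU3.mem_of_mul_mem (d := d) (by omega) (by simpa using h2)

theorem basis (s : Stage Ω) : ∃ (m : ℕ) (x : Fin m → Ω), (∀ i, x i ≠ 0) ∧
    LinearIndependent ℤ (fun i => nu (x i)) ∧
    adjoin k (Set.range x) = adjoin k (s.mon '' s.Λ) := by
  obtain ⟨m, b, -⟩ := exists_lattice_basis s.fg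
  refine ⟨m, fun i => s.mon (b i), fun i => s.mon_ne_zero (b i).2, ?_, le_antisymm
    (adjoin.mono _ _ _ (by rintro _ ⟨i, rfl⟩; exact ⟨_, (b i).2, rfl⟩)) (adjoin_le_iff.2 ?_)⟩
  · have e : (fun i => nu (s.mon (b i))) = s.Λ.subtype.toIntLinearMap ∘ b :=
      funext fun i => s.nu_mon (b i).2
    rw [e]
    exact b.linearIndependent.map' _ (LinearMap.ker_eq_bot.2 Subtype.val_injective)
  · rintro _ ⟨α, hα, rfl⟩
    have e : α = ∑ i, ((b.repr ⟨α, hα⟩ i : ℤ) : ℝ) * (b i : ℝ) := by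
      have := congrArg s.Λ.subtype (b.sum_repr ⟨α, hα⟩)
      rw [map_sum] at this
      refine this.symm.trans (Finset.sum_congr rfl fun i _ => ?_)
      rw [map_zsmul, zsmul_eq_mul]
      rfl
    rw [e, s.mon_sum _ _ fun i _ => intCast_mul_mem (b i).2 _]
    refine prod_mem fun i _ => ?_
    rw [s.mon_intCast_mul (b i).2]
    exact zpow_mem (subset_adjoin _ _ (Set.mem_range_self i)) _

theorem rul1 {F : IntermediateField k Ω} (s : Stage Ω) (ha : Algebra.IsAlgebraic (s.M k) Ω)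
    (h1 : s.M k ≤ hens F) (h2 : F ≤ hens (s.M k)) (h : s.y = 0 ∨ NA k Ω) : Rul F := by
  obtain ⟨m, x, x1, x2, x3⟩ := basis (k := k) s
  rcases h with h | h
  · have e : s.M k = adjoin k (Set.range x) := by
      rw [M_eq, x3, h, sup_eq_left, adjoin_le_iff, Set.singleton_subset_iff]
      exact zero_mem _
    exact Or.inl ⟨m, x, x1, x2, e ▸ h1, e ▸ h2⟩
  · exact Or.inr ⟨_, s.y, x3 ▸ fg_adjoin_of_finite (Set.finite_range x),
      qfull s fun α hα => subset_adjoin _ _ (Set.mem_image_of_mem _ hα), h s ha, M_eq (k := k) s ▸ h1,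
      M_eq (k := k) s ▸ h2⟩

theorem rul2 {F : IntermediateField k Ω} (s : LU2.St Ω) (h : LU2.Weak F s) (hna : LU2.NA2 k Ω) :
    Rul F := by
  refine Or.inr ⟨s.toStage.M k, s.z, s.toStage.M_fg k,
    qfull s.toStage fun α hα => s.toStage.mon_mem_M k hα, fun ha => ?_, s.M_eq_sup k ▸ h.2.1,
    s.M_eq_sup k ▸ h.2.2⟩
  refine (hna s h.1).transcendental_adjoin (s := {0}) (i := 1) (by simp) ?_
  rw [← isAlgebraic_adjoin_iff, Set.image_singleton]
  rw [M_eq, ← restrictScalars_adjoin_eq_sup] at ha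
  exact ha

variable [IsUltrametricDist Ω] [IsAlgClosed k] [IsAlgClosed Ω] [Ctx k Ω]

theorem weak1 (p : ℕ) [Fact p.Prime] [CharP k p] [CharP Ω p] (F : IntermediateField k Ω)
    (hF : F.FG) (halg : Algebra.IsAlgebraic F Ω) (r : ℕ)
    (x : Fin r → Ω) (hx : ∀ i, x i ∈ F ∧ x i ≠ 0) (hind : LinearIndependent ℤ fun i => nu (x i))
    (htr : Algebra.trdeg k F ≤ r + 1) : Rul F := by
  have hb' : HB k Ω p := hb
  have hh : HensStmt k Ω := hens_isHens
  have hle : LeStmt k Ω p := le_props hb'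
  have hen : LU.EngineStmt k Ω p := engine (chain p) clean hle trans
  have hmon : MonStmt k Ω := mon_props p hle hen
  have hl : LineStmt k Ω p := lines hb' hh
  have hd : DStmt k Ω := lemD hb'
  have hs : SepStmt k Ω := sep_crit
  obtain ⟨s0, h1, h2, h3⟩ := init p hs F hF halg r x hx hind htr
  have haE : Algebra.IsAlgebraic (hens F) Ω := alg_hens halg
  have hE : IsHens (hens F) := hh F halg
  have ha0 : Algebra.IsAlgebraic (s0.M k) Ω := alg_of_sepOver h1 h2 halg
  have hfin0 : relrank (hens (s0.M k)) (hens F) < Cardinal.aleph0 := by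
    refine (Main.relrank_le_of_le_right (hens_mono h1) ?_).trans_lt
      (Main.relrank_sup_lt_aleph0 (alg_hens ha0) hF)
    exact hb'.hens_le _ (alg_of_le le_sup_right halg) ((hh _ ha0).mono le_sup_left) _ le_sup_right
  let S : Set Cardinal := {c | ∃ s : Stage Ω, s.M k ≤ hens F ∧ SepOver (s.M k) (hens F) ∧
    (s0.y = 0 → s.y = 0) ∧ c = relrank (hens (s.M k)) (hens F)}
  have hS0 : relrank (hens (s0.M k)) (hens F) ∈ S :=
    ⟨s0, h1.trans (le_hens F), h2.trans h1 (sepOver_hens F), id, rfl⟩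
  obtain ⟨c, ⟨s, g1, g2, g3, rfl⟩, hmin⟩ := wellFounded_lt.has_min S ⟨_, hS0⟩
  have hfin : relrank (hens (s.M k)) (hens F) < Cardinal.aleph0 :=
    (not_lt.1 (hmin _ hS0)).trans_lt hfin0
  refine rul1 s (alg_of_sepOver g1 g2 haE) g1 ((le_hens F).trans ?_) (h3.imp_left g3)
  by_contra hne
  obtain ⟨s', f1, f2, f3, f4⟩ := step_of hb' hh hle (gal hb')
    (wild hb' hh hle hen hmon hl (deg_bound hb')) (termA hb' hh ext hd hs) (termB hb' hh hd hs)
    (down hb' hh hl) haE hE s g1 g2 hfin hne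
  exact hmin _ ⟨s', f1, f2, fun h => f3 (g3 h), rfl⟩ f4

end RulWM

variable [IsUltrametricDist Ω] [IsAlgClosed k] [IsAlgClosed Ω] [Ctx k Ω]

open Pool.Agent.MP_19ffc6_ag.LU2 in
theorem rulW (p : ℕ) [Fact p.Prime] [CharP k p] : RulW k Ω := by
  have : CharP Ω p := charP_of_injective_algebraMap (algebraMap k Ω).injective p
  have ho : OrdStmt k p := ord
  have hl : LucStmt k p := luc
  have hsh : ShStmt k p := sh
  have hshs : ShsStmt k p := shs
  have hs' : HS k Ω := hs p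
  have hr : RS k Ω p := rs hs'
  have hi : IsoStmt k Ω p := iso hr
  have hi2 : Init2Stmt k Ω p := init2 hs' hr hi
  have hap : AprStmt k Ω p := apr hs'
  have hrho : RhoStmt k Ω p := rho ho hr hi
  have hn : NfdStmt k Ω p := nfd hs' hr
  have hmv : MoveStmt k Ω p := move hshs sc (solve hshs) (prep hl hshs)
    (step2 hl (bound ho hl) (arith p) face) hap hrho (exc hr hi) hn (real2 hs' hr hsh)
  have he : LU2.EngineStmt k Ω p :=
    engine2 (start hs' hr hn) hmv (run conv hap) (lowb hsh hr hi hrho (x0 hr))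
  have hpe : PertStmt k Ω := pert p hs'
  have hm : Mon2Stmt k Ω := mon2 p hs' hr hi2 he (lin hr)
  have hpi : PIStmt k Ω p := pi2 hs' derEx hm hi2 he (term2 hs' hr hpe)
  intro F hF halg r x hx hind hr2 htr
  rcases initK F hF halg r x hx hind hr2 htr with ⟨r', x', h1, h2, h3⟩ | ⟨hna, s, h1, h2⟩
  · exact RulWM.weak1 p F hF halg r' x' h1 h2 h3
  obtain ⟨K', N, s1, g1, g2, g3, g4⟩ := rOf (p := p) rel (low p) F s hF h2 h1
  obtain ⟨s2, g5⟩ := tower hpi hna F K' N s1 hF g1 g2 g3 g4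
  exact RulWM.rul2 s2 g5 hna

end Pool.Agent.MP_19ffc6_ag.LU4
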