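import Pool.Agent.MP_19ffc6_ag.LU4.Spec

/-! PROJECT LU4, module CORE: the theorem inside the big field. -/

namespace Pool.Agent.MP_19ffc6_ag.LU4

open Polynomial IntermediateField Pool.Agent.MP_19ffc6_ag.LU Pool.Agent.MP_19ffc6_ag.LU3

universe u

variable {k : Type*} {Ω : Type u} [Field k] [NontriviallyNormedField Ω] [Algebra k Ω]

namespace CoreL

open Pd

theorem trdeg_sup_le (E : IntermediateField k Ω) (y : Ω) :
    Algebra.trdeg k ↥(E ⊔ adjoin k {y}) ≤ Algebra.trdeg k E + 1 := by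
  rw [← restrictScalars_adjoin_eq_sup]
  change Algebra.trdeg k (adjoin E {y}) ≤ _
  have : FaithfulSMul E (adjoin E {y}) :=
    (faithfulSMul_iff_algebraMap_injective _ _).2 (algebraMap E _).injective
  have h := trdeg_adjoin_le (k := E) fun _ : Unit => y
  rw [Set.range_const] at h
  rw [← trdeg_add_eq k E (A := adjoin E {y})]
  exact add_le_add le_rfl (by simpa using h)

theorem trdeg_sup_alg {E : IntermediateField k Ω} {y : Ω} (h : IsAlgebraic E y) :
    Algebra.trdeg k ↥(E ⊔ adjoin k {y}) ≤ Algebra.trdeg k E :=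
  trdeg_le_of_alg (sup_le (le_acl E) (simple_le (mem_acl.2 h)))

theorem fg_adj {E : IntermediateField k Ω} (h : E.FG) (y : Ω) : (E ⊔ adjoin k {y}).FG := by
  classical
  obtain ⟨Z, hZ⟩ := h
  exact ⟨insert y Z, adjoin_insert hZ y⟩

theorem indep_cons {E : IntermediateField k Ω} {r : ℕ} {x : Fin r → Ω} (hx : ∀ i, x i ∈ E)
    (hli : LinearIndependent ℤ fun i => nu (x i)) {b : Ω} (hb : nu b ∉ qv E) :
    LinearIndependent ℤ fun i => nu ((Fin.cons b x : Fin (r + 1) → Ω) i) := by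
  have h1 : (fun i => nu ((Fin.cons b x : Fin (r + 1) → Ω) i)) =
      (Fin.cons (nu b) fun i => nu (x i) : Fin (r + 1) → ℝ) := by
    funext i
    refine Fin.cases ?_ (fun j => ?_) i <;> simp
  rw [h1]
  refine LinearIndependent.finCons' _ _ hli fun c w hw h => by_contra fun hc => hb ?_
  have h2 : w ∈ qv E := by
    refine Submodule.span_induction (fun _ h => ?_) (zero_mem _) (fun _ _ _ _ => add_mem)
      (fun n _ _ h => ?_) hw
    · obtain ⟨i, rfl⟩ := h
      exact nu_mem_qv (hx i)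
    · simpa using int_mul_mem n h
  refine mem_of_mul_mem hc ?_
  rw [zsmul_eq_mul] at h
  rw [eq_neg_of_add_eq_zero_left h]
  exact neg_mem h2

end CoreL

open CoreL

/-- The general form: `K` is algebraic over `E(y)` and inherits charts from it. -/
theorem coreG [IsUltrametricDist Ω] {p : ℕ} (hP : ∀ n, PfStmt k Ω n) (hI : IndS k Ω)
    (h3 : 7 ≤ p → IH k Ω 3) (hF : FinS k Ω) (h2 : TwoS k Ω) (E K : IntermediateField k Ω) (y : Ω)
    (r : ℕ) (x : Fin r → Ω) (hE : E.FG) (hKf : K.FG) (hle : E ⊔ adjoin k {y} ≤ K)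
    (ha0 : ∀ a ∈ K, IsAlgebraic ↥(E ⊔ adjoin k {y}) a) (halg : Algebra.IsAlgebraic K Ω)
    (hS : Mv.SG k (E ⊔ adjoin k {y}) → Mv.SG k K) (hx : ∀ i, x i ∈ E ∧ x i ≠ 0)
    (hli : LinearIndependent ℤ fun i => nu (x i)) (htr : Algebra.trdeg k E ≤ r + 2)
    (hr : 2 ≤ r ∨ 7 ≤ p) :
    ∀ Z : Finset Ω, (∀ a ∈ Z, a ∈ K ∧ ‖a‖ ≤ 1) → ∃ A, Model K Z A := by
  have t1 : Algebra.trdeg k K ≤ Algebra.trdeg k ↥(E ⊔ adjoin k {y}) :=
    Pd.trdeg_le_of_alg fun a ha => Pd.mem_acl.2 (ha0 a ha)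
  have t2 : Algebra.trdeg k K ≤ (r + 1 : ℕ) + 2 := by
    refine t1.trans ((trdeg_sup_le E y).trans ((add_le_add htr le_rfl).trans (le_of_eq ?_)))
    push_cast
    ring
  have htr' : Algebra.trdeg k E ≤ (r + 2 : ℕ) := by exact_mod_cast htr
  by_cases hq : QFull E
  · have H : IHF k Ω (r + 2) := by
      by_cases h : 2 ≤ r
      · exact hI r x (fun i => (hx i).2) hli h
      · exact fun F hF' ht _ => h3 (hr.resolve_left h) F hF'
          (ht.trans (Nat.cast_le.2 (by omega)))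
    refine hF K hKf ?_
    by_cases hy : IsAlgebraic E y
    · exact H K hKf (t1.trans ((trdeg_sup_alg hy).trans htr'))
        fun a ha => qv_mono (le_sup_left.trans hle) (hq a ha)
    · exact hS (hP _ H E y hE htr' hy hq)
  · rcases Nat.eq_zero_or_pos r with rfl | hr0
    · refine hF K hKf (h3 (hr.resolve_left (by omega)) K hKf (t2.trans (le_of_eq ?_)))
      norm_cast
    simp only [QFull, not_forall] at hq
    obtain ⟨a, ha, hna⟩ := hq
    obtain ⟨e, he, b, hb, hb0, h1⟩ := exists_mul_nu_mem (halg.1 a) ha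
    refine h2 K hKf halg (r + 1) (Fin.cons b x) (fun i => ?_)
      (indep_cons (fun i => (hx i).1) hli fun h => hna ?_) (by omega) t2
    · exact Fin.cases ⟨hb, hb0⟩ (fun j => ⟨hle ((le_sup_left : E ≤ _) (hx j).1), (hx j).2⟩) i
    · exact mem_of_mul_mem (d := e) (by omega) (by simpa [← h1] using h)

theorem core4 [IsUltrametricDist Ω] [IsAlgClosed k] [IsAlgClosed Ω] [Ctx k Ω] (p : ℕ)
    [Fact p.Prime] (hP : ∀ n, PfStmt k Ω n) (hI : IndS k Ω) (h3 : 7 ≤ p → IH k Ω 3)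
    (hT : TameS k Ω p) (hD : DegS k Ω) (hF : FinS k Ω) (h2 : TwoS k Ω) : CoreS k Ω p := by
  intro E K y z P d r x hE hK halg hco hd hz hP0 hdp hx hli htr hr
  obtain ⟨hza, hrk⟩ := hD _ z P d hco hd hz hP0
  have hK0 := fg_adj hE y
  subst hK
  exact coreG hP hI h3 hF h2 E _ y r x hE (fg_adj hK0 z) le_sup_left
    (fun a ha => Pd.mem_acl.1 (sup_le (Pd.le_acl _) (Pd.simple_le (Pd.mem_acl.2 hza)) ha)) halg
    (hT _ _ hK0 (fg_adj hK0 z) (le_sup_left.trans (le_hens _))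
      (hrk.trans_lt (Nat.cast_lt.2 hdp))) hx hli htr hr

end Pool.Agent.MP_19ffc6_ag.LU4
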