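import Pool.Agent.MP_19ffc6_ag.LU3.MainA
import Pool.Agent.MP_19ffc6_ag.LU4.Core

/-! PROJECT LU4, module TOW: the inductive statement goes up along towers of radical extensions
of exponent prime to `p` and of extensions of Weierstrass degree less than `p`. -/

namespace Pool.Agent.MP_19ffc6_ag.LU4

open Polynomial IntermediateField Pool.Agent.MP_19ffc6_ag.LU Pool.Agent.MP_19ffc6_ag.LU3
open Pool.Agent.MP_19ffc6_ag.LU3.Mv Pool.Agent.MP_19ffc6_ag.LU3.Pd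

universe u

variable {k : Type*} {Ω : Type u} [Field k] [NontriviallyNormedField Ω] [Algebra k Ω]

/-- One tame step. -/
def Stp (p : ℕ) (A B : IntermediateField k Ω) : Prop :=
  ∃ z : Ω, B = A ⊔ adjoin k {z} ∧ ((∃ a : ℕ, ¬ p ∣ a ∧ z ^ a ∈ A) ∨
    (‖z‖ < 1 ∧ ∃ (P : Polynomial Ω) (d : ℕ), d < p ∧ (∀ i, P.coeff i ∈ A ∧ ‖P.coeff i‖ ≤ 1) ∧
      ‖P.coeff d‖ = 1 ∧ P.eval z = 0))

variable (k Ω) in
/-- The theorem inside `Ω` for towers. -/
def CoreT (p : ℕ) : Prop :=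
  ∀ (E K : IntermediateField k Ω) (y : Ω) (r : ℕ) (x : Fin r → Ω), E.FG →
    Relation.ReflTransGen (Stp p) (E ⊔ adjoin k {y}) K → Algebra.IsAlgebraic K Ω →
    (∀ i, x i ∈ E ∧ x i ≠ 0) → LinearIndependent ℤ (fun i => nu (x i)) →
    Algebra.trdeg k E ≤ r + 2 → 2 ≤ r ∨ 7 ≤ p →
    ∀ Z : Finset Ω, (∀ a ∈ Z, a ∈ K ∧ ‖a‖ ≤ 1) → ∃ A, Model K Z A

namespace Tow

variable [IsUltrametricDist Ω] [Ctx k Ω] [IsAlgClosed Ω] [IsAlgClosed k] {p : ℕ} [Fact p.Prime]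
  [CharP k p]

omit [Fact p.Prime] in
/-- Ascent along an extension whose henselization is spanned by radicals. -/
theorem tame_bas (hA : AscStmt k Ω) (hD : LU3.DescStmt k Ω)
    (K0 K : IntermediateField k Ω) (h0 : K0.FG) (hK : K.FG) (hle : K0 ≤ hens K)
    {N : ℕ} {α : Type} [Fintype α] (ρ : α → Ω) (hN : ¬ p ∣ N)
    (h1 : ∀ i, ρ i ∈ hens K ∧ ρ i ≠ 0 ∧ ρ i ^ N ∈ K0)
    (h2 : ∀ i j, ∀ b ∈ hens K0, ‖ρ i‖ = ‖b‖ * ‖ρ j‖ → i = j)
    (h3 : ∀ a ∈ hens K, a ∈ Submodule.span (hens K0) (Set.range ρ))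
    (hs : SG k K0) : SG k K := by
  classical
  obtain ⟨Z0, hZ0⟩ := h0
  set K2 := K ⊔ (K0 ⊔ adjoin k (Set.range ρ)) with hK2
  have hρ2 : ∀ j, ρ j ∈ K2 := fun j =>
    (le_sup_right.trans le_sup_right : adjoin k (Set.range ρ) ≤ K2) (subset_adjoin _ _ ⟨j, rfl⟩)
  have h02 : K0 ≤ K2 := le_sup_left.trans le_sup_right
  have h2K : K2 ≤ hens K := sup_le (le_hens K)
    (sup_le hle (adjoin_le_iff.2 (Set.range_subset_iff.2 fun j => (h1 j).1)))
  refine hD K K2 le_sup_left h2K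
    (fg_sup hK (fg_sup ⟨Z0, hZ0⟩ (fg_adjoin_of_finite (Set.finite_range ρ))))
    (sg_of (Z0 ∪ Finset.univ.image ρ) (fun z hz => ?_) fun W hW => ?_)
  · rcases Finset.mem_union.1 hz with hz | hz
    · exact h02 (hZ0 ▸ subset_adjoin _ _ hz)
    · obtain ⟨j, -, rfl⟩ := Finset.mem_image.1 hz
      exact hρ2 j
  choose! c hc using fun w (hw : w ∈ W) =>
    (Submodule.mem_span_range_iff_exists_fun _).1 (h3 w (h2K (hW w hw).1))
  obtain ⟨ι, _, ξ, I, g1, g2, g3, g4⟩ := hA K0 hs Z0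
    (((W ×ˢ Finset.univ).image fun x : Ω × α => (c x.1 x.2 : Ω)).erase 0 ∪
      Finset.univ.image fun j => ρ j ^ N) hZ0 (by
      intro w hw
      rcases Finset.mem_union.1 hw with hw | hw
      · obtain ⟨x, -, rfl⟩ := Finset.mem_image.1 (Finset.mem_erase.1 hw).2
        exact ⟨(c x.1 x.2).2, (Finset.mem_erase.1 hw).1⟩
      · obtain ⟨j, -, rfl⟩ := Finset.mem_image.1 hw
        exact ⟨le_hens _ (h1 j).2.2, pow_ne_zero _ (h1 j).2.1⟩)
  obtain ⟨ξ1, a1, a2, a3, a4, a5⟩ := gd_rad g1 hN ρ fun j =>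
    g3 _ (Finset.mem_union_right _ (Finset.mem_image_of_mem _ (Finset.mem_univ j)))
  obtain ⟨ξ2, b1, b2, b3, b4, b5⟩ := gd_sum a1 W (fun w j => (c w j : Ω) * ρ j) fun w hw => by
    refine ⟨(hW w hw).2, (hc w hw).symm, fun j hj => ?_, fun i j hi hij => ?_⟩
    · refine ((g3 _ (Finset.mem_union_left _ (Finset.mem_erase.2 ⟨left_ne_zero_of_mul hj,
        Finset.mem_image_of_mem _ (a := (w, j))
          (Finset.mem_product.2 ⟨hw, Finset.mem_univ _⟩)⟩))).mono a1 a2).mul a1 (a3 j)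
    · refine h2 i j (c w j / c w i : Ω) (div_mem (c w j).2 (c w i).2) ?_
      rw [norm_mul, norm_mul] at hij
      rw [norm_div, div_mul_eq_mul_div, ← hij,
        mul_div_cancel_left₀ _ (norm_ne_zero_iff.2 (left_ne_zero_of_mul hi))]
  refine ⟨ι, inferInstance, ξ2, I, b1, fun i => ?_, b5, Sp.gn a1 b1 b2 (fun C hC hZ => ?_) b3⟩
  · refine (b4.trans_le (adjoin_le_iff.2 (Set.range_subset_iff.2 ?_))) (subset_adjoin _ _ ⟨i, rfl⟩)
    exact a5 _ (isH_hens K2) (fun i => hens_le_hens (h02.trans (le_hens _)) (g2 i))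
      fun j => le_hens _ (hρ2 j)
  · refine a4 C hC (Set.union_subset (Set.range_subset_iff.2
      (g4 C (hC.mono g1 a1 a2) fun z hz => hZ (Or.inl ?_))) ?_)
    · exact Finset.mem_union_left _ hz
    · rintro _ ⟨j, rfl⟩
      exact hZ (Or.inl (Finset.mem_union_right _ (Finset.mem_image_of_mem _ (Finset.mem_univ j))))

omit [IsAlgClosed k] [Fact p.Prime] in
/-- The least power of a radical whose norm is a norm of the henselization lies in it. -/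
theorem exists_pow (K0 : IntermediateField k Ω) {z : Ω} (hz : z ≠ 0) {a : ℕ} (ha : ¬ p ∣ a)
    (h : z ^ a ∈ K0) : ∃ e : ℕ, 0 < e ∧ z ^ e ∈ hens K0 ∧
      ∀ n : ℕ, 0 < n → n < e → ∀ b ∈ hens K0, ‖z‖ ^ n ≠ ‖b‖ := by
  classical
  have ha0 : 0 < a := Nat.pos_of_ne_zero (by rintro rfl; exact ha (dvd_zero p))
  have hex : ∃ n : ℕ, 0 < n ∧ ∃ b ∈ hens K0, ‖z‖ ^ n = ‖b‖ :=
    ⟨a, ha0, z ^ a, le_hens _ h, (norm_pow _ _).symm⟩
  obtain ⟨he0, b, hb, hbe⟩ := Nat.find_spec hex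
  have hmin : ∀ n : ℕ, 0 < n → n < Nat.find hex → ∀ b ∈ hens K0, ‖z‖ ^ n ≠ ‖b‖ :=
    fun n h0 hn b hb h => Nat.find_min hex hn ⟨h0, b, hb, h⟩
  generalize Nat.find hex = e at he0 hbe hmin
  have hz' : ‖z‖ ≠ 0 := norm_ne_zero_iff.2 hz
  have hb0 : ‖b‖ ≠ 0 := hbe ▸ pow_ne_zero _ hz'
  have hd : a % e = 0 := by
    by_contra h1
    refine hmin _ (Nat.pos_of_ne_zero h1) (Nat.mod_lt _ he0) (z ^ a / b ^ (a / e))
      (div_mem (le_hens _ h) (pow_mem hb _)) ?_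
    rw [norm_div, norm_pow, norm_pow, ← hbe, ← pow_mul, eq_div_iff (pow_ne_zero _ hz'), ← pow_add,
      Nat.mod_add_div]
  obtain ⟨q, rfl⟩ := Nat.dvd_of_mod_eq_zero hd
  have hu : z ^ e / b ∈ hens K0 := (isH_hens K0).rad (p := p) (n := q)
    (fun h1 => ha (h1.mul_left e))
    (by rw [div_pow, ← pow_mul]; exact div_mem (le_hens _ h) (pow_mem hb _))
    (by rw [norm_div, norm_pow, hbe, div_self hb0])
  refine ⟨e, he0, ?_, hmin⟩
  have := mul_mem hu hb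
  rwa [div_mul_cancel₀ _ (norm_ne_zero_iff.1 hb0)] at this

omit [IsUltrametricDist Ω] [Ctx k Ω] [IsAlgClosed Ω] [IsAlgClosed k] in
theorem alg_of_pow {K0 : IntermediateField k Ω} {z : Ω} {a : ℕ} (ha : 0 < a) (h : z ^ a ∈ K0) :
    IsAlgebraic K0 z := IsAlgebraic.of_pow ha (alg_of_mem h)

omit [Fact p.Prime] in
/-- Ascent along a radical extension of exponent prime to `p`. -/
theorem kummer (hA : AscStmt k Ω) (hD : LU3.DescStmt k Ω) (K0 : IntermediateField k Ω)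
    (h0 : K0.FG) {z : Ω} {a : ℕ} (ha : ¬ p ∣ a) (h : z ^ a ∈ K0) (hs : SG k K0) :
    SG k (K0 ⊔ adjoin k {z}) := by
  by_cases hz : z = 0
  · rwa [sup_eq_left.2 (simple_le (hz ▸ zero_mem K0))]
  obtain ⟨e, he0, he, hmin⟩ := exists_pow K0 hz ha h
  have hz' : ‖z‖ ≠ 0 := norm_ne_zero_iff.2 hz
  have hlt : ∀ i j : Fin e, (j : ℕ) < i → ∀ b ∈ hens K0, ‖z ^ (i : ℕ)‖ ≠ ‖b‖ * ‖z ^ (j : ℕ)‖ :=
    fun i j hij b hb h1 => hmin (i - j) (by omega) (by omega) b hb (by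
      rw [norm_pow, norm_pow] at h1
      rw [pow_sub₀ _ hz' hij.le, h1, mul_inv_cancel_right₀ (pow_ne_zero _ hz')])
  refine tame_bas hA hD K0 _ h0 (fg_sup h0 (fg_adjoin_of_finite (Set.finite_singleton z)))
    (le_sup_left.trans (le_hens _)) (fun i : Fin e => z ^ (i : ℕ)) ha
    (fun i => ⟨le_hens _ (pow_mem (self_mem K0 z) _), pow_ne_zero _ hz, by
      rw [← pow_mul, mul_comm, pow_mul]; exact pow_mem h _⟩) (fun i j b hb h1 => ?_)
    (fun w hw => ?_) hs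
  · rcases lt_trichotomy (i : ℕ) j with h2 | h2 | h2
    · have hb0 : ‖b‖ ≠ 0 := fun h3 =>
        pow_ne_zero _ hz (norm_eq_zero.1 (by rw [h1, h3, zero_mul]))
      exact absurd (by rw [h1, norm_inv, inv_mul_cancel_left₀ hb0])
        (hlt j i h2 b⁻¹ (inv_mem hb))
    · exact Fin.ext h2
    · exact absurd h1 (hlt i j h2 b hb)
  have hza : IsAlgebraic (hens K0) z := alg_of_pow he0 he
  let K' : IntermediateField k Ω := (adjoin (hens K0) {z}).restrictScalars k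
  have hL : hens K0 ≤ K' := fun x hx =>
    (adjoin (hens K0) {z}).algebraMap_mem (⟨x, hx⟩ : hens K0)
  have hK' : IsH K' := (isH_hens K0).mono hL fun x hx =>
    isAlgebraic_iff.1 ((isAlgebraic_adjoin_simple hza.isIntegral).isAlgebraic ⟨x, hx⟩)
  have h1 : w ∈ adjoin (hens K0) {z} := hK'.hens_le (sup_le ((le_hens K0).trans hL)
    (simple_le (mem_adjoin_simple_self (hens K0) z))) hw
  rw [← mem_toSubalgebra, adjoin_simple_toSubalgebra_of_isAlgebraic hza,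
    ← Subalgebra.mem_toSubmodule, Algebra.adjoin_eq_span] at h1
  refine Submodule.span_le.2 (fun x hx => ?_) h1
  obtain ⟨n, rfl⟩ := Submonoid.mem_closure_singleton.1 hx
  have h2 := (Submodule.span (hens K0) (Set.range fun i : Fin e => z ^ (i : ℕ))).smul_mem
    (⟨_, pow_mem he (n / e)⟩ : hens K0) (Submodule.subset_span ⟨⟨n % e, Nat.mod_lt _ he0⟩, rfl⟩)
  change (z ^ e) ^ (n / e) * z ^ (n % e) ∈ _ at h2
  rwa [← pow_mul, ← pow_add, Nat.div_add_mod] at h2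

/-- One step. -/
theorem stp (hA : AscStmt k Ω) (hD : LU3.DescStmt k Ω) (hd : DegS k Ω)
    {A B : IntermediateField k Ω} (h : Stp p A B) (h0 : A.FG) :
    B.FG ∧ A ≤ B ∧ B ≤ acl A ∧ (SG k A → SG k B) := by
  obtain ⟨z, rfl, h⟩ := h
  have hB : (A ⊔ adjoin k {z}).FG := fg_sup h0 (fg_adjoin_of_finite (Set.finite_singleton z))
  rcases h with ⟨a, ha, h⟩ | ⟨hz, P, d, hdp, h1, h2, h3⟩
  · exact ⟨hB, le_sup_left, sup_le (le_acl A) (simple_le (mem_acl.2 (alg_of_pow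
      (Nat.pos_of_ne_zero (by rintro rfl; exact ha (dvd_zero p))) h))), kummer hA hD A h0 ha h⟩
  · obtain ⟨g1, g2⟩ := hd A z P d h1 h2 hz h3
    exact ⟨hB, le_sup_left, sup_le (le_acl A) (simple_le (mem_acl.2 g1)),
      tame_of (p := p) hA hD A _ h0 hB (le_sup_left.trans (le_hens _))
        (g2.trans_lt (by exact_mod_cast hdp))⟩

/-- A tower of steps. -/
theorem tower (hA : AscStmt k Ω) (hD : LU3.DescStmt k Ω) (hd : DegS k Ω)
    {A B : IntermediateField k Ω} (h : Relation.ReflTransGen (Stp p) A B) (h0 : A.FG) :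
    B.FG ∧ A ≤ B ∧ B ≤ acl A ∧ (SG k A → SG k B) := by
  induction h with
  | refl => exact ⟨h0, le_rfl, le_acl A, id⟩
  | tail _ h ih =>
    obtain ⟨a1, a2, a3, a4⟩ := ih
    obtain ⟨b1, b2, b3, b4⟩ := stp hA hD hd h a1
    exact ⟨b1, a2.trans b2, fun x hx => mem_acl_of_alg a3 (mem_acl.1 (b3 hx)), b4 ∘ a4⟩

end Tow

theorem coreT [IsUltrametricDist Ω] [Ctx k Ω] [IsAlgClosed Ω] [IsAlgClosed k] (p : ℕ)
    [Fact p.Prime] [CharP k p] (hA : AscStmt k Ω) (hD : LU3.DescStmt k Ω) (hd : DegS k Ω)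
    (hP : ∀ n, PfStmt k Ω n) (hI : IndS k Ω) (h3 : 7 ≤ p → IH k Ω 3) (hF : FinS k Ω)
    (h2 : TwoS k Ω) : CoreT k Ω p := by
  intro E K y r x hE h halg
  obtain ⟨a1, a2, a3, a4⟩ := Tow.tower hA hD hd h
    (fg_sup hE (fg_adjoin_of_finite (Set.finite_singleton y)))
  exact coreG hP hI h3 hF h2 E K y r x hE a1 a2 (fun a ha => mem_acl.1 (a3 ha)) halg a4

end Pool.Agent.MP_19ffc6_ag.LU4
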