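import Pool.Agent.MP_19ffc6_ag.LU4.Pf
import Pool.Agent.MP_19ffc6_ag.LU4.Deg
import Pool.Agent.MP_19ffc6_ag.LU4.Ind
import Pool.Agent.MP_19ffc6_ag.LU4.RulT
import Pool.Agent.MP_19ffc6_ag.LU4.RulW
import Pool.Agent.MP_19ffc6_ag.LU4.Tow

/-! PROJECT LU4, module ALL: the modules put together. -/

namespace Pool.Agent.MP_19ffc6_ag.LU4

open Pool.Agent.MP_19ffc6_ag.LU Pool.Agent.MP_19ffc6_ag.LU3

universe u

variable {k : Type*} {Ω : Type u} [Field k] [NontriviallyNormedField Ω] [Algebra k Ω]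
  [IsUltrametricDist Ω] [IsAlgClosed k] [IsAlgClosed Ω] [Ctx k Ω] (p : ℕ) [Fact p.Prime]
  [CharP k p]

theorem ascS : AscStmt k Ω := fun _ h => asc h

theorem descS : LU3.DescStmt k Ω := fun _ _ => descT

theorem tameS : TameS k Ω p := tame_of ascS descS

theorem monoS : MonoS k Ω := fun _ _ => Mv.mono

theorem finS : FinS k Ω := fun _ => Mv.final

include p in
theorem twoS : TwoS k Ω := by
  have : CharP Ω p := charP_of_injective_algebraMap (algebraMap k Ω).injective p
  exact LU2.core2 p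

include p in
theorem indS : IndS k Ω := ind4 p (pf p) (rulT fun _ _ _ _ _ _ => rulW p) (tameS p) monoS

theorem ih3 (h : 7 ≤ p) : IH k Ω 3 := by
  classical
  exact sg_all ascS descS (fun _ => pstmt p fun ih adj _ pq => swap p (kn p) ih adj pq)
    (lt_of_lt_of_le (by decide) h)

theorem coreAll : CoreT k Ω p :=
  coreT p ascS descS deg (pf p) (indS p) (ih3 p) finS (twoS p)

end Pool.Agent.MP_19ffc6_ag.LU4
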