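import Pool.Agent.MP_19ffc6_ag.LU4.Spec

/-! PROJECT LU4, module DLA: a twisted derivation that kills the new coordinates kills the old
ones. -/

namespace Pool.Agent.MP_19ffc6_ag.LU4

open IntermediateField Pool.Agent.MP_19ffc6_ag.LU Pool.Agent.MP_19ffc6_ag.LU3 LatM

namespace Dl

variable {k Ω : Type*} [Field k] [NontriviallyNormedField Ω] [Algebra k Ω]

/-- What is used about derivations and about `τ - 1` for an isometry `τ`. -/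
structure Th (K : IntermediateField k Ω) (θ : Ω → Ω) : Prop where
  add : ∀ a ∈ K, ∀ b ∈ K, θ (a + b) = θ a + θ b
  mul : ∀ a ∈ K, ∀ b ∈ K, ‖θ (a * b)‖ ≤ max (‖a‖ * ‖θ b‖) (‖b‖ * ‖θ a‖)
  inv : ∀ a ∈ K, a ≠ 0 → ‖θ a⁻¹‖ = ‖a‖⁻¹ * ‖a‖⁻¹ * ‖θ a‖
  one : θ 1 = 0

variable {K : IntermediateField k Ω} {θ : Ω → Ω} {Δ : ℝ}

theorem Th.zero (h : Th K θ) : θ 0 = 0 := by
  simpa using h.add 0 (zero_mem _) 0 (zero_mem _)

/-- Logarithmic size at most `Δ`. -/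
def Le (h : Th K θ) (h0 : 0 ≤ Δ) : Submonoid Ω where
  carrier := {a | a ∈ K ∧ ‖θ a‖ ≤ Δ * ‖a‖}
  one_mem' := ⟨one_mem _, by simpa [h.one] using h0⟩
  mul_mem' := by
    rintro a b ⟨ha, ha'⟩ ⟨hb, hb'⟩
    refine ⟨mul_mem ha hb, (h.mul a ha b hb).trans (max_le ?_ ?_)⟩ <;> rw [norm_mul]
    · nlinarith [norm_nonneg a]
    · nlinarith [norm_nonneg b]

theorem Le.inv {h : Th K θ} {h0 : 0 ≤ Δ} {a : Ω} (ha : a ∈ Le h h0) : a⁻¹ ∈ Le h h0 := by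
  refine ⟨inv_mem ha.1, ?_⟩
  by_cases h1 : a = 0
  · simp [h1, h.zero]
  have h2 : 0 < ‖a‖ := norm_pos_iff.2 h1
  rw [h.inv a ha.1 h1, norm_inv]
  calc _ ≤ ‖a‖⁻¹ * ‖a‖⁻¹ * (Δ * ‖a‖) := mul_le_mul_of_nonneg_left ha.2 (by positivity)
    _ = _ := by field_simp

/-- Units of size less than `Δ`. -/
def Un (h : Th K θ) (h0 : 0 < Δ) : Submonoid Ω where
  carrier := {a | a ∈ K ∧ ‖a‖ = 1 ∧ ‖θ a‖ < Δ}
  one_mem' := ⟨one_mem _, norm_one, by simpa [h.one] using h0⟩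
  mul_mem' := by
    rintro a b ⟨ha, ha1, ha'⟩ ⟨hb, hb1, hb'⟩
    refine ⟨mul_mem ha hb, by rw [norm_mul, ha1, hb1, one_mul],
      (h.mul a ha b hb).trans_lt (max_lt ?_ ?_)⟩
    · rwa [ha1, one_mul]
    · rwa [hb1, one_mul]

theorem Un.inv {h : Th K θ} {h0 : 0 < Δ} {a : Ω} (ha : a ∈ Un h h0) : a⁻¹ ∈ Un h h0 :=
  ⟨inv_mem ha.1, by rw [norm_inv, ha.2.1, inv_one], by
    rw [h.inv a ha.1 (ne_zero_of_norm_eq_one ha.2.1), ha.2.1]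
    simpa using ha.2.2⟩

variable [IsUltrametricDist Ω]

/-- Small elements of size less than `Δ`. -/
def Sm (h : Th K θ) (h0 : 0 < Δ) : AddSubmonoid Ω where
  carrier := {a | a ∈ K ∧ ‖a‖ < 1 ∧ ‖θ a‖ < Δ}
  zero_mem' := ⟨zero_mem _, by simp, by simpa [h.zero] using h0⟩
  add_mem' := by
    rintro a b ⟨ha, ha1, ha'⟩ ⟨hb, hb1, hb'⟩
    exact ⟨add_mem ha hb, norm_add_lt_of ha1 hb1, by
      rw [h.add a ha b hb]; exact norm_add_lt_of ha' hb'⟩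

theorem Sm.un {h : Th K θ} {h0 : 0 < Δ} {a : Ω} (ha : a ∈ Sm h h0) : 1 + a ∈ Un h h0 := by
  refine ⟨add_mem (one_mem _) ha.1, ?_, ?_⟩
  · have : ‖(1 : Ω)‖ ≠ ‖a‖ := by rw [norm_one]; exact ha.2.1.ne'
    rw [IsUltrametricDist.norm_add_eq_max_of_norm_ne_norm this, norm_one, max_eq_left ha.2.1.le]
  · rw [h.add _ (one_mem _) _ ha.1, h.one, zero_add]
    exact ha.2.2

variable {I α : Type} [Fintype I] [Fintype α]

/-- An expansion whose coefficients are monomials times units. -/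
def Ex (x : I → Ω) (ρ : α → Ω) (U : Set Ω) (t : Ω) : Prop :=
  ∃ c : α → Ω, (∀ l, c l = 0 ∨ ∃ e, ∃ w ∈ U, c l = mon x e * w) ∧ t = ∑ l, c l * ρ l

variable {x : I → Ω} {ρ : α → Ω} {U : Set Ω}

theorem rep {h : Th K θ} {h0 : 0 < Δ} (hx : ∀ i, x i ∈ Le h h0.le)
    (hρ : ∀ l, ρ l ∈ Le h h0.le) (hU : ∀ w ∈ U, w ∈ Un h h0)
    (hinc : ∀ e e' l l', ‖mon x e * ρ l‖ = ‖mon x e' * ρ l'‖ → l = l' ∧ e = e') {t : Ω}
    (ht : Ex x ρ U t) (ht0 : t ≠ 0) : ∃ e l, t / (mon x e * ρ l) ∈ Un h h0 := by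
  classical
  obtain ⟨c, hc, rfl⟩ := ht
  obtain ⟨l1, -, h1⟩ := Finset.exists_ne_zero_of_sum_ne_zero ht0
  obtain ⟨l0, -, hm⟩ := Finset.exists_max_image Finset.univ (fun l => ‖c l * ρ l‖) ⟨l1, by simp⟩
  have h2 : 0 < ‖c l0 * ρ l0‖ := (norm_pos_iff.2 h1).trans_le (hm l1 (by simp))
  have h3 : c l0 * ρ l0 ≠ 0 := norm_pos_iff.1 h2
  have hs : ∀ l, c l * ρ l ∈ Le h h0.le := fun l => by
    rcases hc l with h4 | ⟨e, w, hw, h4⟩ <;> rw [h4]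
    · exact ⟨by simp, by simp [h.zero]⟩
    · have := hU w hw
      exact mul_mem (mul_mem (mon_mem hx (fun i => Le.inv (hx i)) e)
        ⟨this.1, by rw [this.2.1, mul_one]; exact this.2.2.le⟩) (hρ l)
  have hn : ∀ e, ∀ w ∈ U, ∀ l, ‖mon x e * w * ρ l‖ = ‖mon x e * ρ l‖ := fun e w hw l => by
    rw [norm_mul, norm_mul, (hU w hw).2.1, mul_one, norm_mul]
  obtain ⟨e, w, hw, h4⟩ := (hc l0).resolve_left (left_ne_zero_of_mul h3)
  have h5 : ∑ l ∈ Finset.univ.erase l0, c l * ρ l / (c l0 * ρ l0) ∈ Sm h h0 :=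
    sum_mem fun l hl => by
      have h6 : c l * ρ l / (c l0 * ρ l0) ∈ Le h h0.le := by
        rw [div_eq_mul_inv]; exact mul_mem (hs l) (Le.inv (hs l0))
      have h7 : ‖c l * ρ l / (c l0 * ρ l0)‖ < 1 := by
        rw [norm_div, div_lt_one h2]
        refine lt_of_le_of_ne (hm l (by simp)) fun h8 => ?_
        rcases hc l with h9 | ⟨e', w', hw', h9⟩
        · rw [h9, zero_mul, norm_zero] at h8
          exact h2.ne h8
        · rw [h9, h4, hn _ _ hw', hn _ _ hw] at h8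
          exact (Finset.mem_erase.1 hl).1 (hinc _ _ _ _ h8).1
      exact ⟨h6.1, h7, h6.2.trans_lt (mul_lt_of_lt_one_right h0 h7)⟩
  refine ⟨e, l0, ?_⟩
  have h6 := mul_mem (hU w hw) (Sm.un h5)
  have hw0 : w ≠ 0 := ne_zero_of_norm_eq_one (hU w hw).2.1
  rwa [← div_self h3, ← Finset.sum_div, ← add_div,
    Finset.add_sum_erase _ (fun l => c l * ρ l) (Finset.mem_univ l0), h4, mul_right_comm,
    ← div_div, mul_div_cancel₀ _ hw0] at h6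

theorem un_of_mon {h : Th K θ} {h0 : 0 < Δ} (hx0 : ∀ i, x i ≠ 0) (hρ0 : ∀ l, ρ l ≠ 0)
    (hx : ∀ i, x i ∈ Le h h0.le) (hρ : ∀ l, ρ l ∈ Le h h0.le) (hU : ∀ w ∈ U, w ∈ Un h h0)
    (hinc : ∀ e e' l l', ‖mon x e * ρ l‖ = ‖mon x e' * ρ l'‖ → l = l' ∧ e = e')
    (e1 : Ex x ρ U 1) (e2 : ∀ i j, Ex x ρ U (ρ i * ρ j)) (e3 : ∀ i, Ex x ρ U (ρ i)⁻¹)
    (a : I ⊕ α → ℤ) (ha : ‖mon (Sum.elim x ρ) a‖ = 1) : mon (Sum.elim x ρ) a ∈ Un h h0 := by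
  classical
  obtain ⟨e0, l0, h1⟩ := rep hx hρ hU hinc e1 one_ne_zero
  let R : Submonoid Ω :=
    { carrier := {t | ∃ e l, t / (mon x e * ρ l) ∈ Un h h0}
      one_mem' := ⟨e0, l0, h1⟩
      mul_mem' := by
        rintro s t ⟨e, l, hs⟩ ⟨f, m, ht⟩
        obtain ⟨g, n, hg⟩ := rep hx hρ hU hinc (e2 l m) (mul_ne_zero (hρ0 l) (hρ0 m))
        refine ⟨e + f + g, n, ?_⟩
        have h2 := mul_mem (mul_mem hs ht) hg
        have h3 := mon_ne hx0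
        rwa [show s / (mon x e * ρ l) * (t / (mon x f * ρ m)) * (ρ l * ρ m / (mon x g * ρ n)) =
          s * t / (mon x (e + f + g) * ρ n) by
            rw [mon_add hx0, mon_add hx0]
            field_simp [h3 e, h3 f, h3 g, hρ0 l, hρ0 m, hρ0 n]] at h2 }
  have h2 : ∀ e, mon x e ∈ R := fun e => ⟨e + e0, l0, by
    rwa [mon_add hx0, mul_assoc, div_mul_eq_div_div, div_self (mon_ne hx0 e)]⟩
  have h3 : mon (Sum.elim x ρ) a ∈ R := by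
    refine mon_mem ?_ ?_ a
    · rintro (i | l)
      · have := h2 (Pi.single i 1)
        rwa [mon_single] at this
      · exact ⟨0, l, by
          rw [mon_zero, one_mul, Sum.elim_inr, div_self (hρ0 l)]; exact one_mem _⟩
    · rintro (i | l)
      · have := h2 (-Pi.single i 1)
        rwa [mon_neg, mon_single] at this
      · exact rep hx hρ hU hinc (e3 l) (inv_ne_zero (hρ0 l))
  obtain ⟨e, l, h4⟩ := h3
  have h5 := h4.2.1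
  have h6 := h1.2.1
  rw [norm_div, ha] at h5
  rw [norm_div, norm_one] at h6
  obtain ⟨rfl, rfl⟩ := hinc e e0 l l0 (inv_injective (by simp only [← one_div, h5, h6]))
  have h7 := mul_mem h4 (Un.inv h1)
  rwa [one_div, inv_inv, div_mul_cancel₀ _ (mul_ne_zero (mon_ne hx0 e) (hρ0 l))] at h7

theorem key (h : Th K θ) (hx : ∀ i, x i ∈ K ∧ x i ≠ 0 ∧ ‖x i‖ < 1) (hρ : ∀ l, ρ l ∈ K ∧ ρ l ≠ 0)
    (hU : ∀ w ∈ U, w ∈ K ∧ ‖w‖ = 1)
    (hUθ : ∀ m : ℝ, 0 ≤ m → (∀ i, ‖θ (x i)‖ ≤ m) → ∀ w ∈ U, ‖θ w‖ ≤ m)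
    (hinc : ∀ e e' l l', ‖mon x e * ρ l‖ = ‖mon x e' * ρ l'‖ → l = l' ∧ e = e')
    (e1 : Ex x ρ U 1) (e2 : ∀ i j, Ex x ρ U (ρ i * ρ j)) (e3 : ∀ i, Ex x ρ U (ρ i)⁻¹)
    {y : I → Ω} (hy : ∀ j, y j ∈ K ∧ θ (y j) = 0)
    (hm : ∀ i, ∃ n a, ‖mon (Sum.elim x ρ) a‖ = 1 ∧
      Sum.elim x ρ i = mon y n * mon (Sum.elim x ρ) a) (i : I ⊕ α) : θ (Sum.elim x ρ i) = 0 := by
  by_contra hi
  have hg : ∀ i, 0 < ‖Sum.elim x ρ i‖ := by
    rintro (i | i)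
    exacts [norm_pos_iff.2 (hx i).2.1, norm_pos_iff.2 (hρ i).2]
  obtain ⟨i0, -, hmax⟩ := Finset.exists_max_image Finset.univ
    (fun i => ‖θ (Sum.elim x ρ i)‖ / ‖Sum.elim x ρ i‖) ⟨i, by simp⟩
  have h0 : 0 < ‖θ (Sum.elim x ρ i0)‖ / ‖Sum.elim x ρ i0‖ :=
    (div_pos (norm_pos_iff.2 hi) (hg i)).trans_le (hmax i (by simp))
  have h1 : ∀ i, ‖θ (Sum.elim x ρ i)‖ ≤ _ * ‖Sum.elim x ρ i‖ := fun i =>
    (div_le_iff₀ (hg i)).1 (hmax i (by simp))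
  have h2 : ‖fun i => θ (x i)‖ < _ := (pi_norm_lt_iff h0).2 fun i =>
    (h1 (.inl i)).trans_lt (mul_lt_of_lt_one_right h0 (hx i).2.2)
  obtain ⟨n, a, ha, hi0⟩ := hm i0
  have h3 := un_of_mon (h := h) (h0 := h0) (fun i => (hx i).2.1) (fun l => (hρ l).2)
    (fun i => ⟨(hx i).1, h1 (.inl i)⟩) (fun l => ⟨(hρ l).1, h1 (.inr l)⟩)
    (fun w hw => ⟨(hU w hw).1, (hU w hw).2, (hUθ _ (norm_nonneg _)
      (norm_le_pi_norm fun i => θ (x i)) w hw).trans_lt h2⟩) hinc e1 e2 e3 a ha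
  have h4 : ∀ j, y j ∈ Le h le_rfl := fun j => ⟨(hy j).1, by simp [(hy j).2]⟩
  have h5 := mon_mem h4 (fun j => Le.inv (h4 j)) n
  have h6 := h.mul _ h5.1 _ h3.1
  have h7 : ‖θ (mon y n)‖ = 0 := le_antisymm (by simpa using h5.2) (norm_nonneg _)
  have h8 : ‖Sum.elim x ρ i0‖ = ‖mon y n‖ := by rw [hi0, norm_mul, ha, mul_one]
  rw [← hi0, h7, mul_zero, max_eq_left (by positivity), ← h8] at h6
  have h9 := (lt_div_iff₀' (hg i0)).1 h3.2.2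
  exact absurd h6 h9.not_ge

theorem th_der {D : Ω → Ω} (hD : IsDer K D) : Th K D where
  add := hD.add
  mul a ha b hb := by
    rw [hD.mul a ha b hb, ← norm_mul, ← norm_mul]
    exact IsUltrametricDist.norm_add_le_max _ _
  inv a ha h0 := by rw [Desc.D_inv hD ha h0, norm_neg, norm_mul, norm_pow, norm_inv, sq]
  one := Desc.D_one hD

theorem th_iso (τ : Ω →+* Ω) (hτ : ∀ a ∈ K, ‖τ a‖ = ‖a‖) : Th K fun a => τ a - a where
  add a _ b _ := by rw [map_add]; ring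
  mul a ha b _ := by
    rw [map_mul, show τ a * τ b - a * b = τ a * (τ b - b) + b * (τ a - a) by ring, ← hτ a ha,
      ← norm_mul, ← norm_mul]
    exact IsUltrametricDist.norm_add_le_max _ _
  inv a ha h0 := by
    have h1 : τ a ≠ 0 := (map_ne_zero τ).2 h0
    rw [map_inv₀, show (τ a)⁻¹ - a⁻¹ = -((τ a)⁻¹ * a⁻¹ * (τ a - a)) by field_simp; ring,
      norm_neg, norm_mul, norm_mul, norm_inv, norm_inv, hτ a ha]
  one := by simp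

end Dl

end Pool.Agent.MP_19ffc6_ag.LU4
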