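import Pool.Agent.MP_19ffc6_ag.LU3.MainA
import Pool.Agent.MP_19ffc6_ag.LU3.Kn
import Pool.Agent.MP_19ffc6_ag.LU4.DlA
import Pool.Agent.MP_19ffc6_ag.LU4.Ind

/-! PROJECT LU4, module DL: the inductive statement goes up along defectless extensions. -/

namespace Pool.Agent.MP_19ffc6_ag.LU4

open IntermediateField Pool.Agent.MP_19ffc6_ag.LU Pool.Agent.MP_19ffc6_ag.LU3 LatM Mv Hr

universe u

variable {k : Type*} {Ω : Type u} [Field k] [NontriviallyNormedField Ω] [Algebra k Ω]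
  [IsUltrametricDist Ω] [Ctx k Ω] [IsAlgClosed Ω] [IsAlgClosed k]

namespace Dl

/-- Integral elements on which `θ` is bounded by `m`. -/
def Bd {K : IntermediateField k Ω} {θ : Ω → Ω} (h : Th K θ) (hc : ∀ c, θ (algebraMap k Ω c) = 0)
    {m : ℝ} (hm : 0 ≤ m) : Subalgebra k Ω where
  carrier := {s | s ∈ K ∧ ‖s‖ ≤ 1 ∧ ‖θ s‖ ≤ m}
  mul_mem' := by
    rintro a b ⟨ha, ha1, ha2⟩ ⟨hb, hb1, hb2⟩
    exact ⟨mul_mem ha hb, by rw [norm_mul]; exact mul_le_one₀ ha1 (norm_nonneg _) hb1,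
      (h.mul a ha b hb).trans (max_le ((mul_le_of_le_one_left (norm_nonneg _) ha1).trans hb2)
        ((mul_le_of_le_one_left (norm_nonneg _) hb1).trans ha2))⟩
  add_mem' := by
    rintro a b ⟨ha, ha1, ha2⟩ ⟨hb, hb1, hb2⟩
    exact ⟨add_mem ha hb, norm_add_le_of ha1 hb1, by
      rw [h.add a ha b hb]; exact norm_add_le_of ha2 hb2⟩
  algebraMap_mem' c := ⟨K.algebraMap_mem c, (intAlg k Ω).algebraMap_mem c, by
    rw [hc, norm_zero]; exact hm⟩

variable {ι α : Type} [Fintype ι] [Fintype α] {ξ : ι → Ω} {I : Finset ι} {ρ : α → Ω}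

omit [IsAlgClosed k] in
theorem fixd (hξ : IsChart k ξ I) (hρ : ∀ l, ρ l ≠ 0) {U : Finset Ω}
    (hU : ∀ w ∈ U, w ∈ H k ξ ∧ ‖w‖ = 1)
    (hinc : ∀ e e' l l', ‖mon (fun i : I => ξ i) e * ρ l‖ = ‖mon (fun i : I => ξ i) e' * ρ l'‖ →
      l = l' ∧ e = e')
    (e1 : Ex (fun i : I => ξ i) ρ U 1) (e2 : ∀ i j, Ex (fun i : I => ξ i) ρ U (ρ i * ρ j))
    (e3 : ∀ i, Ex (fun i : I => ξ i) ρ U (ρ i)⁻¹) {m : I → I ⊕ α → ℤ}
    (hm : ∀ i, ∃ n a, ‖mon (Sum.elim (fun i : I => ξ i) ρ) a‖ = 1 ∧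
      Sum.elim (fun i : I => ξ i) ρ i = mon (fun j => mon (Sum.elim (fun i : I => ξ i) ρ) (m j)) n *
        mon (Sum.elim (fun i : I => ξ i) ρ) a) {M : IntermediateField k Ω}
    (h1 : ∀ j, mon (Sum.elim (fun i : I => ξ i) ρ) (m j) ∈ M) (h2 : ∀ i ∉ I, ξ i ∈ M) :
    ∀ a ∈ Set.range ξ ∪ Set.range ρ, a ∈ hens M := by
  classical
  choose! T hT hT' using fun w (hw : w ∈ U) => exists_finset (hU w hw).1
  set S := Set.range ξ ∪ Set.range ρ with hS
  set S' := (Set.range fun j => mon (Sum.elim (fun i : I => ξ i) ρ) (m j)) ∪ ξ '' (I : Set ι)ᶜ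
  set K := adjoin k (S ∪ U.biUnion T) with hK
  have hr : ∀ t ∈ U.biUnion T, HRoot (Algebra.adjoin k (Set.range ξ)) t := fun t ht => by
    obtain ⟨w, hw, h⟩ := Finset.mem_biUnion.1 ht
    exact hT w hw t h
  have hSK : S ⊆ K := fun a ha => subset_adjoin _ _ (Or.inl ha)
  have hTK : ∀ t ∈ U.biUnion T, t ∈ K := fun a ha => subset_adjoin _ _ (Or.inr ha)
  have hx : ∀ i, ξ i ∈ K := fun i => hSK (Or.inl ⟨i, rfl⟩)
  have hg : ∀ i, Sum.elim (fun i : I => ξ i) ρ i ∈ K := by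
    rintro (i | l)
    exacts [hx i, hSK (Or.inr ⟨l, rfl⟩)]
  have hS'K : S' ⊆ K := by
    rintro _ (⟨j, rfl⟩ | ⟨i, -, rfl⟩)
    exacts [mon_mem hg (fun i => inv_mem (hg i)) _, hx i]
  have hC : ∀ C : Subalgebra k Ω, (∀ i, ξ i ∈ C) → (∀ t ∈ U.biUnion T, t ∈ C) →
      (∀ b ∈ C, ‖b‖ = 1 → b⁻¹ ∈ C) → ∀ w ∈ U, w ∈ C := fun C c1 c2 c3 w hw =>
    loc_le (sup_le (Algebra.adjoin_le (Set.forall_mem_range.2 c1))
      (Algebra.adjoin_le fun t ht => c2 t (Finset.mem_biUnion.2 ⟨w, hw, ht⟩))) c3 (hT' w hw)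
  have hUK := hC K.toSubalgebra hx hTK fun b hb _ => K.inv_mem hb
  have main : ∀ θ, Th K θ → (∀ a ∈ S', θ a = 0) →
      (∀ μ : ℝ, 0 ≤ μ → (∀ i, ‖θ (ξ i)‖ ≤ μ) → ∀ w ∈ U, ‖θ w‖ ≤ μ) → ∀ a ∈ S, θ a = 0 := by
    intro θ h h0 hb
    have h3 := key h (fun i : I => ⟨hx i, hξ.ne i, hξ.small i⟩) (fun l => ⟨hg (.inr l), hρ l⟩)
      (fun w hw => ⟨hUK w hw, (hU w hw).2⟩) (fun μ hμ h4 => hb μ hμ fun i => by
        by_cases hi : i ∈ I
        · exact h4 ⟨i, hi⟩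
        · rwa [h0 _ (Or.inr ⟨i, hi, rfl⟩), norm_zero]) hinc e1 e2 e3
      (fun j => ⟨hS'K (Or.inl ⟨j, rfl⟩), h0 _ (Or.inl ⟨j, rfl⟩)⟩) hm
    rintro _ (⟨i, rfl⟩ | ⟨l, rfl⟩)
    · by_cases hi : i ∈ I
      · exact h3 (.inl ⟨i, hi⟩)
      · exact h0 _ (Or.inr ⟨i, hi, rfl⟩)
    · exact h3 (.inr l)
  have hsep : SepOver (adjoin k S') K := by
    refine sep_crit K (fg_adjoin_of_finite (((Set.finite_range ξ).union
      (Set.finite_range ρ)).union (Finset.finite_toSet _))) S S' hSK hS'K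
      (fun a ha => (mem_hens_iff.1 ((adjoin_le_iff.2 ?_ : K ≤ hens (adjoin k S)) ha)).1)
      fun D hD h0 => main D (th_der hD) h0 fun μ hμ h3 w hw => ?_
    · rintro a (ha | ha)
      · exact le_hens _ (subset_adjoin _ _ ha)
      · exact hens_le_hens ((adjoin.mono _ _ _ Set.subset_union_left).trans (le_hens _))
          (mem_hens hξ.small (mem_HH_of_hroot (hr a ha)))
    · have h4 : ∀ i, ξ i ∈ Desc.Bdd hD μ hμ := fun i => ⟨hx i, (hξ.small i).le, h3 i⟩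
      refine (hC _ h4 (fun t ht => ?_) (fun b => Desc.Bdd_inv hD) w hw).2.2
      obtain ⟨P, -, p2, p3, p4⟩ := hr t ht
      exact Desc.Bdd_root hD P (fun i => Algebra.adjoin_le (Set.forall_mem_range.2 h4) (p2 i))
        (hTK t ht) (norm_H (fun i => (hξ.small i).le) (mem_HH_of_hroot (hr t ht))) p3 p4
  have hle : adjoin k S' ≤ hens M := (adjoin_le_iff.2 (by
    rintro _ (⟨j, rfl⟩ | ⟨i, hi, rfl⟩)
    exacts [h1 j, h2 i hi])).trans (le_hens M)
  intro a ha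
  refine mem_of_fix (isSeparable_of_le hle (hsep a (hSK ha))) fun τ => sub_eq_zero.1 ?_
  have hτ : ∀ b ∈ K, ‖(τ : Ω →+* Ω) b‖ = ‖b‖ := fun b hb =>
    isH_hens M τ b (isSeparable_of_le hle (hsep b hb)).isIntegral.isAlgebraic
  refine main _ (th_iso _ hτ) (fun b hb => sub_eq_zero.2
    (hom_fix τ (hle (subset_adjoin _ _ hb)))) (fun μ hμ h3 w hw => ?_) a ha
  by_contra hlt
  have hlt := not_le.1 hlt
  obtain ⟨r, r0, r1, r2⟩ := exists_rho hξ.small
  obtain ⟨N, hN⟩ := exists_pow_lt_of_lt_one (hμ.trans_lt hlt) r1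
  obtain ⟨f, hf⟩ := jet1 hξ.small N (hU w hw).1
  have h4 := (norm_le_pow r0 r1.le r2 hf).trans_lt hN
  have h5 : MvPolynomial.aeval ξ f ∈ Bd (th_iso _ hτ) (fun c => sub_eq_zero.2
      (hom_fix τ ((hens M).algebraMap_mem c))) hμ := by
    refine Algebra.adjoin_le (Set.forall_mem_range.2 fun i => ?_) (aeval_mem_R ξ f)
    exact ⟨hx i, (hξ.small i).le, h3 i⟩
  have h6 := norm_add_lt_of (h5.2.2.trans_lt hlt)
    (norm_sub_lt_of ((hτ _ (sub_mem (hUK w hw) h5.1)).trans_lt h4) h4)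
  rw [map_sub] at h6
  exact h6.ne (congrArg norm (by ring))

omit [IsAlgClosed k] in
theorem gd_hens (hξ : IsChart k ξ I) {b : Ω} (hb : Gd k ξ I b) {M : IntermediateField k Ω}
    (h : ∀ i, ξ i ∈ hens M) : b ∈ hens M := by
  obtain ⟨a, w, hw, -, rfl⟩ := hb
  exact mul_mem (mon_mem (fun i : I => h i) (fun i => inv_mem (h i)) a)
    (hens_le_hens (adjoin_le_iff.2 (Set.forall_mem_range.2 h)) (mem_hens hξ.small hw))

/-- A chart of the henselization of a defectless extension. -/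
theorem chart {A B : IntermediateField k Ω} (hA : A.FG) (hle : A ≤ B) (hq : QFull A)
    (htr : Algebra.trdeg k A < Cardinal.aleph0) (h1 : ∀ i, ρ i ∈ hens B ∧ ρ i ≠ 0)
    (h2 : ∀ i j, ∀ b ∈ hens A, ‖ρ i‖ = ‖b‖ * ‖ρ j‖ → i = j)
    (h3 : ∀ a ∈ hens B, a ∈ Submodule.span (hens A) (Set.range ρ)) (hs : SG k A) :
    ∃ (ι : Type) (_ : Fintype ι) (ξ : ι → Ω) (I : Finset ι) (y : I → Ω),
      AlgebraicIndependent k ξ ∧ (∀ i, ξ i ∈ hens B) ∧ (∀ j, y j ∈ hens B ∧ y j ≠ 0) ∧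
      LinearIndependent ℤ (fun j => nu (y j)) ∧
      (∀ a : Ω, a ≠ 0 → nu a ∈ Submodule.span ℚ (Set.range fun j => nu (y j))) ∧
      ∀ M : IntermediateField k Ω, (∀ j, y j ∈ M) → (∀ i ∉ I, ξ i ∈ M) →
        (∀ i, ξ i ∈ hens M) ∧ B ≤ hens M := by
  classical
  obtain ⟨Z, hZ⟩ := hA
  obtain ⟨Q, hQ, hQ'⟩ := exists_finset_qv htr
  choose! c hc using fun w (hw : w ∈ hens B) =>
    (Submodule.mem_span_range_iff_exists_fun _).1 (h3 w hw)
  let T : Finset Ω := insert 1 ((Finset.univ.image fun x : α × α => ρ x.1 * ρ x.2) ∪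
    Finset.univ.image fun i => (ρ i)⁻¹)
  let W := (Z ∪ Q ∪ (T ×ˢ Finset.univ).image fun x : Ω × α => (c x.1 x.2 : Ω)).erase 0
  obtain ⟨ι, _, ξ, I, g1, g2, g3, -⟩ := asc hs Z W hZ (by
    intro w hw
    obtain ⟨h0, hw⟩ := Finset.mem_erase.1 hw
    refine ⟨?_, h0⟩
    rcases Finset.mem_union.1 hw with hw | hw
    · rcases Finset.mem_union.1 hw with hw | hw
      · exact le_hens _ (hZ ▸ subset_adjoin _ _ hw)
      · exact le_hens _ (hQ w hw).1
    · obtain ⟨x, -, rfl⟩ := Finset.mem_image.1 hw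
      exact (c x.1 x.2).2)
  choose! e u hu hu1 hue using id g3
  have x0 : ∀ i : I, ξ i ≠ 0 := fun i => g1.ne i
  have hAB : hens A ≤ hens B := hens_le_hens (hle.trans (le_hens B))
  have hxA : ∀ a, mon (fun i : I => ξ i) a ∈ hens A :=
    mon_mem (fun i : I => g2 i) fun i => inv_mem (g2 i)
  have hex : ∀ t ∈ T, t ∈ hens B → Ex (fun i : I => ξ i) ρ (W.image u : Finset Ω) t :=
    fun t ht hB => ⟨fun l => c t l, fun l => or_iff_not_imp_left.2 fun h0 => by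
      have hw : (c t l : Ω) ∈ W := Finset.mem_erase.2 ⟨h0, Finset.mem_union_right _
        (Finset.mem_image_of_mem _ (a := (t, l)) (Finset.mem_product.2 ⟨ht, Finset.mem_univ _⟩))⟩
      exact ⟨_, _, Finset.mem_image_of_mem u hw, hue _ hw⟩, (hc t hB).symm⟩
  have hv : ∀ a : Ω, a ≠ 0 → nu a ∈ Submodule.span ℚ (Set.range fun i : I => nu (ξ i)) := by
    intro a ha
    obtain ⟨d, hd, h⟩ := hQ' _ (hq a ha)
    refine mem_of_mul_mem (d := d) (by omega) ((AddSubgroup.closure_le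
      (Submodule.span ℚ (Set.range fun i : I => nu (ξ i))).toAddSubgroup).2 ?_ h)
    rintro _ ⟨b, hb, rfl⟩
    have hw : b ∈ W := Finset.mem_erase.2
      ⟨(hQ b hb).2, Finset.mem_union_left _ (Finset.mem_union_right _ hb)⟩
    have h0 := ne_zero_of_norm_eq_one (hu1 b hw)
    rw [hue b hw, nu_mul (mon_ne x0 _) h0, (nu_eq_zero_iff h0).2 (hu1 b hw), add_zero, nu_mon x0]
    exact sum_mem fun i _ => int_mul_mem _ (Submodule.subset_span ⟨i, rfl⟩)
  have g0 : ∀ i, Sum.elim (fun i : I => ξ i) ρ i ≠ 0 := by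
    rintro (i | l)
    exacts [x0 i, (h1 l).2]
  have gB : ∀ i, Sum.elim (fun i : I => ξ i) ρ i ∈ hens B := by
    rintro (i | l)
    exacts [hAB (g2 i), (h1 l).1]
  obtain ⟨m, -, m2, m3, -⟩ := lat g0 (fun i : I => nu (ξ i)) g1.li (le_antisymm
    (Submodule.span_mono (by rintro _ ⟨i, rfl⟩; exact ⟨.inl i, rfl⟩))
    (Submodule.span_le.2 (Set.forall_mem_range.2 fun i => hv _ (g0 i)))) ∅ (by simp)
  have hm := fun i => mon_single (g := Sum.elim (fun i : I => ξ i) ρ) i ▸ m3 (Pi.single i 1)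
  refine ⟨ι, inferInstance, ξ, I, fun j => mon _ (m j), g1.ind, fun i => hAB (g2 i),
    fun j => ⟨mon_mem gB (fun i => inv_mem (gB i)) _, mon_ne g0 _⟩, m2, fun a ha => ?_,
    fun M M1 M2 => ?_⟩
  · refine Submodule.span_le.2 (Set.forall_mem_range.2 fun i => ?_) (hv a ha)
    obtain ⟨n, a', h4, h5⟩ := hm (.inl i)
    have h0 := ne_zero_of_norm_eq_one h4
    have h6 := fun j => mon_ne g0 (m j)
    rw [Sum.elim_inl] at h5
    rw [h5, nu_mul (mon_ne h6 _) h0, (nu_eq_zero_iff h0).2 h4, add_zero, nu_mon h6]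
    exact sum_mem fun i _ => int_mul_mem _ (Submodule.subset_span ⟨i, rfl⟩)
  have h4 := fixd g1 (fun l => (h1 l).2) (U := W.image u) (fun w hw => by
      obtain ⟨b, hb, rfl⟩ := Finset.mem_image.1 hw
      exact ⟨hu b hb, hu1 b hb⟩) (fun a a' l l' h => by
      have h5 := norm_ne_zero_iff.2 (mon_ne x0 a)
      rw [norm_mul, norm_mul] at h
      obtain rfl := h2 l l' _ (div_mem (hxA a') (hxA a)) (by
        rw [norm_div, div_mul_eq_mul_div, ← h, mul_div_cancel_left₀ _ h5])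
      refine ⟨rfl, (add_neg_eq_zero.1 (eq_zero_of_norm_mon x0 g1.li ?_)).symm⟩
      rw [mon_add x0, mon_neg, norm_mul, norm_inv,
        ← mul_right_cancel₀ (norm_ne_zero_iff.2 (h1 l).2) h, mul_inv_cancel₀ h5])
    (hex _ (Finset.mem_insert_self _ _) (one_mem _))
    (fun i j => hex _ (Finset.mem_insert_of_mem (Finset.mem_union_left _
      (Finset.mem_image_of_mem _ (Finset.mem_univ (i, j))))) (mul_mem (h1 i).1 (h1 j).1))
    (fun i => hex _ (Finset.mem_insert_of_mem (Finset.mem_union_right _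
      (Finset.mem_image_of_mem _ (Finset.mem_univ i)))) (inv_mem (h1 i).1)) hm M1 M2
  have h5 : ∀ i, ξ i ∈ hens M := fun i => h4 _ (Or.inl ⟨i, rfl⟩)
  have h6 : hens A ≤ hens M := hens_le_hens (hZ ▸ adjoin_le_iff.2 fun z hz => by
    by_cases h0 : z = 0
    · exact h0 ▸ zero_mem _
    · exact gd_hens g1 (g3 z (Finset.mem_erase.2
        ⟨h0, Finset.mem_union_left _ (Finset.mem_union_left _ hz)⟩)) h5)
  refine ⟨h5, fun a ha => ?_⟩
  rw [← hc a (le_hens B ha)]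
  exact sum_mem fun l _ => mul_mem (h6 (c a l).2) (h4 _ (Or.inr ⟨l, rfl⟩))

end Dl

/-- DL: ascent along a defectless extension of a field that sees all values. -/
theorem dl (p : ℕ) [Fact p.Prime] (n : ℕ) (hP : PfStmt k Ω n) (hT : TameS k Ω p)
    (H : IHF k Ω n) (A B : IntermediateField k Ω) (hA : A.FG) (hB : B.FG) (hle : A ≤ B)
    (hq : QFull A) (htr : Algebra.trdeg k B ≤ (n + 1 : ℕ)) (α : Type) [Fintype α] (ρ : α → Ω)
    (h1 : ∀ i, ρ i ∈ hens B ∧ ρ i ≠ 0)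
    (h2 : ∀ i j, ∀ b ∈ hens A, ‖ρ i‖ = ‖b‖ * ‖ρ j‖ → i = j)
    (h3 : ∀ a ∈ hens B, a ∈ Submodule.span (hens A) (Set.range ρ)) (hs : SG k A) : SG k B := by
  classical
  have hp : (1 : Cardinal.{u}) < p := by exact_mod_cast (Fact.out : p.Prime).one_lt
  have tm : ∀ K0 : IntermediateField k Ω, K0.FG → K0 ≤ hens B → B ≤ hens K0 →
      SG k K0 → SG k B := fun K0 a1 a3 a4 =>
    hT K0 B a1 hB a3 (by rwa [relrank_eq_one_iff.2 (hens_le_hens a4)])
  obtain ⟨ι, _, ξ, I, y, c1, c2, c3, c4, c5, c6⟩ := Dl.chart hA hle hq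
    (((Pd.trdeg_le_of_alg (hle.trans (Pd.le_acl B))).trans htr).trans_lt
      Cardinal.natCast_lt_aleph0) h1 h2 h3 hs
  by_cases hI : ∀ i, i ∈ I
  · exact tm _ (fg_adjoin_of_finite (Set.finite_range y))
      (adjoin_le_iff.2 (Set.forall_mem_range.2 fun j => (c3 j).1))
      (c6 _ (fun j => subset_adjoin k (Set.range y) ⟨j, rfl⟩) fun i hi => absurd (hI i) hi).2
      (Mv.mono (ind _ y (fun j => (c3 j).2) c4) c4)
  obtain ⟨j, hj⟩ := not_forall.1 hI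
  obtain ⟨f, f1, f2⟩ : ∃ f : {i // i ≠ j} → Ω,
      (∀ i : {i // i ≠ j}, ∀ h : i.1 ∈ I, f i = y ⟨i.1, h⟩) ∧
      ∀ i : {i // i ≠ j}, i.1 ∉ I → f i = ξ i.1 :=
    ⟨fun i => if h : i.1 ∈ I then y ⟨i, h⟩ else ξ i, fun _ h => dif_pos h, fun _ h => dif_neg h⟩
  have hf : ∀ i, f i ∈ adjoin k (Set.range f) := fun i => subset_adjoin k (Set.range f) ⟨i, rfl⟩
  have hy : ∀ i, y i ∈ adjoin k (Set.range f) := fun i => by
    have := hf ⟨i, fun h => hj (h ▸ i.2)⟩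
    rwa [f1 _ i.2] at this
  obtain ⟨d1, d2⟩ := c6 (adjoin k (Set.range f) ⊔ adjoin k {ξ j})
    (fun i => (le_sup_left : adjoin k (Set.range f) ≤ _) (hy i)) fun i hi => by
      by_cases h : i = j
      · rw [h]
        exact Pd.self_mem _ _
      · have := hf ⟨i, h⟩
        rw [f2 _ hi] at this
        exact (le_sup_left : adjoin k (Set.range f) ≤ _) this
  have hfB : adjoin k (Set.range f) ≤ hens B :=
    adjoin_le_iff.2 (Set.forall_mem_range.2 fun i => by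
      by_cases h : i.1 ∈ I
      · rw [f1 i h]
        exact (c3 _).1
      · rw [f2 i h]
        exact c2 _)
  have ht : Transcendental (adjoin k (Set.range f)) (ξ j) := fun h => by
    have h4 := (Pd.card_le c1 fun i => Pd.mem_acl_of_alg (sup_le (Pd.le_acl _)
      (Pd.simple_le (Pd.mem_acl.2 h))) (alg_of_mem_hens (d1 i))).trans (Pd.trdeg_adjoin_le f)
    have h5 : Fintype.card {i // i ≠ j} < Fintype.card ι :=
      Fintype.card_subtype_lt (x := j) (by simp)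
    exact absurd (by exact_mod_cast h4) h5.not_ge
  have h4 := (Ind.drop (hfB.trans (Pd.hens_le_acl B)) (Pd.hens_le_acl B (c2 j)) ht).trans htr
  obtain ⟨e, he⟩ := Cardinal.lt_aleph0.1
    ((le_self_add.trans h4).trans_lt Cardinal.natCast_lt_aleph0)
  rw [he] at h4
  have h5 : e + 1 ≤ n + 1 := by exact_mod_cast h4
  have hg := fg_adjoin_of_finite (F := k) (Set.finite_range f)
  exact tm _ (fg_sup hg (fg_adjoin_of_finite (Set.finite_singleton _)))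
    (sup_le hfB (Pd.simple_le (c2 j))) d2
    (hP H _ _ hg (he.le.trans (by exact_mod_cast Nat.le_of_succ_le_succ h5)) ht fun a ha =>
      Submodule.span_le.2 (Set.forall_mem_range.2 fun i => nu_mem_qv (hy i)) (c5 a ha))

end Pool.Agent.MP_19ffc6_ag.LU4
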