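import Pool.Agent.MP_19ffc6_ag.LU4.Emb

/-! PROJECT LU4, module GLUEE: embedded local uniformization, from norms to valuations. -/

namespace Pool.Agent.MP_19ffc6_ag.LU4

open Polynomial IntermediateField NNReal Pool.Agent.MP_19ffc6_ag.LU Pool.Agent.MP_19ffc6_ag.LU3

universe v

/-- The conclusion: a smooth model with regular parameters that makes `Z` monomial. -/
def ELU (k : Type*) {K : Type*} [Field k] [Field K] [Algebra k K] (v : Valuation K ℝ≥0)
    (Z : Finset K) : Prop :=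
  ∃ A : Subalgebra k K, A.FG ∧ (∀ a ∈ A, v a ≤ 1) ∧ (∀ z ∈ Z, z ∈ A) ∧
    IsFractionRing A K ∧ Algebra.Smooth k A ∧
    ∃ (n : ℕ) (t : Fin n → K), AlgebraicIndependent k t ∧ (∀ i, t i ∈ A ∧ v (t i) < 1) ∧
      (∀ a ∈ A, v a < 1 → ∃ u ∈ A, v u = 1 ∧
        ∃ c : Fin n → K, (∀ i, c i ∈ A) ∧ u * a = ∑ i, c i * t i) ∧
      ∀ z ∈ Z, z ≠ 0 → ∃ m : Fin n → ℕ, ∃ u ∈ A, v u = 1 ∧ z = u * ∏ i, t i ^ m i

theorem transferE {k : Type*} {K Ω : Type v} [Field k] [Field K] [Algebra k K]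
    [NontriviallyNormedField Ω] [Algebra k Ω] [DecidableEq Ω] (φ : K →ₐ[k] Ω)
    (v : Valuation K ℝ≥0) (hv : ∀ a, ‖φ a‖ = v a) (Z : Finset K)
    (h : EM φ.fieldRange (Z.image φ)) : ELU k v Z := by
  have hinj : Function.Injective φ := φ.injective
  obtain ⟨A, ⟨hA, hAF, hA1, hAZ, hAq, hAs⟩, n, t, t1, t2, t3, t4⟩ := h
  choose s hs using fun i => hAF (t2 i).1
  replace hs : ∀ i, φ (s i) = t i := hs
  have hone : ∀ a, ‖φ a‖ = 1 → v a = 1 := fun a h => by
    rw [hv] at h
    exact_mod_cast h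
  have hmap : (A.comap φ).map φ = A := by
    rw [Subalgebra.map_comap_eq]
    exact inf_eq_left.2 hAF
  refine ⟨A.comap φ, Subalgebra.fg_of_fg_map _ φ hinj (by rwa [hmap]), fun a ha => ?_,
    fun z hz => hAZ _ (Finset.mem_image_of_mem _ hz), ?_, ?_, n, s,
    AlgebraicIndependent.of_comp φ ((funext hs : φ ∘ s = t) ▸ t1), fun i => ⟨?_, ?_⟩,
    fun a ha h => ?_, fun z hz h => ?_⟩
  · have : ‖φ a‖ ≤ 1 := hA1 _ ha
    rw [hv] at this
    exact_mod_cast this
  · refine IsFractionRing.of_field _ _ fun z => ?_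
    obtain ⟨a, ha, b, hb, -, h⟩ := hAq (φ z) ⟨z, rfl⟩
    obtain ⟨a', rfl⟩ := hAF ha
    obtain ⟨b', rfl⟩ := hAF hb
    refine ⟨⟨a', ha⟩, ⟨b', hb⟩, hinj ?_⟩
    rw [map_div₀]
    exact h
  · exact Algebra.Smooth.of_equiv
      (((A.comap φ).equivMapOfInjective φ hinj).trans (Subalgebra.equivOfEq _ _ hmap)).symm
  · rw [Subalgebra.mem_comap, hs]
    exact (t2 i).1
  · have := (t2 i).2
    rw [← hs, hv] at this
    exact_mod_cast this
  · obtain ⟨u, hu, hu1, c, hc, e⟩ := t3 (φ a) ha (by rw [hv]; exact_mod_cast h)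
    obtain ⟨u', rfl⟩ := hAF hu
    choose d hd using fun i => hAF (hc i)
    replace hd : ∀ i, φ (d i) = c i := hd
    refine ⟨u', hu, hone _ hu1, d, fun i => ?_, hinj ?_⟩
    · rw [Subalgebra.mem_comap, hd]
      exact hc i
    · simp only [map_mul, map_sum, hd, hs]
      exact e
  · obtain ⟨m, u, hu, hu1, e⟩ := t4 (φ z) (Finset.mem_image_of_mem _ hz) (by simpa using h)
    obtain ⟨u', rfl⟩ := hAF hu
    refine ⟨m, u', hu, hone _ hu1, hinj ?_⟩
    simp only [map_mul, map_prod, map_pow, hs]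
    exact e

/-- Reduction to the normed algebraically closed setting. -/
theorem glueE (k : Type*) (K : Type v) [Field k] [IsAlgClosed k] [Field K] [Algebra k K]
    (v : Valuation K ℝ≥0) (h1 : ∀ c : k, c ≠ 0 → v (algebraMap k K c) = 1)
    (h2 : ∀ a : K, v a ≤ 1 → ∃ c : k, v (a - algebraMap k K c) < 1)
    (core : ∀ (Ω : Type v) [NontriviallyNormedField Ω] [IsUltrametricDist Ω] [Algebra k Ω]
      [IsAlgClosed Ω] [Ctx k Ω] (φ : K →ₐ[k] Ω), (∀ a, ‖φ a‖ = v a) →
      Algebra.IsAlgebraic φ.fieldRange Ω → φ.fieldRange.FG ∧ Mv.SG k φ.fieldRange)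
    (Z : Finset K) (hZ : ∀ z ∈ Z, v z ≤ 1) : ELU k v Z := by
  classical
  by_cases hn : ∃ a, 1 < v a
  · let f : AbsoluteValue K ℝ :=
      { toFun := fun a => v a
        map_mul' := fun a b => by simp
        nonneg' := fun a => (v a).2
        eq_zero' := fun a => by simp
        add_le' := fun a b => by
          have := v.map_add a b
          have h : v (a + b) ≤ v a + v b :=
            this.trans (max_le (le_add_of_nonneg_right bot_le) (le_add_of_nonneg_left bot_le))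
          exact_mod_cast h }
    have hf : IsNonarchimedean f := fun a b => by
      change ((v (a + b) : ℝ≥0) : ℝ) ≤ max (v a : ℝ) (v b : ℝ)
      exact_mod_cast v.map_add a b
    obtain ⟨a0, ha0⟩ := hn
    have ha1 : 1 < f a0 := by
      change (1 : ℝ) < ((v a0 : ℝ≥0) : ℝ)
      exact_mod_cast ha0
    obtain ⟨g, hg, hgf⟩ := Glue.exists_abs K f hf ⟨a0, ha1⟩
    let : NontriviallyNormedField (AlgebraicClosure K) :=
      { g.toNormedField with
        non_trivial := ⟨algebraMap K _ a0, by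
          change 1 < g _
          rw [hgf]; exact ha1⟩ }
    have hv : ∀ a, ‖algebraMap K (AlgebraicClosure K) a‖ = v a := hgf
    have : IsUltrametricDist (AlgebraicClosure K) :=
      IsUltrametricDist.isUltrametricDist_of_forall_norm_add_le_max_norm hg
    have hk : ∀ c : k, c ≠ 0 → ‖algebraMap k (AlgebraicClosure K) c‖ = 1 := fun c hc => by
      rw [IsScalarTower.algebraMap_apply k K, hv, h1 c hc]; rfl
    have : Ctx k (AlgebraicClosure K) :=
      ⟨hk, Glue.res_of_algebraic (F := K) hk fun b hb => by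
        rw [hv] at hb
        obtain ⟨c, hc⟩ := h2 b (by exact_mod_cast hb)
        refine ⟨c, ?_⟩
        rw [IsScalarTower.algebraMap_apply k K, ← map_sub, hv]
        exact_mod_cast hc⟩
    let φ : K →ₐ[k] AlgebraicClosure K := IsScalarTower.toAlgHom k K _
    let e : K ≃ₐ[k] φ.fieldRange := AlgEquiv.ofInjectiveField φ
    obtain ⟨c1, c2⟩ := core (AlgebraicClosure K) φ hv ⟨fun a =>
      (Algebra.IsAlgebraic.isAlgebraic (R := K) a).ringHom_of_comp_eq (e : K →+* φ.fieldRange)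
        (RingHom.id _) e.injective (RingHom.ext fun _ => rfl)⟩
    refine transferE φ v hv Z (finalE c1 c2 _ fun z hz => ?_)
    obtain ⟨w, hw, rfl⟩ := Finset.mem_image.1 hz
    refine ⟨⟨w, rfl⟩, ?_⟩
    change ‖algebraMap K _ w‖ ≤ 1
    rw [hv]
    exact_mod_cast hZ w hw
  · push Not at hn
    have hz : ∀ a : K, v a < 1 → a = 0 := fun a hc => by
      by_contra h0
      have h3 := hn a⁻¹
      rw [map_inv₀, inv_le_one₀ (pos_iff_ne_zero.2 ((Valuation.ne_zero_iff v).2 h0))] at h3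
      exact absurd hc (not_lt.2 h3)
    have hall : ∀ a : K, a ∈ (⊥ : Subalgebra k K) := by
      intro a
      obtain ⟨c, hc⟩ := h2 a (hn a)
      rw [sub_eq_zero.1 (hz _ hc)]
      exact Subalgebra.algebraMap_mem _ c
    refine ⟨⊥, Subalgebra.fg_bot, fun a _ => hn a, fun z _ => hall z, ?_,
      Algebra.Smooth.of_equiv (Algebra.botEquiv k K).symm, 0, Fin.elim0,
      algebraicIndependent_empty_type, fun i => i.elim0,
      fun a _ h => ⟨1, one_mem _, map_one v, 0, fun _ => zero_mem _, by simp [hz a h]⟩,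
      fun z _ h => ⟨0, z, hall z, le_antisymm (hn z) (not_lt.1 fun h' => h (hz z h')), by simp⟩⟩
    exact IsFractionRing.of_field _ _ fun z => ⟨⟨z, hall z⟩, 1, by simp⟩

end Pool.Agent.MP_19ffc6_ag.LU4
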