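import Pool.Agent.MP_19ffc6_ag.LU4.Tow

/-! PROJECT LU4, module TOW2: towers that also contain steps without defect. -/

namespace Pool.Agent.MP_19ffc6_ag.LU4

open Polynomial IntermediateField Pool.Agent.MP_19ffc6_ag.LU Pool.Agent.MP_19ffc6_ag.LU3
open Pool.Agent.MP_19ffc6_ag.LU3.Mv Pool.Agent.MP_19ffc6_ag.LU3.Pd

universe u

variable {k : Type*} {Ω : Type u} [Field k] [NontriviallyNormedField Ω] [Algebra k Ω]

/-- One step: a radical of exponent prime to `p`, or a root of Weierstrass degree `d` where `d` is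
less than `p` or at most the ramification index. -/
def Stp2 (p : ℕ) (A B : IntermediateField k Ω) : Prop :=
  ∃ z : Ω, B = A ⊔ adjoin k {z} ∧ ((∃ a : ℕ, ¬ p ∣ a ∧ z ^ a ∈ A) ∨
    (‖z‖ < 1 ∧ ∃ (P : Polynomial Ω) (d : ℕ), (∀ i, P.coeff i ∈ A ∧ ‖P.coeff i‖ ≤ 1) ∧
      ‖P.coeff d‖ = 1 ∧ P.eval z = 0 ∧ (d < p ∨ ∃ ρ : Fin d → Ω, (∀ i, ρ i ∈ B ∧ ρ i ≠ 0) ∧
        ∀ i j, ∀ b ∈ A, ‖ρ i‖ = ‖b‖ * ‖ρ j‖ → i = j)))

variable (k Ω) in
/-- DL: ascent along an extension without defect. -/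
def DlS (n : ℕ) : Prop :=
  ∀ A B : IntermediateField k Ω, A.FG → B.FG → A ≤ B → QFull A →
    Algebra.trdeg k B ≤ (n + 1 : ℕ) → ∀ (α : Type) [Fintype α] (ρ : α → Ω),
    (∀ i, ρ i ∈ hens B ∧ ρ i ≠ 0) → (∀ i j, ∀ b ∈ hens A, ‖ρ i‖ = ‖b‖ * ‖ρ j‖ → i = j) →
    (∀ a ∈ hens B, a ∈ Submodule.span (hens A) (Set.range ρ)) → SG k A → SG k B

variable (k Ω) in
/-- The theorem inside `Ω` for these towers. -/
def CoreT2 (p : ℕ) : Prop :=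
  ∀ (E K : IntermediateField k Ω) (y : Ω) (r : ℕ) (x : Fin r → Ω), E.FG →
    Relation.ReflTransGen (Stp2 p) (E ⊔ adjoin k {y}) K → Algebra.IsAlgebraic K Ω →
    (∀ i, x i ∈ E ∧ x i ≠ 0) → LinearIndependent ℤ (fun i => nu (x i)) →
    Algebra.trdeg k E ≤ r + 2 → 2 ≤ r ∨ 7 ≤ p →
    ∀ Z : Finset Ω, (∀ a ∈ Z, a ∈ K ∧ ‖a‖ ≤ 1) → ∃ A, Model K Z A

open CoreL in
/-- The general form, where the ascent may use the inductive statement. -/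
theorem coreG2 [IsUltrametricDist Ω] {p : ℕ} (hP : ∀ n, PfStmt k Ω n) (hI : IndS k Ω)
    (h3 : 7 ≤ p → IH k Ω 3) (hF : FinS k Ω) (h2 : TwoS k Ω) (E K : IntermediateField k Ω) (y : Ω)
    (r : ℕ) (x : Fin r → Ω) (hE : E.FG) (hKf : K.FG) (hle : E ⊔ adjoin k {y} ≤ K)
    (ha0 : ∀ a ∈ K, IsAlgebraic ↥(E ⊔ adjoin k {y}) a) (halg : Algebra.IsAlgebraic K Ω)
    (hS : QFull E → IHF k Ω (r + 2) → SG k (E ⊔ adjoin k {y}) → SG k K)
    (hx : ∀ i, x i ∈ E ∧ x i ≠ 0)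
    (hli : LinearIndependent ℤ fun i => nu (x i)) (htr : Algebra.trdeg k E ≤ r + 2)
    (hr : 2 ≤ r ∨ 7 ≤ p) :
    ∀ Z : Finset Ω, (∀ a ∈ Z, a ∈ K ∧ ‖a‖ ≤ 1) → ∃ A, Model K Z A := by
  by_cases hq : QFull E
  · refine coreG hP hI h3 hF h2 E K y r x hE hKf hle ha0 halg (hS hq ?_) hx hli htr hr
    by_cases h : 2 ≤ r
    · exact hI r x (fun i => (hx i).2) hli h
    · exact fun F hF' ht _ => h3 (hr.resolve_left h) F hF' (ht.trans (Nat.cast_le.2 (by omega)))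
  have t2 : Algebra.trdeg k K ≤ (r + 1 : ℕ) + 2 := by
    refine (trdeg_le_of_alg fun a ha => mem_acl.2 (ha0 a ha)).trans
      ((trdeg_sup_le E y).trans ((add_le_add htr le_rfl).trans (le_of_eq ?_)))
    push_cast
    ring
  rcases Nat.eq_zero_or_pos r with rfl | hr0
  · refine hF K hKf (h3 (hr.resolve_left (by omega)) K hKf (t2.trans (le_of_eq ?_)))
    norm_cast
  simp only [QFull, not_forall] at hq
  obtain ⟨a, ha, hna⟩ := hq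
  obtain ⟨e, he, b, hb, hb0, h1⟩ := exists_mul_nu_mem (halg.1 a) ha
  refine h2 K hKf halg (r + 1) (Fin.cons b x) (fun i => ?_)
    (indep_cons (fun i => (hx i).1) hli fun h => hna ?_) (by omega) t2
  · exact Fin.cases ⟨hb, hb0⟩ (fun j => ⟨hle ((le_sup_left : E ≤ _) (hx j).1), (hx j).2⟩) i
  · exact mem_of_mul_mem (d := e) (by omega) (by simpa [← h1] using h)

namespace Tow

variable [IsUltrametricDist Ω] [Ctx k Ω] [IsAlgClosed Ω] [IsAlgClosed k] {p : ℕ} [Fact p.Prime]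
  [CharP k p]

omit [Ctx k Ω] [IsAlgClosed Ω] [IsAlgClosed k] in
theorem span_of_rank {L E : IntermediateField k Ω} (hle : L ≤ E) {d : ℕ} (hd : relrank L E ≤ d)
    {ρ : Fin d → Ω} (h1 : ∀ i, ρ i ∈ E ∧ ρ i ≠ 0)
    (h2 : ∀ i j, ∀ b ∈ L, ‖ρ i‖ = ‖b‖ * ‖ρ j‖ → i = j) {a : Ω} (ha : a ∈ E) :
    a ∈ Submodule.span L (Set.range ρ) := by
  by_contra h
  have h3 := (card_le_relrank hle (fun o => by cases o; exacts [ha, (h1 _).1])
    ((linearIndependent_of_class (fun i => (h1 i).2) h2).option h)).trans hd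
  rw [Cardinal.mk_fintype, Fintype.card_option, Fintype.card_fin, Cardinal.lift_natCast,
    Nat.cast_le] at h3
  omega

/-- One step. -/
theorem stp2 (hA : AscStmt k Ω) (hD : LU3.DescStmt k Ω) (hd : DegS k Ω)
    {A B : IntermediateField k Ω} (h : Stp2 p A B) (h0 : A.FG) :
    B.FG ∧ A ≤ B ∧ B ≤ acl A ∧ ∀ n : ℕ, DlS k Ω n → QFull A →
      Algebra.trdeg k A ≤ (n + 1 : ℕ) → SG k A → SG k B := by
  obtain ⟨z, hB, h⟩ := h
  rcases h with h | ⟨hz, P, d, h1, h2, h3, h | ⟨ρ, g1, g2⟩⟩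
  · obtain ⟨a1, a2, a3, a4⟩ := stp (p := p) hA hD hd ⟨z, hB, Or.inl h⟩ h0
    exact ⟨a1, a2, a3, fun _ _ _ _ => a4⟩
  · obtain ⟨a1, a2, a3, a4⟩ := stp (p := p) hA hD hd ⟨z, hB, Or.inr ⟨hz, P, d, h, h1, h2, h3⟩⟩ h0
    exact ⟨a1, a2, a3, fun _ _ _ _ => a4⟩
  obtain ⟨b1, b2⟩ := hd A z P d h1 h2 hz h3
  rw [← hB] at b2
  have a1 : B.FG := hB ▸ CoreL.fg_adj h0 z
  have a2 : A ≤ B := hB ▸ le_sup_left
  have a3 : B ≤ acl A := hB ▸ sup_le (le_acl A) (simple_le (mem_acl.2 b1))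
  have g3 : ∀ i, ρ i ∈ hens B ∧ ρ i ≠ 0 := fun i => ⟨le_hens _ (g1 i).1, (g1 i).2⟩
  have g4 : ∀ i j, ∀ b ∈ hens A, ‖ρ i‖ = ‖b‖ * ‖ρ j‖ → i = j := fun i j b hb h => by
    obtain ⟨c, hc, hcb⟩ := exists_norm_eq_of_mem_hens hb
    exact g2 i j c hc (by rwa [hcb])
  exact ⟨a1, a2, a3, fun n hn hq ht => hn A B h0 a1 a2 hq ((trdeg_le_of_alg a3).trans ht)
    (Fin d) ρ g3 g4 fun a ha => span_of_rank (hens_mono a2) b2 g3 g4 ha⟩

/-- A tower of steps. -/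
theorem tower2 (hA : AscStmt k Ω) (hD : LU3.DescStmt k Ω) (hd : DegS k Ω)
    {A B : IntermediateField k Ω} (h : Relation.ReflTransGen (Stp2 p) A B) (h0 : A.FG) :
    B.FG ∧ A ≤ B ∧ B ≤ acl A ∧ ∀ n : ℕ, DlS k Ω n → QFull A →
      Algebra.trdeg k A ≤ (n + 1 : ℕ) → SG k A → SG k B := by
  induction h with
  | refl => exact ⟨h0, le_rfl, le_acl A, fun _ _ _ _ => id⟩
  | tail _ h ih =>
    obtain ⟨a1, a2, a3, a4⟩ := ih
    obtain ⟨b1, b2, b3, b4⟩ := stp2 hA hD hd h a1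
    exact ⟨b1, a2.trans b2, fun x hx => mem_acl_of_alg a3 (mem_acl.1 (b3 hx)),
      fun n hn hq ht hs => b4 n hn (fun a ha => qv_mono a2 (hq a ha))
        ((trdeg_le_of_alg a3).trans ht) (a4 n hn hq ht hs)⟩

end Tow

theorem coreT2 [IsUltrametricDist Ω] [Ctx k Ω] [IsAlgClosed Ω] [IsAlgClosed k] (p : ℕ)
    [Fact p.Prime] [CharP k p] (hA : AscStmt k Ω) (hD : LU3.DescStmt k Ω) (hd : DegS k Ω)
    (hP : ∀ n, PfStmt k Ω n) (hI : IndS k Ω) (h3 : 7 ≤ p → IH k Ω 3) (hF : FinS k Ω)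
    (h2 : TwoS k Ω) (hl : ∀ n, IHF k Ω n → DlS k Ω n) : CoreT2 k Ω p := by
  intro E K y r x hE h halg hx hli htr
  obtain ⟨a1, a2, a3, a4⟩ := Tow.tower2 hA hD hd h (CoreL.fg_adj hE y)
  refine coreG2 hP hI h3 hF h2 E K y r x hE a1 a2 (fun a ha => mem_acl.1 (a3 ha)) halg
    (fun hq H => a4 _ (hl _ H) (fun a ha => qv_mono le_sup_left (hq a ha)) ?_) hx hli htr
  refine (CoreL.trdeg_sup_le E y).trans ((add_le_add htr le_rfl).trans (le_of_eq ?_))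
  push_cast
  ring

end Pool.Agent.MP_19ffc6_ag.LU4
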