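import Pool.Agent.MP_19ffc6_ag.LU4.All
import Pool.Agent.MP_19ffc6_ag.LU4.Dl
import Pool.Agent.MP_19ffc6_ag.LU4.Tow2
import Pool.Agent.MP_19ffc6_ag.LU4.GlueE

/-! PROJECT LU4, module ALLE: the embedded theorem. -/

namespace Pool.Agent.MP_19ffc6_ag.LU4

open Polynomial IntermediateField NNReal Pool.Agent.MP_19ffc6_ag.LU Pool.Agent.MP_19ffc6_ag.LU3

universe v

section

variable {k : Type*} {Ω : Type v} [Field k] [NontriviallyNormedField Ω] [Algebra k Ω]
  [IsUltrametricDist Ω] [IsAlgClosed k] [IsAlgClosed Ω] [Ctx k Ω] (p : ℕ) [Fact p.Prime]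
  [CharP k p]

open CoreL Pd in
/-- The inductive statement for an algebraic extension of `E(y)` that inherits it from `E(y)`. -/
theorem coreSG (E K : IntermediateField k Ω) (y : Ω) (r : ℕ) (x : Fin r → Ω) (hE : E.FG)
    (hKf : K.FG) (ha0 : K ≤ acl (E ⊔ adjoin k {y}))
    (halg : Algebra.IsAlgebraic K Ω)
    (hS : QFull E → IHF k Ω (r + 2) → Mv.SG k (E ⊔ adjoin k {y}) → Mv.SG k K)
    (hx : ∀ i, x i ∈ E ∧ x i ≠ 0) (hli : LinearIndependent ℤ fun i => nu (x i))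
    (htr : Algebra.trdeg k E ≤ r + 2) (hr : 2 ≤ r ∨ 7 ≤ p) : Mv.SG k K := by
  have t1 := trdeg_le_of_alg ha0
  have t2 : Algebra.trdeg k K ≤ (r + 1 + 2 : ℕ) := by
    refine t1.trans ((trdeg_sup_le E y).trans ((add_le_add htr le_rfl).trans (le_of_eq ?_)))
    push_cast
    ring
  have htr' : Algebra.trdeg k E ≤ (r + 2 : ℕ) := by exact_mod_cast htr
  have hqK : QFull K := fun a _ => vfull_self K a (halg.1 a)
  by_cases hq : QFull E
  · have H : IHF k Ω (r + 2) := by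
      by_cases h : 2 ≤ r
      · exact indS p r x (fun i => (hx i).2) hli h
      · exact fun F hF' ht _ => ih3 p (hr.resolve_left h) F hF'
          (ht.trans (Nat.cast_le.2 (by omega)))
    by_cases hy : IsAlgebraic E y
    · exact H K hKf (t1.trans ((trdeg_sup_alg hy).trans htr')) hqK
    · exact hS hq H (pf p _ H E y hE htr' hy hq)
  rcases Nat.eq_zero_or_pos r with rfl | hr0
  · exact ih3 p (hr.resolve_left (by omega)) K hKf t2
  simp only [QFull, not_forall] at hq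
  obtain ⟨a, ha, hna⟩ := hq
  refine indS p (r + 1) (Fin.cons a x) (fun i => ?_)
    (indep_cons (fun i => (hx i).1) hli hna) (by omega) K hKf t2 hqK
  exact Fin.cases ha (fun j => (hx j).2) i

/-- The inductive statement at the top of a tower. -/
theorem towSG (E K : IntermediateField k Ω) (y : Ω) (r : ℕ) (x : Fin r → Ω) (hE : E.FG)
    (h : Relation.ReflTransGen (Stp2 p) (E ⊔ adjoin k {y}) K) (halg : Algebra.IsAlgebraic K Ω)
    (hx : ∀ i, x i ∈ E ∧ x i ≠ 0) (hli : LinearIndependent ℤ fun i => nu (x i))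
    (htr : Algebra.trdeg k E ≤ r + 2) (hr : 2 ≤ r ∨ 7 ≤ p) : K.FG ∧ Mv.SG k K := by
  obtain ⟨a1, -, a3, a4⟩ := Tow.tower2 ascS descS deg h (CoreL.fg_adj hE y)
  refine ⟨a1, coreSG p E K y r x hE a1 a3 halg
    (fun hq H => a4 (r + 2) (dl p _ (pf p _) (tameS p) H)
      (fun a ha => qv_mono le_sup_left (hq a ha)) ?_) hx hli htr hr⟩
  refine (CoreL.trdeg_sup_le E y).trans ((add_le_add htr le_rfl).trans (le_of_eq ?_))
  push_cast
  ring

end

/-- One step inside a valued field. -/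
def StepE {k K : Type*} [Field k] [Field K] [Algebra k K] (p : ℕ) (v : Valuation K ℝ≥0)
    (A B : IntermediateField k K) : Prop :=
  ∃ z : K, B = A ⊔ IntermediateField.adjoin k {z} ∧ ((∃ a : ℕ, ¬ p ∣ a ∧ z ^ a ∈ A) ∨
    (v z < 1 ∧ ∃ (P : Polynomial K) (d : ℕ), (∀ i, P.coeff i ∈ A ∧ v (P.coeff i) ≤ 1) ∧
      v (P.coeff d) = 1 ∧ P.eval z = 0 ∧ (d < p ∨ ∃ ρ : Fin d → K, (∀ i, ρ i ∈ B ∧ ρ i ≠ 0) ∧
        ∀ i j, ∀ b ∈ A, v (ρ i) = v b * v (ρ j) → i = j)))

theorem StepE.map {k : Type*} {K Ω : Type v} [Field k] [Field K] [Algebra k K]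
    [NontriviallyNormedField Ω] [Algebra k Ω] (φ : K →ₐ[k] Ω) {p : ℕ} {v : Valuation K ℝ≥0}
    (hv : ∀ a, ‖φ a‖ = v a) {A B : IntermediateField k K} (h : StepE p v A B) :
    Stp2 p (A.map φ) (B.map φ) := by
  obtain ⟨z, hB, h⟩ := h
  refine ⟨φ z, by rw [hB, IntermediateField.map_sup, adjoin_map, Set.image_singleton], ?_⟩
  rcases h with ⟨a, ha, h⟩ | ⟨hz, P, d, h1, h2, h3, hd⟩
  · exact Or.inl ⟨a, ha, z ^ a, h, map_pow φ z a⟩
  · refine Or.inr ⟨by rw [hv]; exact_mod_cast hz, P.map (φ : K →+* Ω), d, fun i => ?_, ?_, ?_,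
      hd.imp id fun ⟨ρ, g1, g2⟩ => ⟨fun i => φ (ρ i),
        fun i => ⟨⟨_, (g1 i).1, rfl⟩, by simpa using (g1 i).2⟩, ?_⟩⟩
    · rw [coeff_map]
      refine ⟨⟨_, (h1 i).1, rfl⟩, ?_⟩
      change ‖φ _‖ ≤ 1
      rw [hv]
      exact_mod_cast (h1 i).2
    · rw [coeff_map]
      change ‖φ _‖ = 1
      rw [hv, h2]
      rfl
    · change (P.map (φ : K →+* Ω)).eval ((φ : K →+* Ω) z) = 0
      rw [eval_map, eval₂_hom, h3, map_zero]
    · rintro i j _ ⟨b, hb, rfl⟩ h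
      refine g2 i j b hb ?_
      change ‖φ (ρ i)‖ = ‖φ b‖ * ‖φ (ρ j)‖ at h
      rw [hv, hv, hv] at h
      exact_mod_cast h

theorem li_map {k : Type*} {K Ω : Type v} [Field k] [Field K] [Algebra k K]
    [NontriviallyNormedField Ω] [Algebra k Ω] (φ : K →ₐ[k] Ω) {v : Valuation K ℝ≥0}
    (hv : ∀ a, ‖φ a‖ = v a) {r : ℕ} {x : Fin r → K} (hx : ∀ i, x i ≠ 0)
    (hind : ∀ m : Fin r → ℤ, ∏ i, v (x i) ^ m i = 1 → m = 0) :
    LinearIndependent ℤ (fun i => nu (φ (x i))) := by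
  have hpos : ∀ i, (0 : ℝ) < v (x i) := fun i => by
    rw [← hv]; exact norm_pos_iff.2 (by simpa using hx i)
  have hli : LinearIndependent ℤ (fun i => nu (φ (x i))) := by
    rw [Fintype.linearIndependent_iff]
    intro m hm i
    have h1 : Real.log (∏ i, (v (x i) : ℝ) ^ m i) = 0 := by
      rw [Real.log_prod (fun i _ => (zpow_pos (hpos i) _).ne')]
      simp only [nu, hv, zsmul_eq_mul, mul_neg, Finset.sum_neg_distrib, neg_eq_zero] at hm
      simpa only [Real.log_zpow] using hm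
    have h2 : ∏ i, (v (x i) : ℝ) ^ m i = 1 :=
      Real.eq_one_of_pos_of_log_eq_zero (Finset.prod_pos fun i _ => zpow_pos (hpos i) _) h1
    have h3 : ∏ i, v (x i) ^ m i = 1 := by
      apply NNReal.coe_injective
      simpa using h2
    exact congrFun (hind m h3) i
  exact hli

theorem mainE (p : ℕ) [Fact p.Prime] (k : Type*) [Field k] [IsAlgClosed k] [CharP k p]
    (K : Type v) [Field K] [Algebra k K] (v : Valuation K ℝ≥0)
    (h1 : ∀ c : k, c ≠ 0 → v (algebraMap k K c) = 1)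
    (h2 : ∀ a : K, v a ≤ 1 → ∃ c : k, v (a - algebraMap k K c) < 1)
    (E : IntermediateField k K) (hE : E.FG) (y : K)
    (hK : Relation.ReflTransGen (StepE p v) (E ⊔ adjoin k {y}) ⊤)
    (r : ℕ) (x : Fin r → K) (hx : ∀ i, x i ∈ E ∧ x i ≠ 0)
    (hind : ∀ m : Fin r → ℤ, ∏ i, v (x i) ^ m i = 1 → m = 0)
    (htr : Algebra.trdeg k E ≤ r + 2) (hr : 2 ≤ r ∨ 7 ≤ p) (Z : Finset K)
    (hZ : ∀ z ∈ Z, v z ≤ 1) : ELU k v Z := by
  classical
  refine glueE k K v h1 h2 (fun Ω _ _ _ _ _ φ hv halg => ?_) Z hZ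
  have h0 : ∀ A B : IntermediateField k K, Relation.ReflTransGen (StepE p v) A B →
      Relation.ReflTransGen (Stp2 p) (A.map φ) (B.map φ) := fun A B h => by
    induction h with
    | refl => exact .refl
    | tail _ h ih => exact ih.tail (StepE.map φ hv h)
  have h3 := h0 _ _ hK
  rw [IntermediateField.map_sup, adjoin_map, Set.image_singleton, ← AlgHom.fieldRange_eq_map] at h3
  obtain ⟨t, ht⟩ := hE
  exact towSG p (E.map φ) _ (φ y) r (fun i => φ (x i))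
    ⟨t.image φ, by rw [Finset.coe_image, ← IntermediateField.adjoin_map, ht]⟩ h3 halg
    (fun i => ⟨⟨x i, (hx i).1, rfl⟩, by simpa using (hx i).2⟩)
    (li_map φ hv (fun i => (hx i).2) hind) (by rw [← (E.equivMap φ).trdeg_eq]; exact htr) hr

end Pool.Agent.MP_19ffc6_ag.LU4
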