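import Pool.Agent.MP_19ffc6_ag.LU3.PDef

/-! PROJECT LU4: local uniformization at points of multiplicity less than `p` over a ruled base.
Statements of the modules. -/

namespace Pool.Agent.MP_19ffc6_ag.LU4

open Polynomial IntermediateField Pool.Agent.MP_19ffc6_ag.LU Pool.Agent.MP_19ffc6_ag.LU3 Mv

universe u

variable (k : Type*) (Ω : Type u) [Field k] [NontriviallyNormedField Ω] [Algebra k Ω]

/-- The inductive statement for the fields that see all values of `Ω`. -/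
def IHF (n : ℕ) : Prop :=
  ∀ F : IntermediateField k Ω, F.FG → Algebra.trdeg k F ≤ n → QFull F → SG k F

/-- PF: the step for transcendental extensions of a field that sees all values. -/
def PfStmt (n : ℕ) : Prop :=
  IHF k Ω n → ∀ (F : IntermediateField k Ω) (y : Ω), F.FG → Algebra.trdeg k F ≤ n →
    Transcendental F y → QFull F → SG k (F ⊔ adjoin k {y})

variable {k Ω} in
/-- The henselization of `F` is that of a monomial field or of a ruled field over a full base. -/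
def Rul (F : IntermediateField k Ω) : Prop :=
  (∃ (m : ℕ) (x : Fin m → Ω), (∀ i, x i ≠ 0) ∧ LinearIndependent ℤ (fun i => nu (x i)) ∧
    adjoin k (Set.range x) ≤ hens F ∧ F ≤ hens (adjoin k (Set.range x))) ∨
  ∃ (B : IntermediateField k Ω) (t : Ω), B.FG ∧ QFull B ∧ Transcendental B t ∧
    B ⊔ adjoin k {t} ≤ hens F ∧ F ≤ hens (B ⊔ adjoin k {t})

/-- RULW: the structure of the henselization when `Ω` is algebraic over `F`. -/
def RulW : Prop :=
  ∀ F : IntermediateField k Ω, F.FG → Algebra.IsAlgebraic F Ω →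
    ∀ (r : ℕ) (x : Fin r → Ω), (∀ i, x i ∈ F ∧ x i ≠ 0) →
    LinearIndependent ℤ (fun i => nu (x i)) → 2 ≤ r → Algebra.trdeg k F ≤ r + 2 → Rul F

/-- RULT: the same for a field that sees all values. -/
def RulStmt : Prop :=
  ∀ F : IntermediateField k Ω, F.FG → QFull F →
    ∀ (r : ℕ) (x : Fin r → Ω), (∀ i, x i ∈ F ∧ x i ≠ 0) →
    LinearIndependent ℤ (fun i => nu (x i)) → 2 ≤ r → Algebra.trdeg k F ≤ r + 2 → Rul F

/-- Landed as `LU3.tame_of`. -/
def TameS (p : ℕ) : Prop :=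
  ∀ K0 K : IntermediateField k Ω, K0.FG → K.FG → K0 ≤ hens K →
    relrank (hens K0) (hens K) < p → SG k K0 → SG k K

/-- Landed as `LU3.Mv.mono`. -/
def MonoS : Prop :=
  ∀ (m : ℕ) (x : Fin m → Ω), AlgebraicIndependent k x →
    LinearIndependent ℤ (fun i => nu (x i)) → SG k (adjoin k (Set.range x))

/-- Landed as `LU3.Mv.final`. -/
def FinS : Prop :=
  ∀ K : IntermediateField k Ω, K.FG → SG k K → ∀ Z : Finset Ω, (∀ z ∈ Z, z ∈ K ∧ ‖z‖ ≤ 1) →
    ∃ A, Model K Z A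

/-- Landed as `LU2.core2`. -/
def TwoS : Prop :=
  ∀ (F : IntermediateField k Ω), F.FG → Algebra.IsAlgebraic F Ω →
    ∀ (r : ℕ) (x : Fin r → Ω), (∀ i, x i ∈ F ∧ x i ≠ 0) →
    LinearIndependent ℤ (fun i => nu (x i)) → 2 ≤ r → Algebra.trdeg k F ≤ r + 2 →
    ∀ Z : Finset Ω, (∀ z ∈ Z, z ∈ F ∧ ‖z‖ ≤ 1) → ∃ A, Model F Z A

/-- IND: the inductive statement up to defect two. -/
def IndS : Prop :=
  ∀ (r : ℕ) (x : Fin r → Ω), (∀ i, x i ≠ 0) → LinearIndependent ℤ (fun i => nu (x i)) → 2 ≤ r →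
    IHF k Ω (r + 2)

/-- DEG: the local degree is at most the Weierstrass degree. -/
def DegS : Prop :=
  ∀ (K0 : IntermediateField k Ω) (z : Ω) (P : Polynomial Ω) (d : ℕ),
    (∀ i, P.coeff i ∈ K0 ∧ ‖P.coeff i‖ ≤ 1) → ‖P.coeff d‖ = 1 → ‖z‖ < 1 → P.eval z = 0 →
    IsAlgebraic K0 z ∧ relrank (hens K0) (hens (K0 ⊔ adjoin k {z})) ≤ d

/-- CORE: the theorem inside `Ω`. -/
def CoreS (p : ℕ) : Prop :=
  ∀ (E K : IntermediateField k Ω) (y z : Ω) (P : Polynomial Ω) (d r : ℕ) (x : Fin r → Ω),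
    E.FG → K = (E ⊔ adjoin k {y}) ⊔ adjoin k {z} → Algebra.IsAlgebraic K Ω →
    (∀ i, P.coeff i ∈ E ⊔ adjoin k {y} ∧ ‖P.coeff i‖ ≤ 1) → ‖P.coeff d‖ = 1 → ‖z‖ < 1 →
    P.eval z = 0 → d < p → (∀ i, x i ∈ E ∧ x i ≠ 0) →
    LinearIndependent ℤ (fun i => nu (x i)) → Algebra.trdeg k E ≤ r + 2 → 2 ≤ r ∨ 7 ≤ p →
    ∀ Z : Finset Ω, (∀ a ∈ Z, a ∈ K ∧ ‖a‖ ≤ 1) → ∃ A, Model K Z A

end Pool.Agent.MP_19ffc6_ag.LU4
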