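import Pool.Agent.MP_19ffc6_ag.LU3.Kn
import Pool.Agent.MP_19ffc6_ag.LU4.Spec

/-! Module PF of PROJECT LU4: the step for transcendental extensions, with the inductive
hypothesis only for fields that see all values. -/

namespace Pool.Agent.MP_19ffc6_ag.LU4

open Polynomial IntermediateField Pool.Agent.MP_19ffc6_ag.LU Pool.Agent.MP_19ffc6_ag.LU3

universe u

variable {k : Type*} {Ω : Type u} [Field k] [NontriviallyNormedField Ω] [Algebra k Ω]

namespace Pf

/-- The data of the induction with a base that sees all values. -/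
def DatF (n : ℕ) (F : IntermediateField k Ω) (y : Ω) (Z : Finset Ω) : Prop :=
  Dat n F y Z ∧ QFull F

theorem qfull_mono {F E : IntermediateField k Ω} (h : QFull F) (hE : F ≤ E) : QFull E :=
  fun a ha => qv_mono hE (h a ha)

theorem vfull_of {F : IntermediateField k Ω} (h : QFull F) (K : IntermediateField k Ω) :
    VFull F K := fun a _ => by
  by_cases h0 : a = 0
  · simp [h0, nu]
  · exact h a h0

theorem qfull_swap {F : IntermediateField k Ω} (h : QFull F) {ι : Type} [DecidableEq ι]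
    {ξ : ι → Ω} (i0 : ι) (w : Ω)
    (hfull : ∀ α ∈ qv F, α ∈ Submodule.span ℚ (Set.range fun i => nu (ξ i))) {th : Ω}
    (hn : ‖th‖ = ‖ξ i0‖) :
    QFull (adjoin k (Set.range (Function.update ξ i0 w)) ⊔ adjoin k {th}) := fun a ha => by
  refine Submodule.span_le.2 (Set.forall_mem_range.2 fun i => ?_) (hfull _ (h a ha))
  by_cases hi : i = i0
  · rw [hi, ← nu_eq_of_norm_eq hn]
    exact nu_mem_qv (Pd.self_mem _ th)
  · refine nu_mem_qv ((le_sup_left : _ ≤ _ ⊔ adjoin k {th}) (subset_adjoin _ _ ⟨i, ?_⟩))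
    simp [hi]

section

open Orth Mv TermM

variable [IsAlgClosed Ω] [Ctx k Ω]

theorem pfin {n : ℕ} (hq : ∀ q, PQa (DatF (k := k) (Ω := Ω) n) PD q) {F : IntermediateField k Ω} {y : Ω} (hF : F.FG)
    (hd : Algebra.trdeg k F ≤ n) (hy : Transcendental F y) (hQ : QFull F) :
    SG k (F ⊔ adjoin k {y}) := by
  classical
  have hf : VFull F (F ⊔ adjoin k {y}) := vfull_of hQ _
  obtain ⟨Z, hZ⟩ := hF
  refine sg_of (insert y Z) (fun z hz => ?_) fun W hW => ?_
  · rcases Finset.mem_insert.1 hz with rfl | hz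
    · exact (le_sup_right : adjoin k {z} ≤ _) (mem_adjoin_simple_self k z)
    · exact (le_sup_left : F ≤ _) (hZ ▸ subset_adjoin k _ hz)
  choose! f g hf1 hg1 hf0 hg0 hfg using fun w (hw : w ∈ W) => exists_quot (hW w hw).1 (hW w hw).2
  have h3 : ∀ P ∈ W.image f ∪ W.image g, (∀ i, P.coeff i ∈ F) ∧ P ≠ 0 := fun P hP => by
    rcases Finset.mem_union.1 hP with hP | hP <;> obtain ⟨w, hw, rfl⟩ := Finset.mem_image.1 hP
    exacts [⟨hf1 w hw, hf0 w hw⟩, ⟨hg1 w hw, hg0 w hw⟩]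
  obtain ⟨R, a, ha, haR, hR⟩ := exists_disc hy hf _ h3
  obtain ⟨ι, _, ξ, I, hs, hξ, hgd, hsp⟩ := hq _ F y Z R a ⟨⟨hZ, hd, hy, hf⟩, hQ⟩ ha haR le_rfl _
    fun P hP => ⟨(h3 P hP).1, hR P hP⟩
  refine ⟨ι, inferInstance, ξ, I, hs, hξ, fun w hw => ?_, hsp.mono ?_⟩
  · rw [hfg w hw]
    exact (hgd _ (Finset.mem_union_left _ (Finset.mem_image_of_mem _ hw))).div hs
      (hgd _ (Finset.mem_union_right _ (Finset.mem_image_of_mem _ hw)))
  · rw [Finset.coe_insert]; exact Set.subset_union_left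

variable [IsUltrametricDist Ω] [Infinite k]

theorem term {n : ℕ} {F : IntermediateField k Ω} (ih : SG k F) {y c : Ω} {Z : Finset Ω} {R : ℝ}
    (hD : Dat n F y Z) (hc : c ∈ F) (hcR : ‖c - y‖ < R) : PD F y R Z := by
  classical
  intro GG hG
  obtain ⟨v, hv, hv0, Hv⟩ := denom hD.gen hc
  obtain ⟨ι, _, ξ, I, hs, hξ, hgd, hsp⟩ := ih Z
    (insert v (GG.biUnion fun g => (taylor c g).coeffs)) hD.gen (by
      simp only [Finset.forall_mem_insert, Finset.mem_biUnion]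
      refine ⟨⟨hv, hv0⟩, ?_⟩
      rintro _ ⟨g, hg, h⟩
      obtain ⟨i, hi, rfl⟩ := mem_coeffs_iff.1 h
      exact ⟨Phi.taylor_mem (hG g hg).1 hc i, mem_support_iff.1 hi⟩)
  simp only [Finset.forall_mem_insert, Finset.mem_biUnion] at hgd
  obtain ⟨gv, gG⟩ := hgd
  have hz : Transcendental (adjoin k (Set.range ξ)) (y - c) := fun ha => hD.tr (by
    simpa using (isAlgebraic_trans (fun z hz => alg_of_mem_hens
      ((adjoin_le_iff.2 (Set.range_subset_iff.2 hξ) : adjoin k _ ≤ _) hz)) ha).add (alg_of_mem hc))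
  obtain ⟨ξ1, I1, s1, s2, s3, s5, s4⟩ := addz hs hz
  have h0 : ∀ g ∈ GG, (taylor c g).coeff 0 ≠ 0 := fun g hg => by
    rw [taylor_coeff_zero]; exact (hG g hg).2 c hcR
  have hlt : ∀ g ∈ GG, ∀ i, i ≠ 0 →
      ‖((taylor c g).coeff 0)⁻¹ * ((taylor c g).coeff i * (y - c) ^ i)‖ < 1 := fun g hg i hi => by
    rw [norm_mul, norm_inv, inv_mul_lt_iff₀ (norm_pos_iff.2 (h0 g hg)), mul_one]
    exact taylor_lt (hG g hg).2 hcR hi
  have hg0 : ∀ g ∈ GG, ∀ i ∈ (taylor c g).support, Gd k ξ1 I1 ((taylor c g).coeff i) :=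
    fun g hg i hi => (gG _ ⟨g, hg, coeff_mem_coeffs (mem_support_iff.1 hi)⟩).mono s1 s2
  obtain ⟨ξ2, t1, t2, t4, -, -, t3, t5⟩ := ref s1 (GG.biUnion fun g =>
      ((taylor c g).support.erase 0).image
        fun i => ((taylor c g).coeff 0)⁻¹ * ((taylor c g).coeff i * (y - c) ^ i)) (by
    simp only [Finset.mem_biUnion, Finset.mem_image, Finset.mem_erase]
    rintro _ ⟨g, hg, i, ⟨hi0, hi⟩, rfl⟩
    exact ⟨(hg0 g hg 0 (mem_support_iff.2 (h0 g hg))).inv.mul s1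
      ((hg0 g hg i hi).mul s1 (s5.pow s1 i)), (hlt g hg i hi0).le⟩)
  have hK : adjoin k (insert (y - c) (Set.range ξ)) ≤ hens (F ⊔ adjoin k {y}) := by
    refine adjoin_le_iff.2 (Set.insert_subset (le_hens _ (sub_mem ?_ ?_))
      (Set.range_subset_iff.2 fun i => hens_le_hens (le_sup_left.trans (le_hens _)) (hξ i)))
    exacts [(le_sup_right : adjoin k {y} ≤ _) (mem_adjoin_simple_self k y),
      (le_sup_left : F ≤ _) hc]
  refine ⟨_, inferInstance, ξ2, I1, t1, fun i => hK ((adjoin_le_iff.2 (Set.range_subset_iff.2 s3) :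
    adjoin k _ ≤ _) (t3 ▸ subset_adjoin k _ ⟨i, rfl⟩)), fun g hg => ?_, fun A hA hZA => ?_⟩
  · set P := taylor c g with hP
    have e1 : g.eval y = P.coeff 0 *
        (1 + ∑ i ∈ P.support.erase 0, (P.coeff 0)⁻¹ * (P.coeff i * (y - c) ^ i)) := by
      rw [← Finset.mul_sum, mul_add, mul_inv_cancel_left₀ (h0 g hg), ← taylor_eval_sub c,
        eval_eq_sum, sum_def, ← Finset.add_sum_erase _ _ (mem_support_iff.2 (h0 g hg)), pow_zero]
    rw [e1]
    refine ((hg0 g hg 0 (mem_support_iff.2 (h0 g hg))).mono t1 t2).mul t1 (Gd.unit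
      (add_mem (one_mem _) (sum_mem fun i hi => (t5 _ ?_).1)) ?_)
    · exact Finset.mem_biUnion.2 ⟨g, hg, Finset.mem_image_of_mem _ hi⟩
    · have := norm_sum_lt_of (s := P.support.erase 0) one_pos
        fun i hi => hlt g hg i (Finset.ne_of_mem_erase hi)
      rw [IsUltrametricDist.norm_add_eq_max_of_norm_ne_norm (by rw [norm_one]; exact this.ne'),
        norm_one, max_eq_left this.le]
  · have h1 : (Z : Set Ω) ⊆ A := (Set.subset_insert _ _).trans hZA
    have hA1 := hA.mono s1 t1 t2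
    have hA0 := hA1.mono hs s1 s2
    exact t4 A hA.1 (s4 A hA1.1 (sub_mem (hZA (Set.mem_insert _ _)) (Hv hA0 h1 gv))
      (hsp A hA0 h1))

end

section

open Mv Hr Pd Sw Swp

variable [IsUltrametricDist Ω] [Ctx k Ω] [IsAlgClosed Ω] [Infinite k]

theorem base_chart {n : ℕ} {F : IntermediateField k Ω} (ih : SG k F) {y : Ω} {Z : Finset Ω}
    (h : Dat n F y Z) (S : Finset (Polynomial Ω)) (hS : ∀ g ∈ S, ∀ i, g.coeff i ∈ F) :
    ∃ (ι : Type) (_ : Fintype ι) (ξ : ι → Ω) (I : Finset ι), IsChart k ξ I ∧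
      (∀ i, ξ i ∈ hens F) ∧ Sp k ξ I Z ∧
      (∀ α ∈ qv F, α ∈ Submodule.span ℚ (Set.range fun i => nu (ξ i))) ∧
      ∀ g ∈ S, ∀ i, (g.coeff i ≠ 0 → Gd k ξ I (g.coeff i)) ∧
        (‖g.coeff i‖ ≤ 1 → NG k ξ (g.coeff i)) := by
  classical
  obtain ⟨B, hB, hB'⟩ := exists_finset_qv (F := F) (h.dim.trans_lt (Cardinal.natCast_lt_aleph0))
  obtain ⟨ι, _, ξ, I, h1, h2, h3, h4⟩ := ih.ref Z (B ∪ S.biUnion coeffs) h.gen (by
    intro w hw
    rcases Finset.mem_union.1 hw with hw | hw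
    · exact hB w hw
    · obtain ⟨g, hg, hw⟩ := Finset.mem_biUnion.1 hw
      obtain ⟨i, hi, rfl⟩ := mem_coeffs_iff.1 hw
      exact ⟨hS g hg i, mem_support_iff.1 hi⟩)
  have h5 : ∀ g ∈ S, ∀ i, g.coeff i ≠ 0 → g.coeff i ∈ B ∪ S.biUnion coeffs := fun g hg i hi =>
    Finset.mem_union_right _ (Finset.mem_biUnion.2 ⟨g, hg, coeff_mem_coeffs hi⟩)
  refine ⟨ι, inferInstance, ξ, I, h1, h2, h4, fun α hα => ?_, fun g hg i =>
    ⟨fun hi => (h3 _ (h5 g hg i hi)).1, fun hi => ?_⟩⟩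
  · obtain ⟨d, hd, h6⟩ := hB' α hα
    refine mem_of_mul_mem (d := d) (by omega) ?_
    rw [Int.cast_natCast]
    refine (AddSubgroup.closure_le (Submodule.span ℚ
      (Set.range fun i => nu (ξ i))).toAddSubgroup).2 ?_ h6
    rintro _ ⟨b, hb, rfl⟩
    exact nu_mem_span h1 (h3 b (Finset.mem_union_left _ hb)).1
  · by_cases h0 : g.coeff i = 0
    · exact Or.inl h0
    · exact ng_of_nt ((h3 _ (h5 g hg i h0)).2.1 hi)

variable [DecidableEq Ω]

theorem swap (p : ℕ) [hp : Fact p.Prime] [CharP k p] {n q : ℕ} (kn : KnStmt k Ω p)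
    (ih : IHF k Ω n) (adj : AdjStmt k Ω) (pq : PQa (DatF (k := k) (Ω := Ω) n) PD q)
    (F : IntermediateField k Ω) (y : Ω) (Z : Finset Ω) (R : ℝ) (a : Ω) (s : ℕ) (ψ : Ω) (rr : ℝ)
    (hDF : DatF n F y Z) (hs : 0 < s) (hψ : ψ ∈ F) (hy : ‖y‖ ≤ 1) (ha : IsAlgebraic F a)
    (hay : ‖a - y‖ < R) (hq : (minpoly (hens F) a).natDegree ≤ q + 1) (hw : ‖y ^ p ^ s - ψ‖ < rr)
    (hroot : ∀ b, aeval b (minpoly (hens F) a) = 0 → ‖b ^ p ^ s - ψ‖ < rr ∧ ‖b‖ ≤ 1)
    (hc : ∀ c ∈ hens F, rr ≤ ‖ψ - c ^ p‖)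
    (hinf : ∀ r, rr < r → ∃ c ∈ F, ‖y - c‖ ^ p ^ s < r) : PD F y R Z := by
  classical
  have : CharP Ω p := charP_of_injective_algebraMap (algebraMap k Ω).injective p
  have : ExpChar Ω p := ExpChar.prime hp.out
  intro GG hGG
  have hD := hDF.1
  have hS : SG k F := ih F hD.fg hD.dim hDF.2
  have hψ1 : ‖ψ‖ ≤ 1 := not_lt.1 fun h => by
    have h1 := hc 0 (zero_mem _)
    rw [zero_pow hp.out.ne_zero, sub_zero] at h1
    rw [norm_sub_rev, norm_sub_eq_left (lt_of_le_of_lt (by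
      rw [norm_pow]; exact pow_le_one₀ (norm_nonneg _) hy) h)] at hw
    exact h1.not_gt hw
  have hrr1 : rr ≤ 1 := by
    have h1 := hc 0 (zero_mem _)
    rw [zero_pow hp.out.ne_zero, sub_zero] at h1
    exact h1.trans hψ1
  -- scaling of `GG`
  obtain ⟨b, hb, hb0, hb1⟩ := Phi.exists_scale F.toSubfield (GG.biUnion coeffs) fun x hx => by
    obtain ⟨g, hg, hx⟩ := Finset.mem_biUnion.1 hx
    obtain ⟨i, -, rfl⟩ := mem_coeffs_iff.1 hx
    exact (hGG g hg).1 i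
  have hG1 : ∀ g ∈ GG.image (C b * ·), (∀ i, g.coeff i ∈ F ∧ ‖g.coeff i‖ ≤ 1) ∧
      ∀ T, ‖T - y‖ < R → g.eval T ≠ 0 := by
    intro g' hg'
    obtain ⟨g, hg, rfl⟩ := Finset.mem_image.1 hg'
    refine ⟨fun i => ?_, fun T hT => ?_⟩
    · rw [coeff_C_mul]
      refine ⟨F.mul_mem hb ((hGG g hg).1 i), ?_⟩
      by_cases h : g.coeff i = 0
      · simp [h]
      · exact hb1 _ (Finset.mem_biUnion.2 ⟨g, hg, coeff_mem_coeffs h⟩)
    · rw [eval_mul, eval_C]
      exact mul_ne_zero hb0 ((hGG g hg).2 T hT)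
  have hai : IsIntegral (hens F) a := (isAlgebraic_of_le (le_hens F) ha).isIntegral
  obtain ⟨Φ, G, r1, r2, rP, -, Gm, d1, d2, hΦ, hG, hid, w1, h12, h2r, hGi, hP, -, hN⟩ :=
    phi F p s hai hay hψ hw hroot _ (fun g hg i => ((hG1 g hg).1 i).1) fun g hg => (hG1 g hg).2
  choose! Ng gs n1 n2 n3 n4 n5 using hN
  have hr1 : 0 < r1 := (norm_nonneg _).trans_lt w1
  have hr2 : 0 < r2 := hr1.trans h12
  have hlt : rr < rr ^ 2 / r2 := by
    rw [lt_div_iff₀ hr2, pow_two]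
    exact mul_lt_mul_of_pos_left h2r (hr2.trans h2r)
  obtain ⟨c, hcF, c1, c2⟩ : ∃ c ∈ F, ‖c‖ ≤ 1 ∧ ‖y - c‖ ^ p ^ s < rr ^ 2 / r2 := by
    obtain ⟨c, hcF, h⟩ := hinf _ hlt
    by_cases h1 : ‖y - c‖ ≤ 1
    · refine ⟨c, hcF, ?_, h⟩
      rw [← sub_sub_cancel y c]
      exact norm_sub_le_of hy h1
    · refine ⟨0, F.zero_mem, by simp, lt_of_le_of_lt ?_ h⟩
      rw [sub_zero]
      exact pow_le_pow_left₀ (norm_nonneg _) (hy.trans (not_le.1 h1).le) _
  set e := ψ - c ^ p ^ s with he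
  have hψe : c ^ p ^ s + e = ψ := add_sub_cancel _ _
  have e1 : ‖e‖ ≤ 1 :=
    norm_sub_le_of hψ1 (by rw [norm_pow]; exact pow_le_one₀ (norm_nonneg _) c1)
  have e2 : r2 * ‖e‖ < rr ^ 2 := by
    rw [← lt_div_iff₀' hr2, show e = (y - c) ^ p ^ s - (y ^ p ^ s - ψ) by
      rw [sub_pow_expChar_pow, he]; ring]
    exact norm_sub_lt_of (by rwa [norm_pow]) (hw.trans hlt)
  have hG1' : ∀ i, ‖G.coeff i‖ ≤ 1 := fun i => by
    rcases lt_trichotomy i G.natDegree with h | rfl | h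
    · exact (hGi i h).le.trans (pow_le_one₀ hr1.le ((h12.trans h2r).le.trans hrr1))
    · rw [Gm.coeff_natDegree, norm_one]
    · rw [coeff_eq_zero_of_natDegree_lt h, norm_zero]
      exact zero_le_one
  have hC : ∀ x ∈ F, ∀ i, (C x).coeff i ∈ F := fun x hx i => by
    rw [coeff_C]
    split_ifs
    exacts [hx, F.zero_mem]
  set G1 := GG.image (C b * ·) with hG1d
  obtain ⟨ι, _, ξ, I, a1, a2, a3, a4, a5⟩ := base_chart hS hD
    ({C b, C c, C e, Φ, G} ∪ (G1 ∪ (G1.image Ng ∪ G1.image gs))) (by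
      intro g hg
      simp only [Finset.mem_union, Finset.mem_insert, Finset.mem_singleton] at hg
      rcases hg with (rfl | rfl | rfl | rfl | rfl) | hg | hg | hg
      · exact hC b hb
      · exact hC c hcF
      · exact hC e (F.sub_mem hψ (pow_mem hcF _))
      · exact fun i => (hΦ i).1
      · exact hG
      · exact fun i => ((hG1 g hg).1 i).1
      · obtain ⟨g', hg', rfl⟩ := Finset.mem_image.1 hg
        exact fun i => (n1 g' hg' i).1
      · obtain ⟨g', hg', rfl⟩ := Finset.mem_image.1 hg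
        exact fun i => (n2 g' hg' i).1)
  have hq0 : 0 < G.natDegree := by
    rw [d2, d1]
    exact minpoly.natDegree_pos hai
  obtain ⟨i0, ct, N, hcore⟩ := Sw.core (fun K1 E Ph zz y1 sg A rb r1 r2 rP j q t1 t2 t3 t4 t5 _ =>
      annulus t1 t2 t3 t4 t5) p hs a1.ind a1.small hy (c := c) (e := e)
    (by simpa using (a5 (C c) (by simp) 0).2 (by simpa using c1))
    (by simpa using (a5 (C e) (by simp) 0).2 (by simpa using e1))
    (fun i => (a5 Φ (by simp) i).2 (hΦ i).2) (fun i => (a5 G (by simp) i).2 (hG1' i)) Gm hq0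
    (by rwa [hψe]) (by rwa [hψe]) h12 h2r e2 hGi hP G1
    (fun g hg => ⟨fun i => (a5 g (by simp [hg]) i).2 ((hG1 g hg).1 i).2, Ng g, gs g,
      fun i => (a5 _ (Finset.mem_union_right _ (Finset.mem_union_right _ (Finset.mem_union_left _
        (Finset.mem_image_of_mem _ hg)))) i).2 (n1 g hg i).2,
      fun i => (a5 _ (Finset.mem_union_right _ (Finset.mem_union_right _ (Finset.mem_union_right _
        (Finset.mem_image_of_mem _ hg)))) i).2 (n2 g hg i).2, n3 g hg, n4 g hg, n5 g hg⟩)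
    (fun f hf => by
      by_contra h
      obtain ⟨x, hx, h1⟩ := kn F hD.fg hS ι ξ
        (fun i => ⟨a2 i, a1.ne i, (a1.small i).le⟩) f rr (hr2.trans h2r)
        fun i => not_le.1 fun h1 => h ⟨i, h1⟩
      refine (hc x hx).not_gt ?_
      rw [hψe] at hf
      rw [← sub_add_sub_cancel _ (MvPolynomial.aeval ξ f)]
      exact norm_add_lt_of hf h1)
  have hct : MvPolynomial.aeval ξ ct ∈ hens F :=
    Algebra.adjoin_le (S := (hens F).toSubalgebra) (Set.forall_mem_range.2 a2) (aeval_mem_R ξ ct)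
  set z := y - MvPolynomial.aeval ξ ct with hz
  have hzK : z ∈ adjoin k (Set.range (Function.update ξ i0 z)) :=
    subset_adjoin _ _ ⟨i0, Function.update_self ..⟩
  obtain ⟨E, th, a', R', b1, b2, b3, b4, b5, b6, b7, b8, b9, b10⟩ :=
    hcore (adjoin k (Set.range (Function.update ξ i0 z)))
      (fun i hi => subset_adjoin _ _ ⟨i, Function.update_of_ne hi ..⟩) hzK
  have hR' : 0 < R' := (norm_nonneg _).trans_lt b5
  have hm : ∀ i, (E - C (z ^ p ^ s)).coeff i ∈ adjoin k (Set.range (Function.update ξ i0 z)) :=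
    fun i => by
      rw [coeff_sub, coeff_C]
      refine sub_mem (b1 i) ?_
      split_ifs
      exacts [pow_mem hzK _, zero_mem _]
  have hm0 : (E - C (z ^ p ^ s)).eval th = 0 := by rw [eval_sub, eval_C, b2, sub_self]
  have hmd : (E - C (z ^ p ^ s)).derivative = E.derivative := by
    rw [derivative_sub, derivative_C, sub_zero]
  have hth : IsAlgebraic (adjoin k (Set.range (Function.update ξ i0 z))) th := by
    obtain ⟨Q, hQ⟩ := Phi.exists_lift hm
    refine ⟨Q, fun h => (b9 (ξ i0) (by rwa [sub_self, norm_zero])).1 ?_, ?_⟩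
    · rw [← hmd, ← hQ, h, Polynomial.map_zero, derivative_zero, eval_zero]
    · rw [← eval_map_algebraMap, hQ, hm0]
  have hPD := adj _ (ξ i0) (Finset.univ.image (Function.update ξ i0 z)) R' _ X th (by simp) hm
    (fun i => by rw [coeff_X]; split_ifs; exacts [one_mem _, zero_mem _]) hm0 b4 hR'
    (fun T hT => by
      rw [eval_X, hmd]
      refine ⟨?_, (b9 T hT).1, fun l hl => ?_⟩
      · rintro rfl
        rw [zero_sub, norm_neg] at hT
        exact b6.not_gt hT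
      · rw [map_sub, hasseDeriv_C _ _ (by omega), sub_zero]
        exact (b9 T hT).2 l hl)
    (pq _ _ _ R' a' ⟨hD.swap a1.ind a2 i0 hct a4 hth b3, qfull_swap hDF.2 i0 _ a4 b3⟩
      (isAlgebraic_of_le le_sup_left b7) b5
      (by omega))
  choose! gh g1 g2 g3 d g4 g5 using b10
  obtain ⟨ι', _, ξ', I', f1, f2, f3, f4, f5⟩ := back hy a1 a2 a3 i0 ct b6 (fun h => hD.tr (by
    rw [sub_eq_zero.1 h]
    exact alg_of_mem_hens hct)) hPD G1 gh d (fun g hg => ⟨g1 g hg, g2 g hg⟩) g3 g4 g5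
  refine ⟨ι', inferInstance, ξ', I', f1, f3, fun g hg => ?_, f5⟩
  have h1 : Gd k ξ I b := by simpa using (a5 (C b) (by simp) 0).1 (by simpa using hb0)
  have h2 := (f4 _ (Finset.mem_image_of_mem _ hg)).div f1 (h1.mono f1 f2)
  rwa [eval_mul, eval_C, mul_div_cancel_left₀ _ hb0] at h2

end

end Pf

open Pf in
theorem pf [IsUltrametricDist Ω] [IsAlgClosed k] [IsAlgClosed Ω] [Ctx k Ω] (p : ℕ) [Fact p.Prime]
    [CharP k p] (n : ℕ) : PfStmt k Ω n := by
  classical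
  exact fun ih _ _ => pfin (pq_of p (Dat := DatF n) (PD := PD) (fun _ _ _ h => h.1.full)
    (fun _ _ _ _ h ht => ⟨h.1.adj ht, qfull_mono h.2 le_sup_left⟩)
    (fun _ _ _ _ _ h hb h0 hc => ⟨h.1.aff hb hc h0, h.2⟩)
    (fun F _ _ _ _ h => term (ih F h.1.fg h.1.dim h.2) h.1)
    (fun F y Z R b c h hb h0 hc => affStmt F y Z R b c h.1.gen hb hc h0)
    (fun F y Z R m U th h => adjStmt F y Z R m U th h.1.gen)
    fun _ hq => swap p (kn p) ih adjStmt hq)

end Pool.Agent.MP_19ffc6_ag.LU4
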