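import Pool.Agent.MP_19ffc6_ag.LU3.FinalA

/-! PROJECT LU4, module EMBA: smooth models whose centre is generated by given coordinates. -/

namespace Pool.Agent.MP_19ffc6_ag.LU4

open Polynomial IntermediateField Pool.Agent.MP_19ffc6_ag.LU Pool.Agent.MP_19ffc6_ag.LU3
open Pool.Agent.MP_19ffc6_ag.LU3.FinalA

namespace Emb

variable {k Ω : Type*} [Field k] [NontriviallyNormedField Ω] [Algebra k Ω] {ι : Type} [Fintype ι]

/-- A smooth model whose centre is generated by `x`. -/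
def CM (K : IntermediateField k Ω) (Z : Finset Ω) (x : ι → Ω) : Prop :=
  ∃ A, Model K Z A ∧ (∀ i, x i ∈ A) ∧ ∀ a ∈ A, ‖a‖ < 1 → JJ A x a

/-- The elements of `A` that are constants modulo the coordinates. -/
def SS (A : Subalgebra k Ω) (x : ι → Ω) : Subalgebra k Ω where
  carrier := {a | a ∈ A ∧ ∃ c : k, JJ A x (a - algebraMap k Ω c)}
  mul_mem' := by
    rintro a b ⟨ha, c, hc⟩ ⟨hb, d, hd⟩
    refine ⟨mul_mem ha hb, c * d, ?_⟩
    have := (hc.mul hb).add (hd.mul (A.algebraMap_mem c))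
    rwa [show b * (a - algebraMap k Ω c) + algebraMap k Ω c * (b - algebraMap k Ω d) =
      a * b - algebraMap k Ω (c * d) by rw [map_mul]; ring] at this
  add_mem' := by
    rintro a b ⟨ha, c, hc⟩ ⟨hb, d, hd⟩
    refine ⟨add_mem ha hb, c + d, ?_⟩
    have := hc.add hd
    rwa [show a - algebraMap k Ω c + (b - algebraMap k Ω d) =
      a + b - algebraMap k Ω (c + d) by rw [map_add]; ring] at this
  algebraMap_mem' c := ⟨A.algebraMap_mem c, c, 1, one_mem _, norm_one, 0, fun _ => zero_mem _,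
    by simp⟩

variable [IsUltrametricDist Ω] [Ctx k Ω] {A : Subalgebra k Ω} {x : ι → Ω}

omit [Ctx k Ω] in
theorem jj_lt (hA : ∀ a ∈ A, ‖a‖ ≤ 1) (hx : ∀ i, ‖x i‖ < 1) {a : Ω} (h : JJ A x a) : ‖a‖ < 1 := by
  obtain ⟨t, -, ht, c, hc, e⟩ := h
  have := congrArg norm e
  rw [norm_mul, ht, one_mul] at this
  rw [this]
  refine norm_sum_lt_of one_pos fun i _ => ?_
  rw [norm_mul]
  exact mul_lt_one_of_nonneg_of_lt_one_right (hA _ (hc i)) (norm_nonneg _) (hx i)

theorem SS.small (hA : ∀ a ∈ A, ‖a‖ ≤ 1) (hx : ∀ i, ‖x i‖ < 1) {a : Ω} (h : a ∈ SS A x)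
    (ha : ‖a‖ < 1) : JJ A x a := by
  obtain ⟨-, c, hc⟩ := h
  have h2 : ‖algebraMap k Ω c‖ < 1 := by
    have := norm_sub_lt_of ha (jj_lt hA hx hc)
    rwa [sub_sub_cancel] at this
  rwa [eq_zero_of_norm_alg_lt h2, map_zero, sub_zero] at hc

omit [Ctx k Ω] in
theorem SS.inv (hA : ∀ a ∈ A, ‖a‖ ≤ 1) (hx : ∀ i, ‖x i‖ < 1) {u : Ω} (h : u ∈ SS A x)
    (huA : u⁻¹ ∈ A) (hu1 : ‖u‖ = 1) : u⁻¹ ∈ SS A x := by
  obtain ⟨-, c, hc⟩ := h
  have hu0 := ne_zero_of_norm_eq_one hu1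
  have hc0 : algebraMap k Ω c ≠ 0 := by
    intro h
    have := jj_lt hA hx hc
    rw [h, sub_zero, hu1] at this
    exact lt_irrefl _ this
  refine ⟨huA, c⁻¹, ?_⟩
  have := hc.mul (neg_mem (mul_mem huA (A.algebraMap_mem c⁻¹)))
  rwa [show -(u⁻¹ * algebraMap k Ω c⁻¹) * (u - algebraMap k Ω c) =
    u⁻¹ - algebraMap k Ω c⁻¹ by rw [map_inv₀]; field_simp; ring] at this

theorem SS.root (hA : ∀ a ∈ A, ‖a‖ ≤ 1) (hx : ∀ i, ‖x i‖ < 1) {η : Ω} {P : Polynomial Ω}
    (hP : ∀ i, P.coeff i ∈ SS A x) (hη : η ∈ A) (h0 : P.eval η = 0)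
    (h1 : ‖P.derivative.eval η‖ = 1) : η ∈ SS A x := by
  obtain ⟨c, hc⟩ := Ctx.res (k := k) η (hA η hη)
  rw [norm_sub_rev] at hc
  have hδ : algebraMap k Ω c - η ∈ A := sub_mem (A.algebraMap_mem c) hη
  obtain ⟨κ, hκ, h⟩ := Desc.taylor A P (fun i => (hP i).1) hη hδ
  rw [add_sub_cancel, h0, zero_add] at h
  have h4 : ‖P.derivative.eval η + κ * (algebraMap k Ω c - η)‖ = 1 := by
    rw [norm_add_eq_left, h1]
    rw [h1, norm_mul]
    exact mul_lt_one_of_nonneg_of_lt_one_right (hA κ hκ) (norm_nonneg _) hc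
  have h5 : P.derivative.eval η + κ * (algebraMap k Ω c - η) ∈ A :=
    add_mem (Desc.eval_mem _ _ (Desc.der_coeff _ P fun i => (hP i).1) hη) (mul_mem hκ hδ)
  have h6 : (P.derivative.eval η + κ * (algebraMap k Ω c - η)) * (η - algebraMap k Ω c) =
      -1 * P.eval (algebraMap k Ω c) := by rw [h]; ring
  refine ⟨hη, c, JJ.div h5 h4 ?_⟩
  rw [h6]
  refine JJ.mul (neg_mem (one_mem _))
    (SS.small hA hx (Desc.eval_mem _ P hP ((SS A x).algebraMap_mem c)) ?_)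
  have := congrArg norm h6
  rw [norm_mul, h4, one_mul, neg_one_mul, norm_neg, norm_sub_rev] at this
  rwa [← this]

open Final in
theorem finish (hsm : SmoothStmt k Ω) (F : IntermediateField k Ω) (Z' : Finset Ω)
    (hF : F ≤ IntermediateField.adjoin k (Z' : Set Ω))
    (x : ι → Ω) (hx : AlgebraicIndependent k x) (hx1 : ∀ i, ‖x i‖ < 1) (hxF : ∀ i, x i ∈ F)
    (η : Ω) (P : Polynomial Ω) (G : Ω → Polynomial Ω) (N : Ω → ℕ) (hηF : η ∈ F) (hη : ‖η‖ = 1)
    (hP : P.Monic) (h0 : P.eval η = 0) (h1 : ‖P.derivative.eval η‖ = 1)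
    (hmin : ∀ Q : Polynomial Ω, (∀ i, Q.coeff i ∈ IntermediateField.adjoin k (Set.range x)) →
      Q.eval η = 0 → Q.degree < P.degree → Q = 0)
    (hG : ∀ z ∈ Z', z * (η ^ N z * P.derivative.eval η) = (G z).eval η) (C : Finset Ω)
    (hPC : P.coeffs ⊆ C) (hGC : ∀ z ∈ Z', (G z).coeffs ⊆ C)
    (hC : ∀ b ∈ C, ∃ a ∈ Algebra.adjoin k (Set.range x), ∃ c ∈ Algebra.adjoin k (Set.range x),
      ‖c‖ = 1 ∧ b = a / c) : CM F Z' x := by
  obtain ⟨c, hc, hc1, hc2⟩ := common_den _ C hC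
  have ne1 : ∀ a : Ω, ‖a‖ = 1 → a ≠ 0 := by
    rintro a ha rfl
    simp at ha
  have hc0 := ne1 c hc1
  have hη0 := ne1 η hη
  have hd0 := ne1 _ h1
  have coef : ∀ Q : Polynomial Ω, Q.coeffs ⊆ C → ∀ i,
      Q.coeff i ∈ Algebra.adjoin k (Set.range x ∪ {c⁻¹}) := by
    intro Q hQ i
    by_cases h : Q.coeff i = 0
    · rw [h]; exact zero_mem _
    · rw [← mul_inv_cancel_right₀ hc0 (Q.coeff i)]
      exact mul_mem (Algebra.adjoin_mono Set.subset_union_left (hc2 _ (hQ (coeff_mem_coeffs h))))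
        (Algebra.subset_adjoin (Or.inr rfl))
  set A := Algebra.adjoin k (Set.range x ∪ {c⁻¹, η, (η * P.derivative.eval η)⁻¹}) with hA
  have le0 : Algebra.adjoin k (Set.range x ∪ {c⁻¹}) ≤ A :=
    Algebra.adjoin_mono (Set.union_subset_union_right _ (by simp))
  have hηA : η ∈ A := Algebra.subset_adjoin (Or.inr (by simp))
  have hiA : (η * P.derivative.eval η)⁻¹ ∈ A := Algebra.subset_adjoin (Or.inr (by simp))
  have hdA : P.derivative.eval η ∈ A :=
    eval_mem A _ (deriv_mem A P fun i => le0 (coef P hPC i)) hηA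
  have hZA : ∀ z ∈ Z', z ∈ A := by
    intro z hz
    have e : z = (G z).eval η * ((P.derivative.eval η * (η * P.derivative.eval η)⁻¹) ^ N z *
        (η * (η * P.derivative.eval η)⁻¹)) := by
      rw [← hG z hz]
      have e1 : P.derivative.eval η * (η * P.derivative.eval η)⁻¹ = η⁻¹ := by field_simp
      rw [e1, inv_pow]
      field_simp
    rw [e]
    exact mul_mem (eval_mem A _ (fun i => le0 (coef _ (hGC z hz) i)) hηA)
      (mul_mem (pow_mem (mul_mem hdA hiA) _) (mul_mem hηA hiA))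
  have hxF' : Algebra.adjoin k (Set.range x) ≤ F.toSubalgebra :=
    Algebra.adjoin_le (Set.range_subset_iff.2 hxF)
  have hcF : c⁻¹ ∈ F := F.inv_mem (hxF' hc)
  have le1 : Algebra.adjoin k (Set.range x ∪ {c⁻¹}) ≤ F.toSubalgebra :=
    Algebra.adjoin_le (Set.union_subset (Set.range_subset_iff.2 hxF)
      (Set.singleton_subset_iff.2 hcF))
  have hdF : P.derivative.eval η ∈ F :=
    eval_mem F.toSubalgebra _ (deriv_mem _ P fun i => le1 (coef P hPC i)) hηF
  have hA1 : ∀ a ∈ A, ‖a‖ ≤ 1 := by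
    have : A ≤ OO k Ω := by
      refine Algebra.adjoin_le (Set.union_subset (Set.range_subset_iff.2 fun i => (hx1 i).le) ?_)
      rintro a (rfl | rfl | rfl)
      · show ‖c⁻¹‖ ≤ 1
        rw [norm_inv, hc1, inv_one]
      · exact hη.le
      · show ‖(η * P.derivative.eval η)⁻¹‖ ≤ 1
        rw [norm_inv, norm_mul, hη, h1, one_mul, inv_one]
    exact fun a ha => this ha
  have hxA : ∀ i, x i ∈ A := fun i => Algebra.subset_adjoin (Or.inl ⟨i, rfl⟩)
  have hxS : ∀ i, x i ∈ SS A x := fun i => ⟨hxA i, 0, by rw [map_zero, sub_zero]; exact JJ.gen i⟩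
  have hcS : c⁻¹ ∈ SS A x := SS.inv hA1 hx1
    (Algebra.adjoin_le (S := SS A x) (Set.range_subset_iff.2 hxS) hc)
    (Algebra.subset_adjoin (Or.inr (by simp))) hc1
  have le3 : Algebra.adjoin k (Set.range x ∪ {c⁻¹}) ≤ SS A x :=
    Algebra.adjoin_le (Set.union_subset (Set.range_subset_iff.2 hxS)
      (Set.singleton_subset_iff.2 hcS))
  have hηS : η ∈ SS A x := SS.root hA1 hx1 (fun i => le3 (coef P hPC i)) hηA h0 h1
  have hAS : A ≤ SS A x := by
    refine Algebra.adjoin_le (Set.union_subset (Set.range_subset_iff.2 hxS) ?_)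
    rintro a (rfl | rfl | rfl)
    · exact hcS
    · exact hηS
    · exact SS.inv hA1 hx1 (mul_mem hηS (eval_mem _ _
        (deriv_mem _ P fun i => le3 (coef P hPC i)) hηS)) hiA (by rw [norm_mul, hη, h1, one_mul])
  refine ⟨A, ⟨?_, ?_, hA1, hZA, ?_, hsm ι x hx c hc hc0 η P hP (coef P hPC) h0 hη0 hd0 hmin⟩, hxA,
    fun a ha => SS.small hA1 hx1 (hAS ha)⟩
  · exact Subalgebra.fg_def.2 ⟨_, (Set.finite_range x).union (Set.toFinite _), rfl⟩
  · refine Algebra.adjoin_le (Set.union_subset (Set.range_subset_iff.2 hxF) ?_)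
    rintro a (rfl | rfl | rfl)
    · exact hcF
    · exact hηF
    · exact F.inv_mem (F.mul_mem hηF hdF)
  · intro f hf
    obtain ⟨a, ha, b, hb, rfl⟩ := IntermediateField.mem_adjoin_iff_div.1 (hF hf)
    have le2 : Algebra.adjoin k (Z' : Set Ω) ≤ A := Algebra.adjoin_le hZA
    by_cases hb0 : b = 0
    · exact ⟨0, zero_mem _, 1, one_mem _, one_ne_zero, by simp [hb0]⟩
    · exact ⟨a, le2 ha, b, le2 hb, hb0, rfl⟩

open scoped IntermediateField.algebraAdjoinAdjoin in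
/-- A subfield `K` of a henselian root extension of `k(x)` has a smooth model. -/
theorem descent [IsAlgClosed Ω] (hsm : SmoothStmt k Ω) (K : IntermediateField k Ω)
    (Z' : Finset Ω) (hK : K ≤ adjoin k (Z' : Set Ω)) (hZK : ∀ z ∈ Z', z ∈ K)
    (x : ι → Ω) (hx : AlgebraicIndependent k x) (hx1 : ∀ i, ‖x i‖ < 1)
    (hxK : ∀ i, x i ∈ K) (η : Ω) (P : (Algebra.adjoin k (Set.range x))[X]) (hP : P.Monic)
    (h0 : aeval η P = 0) (h1 : ‖aeval η (derivative P)‖ = 1)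
    (hZ : ∀ z ∈ Z', ∃ U G : (Algebra.adjoin k (Set.range x))[X],
      ‖aeval η U‖ = 1 ∧ z * aeval η U = aeval η G) : CM K Z' x := by
  classical
  let R := Algebra.adjoin k (Set.range x)
  let F := adjoin k (Set.range x)
  have hR1 : ∀ a ∈ R, ‖a‖ ≤ 1 := fun a ha =>
    norm_le_one_of_mem_adjoin (Set.forall_mem_range.2 fun i => (hx1 i).le) ha
  have : IsIntegrallyClosed R := IsIntegrallyClosed.of_equiv hx.aevalEquiv.toRingEquiv
  have hηR : IsIntegral R η := ⟨P, hP, h0⟩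
  have hηF : IsIntegral F η := hηR.tower_top
  have hsep : IsSeparable F η := by
    refine (separable_iff_derivative_ne_zero (minpoly.irreducible hηF)).2 fun h => ?_
    obtain ⟨S, hS⟩ := minpoly.dvd F η (p := P.map (algebraMap R F))
      (by rw [aeval_map_algebraMap, h0])
    have h2 := congrArg (fun Q => aeval η (derivative Q)) hS
    simp only [derivative_map, aeval_map_algebraMap, derivative_mul, h, zero_mul, zero_add,
      map_mul, minpoly.aeval] at h2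
    rw [h2, norm_zero] at h1
    exact zero_ne_one h1
  have : FiniteDimensional F F⟮η⟯ := adjoin.finiteDimensional hηF
  have : Algebra.IsSeparable F F⟮η⟯ := (isSeparable_adjoin_simple_iff_isSeparable F Ω).2 hsep
  let η0 : F⟮η⟯ := AdjoinSimple.gen F η
  have hev : ∀ (τ : F⟮η⟯ →ₐ[F] Ω) (Q : R[X]), τ (aeval η0 Q) = aeval (τ η0) Q := fun τ Q =>
    (aeval_algHom_apply (τ.restrictScalars R) η0 Q).symm
  have hev0 : ∀ Q : R[X], ((aeval η0 Q : F⟮η⟯) : Ω) = aeval η Q := hev F⟮η⟯.val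
  have hη0 : aeval η0 P = 0 := Subtype.ext ((hev0 P).trans h0)
  have hη0R : IsIntegral R η0 := ⟨P, hP, hη0⟩
  have hint : ∀ Q : R[X], IsIntegral R (aeval η0 Q) := fun Q =>
    adjoin_le_integralClosure hη0R (aeval_mem_adjoin_singleton R η0)
  have hle : ∀ (τ : F⟮η⟯ →ₐ[F] Ω) (b : F⟮η⟯), IsIntegral R b → ‖τ b‖ ≤ 1 := fun τ b hb =>
    norm_le_of_integral hR1 (hb.map τ)
  have hfar : ∀ τ : F⟮η⟯ →ₐ[F] Ω, τ ≠ F⟮η⟯.val → ‖τ η0 - η‖ = 1 := by
    intro τ hτ
    refine two_roots hR1 hP h0 (by rw [← hev, hη0, map_zero]) h1 fun h => hτ ?_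
    exact (adjoin.powerBasis hηF).algHom_ext h
  choose c hc using fun τ : F⟮η⟯ →ₐ[F] Ω => Ctx.res (k := k) (τ η0) (hle τ η0 hη0R)
  choose! U G hU hG using hZ
  let T : R[X] := (∏ τ ∈ Finset.univ.erase F⟮η⟯.val, (X - C (algebraMap k R (c τ))))
  have hT : ∀ a : Ω, aeval a T = ∏ τ ∈ Finset.univ.erase F⟮η⟯.val, (a - algebraMap k Ω (c τ)) := by
    intro a
    simp only [T, map_prod, map_sub, aeval_X, aeval_C, ← IsScalarTower.algebraMap_apply]
  have hT1 : ‖aeval η T‖ = 1 := by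
    rw [hT, norm_prod]
    refine Finset.prod_eq_one fun τ hτ => ?_
    have h2 := hfar τ (Finset.ne_of_mem_erase hτ)
    have : η - algebraMap k Ω (c τ) = -(τ η0 - η) + (τ η0 - algebraMap k Ω (c τ)) := by ring
    rw [this, norm_add_eq_left (by rw [norm_neg, h2]; exact hc τ), norm_neg, h2]
  have hT2 : ∀ τ : F⟮η⟯ →ₐ[F] Ω, τ ≠ F⟮η⟯.val → ‖τ (aeval η0 T)‖ < 1 := by
    intro τ hτ
    rw [hev, hT, ← Finset.mul_prod_erase _ _ (Finset.mem_erase.2 ⟨hτ, Finset.mem_univ _⟩),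
      norm_mul, norm_prod]
    refine mul_lt_one_of_nonneg_of_lt_one_left (norm_nonneg _) (hc τ)
      (Finset.prod_le_one (fun _ _ => norm_nonneg _) fun σ _ =>
        norm_sub_le_of (hle τ η0 hη0R) (norm_alg_le _))
  let e : F⟮η⟯ := aeval η0 (T * ∏ z ∈ Z', U z)
  have he1 : ‖(e : Ω)‖ = 1 := by
    rw [hev0, map_mul, norm_mul, hT1, one_mul, map_prod, norm_prod]
    exact Finset.prod_eq_one hU
  have he2 : ∀ τ : F⟮η⟯ →ₐ[F] Ω, τ ≠ F⟮η⟯.val → ‖τ e‖ < 1 := by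
    intro τ hτ
    rw [show e = _ from map_mul (aeval η0) _ _, map_mul, norm_mul]
    exact mul_lt_one_of_nonneg_of_lt_one_left (norm_nonneg _) (hT2 τ hτ) (hle τ _ (hint _))
  have hZE : ∀ z ∈ Z', z ∈ F⟮η⟯ := by
    intro z hz
    rw [eq_div_of_mul_eq (ne_zero_of_norm_eq_one (hU z hz)) (hG z hz), ← hev0, ← hev0]
    exact div_mem (Subtype.property _) (Subtype.property _)
  have hFK : F ≤ K := adjoin_le_iff.2 (Set.range_subset_iff.2 hxK)
  let K' : IntermediateField F F⟮η⟯ := (extendScalars hFK).comap F⟮η⟯.val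
  let j : K' →ₐ[F] Ω := F⟮η⟯.val.comp K'.val
  have : IsScalarTower R K' F⟮η⟯ := IsScalarTower.of_algebraMap_eq fun _ => rfl
  let θ : K' := Algebra.trace K' F⟮η⟯ e
  have hθ : IsIntegral R θ := Algebra.isIntegral_trace (hint _)
  have hθ1 : ‖j θ‖ = 1 := by
    obtain ⟨s, hs, hs'⟩ := trace_sum (E := F⟮η⟯) j
    rw [hs', ← Finset.add_sum_erase _ _ ((hs F⟮η⟯.val).2 rfl), norm_add_eq_left]
    · exact he1
    · rw [show ‖F⟮η⟯.val e‖ = 1 from he1]
      exact norm_sum_lt_of one_pos fun σ hσ => he2 σ (Finset.ne_of_mem_erase hσ)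
  have hθ2 : ∀ τ : K' →ₐ[F] Ω, τ ≠ j → ‖τ θ‖ < 1 := by
    intro τ hτ
    obtain ⟨s, hs, hs'⟩ := trace_sum (E := F⟮η⟯) τ
    rw [hs']
    refine norm_sum_lt_of one_pos fun σ hσ => he2 σ fun h => hτ ?_
    rw [← (hs σ).1 hσ, h]
    rfl
  obtain ⟨h3, h4, h5⟩ := gen_small j θ hθ hθ1 hθ2
  have h6 : ∀ z ∈ Z', ∃ G : R[X],
      z * (j θ ^ 1 * aeval (j θ) (derivative (minpoly R θ))) = aeval (j θ) G := by
    intro z hz
    let z' : K' := ⟨⟨z, hZE z hz⟩, hZK z hz⟩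
    have h7 : z' • e = aeval η0 (G z * (T * ∏ w ∈ Z'.erase z, U w)) := by
      apply Subtype.ext
      change z * (e : Ω) = _
      rw [hev0, hev0, ← Finset.mul_prod_erase _ _ hz]
      simp only [map_mul, ← hG z hz]
      ring
    have h8 : IsIntegral R (z' * θ) := by
      rw [← smul_eq_mul, ← map_smul, h7]
      exact Algebra.isIntegral_trace (hint _)
    obtain ⟨G, hG⟩ := h5 _ h8
    refine ⟨G, ?_⟩
    rw [← hG, map_mul, pow_one, mul_assoc]
    rfl
  choose! G' hG' using h6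
  have hco : ∀ (Q : R[X]), ∀ b ∈ (Q.map (algebraMap R Ω)).coeffs,
      ∃ a ∈ R, ∃ c ∈ R, ‖c‖ = 1 ∧ b = a / c := by
    intro Q b hb
    obtain ⟨n, -, rfl⟩ := mem_coeffs_iff.1 hb
    rw [coeff_map]
    exact ⟨_, (Q.coeff n).2, 1, one_mem _, norm_one, (div_one _).symm⟩
  refine finish hsm K Z' hK x hx hx1 hxK (j θ) ((minpoly R θ).map (algebraMap R Ω))
    (fun z => (G' z).map (algebraMap R Ω)) (fun _ => 1) θ.2 hθ1 ((minpoly.monic hθ).map _) ?_ ?_
    ?_ ?_ (((minpoly R θ).map (algebraMap R Ω)).coeffs ∪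
      Z'.biUnion fun z => ((G' z).map (algebraMap R Ω)).coeffs) Finset.subset_union_left
    (fun z hz => (Finset.subset_biUnion_of_mem
      (fun z => ((G' z).map (algebraMap R Ω)).coeffs) hz).trans Finset.subset_union_right) ?_
  · rw [eval_map_algebraMap]
    exact (aeval_algHom_apply (j.restrictScalars R) θ _).trans (by rw [minpoly.aeval, map_zero])
  · rw [derivative_map, eval_map_algebraMap]
    exact h3
  · intro Q hQ hQ0 hdeg
    have hl : Q ∈ lifts (algebraMap F Ω) :=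
      (lifts_iff_coeff_lifts Q).2 fun n => ⟨⟨_, hQ n⟩, rfl⟩
    obtain ⟨q, rfl, -⟩ := exists_degree_eq_of_mem_lifts hl
    rw [degree_map, (minpoly.monic hθ).degree_map] at hdeg
    rw [eval_map_algebraMap] at hQ0
    rw [h4 q hQ0 hdeg, Polynomial.map_zero]
  · intro z hz
    rw [derivative_map, eval_map_algebraMap, eval_map_algebraMap]
    exact hG' z hz
  · intro b hb
    rcases Finset.mem_union.1 hb with hb | hb
    · exact hco _ b hb
    · obtain ⟨z, -, hb⟩ := Finset.mem_biUnion.1 hb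
      exact hco _ b hb

/-- The model attached to an algebra whose centre is generated by elements of `K`. -/
theorem of_centre [IsAlgClosed Ω] (hsm : SmoothStmt k Ω) (K : IntermediateField k Ω)
    (Z' : Finset Ω) (hK : K ≤ adjoin k (Z' : Set Ω)) (hZK : ∀ z ∈ Z', z ∈ K)
    (x y : ι → Ω) (hy : AlgebraicIndependent k y) (hxK : ∀ i, x i ∈ K)
    (A : Subalgebra k Ω) (hfg : A.FG) (hA : ∀ a ∈ A, ‖a‖ ≤ 1) (hxA : ∀ i, x i ∈ A)
    (hyA : ∀ i, y i ∈ A) (hZA : ∀ z ∈ Z', z ∈ A) (hx : ∀ i, ‖x i‖ < 1)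
    (hm : ∀ a ∈ A, ‖a‖ < 1 → ∃ u ∈ A, ‖u‖ = 1 ∧ ∃ c : ι → Ω, (∀ i, c i ∈ A) ∧
      u * a = ∑ i, c i * x i) : AlgebraicIndependent k x ∧ CM K Z' x := by
  obtain ⟨η, P, hP, h0, h1, hall⟩ := unr x A hfg hA hxA hx hm
  set R := Algebra.adjoin k (Set.range x) with hR
  let φ : MvPolynomial ι k →+* R := (MvPolynomial.aeval x).toRingHom.codRestrict R fun f => by
    rw [hR, Algebra.adjoin_range_eq_range_aeval]; exact ⟨f, rfl⟩
  have hev : ∀ Q : (MvPolynomial ι k)[X], aeval η (Q.map φ) =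
      Q.eval₂ (MvPolynomial.aeval x).toRingHom η := fun Q => by
    rw [aeval_def, eval₂_map]; rfl
  have hηR : IsIntegral R η := ⟨P.map φ, hP.map φ, (hev P).trans h0⟩
  have halg : ∀ a ∈ A, IsAlgebraic R a := by
    intro a ha
    obtain ⟨U, G, hU, hG⟩ := hall a ha
    have hint : ∀ Q : R[X], IsIntegral R (aeval η Q) := fun Q =>
      adjoin_le_integralClosure hηR (aeval_mem_adjoin_singleton R η)
    rw [← hev] at hU hG
    rw [← hev] at hG
    rw [eq_div_of_mul_eq (ne_zero_of_norm_eq_one hU) hG, div_eq_mul_inv]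
    exact (hint _).isAlgebraic.mul (hint _).isAlgebraic.inv
  have hx' : AlgebraicIndependent k x := by
    let x' : ι → A := fun i => ⟨x i, hxA i⟩
    let y' : ι → A := fun i => ⟨y i, hyA i⟩
    have hy' : AlgebraicIndependent k y' := AlgebraicIndependent.of_comp A.val hy
    have hmap : (Algebra.adjoin k (Set.range x')).map A.val = R := by
      rw [AlgHom.map_adjoin, ← Set.range_comp]; rfl
    have : Algebra.IsAlgebraic (Algebra.adjoin k (Set.range x')) A := by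
      refine ⟨fun a => ?_⟩
      let ε : Algebra.adjoin k (Set.range x') ≃ₐ[k] R :=
        ((Algebra.adjoin k (Set.range x')).equivMapOfInjective A.val
          Subtype.val_injective).trans (Subalgebra.equivOfEq _ _ hmap)
      exact (halg a a.2).of_ringHom_of_comp_eq (ε : _ →+* R) A.val.toRingHom ε.surjective
        Subtype.val_injective (RingHom.ext fun _ => rfl)
    exact (Algebra.IsAlgebraic.isTranscendenceBasis_of_lift_le_trdeg_of_finite k x'
      hy'.lift_cardinalMk_le_trdeg).1.map' (f := A.val) Subtype.val_injective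
  refine ⟨hx', descent hsm K Z' hK hZK x hx' hx hxK η (P.map φ) (hP.map φ)
    ((hev P).trans h0) (by rw [derivative_map, hev]; exact h1) fun z hz => ?_⟩
  obtain ⟨U, G, hU, hG⟩ := hall z (hZA z hz)
  exact ⟨U.map φ, G.map φ, by rwa [hev], by rwa [hev, hev]⟩

theorem of_approx [IsAlgClosed Ω] (hsm : SmoothStmt k Ω) (K : IntermediateField k Ω)
    (Z' : Finset Ω) (hK : K ≤ adjoin k (Z' : Set Ω)) (hZK : ∀ z ∈ Z', z ∈ K)
    (x y : ι → Ω) (hy : AlgebraicIndependent k y) (hy1 : ∀ i, ‖y i‖ < 1)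
    (hxK : ∀ i, x i ∈ K) (η : Ω) (P : Polynomial Ω) (hP : P.Monic)
    (hPc : ∀ i, P.coeff i ∈ Algebra.adjoin k (Set.range y)) (h0 : P.eval η = 0)
    (h1 : ‖P.derivative.eval η‖ = 1) (j : ι) (q : ι → Ω) (hq1 : ∀ i, ‖q i‖ < 1)
    (hq : ∀ i, y i - x i = q i * y j)
    (hqm : ∀ i, q i ∈ loc (Algebra.adjoin k (Set.range y) ⊔ Algebra.adjoin k {η}))
    (hZ : ∀ z ∈ Z', z ∈ loc (Algebra.adjoin k (Set.range y) ⊔ Algebra.adjoin k {η})) :
    (∀ i, ‖x i‖ < 1) ∧ AlgebraicIndependent k x ∧ CM K Z' x := by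
  classical
  let R := Algebra.adjoin k (Set.range y)
  let B := R ⊔ Algebra.adjoin k {η}
  obtain ⟨u, huB, hu1, hu⟩ := Final.common_den B (Z' ∪ Finset.univ.image q) (by
    intro b hb
    rcases Finset.mem_union.1 hb with hb | hb
    · exact hZ b hb
    · obtain ⟨i, -, rfl⟩ := Finset.mem_image.1 hb
      exact hqm i)
  have hu0 := ne_zero_of_norm_eq_one hu1
  let A := B ⊔ Algebra.adjoin k {u⁻¹}
  have hBA : B ≤ A := le_sup_left
  have hRA : R ≤ A := le_sup_left.trans hBA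
  have hηA : η ∈ A := hBA ((le_sup_right : _ ≤ B) (Algebra.self_mem_adjoin_singleton k η))
  have huA : u⁻¹ ∈ A := (le_sup_right : _ ≤ A) (Algebra.self_mem_adjoin_singleton k _)
  have hyA : ∀ i, y i ∈ A := fun i => hRA (Algebra.subset_adjoin ⟨i, rfl⟩)
  have hdiv : ∀ b ∈ Z' ∪ Finset.univ.image q, b ∈ A := fun b hb => by
    rw [← mul_inv_cancel_right₀ hu0 b]
    exact mul_mem (hBA (hu b hb)) huA
  have hqA : ∀ i, q i ∈ A := fun i =>
    hdiv _ (Finset.mem_union_right _ (Finset.mem_image_of_mem q (Finset.mem_univ i)))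
  have hxe : ∀ i, x i = y i - q i * y j := fun i => by rw [← hq, sub_sub_cancel]
  have hxA : ∀ i, x i ∈ A := fun i => hxe i ▸ sub_mem (hyA i) (mul_mem (hqA i) (hyA j))
  have hx1 : ∀ i, ‖x i‖ < 1 := fun i => by
    rw [hxe]
    refine norm_sub_lt_of (hy1 i) ?_
    rw [norm_mul]
    exact mul_lt_one_of_nonneg_of_lt_one_left (norm_nonneg _) (hq1 i) (hy1 j).le
  have hR1 : R ≤ intAlg k Ω := Algebra.adjoin_le (Set.range_subset_iff.2 fun i => (hy1 i).le)
  have lift : ∀ D : Subalgebra k Ω, R ≤ D →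
      ∃ Q : Polynomial D, Q.map (algebraMap D Ω) = P ∧ Q.Monic := by
    intro D hD
    obtain ⟨Q, e, -, hQ⟩ := lifts_and_degree_eq_and_monic
      ((lifts_iff_coeff_lifts (f := algebraMap D Ω) P).2 fun n => ⟨⟨_, hD (hPc n)⟩, rfl⟩) hP
    exact ⟨Q, e, hQ⟩
  have hη1 : ‖η‖ ≤ 1 := by
    obtain ⟨Q, e, hQ⟩ := lift R le_rfl
    exact norm_le_of_integral hR1 ⟨Q, hQ, by rw [← eval_map, e, h0]⟩
  have hA1 : A ≤ intAlg k Ω := sup_le
    (sup_le hR1 (Algebra.adjoin_le (Set.singleton_subset_iff.2 hη1)))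
    (Algebra.adjoin_le (Set.singleton_subset_iff.2 (by
      change ‖u⁻¹‖ ≤ 1
      rw [norm_inv, hu1, inv_one])))
  have hRS : R ≤ SS A x := by
    refine Algebra.adjoin_le (Set.range_subset_iff.2 fun i => ⟨hyA i, 0, ?_⟩)
    have h2 : ‖1 - q j‖ = 1 := by rw [norm_sub_eq_left (by rw [norm_one]; exact hq1 j), norm_one]
    have h3 : 1 - q j ∈ A := sub_mem (one_mem _) (hqA j)
    refine JJ.div h3 h2 ?_
    have := ((JJ.gen (x := x) i).mul h3).add ((JJ.gen (x := x) j).mul (hqA i))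
    rwa [show (1 - q j) * x i + q i * x j = (1 - q j) * (y i - algebraMap k Ω 0) by
      rw [hxe i, hxe j, map_zero]; ring] at this
  have hBS : B ≤ SS A x := sup_le hRS (Algebra.adjoin_le (Set.singleton_subset_iff.2
    (SS.root hA1 hx1 (fun i => hRS (hPc i)) hηA h0 h1)))
  have hAS : A ≤ SS A x := sup_le hBS (Algebra.adjoin_le (Set.singleton_subset_iff.2
    (SS.inv hA1 hx1 (hBS huB) huA hu1)))
  have hfg : A.FG := ((Subalgebra.fg_def.2 ⟨_, Set.finite_range y, rfl⟩).sup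
    (Subalgebra.fg_def.2 ⟨_, Set.finite_singleton _, rfl⟩)).sup
      (Subalgebra.fg_def.2 ⟨_, Set.finite_singleton _, rfl⟩)
  exact ⟨hx1, of_centre hsm K Z' hK hZK x y hy hxK A hfg hA1 hxA hyA
    (fun z hz => hdiv z (Finset.mem_union_left _ hz)) hx1 fun a ha => SS.small hA1 hx1 (hAS ha)⟩

end Emb

end Pool.Agent.MP_19ffc6_ag.LU4
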