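import Pool.Agent.MP_19ffc6_ag.LU3.MainA
import Pool.Agent.MP_19ffc6_ag.LU4.EmbA

/-! PROJECT LU4, module EMB: the inductive statement gives embedded local uniformization. -/

namespace Pool.Agent.MP_19ffc6_ag.LU4

open Pool.Agent.MP_19ffc6_ag.LU Pool.Agent.MP_19ffc6_ag.LU3 LatM Hr Mv FinalA

variable {k : Type*} {Ω : Type*} [Field k] [NontriviallyNormedField Ω] [Algebra k Ω]

/-- A smooth model with regular parameters in which the elements of `Z` are monomial. -/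
def EM (K : IntermediateField k Ω) (Z : Finset Ω) : Prop :=
  ∃ A, Model K Z A ∧ ∃ (n : ℕ) (t : Fin n → Ω), AlgebraicIndependent k t ∧
    (∀ i, t i ∈ A ∧ ‖t i‖ < 1) ∧ (∀ a ∈ A, ‖a‖ < 1 → JJ A t a) ∧
    ∀ z ∈ Z, z ≠ 0 → ∃ m : Fin n → ℕ, ∃ u ∈ A, ‖u‖ = 1 ∧ z = u * ∏ i, t i ^ m i

theorem EM.of {K : IntermediateField k Ω} {Z Z' : Finset Ω} (hZ : Z ⊆ Z') {ι : Type} [Fintype ι]
    {x : ι → Ω} (h1 : ∀ i, ‖x i‖ < 1) (h2 : AlgebraicIndependent k x) (h3 : Emb.CM K Z' x)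
    (h4 : ∀ z ∈ Z, z ≠ 0 → ∃ m : ι → ℕ, ∃ u ∈ Z', ‖u‖ = 1 ∧ z = u * ∏ i, x i ^ m i) :
    EM K Z := by
  obtain ⟨A, ⟨a1, a2, a3, a4, a5⟩, a6, a7⟩ := h3
  let e := (Fintype.equivFin ι).symm
  refine ⟨A, ⟨a1, a2, a3, fun z hz => a4 z (hZ hz), a5⟩, _, x ∘ e, h2.comp e e.injective,
    fun i => ⟨a6 _, h1 _⟩, fun a ha h => ?_, fun z hz h0 => ?_⟩
  · obtain ⟨u, hu, hu1, c, hc, h5⟩ := a7 a ha h
    exact ⟨u, hu, hu1, c ∘ e, fun i => hc _, h5.trans (e.sum_comp fun i => c i * x i).symm⟩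
  · obtain ⟨m, u, hu, hu1, h5⟩ := h4 z hz h0
    exact ⟨m ∘ e, u, a4 u hu, hu1,
      h5.trans (congrArg _ (e.prod_comp fun i => x i ^ m i).symm)⟩

theorem EM.bot [IsUltrametricDist Ω] [Ctx k Ω] (Z : Finset Ω)
    (hZ : ∀ z ∈ Z, z ∈ (⊥ : Subalgebra k Ω)) : EM (⊥ : IntermediateField k Ω) Z := by
  refine ⟨⊥, model_bot Z hZ, 0, Fin.elim0, algebraicIndependent_empty_type, fun i => i.elim0,
    fun a ha h => ?_, fun z hz h0 => ⟨0, z, hZ z hz, ?_, by simp⟩⟩
  · obtain ⟨c, rfl⟩ := Algebra.mem_bot.1 ha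
    exact ⟨1, one_mem _, norm_one, 0, fun _ => zero_mem _, by simp [eq_zero_of_norm_alg_lt h]⟩
  · obtain ⟨c, rfl⟩ := Algebra.mem_bot.1 (hZ z hz)
    exact Ctx.norm_alg c fun h => h0 (by simp [h])

variable [IsUltrametricDist Ω] [Ctx k Ω] [IsAlgClosed Ω] [Infinite k]

/-- FINAL. -/
theorem finalE {K : IntermediateField k Ω} (hK : K.FG) (h : SG k K) (Z : Finset Ω)
    (hZ : ∀ z ∈ Z, z ∈ K ∧ ‖z‖ ≤ 1) : EM K Z := by
  classical
  obtain ⟨t, ht⟩ := hK
  let Z' := Z ∪ t.image fun a => if ‖a‖ ≤ 1 then a else a⁻¹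
  have hZ' : ∀ z ∈ Z', z ∈ K ∧ ‖z‖ ≤ 1 := by
    intro z hz
    rcases Finset.mem_union.1 hz with hz | hz
    · exact hZ z hz
    · obtain ⟨a, ha, rfl⟩ := Finset.mem_image.1 hz
      have haK : a ∈ K := ht ▸ IntermediateField.subset_adjoin k _ ha
      split_ifs with h1
      · exact ⟨haK, h1⟩
      · exact ⟨inv_mem haK, by rw [norm_inv]; exact inv_le_one_of_one_le₀ (not_le.1 h1).le⟩
  have hgen : IntermediateField.adjoin k (Z' : Set Ω) = K := by
    refine le_antisymm (IntermediateField.adjoin_le_iff.2 fun z hz => (hZ' z hz).1) ?_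
    rw [← ht]
    refine IntermediateField.adjoin_le_iff.2 fun a ha => ?_
    have := IntermediateField.subset_adjoin k (Z' : Set Ω)
      (Finset.mem_union_right Z (Finset.mem_image_of_mem _ ha))
    split_ifs at this
    · exact this
    · exact inv_inv a ▸ (IntermediateField.adjoin k (Z' : Set Ω)).inv_mem this
  obtain ⟨ι, _, ξ, I, h1, -, h3, h4⟩ := h Z' (Z'.erase 0) hgen fun w hw =>
    ⟨(hZ' w (Finset.mem_of_mem_erase hw)).1, Finset.ne_of_mem_erase hw⟩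
  obtain ⟨ξ1, I', g1, g2, g3, g4, -⟩ := step_all h1
  obtain ⟨y, e1, e2, e3, -, -, -, e4⟩ := ref g1 (Z'.erase 0 ∪ Finset.univ.image ξ) (by
    intro b hb
    rcases Finset.mem_union.1 hb with hb | hb
    · exact ⟨(h3 b hb).mono g1 g2, (hZ' b (Finset.mem_of_mem_erase hb)).2⟩
    · obtain ⟨i, -, rfl⟩ := Finset.mem_image.1 hb
      exact ⟨g4 i, (h1.small i).le⟩)
  have hZH : ∀ z ∈ Z', z ∈ H k y := fun z hz => by
    by_cases h0 : z = 0
    · exact h0 ▸ zero_mem _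
    · exact (e4 z (Finset.mem_union_left _ (Finset.mem_erase.2 ⟨h0, hz⟩))).1
  rcases isEmpty_or_nonempty ι with hι | ⟨⟨i0⟩⟩
  · have hb : ∀ z ∈ Z', z ∈ (⊥ : Subalgebra k Ω) := fun z hz => by
      obtain ⟨c, hc⟩ := exists_const e1.small (hZH z hz)
      rw [mm, Set.range_eq_empty, Submodule.span_empty, Submodule.mem_bot, sub_eq_zero] at hc
      exact hc ▸ Subalgebra.algebraMap_mem _ c
    obtain rfl : K = ⊥ := hgen ▸ eq_bot_iff.2 (IntermediateField.adjoin_le_iff.2 hb)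
    exact EM.bot Z fun z hz => hb z (Finset.mem_union_left _ hz)
  have hI : I'.Nonempty := by
    rw [Finset.nonempty_iff_ne_empty]
    rintro rfl
    obtain ⟨a, w, -, hw, e⟩ := g4 i0
    rw [Subsingleton.elim a 0, mon_zero, one_mul] at e
    exact (h1.small i0).ne (e ▸ hw)
  have h0 := (Gd.pi e1).ne e1
  have hd : ∀ i, ξ i / ∏ i ∈ I', y i ∈ H k y := fun i => by
    obtain ⟨w, hw, e⟩ := (e4 _ (Finset.mem_union_right _
      (Finset.mem_image_of_mem ξ (Finset.mem_univ i)))).2.1 (h1.small i)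
    rwa [e, mul_div_cancel_left₀ _ h0]
  have hy : ∀ i, y i ∈ apx (H k y) K pi_mem_H h0 :=
    g3.trans e1 e2 e3 _ (fun b => apx_inv e1 hI K)
      (h4 _ (apx_cl h1 e1 hI (g2.trans e1 e2) hd K) fun z hz =>
        ⟨⟨0, by rw [pow_zero, one_mul]; exact hZH z hz⟩,
          fun N => ⟨z, (hZ' z hz).1, by rw [sub_self, zero_div]; exact zero_mem _⟩⟩)
  choose x hx hx2 using fun i => (hy i).2 2
  have hq : ∀ i, ∀ j ∈ I', (y i - x i) / y j ∈ H k y ∧ ‖(y i - x i) / y j‖ < 1 := by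
    intro i j hj
    have h5 : (y i - x i) / y j = (∏ i ∈ I', y i) *
        ((∏ i ∈ I'.erase j, y i) * ((y i - x i) / (∏ i ∈ I', y i) ^ 2)) := by
      have h5 := e1.ne j
      have h6 := Finset.mul_prod_erase I' y hj
      field_simp
      rw [mul_assoc, h6]
    have h6 : (∏ i ∈ I'.erase j, y i) * ((y i - x i) / (∏ i ∈ I', y i) ^ 2) ∈ H k y :=
      mul_mem pi_mem_H (hx2 i)
    rw [h5, norm_mul]
    exact ⟨mul_mem pi_mem_H h6, mul_lt_one_of_nonneg_of_lt_one_left (norm_nonneg _)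
      (norm_pi_lt e1 hI) (e1.norm_le h6)⟩
  have hu : ∀ i ∈ I', y i / x i ∈ H k y ∧ ‖y i / x i‖ = 1 := fun i hi => by
    have h5 : x i / y i = 1 - (y i - x i) / y i := by
      have := e1.ne i
      field_simp
      ring
    have h6 : ‖x i / y i‖ = 1 := by
      rw [h5, norm_sub_eq_left (by rw [norm_one]; exact (hq i i hi).2), norm_one]
    rw [← inv_div]
    exact ⟨inv_mem_H (h5 ▸ sub_mem (one_mem _) (hq i i hi).1) h6, by rw [norm_inv, h6, inv_one]⟩
  have hm : ∀ z ∈ Z.erase 0, ∃ u, (u ∈ K ∧ u ∈ H k y) ∧ ‖u‖ = 1 ∧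
      ∃ m : ι → ℕ, z = u * ∏ i, x i ^ m i := fun z hz => by
    obtain ⟨h5, hz⟩ := Finset.mem_erase.1 hz
    obtain ⟨a, w, hw, hw1, e⟩ := (e4 z (Finset.mem_union_left _
      (Finset.mem_erase.2 ⟨h5, Finset.mem_union_left _ hz⟩))).2.2
    have h6 : ∀ i : I', x i ≠ 0 := fun i h => by simpa [h] using (hu i i.2).2
    have h7 : z = (w * ∏ i : I', (y i / x i) ^ a i) * ∏ i : I', x i ^ a i := by
      rw [mul_assoc, ← Finset.prod_mul_distrib, e, mul_comm]
      exact congrArg _ (Finset.prod_congr rfl fun i _ => by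
        rw [← mul_pow, div_mul_cancel₀ _ (h6 i)])
    refine ⟨w * ∏ i : I', (y i / x i) ^ a i, ⟨?_,
      mul_mem hw (prod_mem fun i _ => pow_mem (hu i i.2).1 _)⟩, ?_,
      fun i => if h : i ∈ I' then a ⟨i, h⟩ else 0, h7.trans (congrArg _ ?_)⟩
    · rw [← div_eq_of_eq_mul (Finset.prod_ne_zero_iff.2 fun i _ => pow_ne_zero _ (h6 i)) h7]
      exact div_mem (hZ z hz).1 (prod_mem fun i _ => pow_mem (hx i) _)
    · rw [norm_mul, hw1, one_mul, norm_prod]
      exact Finset.prod_eq_one fun i _ => by rw [norm_pow, (hu i i.2).2, one_pow]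
    · rw [← Finset.prod_subset (Finset.subset_univ I')
        fun i _ hi => by simp only [dif_neg hi, pow_zero],
        ← Finset.prod_coe_sort I']
      exact Finset.prod_congr rfl fun i _ => by simp only [dif_pos i.2]
  choose! u hu1 hu2 hu3 using hm
  obtain ⟨j, hj⟩ := hI
  obtain ⟨η, P, hP, hW⟩ := H_one e1.ind e1.small
    ((Z' ∪ (Z.erase 0).image u) ∪ Finset.univ.image fun i => (y i - x i) / y j) (by
      intro w hw
      rcases Finset.mem_union.1 hw with hw | hw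
      · rcases Finset.mem_union.1 hw with hw | hw
        · exact hZH w hw
        · obtain ⟨z, hz, rfl⟩ := Finset.mem_image.1 hw
          exact (hu1 z hz).2
      · obtain ⟨i, -, rfl⟩ := Finset.mem_image.1 hw
        exact (hq i j hj).1)
  obtain ⟨b1, b2, b3⟩ := Emb.of_approx smooth_model K (Z' ∪ (Z.erase 0).image u)
    (hgen.ge.trans (IntermediateField.adjoin.mono _ _ _
      (Finset.coe_subset.2 Finset.subset_union_left)))
    (fun z hz => (Finset.mem_union.1 hz).elim (fun hz => (hZ' z hz).1) fun hz => by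
      obtain ⟨w, hw, rfl⟩ := Finset.mem_image.1 hz
      exact (hu1 w hw).1)
    x y e1.ind e1.small hx η P hP.monic hP.coeff hP.root hP.der j
    (fun i => (y i - x i) / y j) (fun i => (hq i j hj).2)
    (fun i => (div_mul_cancel₀ _ (e1.ne j)).symm)
    (fun i => hW _ (Finset.mem_union_right _ (Finset.mem_image_of_mem _ (Finset.mem_univ i))))
    fun z hz => hW z (Finset.mem_union_left _ hz)
  refine EM.of (Finset.subset_union_left.trans Finset.subset_union_left) b1 b2 b3 fun z hz h5 => ?_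
  have h6 := Finset.mem_erase.2 ⟨h5, hz⟩
  obtain ⟨m, hm⟩ := hu3 z h6
  exact ⟨m, u z, Finset.mem_union_right _ (Finset.mem_image_of_mem u h6), hu2 z h6, hm⟩

end Pool.Agent.MP_19ffc6_ag.LU4
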