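import Pool.Agent.MP_19ffc6_ag.LU4.Spec

/-! Module GLUE of PROJECT LU4: from valuations to norms. -/

namespace Pool.Agent.MP_19ffc6_ag.LU4

open Polynomial IntermediateField Pool.Agent.MP_19ffc6_ag.LU Pool.Agent.MP_19ffc6_ag.LU3 NNReal

universe v

/-- Transfer of the theorem from the image of `F` in `Ω` back to `F`. -/
theorem transfer4 {k : Type*} {F Ω : Type v} [Field k] [Field F] [Algebra k F]
    [NontriviallyNormedField Ω] [Algebra k Ω] [Algebra F Ω] [IsScalarTower k F Ω]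
    [Algebra.IsAlgebraic F Ω] {p : ℕ} (core : CoreS k Ω p)
    (v : Valuation F ℝ≥0) (hv : ∀ a, ‖algebraMap F Ω a‖ = v a)
    (E : IntermediateField k F) (hE : E.FG) (y z : F) (hgen : E ⊔ adjoin k {y, z} = ⊤)
    (hz : v z < 1) (P : Polynomial F)
    (hP : ∀ i, P.coeff i ∈ E ⊔ adjoin k {y} ∧ v (P.coeff i) ≤ 1) (hPz : P.eval z = 0)
    (d : ℕ) (hd : d < p) (hPd : v (P.coeff d) = 1)
    (r : ℕ) (x : Fin r → F) (hx : ∀ i, x i ∈ E ∧ x i ≠ 0)
    (hind : ∀ m : Fin r → ℤ, ∏ i, v (x i) ^ m i = 1 → m = 0)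
    (htr : Algebra.trdeg k E ≤ r + 2) (hr : 2 ≤ r ∨ 7 ≤ p)
    (Z : Finset F) (hZ : ∀ a ∈ Z, v a ≤ 1) :
    ∃ A : Subalgebra k F, A.FG ∧ (∀ a ∈ A, v a ≤ 1) ∧ (∀ a ∈ Z, a ∈ A) ∧
      IsFractionRing A F ∧ Algebra.Smooth k A := by
  classical
  let φ : F →ₐ[k] Ω := IsScalarTower.toAlgHom k F Ω
  have hφ : ∀ a, φ a = algebraMap F Ω a := fun _ => rfl
  have hinj : Function.Injective φ := φ.injective
  let e : F ≃ₐ[k] φ.fieldRange := AlgEquiv.ofInjectiveField φ
  have hFG : (E.map φ).FG := by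
    obtain ⟨t, ht⟩ := hE
    exact ⟨t.image φ, by rw [Finset.coe_image, ← adjoin_map, ht]⟩
  have hy : (E ⊔ adjoin k {y}).map φ = E.map φ ⊔ adjoin k {φ y} := by
    rw [IntermediateField.map_sup, adjoin_map, Set.image_singleton]
  have hK : φ.fieldRange = (E.map φ ⊔ adjoin k {φ y}) ⊔ adjoin k {φ z} := by
    rw [AlgHom.fieldRange_eq_map, ← hgen, IntermediateField.map_sup, adjoin_map, Set.image_pair,
      Set.insert_eq, adjoin_union, sup_assoc]
  have halg : Algebra.IsAlgebraic φ.fieldRange Ω := by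
    refine ⟨fun a => ?_⟩
    have ha := Algebra.IsAlgebraic.isAlgebraic (R := F) a
    exact ha.ringHom_of_comp_eq (e : F →+* φ.fieldRange) (RingHom.id Ω) e.injective
      (RingHom.ext fun _ => rfl)
  have hpos : ∀ i, (0 : ℝ) < v (x i) := fun i => by
    rw [← hv]; exact norm_pos_iff.2 (by simpa using (hx i).2)
  have hli : LinearIndependent ℤ (fun i => nu (φ (x i))) := by
    rw [Fintype.linearIndependent_iff]
    intro m hm i
    have h1 : Real.log (∏ i, (v (x i) : ℝ) ^ m i) = 0 := by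
      rw [Real.log_prod (fun i _ => (zpow_pos (hpos i) _).ne')]
      simp only [nu, hφ, hv, zsmul_eq_mul, mul_neg, Finset.sum_neg_distrib, neg_eq_zero] at hm
      simpa only [Real.log_zpow] using hm
    have h2 : ∏ i, (v (x i) : ℝ) ^ m i = 1 :=
      Real.eq_one_of_pos_of_log_eq_zero (Finset.prod_pos fun i _ => zpow_pos (hpos i) _) h1
    have h3 : ∏ i, v (x i) ^ m i = 1 := by
      apply NNReal.coe_injective
      simpa using h2
    exact congrFun (hind m h3) i
  obtain ⟨A, hA, hAF, hA1, hAZ, hAq, hAs⟩ := core (E.map φ) φ.fieldRange (φ y) (φ z)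
    (P.map (algebraMap F Ω)) d r (fun i => φ (x i)) hFG hK halg
    (fun i => by
      rw [coeff_map, hv, ← hy]
      exact ⟨⟨_, (hP i).1, rfl⟩, by exact_mod_cast (hP i).2⟩)
    (by rw [coeff_map, hv, hPd]; rfl) (by rw [hφ, hv]; exact_mod_cast hz)
    (by rw [hφ, eval_map_algebraMap, aeval_algebraMap_apply, coe_aeval_eq_eval, hPz, map_zero]) hd
    (fun i => ⟨⟨x i, (hx i).1, rfl⟩, by simpa using (hx i).2⟩) hli
    (by rw [← (equivMap E φ).trdeg_eq]; exact htr) hr (Z.image φ) (by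
      intro z hz
      obtain ⟨w, hw, rfl⟩ := Finset.mem_image.1 hz
      refine ⟨⟨w, rfl⟩, ?_⟩
      rw [hφ, hv]; exact_mod_cast hZ w hw)
  have hmap : (A.comap φ).map φ = A := by
    rw [Subalgebra.map_comap_eq]
    exact inf_eq_left.2 hAF
  refine ⟨A.comap φ, Subalgebra.fg_of_fg_map _ φ hinj (by rwa [hmap]), fun a ha => ?_,
    fun z hz => hAZ _ (Finset.mem_image_of_mem _ hz), ?_, ?_⟩
  · have : ‖φ a‖ ≤ 1 := hA1 _ ha
    rw [hφ, hv] at this
    exact_mod_cast this
  · refine IsFractionRing.of_field _ _ fun z => ?_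
    obtain ⟨a, ha, b, hb, -, h⟩ := hAq (φ z) ⟨z, rfl⟩
    obtain ⟨a', rfl⟩ := hAF ha
    obtain ⟨b', rfl⟩ := hAF hb
    refine ⟨⟨a', ha⟩, ⟨b', hb⟩, hinj ?_⟩
    rw [map_div₀]
    exact h
  · exact Algebra.Smooth.of_equiv
      (((A.comap φ).equivMapOfInjective φ hinj).trans (Subalgebra.equivOfEq _ _ hmap)).symm

/-- Reduction of the theorem to the normed algebraically closed setting. -/
theorem glue4 (k : Type*) (F : Type v) [Field k] [IsAlgClosed k] [Field F] [Algebra k F] (p : ℕ)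
    (core : ∀ (Ω : Type v) [NontriviallyNormedField Ω] [IsUltrametricDist Ω] [Algebra k Ω]
      [IsAlgClosed Ω] [Ctx k Ω], CoreS k Ω p)
    (v : Valuation F ℝ≥0) (h1 : ∀ c : k, c ≠ 0 → v (algebraMap k F c) = 1)
    (h2 : ∀ a : F, v a ≤ 1 → ∃ c : k, v (a - algebraMap k F c) < 1)
    (E : IntermediateField k F) (hE : E.FG) (y z : F) (hgen : E ⊔ adjoin k {y, z} = ⊤)
    (hz : v z < 1) (P : Polynomial F)
    (hP : ∀ i, P.coeff i ∈ E ⊔ adjoin k {y} ∧ v (P.coeff i) ≤ 1) (hPz : P.eval z = 0)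
    (d : ℕ) (hd : d < p) (hPd : v (P.coeff d) = 1)
    (r : ℕ) (x : Fin r → F) (hx : ∀ i, x i ∈ E ∧ x i ≠ 0)
    (hind : ∀ m : Fin r → ℤ, ∏ i, v (x i) ^ m i = 1 → m = 0)
    (htr : Algebra.trdeg k E ≤ r + 2) (hr : 2 ≤ r ∨ 7 ≤ p)
    (Z : Finset F) (hZ : ∀ a ∈ Z, v a ≤ 1) :
    ∃ A : Subalgebra k F, A.FG ∧ (∀ a ∈ A, v a ≤ 1) ∧ (∀ a ∈ Z, a ∈ A) ∧
      IsFractionRing A F ∧ Algebra.Smooth k A := by
  by_cases hn : ∃ a, 1 < v a
  · let f : AbsoluteValue F ℝ :=
      { toFun := fun a => v a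
        map_mul' := fun a b => by simp
        nonneg' := fun a => (v a).2
        eq_zero' := fun a => by simp
        add_le' := fun a b => by
          have := v.map_add a b
          have h : v (a + b) ≤ v a + v b :=
            this.trans (max_le (le_add_of_nonneg_right bot_le) (le_add_of_nonneg_left bot_le))
          exact_mod_cast h }
    have hf : IsNonarchimedean f := fun a b => by
      change ((v (a + b) : ℝ≥0) : ℝ) ≤ max (v a : ℝ) (v b : ℝ)
      exact_mod_cast v.map_add a b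
    obtain ⟨a0, ha0⟩ := hn
    have ha1 : 1 < f a0 := by
      change (1 : ℝ) < ((v a0 : ℝ≥0) : ℝ)
      exact_mod_cast ha0
    obtain ⟨g, hg, hgf⟩ := Glue.exists_abs F f hf ⟨a0, ha1⟩
    let : NontriviallyNormedField (AlgebraicClosure F) :=
      { g.toNormedField with
        non_trivial := ⟨algebraMap F _ a0, by
          change 1 < g _
          rw [hgf]; exact ha1⟩ }
    have hv : ∀ a, ‖algebraMap F (AlgebraicClosure F) a‖ = v a := hgf
    have : IsUltrametricDist (AlgebraicClosure F) :=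
      IsUltrametricDist.isUltrametricDist_of_forall_norm_add_le_max_norm hg
    have hk : ∀ c : k, c ≠ 0 → ‖algebraMap k (AlgebraicClosure F) c‖ = 1 := fun c hc => by
      rw [IsScalarTower.algebraMap_apply k F, hv, h1 c hc]; rfl
    have : Ctx k (AlgebraicClosure F) :=
      ⟨hk, Glue.res_of_algebraic (F := F) hk fun b hb => by
        rw [hv] at hb
        obtain ⟨c, hc⟩ := h2 b (by exact_mod_cast hb)
        refine ⟨c, ?_⟩
        rw [IsScalarTower.algebraMap_apply k F, ← map_sub, hv]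
        exact_mod_cast hc⟩
    exact transfer4 (core (AlgebraicClosure F)) v hv E hE y z hgen hz P hP hPz d hd hPd r x hx hind
      htr hr Z hZ
  · push Not at hn
    have hall : ∀ a : F, a ∈ (⊥ : Subalgebra k F) := by
      intro a
      obtain ⟨c, hc⟩ := h2 a (hn a)
      have h0 : a - algebraMap k F c = 0 := by
        by_contra h0
        have h3 := hn (a - algebraMap k F c)⁻¹
        rw [map_inv₀, inv_le_one₀ (pos_iff_ne_zero.2 ((Valuation.ne_zero_iff v).2 h0))] at h3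
        exact absurd hc (not_lt.2 h3)
      rw [sub_eq_zero.1 h0]
      exact Subalgebra.algebraMap_mem _ c
    refine ⟨⊥, Subalgebra.fg_bot, fun a _ => hn a, fun z _ => hall z, ?_,
      Algebra.Smooth.of_equiv (Algebra.botEquiv k F).symm⟩
    exact IsFractionRing.of_field _ _ fun z => ⟨⟨z, hall z⟩, 1, by simp⟩

end Pool.Agent.MP_19ffc6_ag.LU4
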