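import Pool.Agent.MP_19ffc6_ag.LU4.Tow

/-! PROJECT LU4, module GLUET: from the normed algebraically closed setting to valuations. -/

namespace Pool.Agent.MP_19ffc6_ag.LU4

open Polynomial IntermediateField NNReal Pool.Agent.MP_19ffc6_ag.LU Pool.Agent.MP_19ffc6_ag.LU3

universe v

/-- One tame step inside a valued field. -/
def StepV {k K : Type*} [Field k] [Field K] [Algebra k K] (p : ℕ) (v : Valuation K ℝ≥0)
    (A B : IntermediateField k K) : Prop :=
  ∃ z : K, B = A ⊔ IntermediateField.adjoin k {z} ∧ ((∃ a : ℕ, ¬ p ∣ a ∧ z ^ a ∈ A) ∨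
    (v z < 1 ∧ ∃ (P : Polynomial K) (d : ℕ), d < p ∧ (∀ i, P.coeff i ∈ A ∧ v (P.coeff i) ≤ 1) ∧
      v (P.coeff d) = 1 ∧ P.eval z = 0))

theorem StepV.map {k : Type*} {K Ω : Type v} [Field k] [Field K] [Algebra k K]
    [NontriviallyNormedField Ω] [Algebra k Ω] (φ : K →ₐ[k] Ω) {p : ℕ} {v : Valuation K ℝ≥0}
    (hv : ∀ a, ‖φ a‖ = v a) {A B : IntermediateField k K} (h : StepV p v A B) :
    Stp p (A.map φ) (B.map φ) := by
  obtain ⟨z, rfl, h⟩ := h
  refine ⟨φ z, by rw [IntermediateField.map_sup, adjoin_map, Set.image_singleton], ?_⟩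
  rcases h with ⟨a, ha, h⟩ | ⟨hz, P, d, hd, h1, h2, h3⟩
  · exact Or.inl ⟨a, ha, z ^ a, h, map_pow φ z a⟩
  · refine Or.inr ⟨by rw [hv]; exact_mod_cast hz, P.map (φ : K →+* Ω), d, hd, fun i => ?_, ?_, ?_⟩
    · rw [coeff_map]
      refine ⟨⟨_, (h1 i).1, rfl⟩, ?_⟩
      change ‖φ _‖ ≤ 1
      rw [hv]
      exact_mod_cast (h1 i).2
    · rw [coeff_map]
      change ‖φ _‖ = 1
      rw [hv, h2]
      rfl
    · change (P.map (φ : K →+* Ω)).eval ((φ : K →+* Ω) z) = 0
      rw [eval_map, eval₂_hom, h3, map_zero]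

/-- Transfer of the theorem from the image of `K` in `Ω` back to `K`. -/
theorem transferT {k : Type*} {K Ω : Type v} [Field k] [Field K] [Algebra k K]
    [NontriviallyNormedField Ω] [Algebra k Ω] [Algebra K Ω] [IsScalarTower k K Ω]
    [Algebra.IsAlgebraic K Ω] {p : ℕ} (core : CoreT k Ω p) (v : Valuation K ℝ≥0)
    (hv : ∀ a, ‖algebraMap K Ω a‖ = v a) (E : IntermediateField k K) (hE : E.FG) (y : K)
    (hK : Relation.ReflTransGen (StepV p v) (E ⊔ adjoin k {y}) ⊤)
    (r : ℕ) (x : Fin r → K) (hx : ∀ i, x i ∈ E ∧ x i ≠ 0)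
    (hind : ∀ m : Fin r → ℤ, ∏ i, v (x i) ^ m i = 1 → m = 0)
    (htr : Algebra.trdeg k E ≤ r + 2) (hr : 2 ≤ r ∨ 7 ≤ p) (Z : Finset K)
    (hZ : ∀ z ∈ Z, v z ≤ 1) :
    ∃ A : Subalgebra k K, A.FG ∧ (∀ a ∈ A, v a ≤ 1) ∧ (∀ z ∈ Z, z ∈ A) ∧
      IsFractionRing A K ∧ Algebra.Smooth k A := by
  classical
  let φ : K →ₐ[k] Ω := IsScalarTower.toAlgHom k K Ω
  have hφ : ∀ a, φ a = algebraMap K Ω a := fun _ => rfl
  have hinj : Function.Injective φ := φ.injective
  let e : K ≃ₐ[k] φ.fieldRange := AlgEquiv.ofInjectiveField φ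
  have hFG : (E.map φ).FG := by
    obtain ⟨t, ht⟩ := hE
    exact ⟨t.image φ, by rw [Finset.coe_image, ← IntermediateField.adjoin_map, ht]⟩
  have halg : Algebra.IsAlgebraic φ.fieldRange Ω := by
    refine ⟨fun a => ?_⟩
    have ha := Algebra.IsAlgebraic.isAlgebraic (R := K) a
    exact ha.ringHom_of_comp_eq (e : K →+* φ.fieldRange) (RingHom.id Ω) e.injective
      (RingHom.ext fun _ => rfl)
  have hpos : ∀ i, (0 : ℝ) < v (x i) := fun i => by
    rw [← hv]; exact norm_pos_iff.2 (by simpa using (hx i).2)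
  have hli : LinearIndependent ℤ (fun i => nu (φ (x i))) := by
    rw [Fintype.linearIndependent_iff]
    intro m hm i
    have h1 : Real.log (∏ i, (v (x i) : ℝ) ^ m i) = 0 := by
      rw [Real.log_prod (fun i _ => (zpow_pos (hpos i) _).ne')]
      simp only [nu, hφ, hv, zsmul_eq_mul, mul_neg, Finset.sum_neg_distrib, neg_eq_zero] at hm
      simpa only [Real.log_zpow] using hm
    have h2 : ∏ i, (v (x i) : ℝ) ^ m i = 1 :=
      Real.eq_one_of_pos_of_log_eq_zero (Finset.prod_pos fun i _ => zpow_pos (hpos i) _) h1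
    have h3 : ∏ i, v (x i) ^ m i = 1 := by
      apply NNReal.coe_injective
      simpa using h2
    exact congrFun (hind m h3) i
  have hT : Relation.ReflTransGen (Stp p) (E.map φ ⊔ adjoin k {φ y}) φ.fieldRange := by
    have h0 : ∀ A B : IntermediateField k K, Relation.ReflTransGen (StepV p v) A B →
        Relation.ReflTransGen (Stp p) (A.map φ) (B.map φ) := fun A B h => by
      induction h with
      | refl => exact .refl
      | tail _ h ih => exact ih.tail (StepV.map φ hv h)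
    have h1 := h0 _ _ hK
    rwa [IntermediateField.map_sup, adjoin_map, Set.image_singleton, ← AlgHom.fieldRange_eq_map] at h1
  obtain ⟨A, hA, hAF, hA1, hAZ, hAq, hAs⟩ := core (E.map φ) φ.fieldRange (φ y) r
    (fun i => φ (x i)) hFG hT halg
    (fun i => ⟨⟨x i, (hx i).1, rfl⟩, by simpa using (hx i).2⟩) hli
    (by rw [← (E.equivMap φ).trdeg_eq]; exact htr) hr (Z.image φ) (by
      intro z hz
      obtain ⟨w, hw, rfl⟩ := Finset.mem_image.1 hz
      refine ⟨⟨w, rfl⟩, ?_⟩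
      rw [hφ, hv]; exact_mod_cast hZ w hw)
  have hmap : (A.comap φ).map φ = A := by
    rw [Subalgebra.map_comap_eq]
    exact inf_eq_left.2 hAF
  refine ⟨A.comap φ, Subalgebra.fg_of_fg_map _ φ hinj (by rwa [hmap]), fun a ha => ?_,
    fun z hz => hAZ _ (Finset.mem_image_of_mem _ hz), ?_, ?_⟩
  · have : ‖φ a‖ ≤ 1 := hA1 _ ha
    rw [hφ, hv] at this
    exact_mod_cast this
  · refine IsFractionRing.of_field _ _ fun z => ?_
    obtain ⟨a, ha, b, hb, -, h⟩ := hAq (φ z) ⟨z, rfl⟩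
    obtain ⟨a', rfl⟩ := hAF ha
    obtain ⟨b', rfl⟩ := hAF hb
    refine ⟨⟨a', ha⟩, ⟨b', hb⟩, hinj ?_⟩
    rw [map_div₀]
    exact h
  · exact Algebra.Smooth.of_equiv
      (((A.comap φ).equivMapOfInjective φ hinj).trans (Subalgebra.equivOfEq _ _ hmap)).symm

/-- Reduction of the theorem to the normed algebraically closed setting. -/
theorem glueT (k : Type*) (K : Type v) [Field k] [IsAlgClosed k] [Field K] [Algebra k K] (p : ℕ)
    (core : ∀ (Ω : Type v) [NontriviallyNormedField Ω] [IsUltrametricDist Ω] [Algebra k Ω]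
      [IsAlgClosed Ω] [Ctx k Ω], CoreT k Ω p) (v : Valuation K ℝ≥0)
    (h1 : ∀ c : k, c ≠ 0 → v (algebraMap k K c) = 1)
    (h2 : ∀ a : K, v a ≤ 1 → ∃ c : k, v (a - algebraMap k K c) < 1)
    (E : IntermediateField k K) (hE : E.FG) (y : K)
    (hK : Relation.ReflTransGen (StepV p v) (E ⊔ adjoin k {y}) ⊤)
    (r : ℕ) (x : Fin r → K) (hx : ∀ i, x i ∈ E ∧ x i ≠ 0)
    (hind : ∀ m : Fin r → ℤ, ∏ i, v (x i) ^ m i = 1 → m = 0)
    (htr : Algebra.trdeg k E ≤ r + 2) (hr : 2 ≤ r ∨ 7 ≤ p) (Z : Finset K)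
    (hZ : ∀ z ∈ Z, v z ≤ 1) :
    ∃ A : Subalgebra k K, A.FG ∧ (∀ a ∈ A, v a ≤ 1) ∧ (∀ z ∈ Z, z ∈ A) ∧
      IsFractionRing A K ∧ Algebra.Smooth k A := by
  by_cases hn : ∃ a, 1 < v a
  · let f : AbsoluteValue K ℝ :=
      { toFun := fun a => v a
        map_mul' := fun a b => by simp
        nonneg' := fun a => (v a).2
        eq_zero' := fun a => by simp
        add_le' := fun a b => by
          have := v.map_add a b
          have h : v (a + b) ≤ v a + v b :=
            this.trans (max_le (le_add_of_nonneg_right bot_le) (le_add_of_nonneg_left bot_le))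
          exact_mod_cast h }
    have hf : IsNonarchimedean f := fun a b => by
      change ((v (a + b) : ℝ≥0) : ℝ) ≤ max (v a : ℝ) (v b : ℝ)
      exact_mod_cast v.map_add a b
    obtain ⟨a0, ha0⟩ := hn
    have ha1 : 1 < f a0 := by
      change (1 : ℝ) < ((v a0 : ℝ≥0) : ℝ)
      exact_mod_cast ha0
    obtain ⟨g, hg, hgf⟩ := Glue.exists_abs K f hf ⟨a0, ha1⟩
    let : NontriviallyNormedField (AlgebraicClosure K) :=
      { g.toNormedField with
        non_trivial := ⟨algebraMap K _ a0, by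
          change 1 < g _
          rw [hgf]; exact ha1⟩ }
    have hv : ∀ a, ‖algebraMap K (AlgebraicClosure K) a‖ = v a := hgf
    have : IsUltrametricDist (AlgebraicClosure K) :=
      IsUltrametricDist.isUltrametricDist_of_forall_norm_add_le_max_norm hg
    have hk : ∀ c : k, c ≠ 0 → ‖algebraMap k (AlgebraicClosure K) c‖ = 1 := fun c hc => by
      rw [IsScalarTower.algebraMap_apply k K, hv, h1 c hc]; rfl
    have : Ctx k (AlgebraicClosure K) :=
      ⟨hk, Glue.res_of_algebraic (F := K) hk fun b hb => by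
        rw [hv] at hb
        obtain ⟨c, hc⟩ := h2 b (by exact_mod_cast hb)
        refine ⟨c, ?_⟩
        rw [IsScalarTower.algebraMap_apply k K, ← map_sub, hv]
        exact_mod_cast hc⟩
    exact transferT (core (AlgebraicClosure K)) v hv E hE y hK r x hx hind htr hr Z hZ
  · push Not at hn
    have hall : ∀ a : K, a ∈ (⊥ : Subalgebra k K) := by
      intro a
      obtain ⟨c, hc⟩ := h2 a (hn a)
      have h0 : a - algebraMap k K c = 0 := by
        by_contra h0
        have h3 := hn (a - algebraMap k K c)⁻¹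
        rw [map_inv₀, inv_le_one₀ (pos_iff_ne_zero.2 ((Valuation.ne_zero_iff v).2 h0))] at h3
        exact absurd hc (not_lt.2 h3)
      rw [sub_eq_zero.1 h0]
      exact Subalgebra.algebraMap_mem _ c
    refine ⟨⊥, Subalgebra.fg_bot, fun a _ => hn a, fun z _ => hall z, ?_,
      Algebra.Smooth.of_equiv (Algebra.botEquiv k K).symm⟩
    exact IsFractionRing.of_field _ _ fun z => ⟨⟨z, hall z⟩, 1, by simp⟩

end Pool.Agent.MP_19ffc6_ag.LU4
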