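import Pool.Agent.MP_19ffc6_ag.LU3.PDef

/-! PROJECT LU4: local uniformization at points of multiplicity less than `p` over a ruled base.
Statements of the modules. -/

namespace Pool.Agent.MP_19ffc6_ag.LU4

open Polynomial IntermediateField Pool.Agent.MP_19ffc6_ag.LU Pool.Agent.MP_19ffc6_ag.LU3 Mv

universe u

variable (k : Type*) (Ω : Type u) [Field k] [NontriviallyNormedField Ω] [Algebra k Ω]

/-- The inductive statement for the fields that see all values of `Ω`. -/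
def IHF (n : ℕ) : Prop :=
  ∀ F : IntermediateField k Ω, F.FG → Algebra.trdeg k F ≤ n → QFull F → SG k F

/-- PF: the step for transcendental extensions of a field that sees all values. -/
def PfStmt (n : ℕ) : Prop :=
  IHF k Ω n → ∀ (F : IntermediateField k Ω) (y : Ω), F.FG → Algebra.trdeg k F ≤ n →
    Transcendental F y → QFull F → SG k (F ⊔ adjoin k {y})

variable {k Ω} in
/-- The henselization of `F` is that of a monomial field or of a ruled field over a full base. -/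
def Rul (F : IntermediateField k Ω) : Prop :=
  (∃ (m : ℕ) (x : Fin m → Ω), (∀ i, x i ≠ 0) ∧ LinearIndependent ℤ (fun i => nu (x i)) ∧
    adjoin k (Set.range x) ≤ hens F ∧ F ≤ hens (adjoin k (Set.range x))) ∨
  ∃ (B : IntermediateField k Ω) (t : Ω), B.FG ∧ QFull B ∧ Transcendental B t ∧
    B ⊔ adjoin k {t} ≤ hens F ∧ F ≤ hens (B ⊔ adjoin k {t})

/-- RULW: the structure of the henselization when `Ω` is algebraic over `F`. -/
def RulW : Prop :=
  ∀ F : IntermediateField k Ω, F.FG → Algebra.IsAlgebraic F Ω →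
    ∀ (r : ℕ) (x : Fin r → Ω), (∀ i, x i ∈ F ∧ x i ≠ 0) →
    LinearIndependent ℤ (fun i => nu (x i)) → 2 ≤ r → Algebra.trdeg k F ≤ r + 2 → Rul F

/-- RULT: the same for a field that sees all values. -/
def RulStmt : Prop :=
  ∀ F : IntermediateField k Ω, F.FG → QFull F →
    ∀ (r : ℕ) (x : Fin r → Ω), (∀ i, x i ∈ F ∧ x i ≠ 0) →
    LinearIndependent ℤ (fun i => nu (x i)) → 2 ≤ r → Algebra.trdeg k F ≤ r + 2 → Rul F

/-- Landed as `LU3.tame_of`. -/
def TameS (p : ℕ) : Prop :=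
  ∀ K0 K : IntermediateField k Ω, K0.FG → K.FG → K0 ≤ hens K →
    relrank (hens K0) (hens K) < p → SG k K0 → SG k K

/-- Landed as `LU3.Mv.mono`. -/
def MonoS : Prop :=
  ∀ (m : ℕ) (x : Fin m → Ω), AlgebraicIndependent k x →
    LinearIndependent ℤ (fun i => nu (x i)) → SG k (adjoin k (Set.range x))

/-- Landed as `LU3.Mv.final`. -/
def FinS : Prop :=
  ∀ K : IntermediateField k Ω, K.FG → SG k K → ∀ Z : Finset Ω, (∀ z ∈ Z, z ∈ K ∧ ‖z‖ ≤ 1) →
    ∃ A, Model K Z A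

/-- Landed as `LU2.core2`. -/
def TwoS : Prop :=
  ∀ (F : IntermediateField k Ω), F.FG → Algebra.IsAlgebraic F Ω →
    ∀ (r : ℕ) (x : Fin r → Ω), (∀ i, x i ∈ F ∧ x i ≠ 0) →
    LinearIndependent ℤ (fun i => nu (x i)) → 2 ≤ r → Algebra.trdeg k F ≤ r + 2 →
    ∀ Z : Finset Ω, (∀ z ∈ Z, z ∈ F ∧ ‖z‖ ≤ 1) → ∃ A, Model F Z A

/-- IND: the inductive statement up to defect two. -/
def IndS : Prop :=
  ∀ (r : ℕ) (x : Fin r → Ω), (∀ i, x i ≠ 0) → LinearIndependent ℤ (fun i => nu (x i)) → 2 ≤ r →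
    IHF k Ω (r + 2)

/-- DEG: the local degree is at most the Weierstrass degree. -/
def DegS : Prop :=
  ∀ (K0 : IntermediateField k Ω) (z : Ω) (P : Polynomial Ω) (d : ℕ),
    (∀ i, P.coeff i ∈ K0 ∧ ‖P.coeff i‖ ≤ 1) → ‖P.coeff d‖ = 1 → ‖z‖ < 1 → P.eval z = 0 →
    IsAlgebraic K0 z ∧ relrank (hens K0) (hens (K0 ⊔ adjoin k {z})) ≤ d

/-- CORE: the theorem inside `Ω`. -/
def CoreS (p : ℕ) : Prop :=
  ∀ (E K : IntermediateField k Ω) (y z : Ω) (P : Polynomial Ω) (d r : ℕ) (x : Fin r → Ω),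
    E.FG → K = (E ⊔ adjoin k {y}) ⊔ adjoin k {z} → Algebra.IsAlgebraic K Ω →
    (∀ i, P.coeff i ∈ E ⊔ adjoin k {y} ∧ ‖P.coeff i‖ ≤ 1) → ‖P.coeff d‖ = 1 → ‖z‖ < 1 →
    P.eval z = 0 → d < p → (∀ i, x i ∈ E ∧ x i ≠ 0) →
    LinearIndependent ℤ (fun i => nu (x i)) → Algebra.trdeg k E ≤ r + 2 → 2 ≤ r ∨ 7 ≤ p →
    ∀ Z : Finset Ω, (∀ a ∈ Z, a ∈ K ∧ ‖a‖ ≤ 1) → ∃ A, Model K Z A

end Pool.Agent.MP_19ffc6_ag.LU4

/-! PROJECT LU4, module CORE: the theorem inside the big field. -/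

namespace Pool.Agent.MP_19ffc6_ag.LU4

open Polynomial IntermediateField Pool.Agent.MP_19ffc6_ag.LU Pool.Agent.MP_19ffc6_ag.LU3

universe u

variable {k : Type*} {Ω : Type u} [Field k] [NontriviallyNormedField Ω] [Algebra k Ω]

namespace CoreL

open Pd

theorem trdeg_sup_le (E : IntermediateField k Ω) (y : Ω) :
    Algebra.trdeg k ↥(E ⊔ adjoin k {y}) ≤ Algebra.trdeg k E + 1 := by
  rw [← restrictScalars_adjoin_eq_sup]
  change Algebra.trdeg k (adjoin E {y}) ≤ _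
  have : FaithfulSMul E (adjoin E {y}) :=
    (faithfulSMul_iff_algebraMap_injective _ _).2 (algebraMap E _).injective
  have h := trdeg_adjoin_le (k := E) fun _ : Unit => y
  rw [Set.range_const] at h
  rw [← trdeg_add_eq k E (A := adjoin E {y})]
  exact add_le_add le_rfl (by simpa using h)

theorem trdeg_sup_alg {E : IntermediateField k Ω} {y : Ω} (h : IsAlgebraic E y) :
    Algebra.trdeg k ↥(E ⊔ adjoin k {y}) ≤ Algebra.trdeg k E :=
  trdeg_le_of_alg (sup_le (le_acl E) (simple_le (mem_acl.2 h)))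

theorem fg_adj {E : IntermediateField k Ω} (h : E.FG) (y : Ω) : (E ⊔ adjoin k {y}).FG := by
  classical
  obtain ⟨Z, hZ⟩ := h
  exact ⟨insert y Z, adjoin_insert hZ y⟩

theorem indep_cons {E : IntermediateField k Ω} {r : ℕ} {x : Fin r → Ω} (hx : ∀ i, x i ∈ E)
    (hli : LinearIndependent ℤ fun i => nu (x i)) {b : Ω} (hb : nu b ∉ qv E) :
    LinearIndependent ℤ fun i => nu ((Fin.cons b x : Fin (r + 1) → Ω) i) := by
  have h1 : (fun i => nu ((Fin.cons b x : Fin (r + 1) → Ω) i)) =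
      (Fin.cons (nu b) fun i => nu (x i) : Fin (r + 1) → ℝ) := by
    funext i
    refine Fin.cases ?_ (fun j => ?_) i <;> simp
  rw [h1]
  refine LinearIndependent.finCons' _ _ hli fun c w hw h => by_contra fun hc => hb ?_
  have h2 : w ∈ qv E := by
    refine Submodule.span_induction (fun _ h => ?_) (zero_mem _) (fun _ _ _ _ => add_mem)
      (fun n _ _ h => ?_) hw
    · obtain ⟨i, rfl⟩ := h
      exact nu_mem_qv (hx i)
    · simpa using int_mul_mem n h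
  refine mem_of_mul_mem hc ?_
  rw [zsmul_eq_mul] at h
  rw [eq_neg_of_add_eq_zero_left h]
  exact neg_mem h2

end CoreL

end Pool.Agent.MP_19ffc6_ag.LU4

/-! Module DEG of PROJECT LU4: the local degree is at most the Weierstrass degree. -/

namespace Pool.Agent.MP_19ffc6_ag.LU4

open Polynomial IntermediateField Pool.Agent.MP_19ffc6_ag.LU Pool.Agent.MP_19ffc6_ag.LU3

universe u

namespace Deg

variable {Ω : Type u} [NontriviallyNormedField Ω] [IsUltrametricDist Ω]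

/-- The quotient by a linear factor with a small root is integral. -/
theorem quot_le {a : Ω} {Q : Polynomial Ω} (ha : ‖a‖ < 1)
    (h : ∀ i, ‖((X - C a) * Q).coeff i‖ ≤ 1) (i : ℕ) : ‖Q.coeff i‖ ≤ 1 := by
  have key : ∀ n i, Q.natDegree < i + n → ‖Q.coeff i‖ ≤ 1 := by
    intro n
    induction n with
    | zero => intro i hi; rw [coeff_eq_zero_of_natDegree_lt (by omega)]; simp
    | succ n ih =>
      intro i hi
      have h1 := h (i + 1)
      have h2 := ih (i + 1) (by omega)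
      rw [coeff_X_sub_C_mul] at h1
      rw [show Q.coeff i = (Q.coeff i - a * Q.coeff (i + 1)) + a * Q.coeff (i + 1) by ring]
      refine norm_add_le_of h1 ?_
      rw [norm_mul]
      exact mul_le_one₀ ha.le (norm_nonneg _) h2
  exact key (Q.natDegree + 1) i (by omega)

/-- The number of small roots is at most the index of a unit coefficient. -/
theorem card_le (s : Multiset Ω) : ∀ (P : Polynomial Ω) (d : ℕ), (∀ a ∈ s, ‖a‖ < 1) →
    (s.map fun a => X - C a).prod ∣ P → (∀ i, ‖P.coeff i‖ ≤ 1) → ‖P.coeff d‖ = 1 →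
    s.card ≤ d := by
  induction s using Multiset.induction_on with
  | empty => intros; simp
  | cons a s ih =>
    rintro _ d hs ⟨Q, rfl⟩ hP hd
    have ha := hs a (Multiset.mem_cons_self _ _)
    rw [Multiset.map_cons, Multiset.prod_cons, mul_assoc] at hP hd
    have hQ := quot_le ha hP
    have hsm : ∀ i, ‖a * ((s.map fun a => X - C a).prod * Q).coeff i‖ < 1 := fun i => by
      rw [norm_mul]
      exact mul_lt_one_of_nonneg_of_lt_one_left (norm_nonneg _) ha (hQ i)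
    rcases d with _ | d
    · rw [mul_coeff_zero, coeff_sub, coeff_X_zero, coeff_C_zero, zero_sub, neg_mul, norm_neg] at hd
      exact absurd hd (hsm 0).ne
    · rw [coeff_X_sub_C_mul] at hd
      rw [Multiset.card_cons]
      refine Nat.succ_le_succ (ih _ d (fun b hb => hs b (Multiset.mem_cons_of_mem hb))
        (dvd_mul_right _ Q) hQ (le_antisymm (hQ d) (not_lt.1 fun hlt => ?_)))
      exact (norm_sub_lt_of hlt (hsm _)).ne hd

variable {k : Type*} [Field k] [Algebra k Ω] [IsAlgClosed Ω]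

/-- The degree of a small root over a henselian field. -/
theorem natDegree_le {L : IntermediateField k Ω} (hL : IsH L) {z : Ω} {P : Polynomial Ω} {d : ℕ}
    (hP : ∀ i, P.coeff i ∈ L ∧ ‖P.coeff i‖ ≤ 1) (hd : ‖P.coeff d‖ = 1) (hz : ‖z‖ < 1)
    (h0 : P.eval z = 0) (hi : IsAlgebraic L z) : (minpoly L z).natDegree ≤ d := by
  obtain ⟨Q, rfl⟩ : ∃ Q : Polynomial L, Q.map (algebraMap L Ω) = P :=
    (lifts_iff_coeff_lifts P).2 fun i => ⟨⟨_, (hP i).1⟩, rfl⟩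
  rw [eval_map_algebraMap] at h0
  have hsp := IsAlgClosed.splits ((minpoly L z).map (algebraMap L Ω))
  rw [← natDegree_map (algebraMap L Ω), hsp.natDegree_eq_card_roots]
  refine card_le _ _ d (fun a ha => ?_) ?_ (fun i => (hP i).2) hd
  · have h3 := isRoot_of_mem_roots ha
    rw [IsRoot.def, eval_map_algebraMap] at h3
    rwa [hL.root hi h3]
  · rw [← hsp.eq_prod_roots_of_monic ((minpoly.monic hi.isIntegral).map _)]
    exact Polynomial.map_dvd _ (minpoly.dvd L z h0)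

end Deg

variable {k : Type*} {Ω : Type u} [Field k] [NontriviallyNormedField Ω] [Algebra k Ω]
  [IsUltrametricDist Ω] [IsAlgClosed k] [IsAlgClosed Ω] [Ctx k Ω]

theorem deg : DegS k Ω := by
  intro K0 z P d hP hd hz h0
  have ha : IsAlgebraic K0 z := by
    obtain ⟨Q, rfl⟩ : ∃ Q : Polynomial K0, Q.map (algebraMap K0 Ω) = P :=
      (lifts_iff_coeff_lifts P).2 fun i => ⟨⟨_, (hP i).1⟩, rfl⟩
    rw [eval_map_algebraMap] at h0
    exact ⟨Q, by rintro rfl; simp at hd, h0⟩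
  refine ⟨ha, ?_⟩
  have hi : IsAlgebraic (hens K0) z := isAlgebraic_of_le (le_hens K0) ha
  have hfin := adjoin.finiteDimensional hi.isIntegral
  have hH : IsH (hens K0 ⊔ adjoin k {z}) := (isH_hens K0).mono le_sup_left fun a h =>
    (isAlgebraic_algebraMap_iff (A := Ω) Subtype.val_injective).2
      (IsAlgebraic.of_finite (hens K0)
        (⟨a, mem_sup_iff_mem_adjoin.1 h⟩ : adjoin (hens K0) {z}))
  have hle : hens (K0 ⊔ adjoin k {z}) ≤ hens K0 ⊔ adjoin k {z} :=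
    hH.hens_le (sup_le_sup_right (le_hens K0) _)
  have h1 : Submodule.span (hens K0) (hens (K0 ⊔ adjoin k {z}) : Set Ω) ≤
      (adjoin (hens K0) {z}).toSubalgebra.toSubmodule :=
    Submodule.span_le.2 fun a h => mem_sup_iff_mem_adjoin.1 (hle h)
  rw [relrank_eq_rank_span (hens_mono le_sup_left)]
  refine (Submodule.rank_mono h1).trans ?_
  change Module.rank (hens K0) (adjoin (hens K0) {z}) ≤ d
  rw [← Module.finrank_eq_rank, adjoin.finrank hi.isIntegral]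
  exact_mod_cast Deg.natDegree_le (isH_hens K0) (fun i => ⟨le_hens K0 (hP i).1, (hP i).2⟩) hd hz
    h0 hi

end Pool.Agent.MP_19ffc6_ag.LU4

/-! Module IND of PROJECT LU4: the induction on the transcendence degree. -/

namespace Pool.Agent.MP_19ffc6_ag.LU4

open IntermediateField Pool.Agent.MP_19ffc6_ag.LU Pool.Agent.MP_19ffc6_ag.LU3 Mv

universe u

variable {k : Type*} {Ω : Type u} [Field k] [NontriviallyNormedField Ω] [Algebra k Ω]

namespace Ind

theorem drop {B F : IntermediateField k Ω} {t : Ω} (hB : B ≤ Pd.acl F) (ht : t ∈ Pd.acl F)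
    (h : Transcendental B t) : Algebra.trdeg k B + 1 ≤ Algebra.trdeg k F := by
  refine le_trans ?_ (Pd.trdeg_le_of_alg (le_refl (Pd.acl F)))
  change _ ≤ Algebra.trdeg k (extendScalars hB)
  have : FaithfulSMul B (extendScalars hB) :=
    (faithfulSMul_iff_algebraMap_injective _ _).2 (algebraMap B _).injective
  have : Algebra.Transcendental B (extendScalars hB) :=
    ⟨⟨t, ht⟩, fun a => h (a.algHom (extendScalars hB).val)⟩
  rw [← trdeg_add_eq k B (A := extendScalars hB)]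
  exact add_le_add_right (Cardinal.one_le_iff_pos.2 (trdeg_pos _ _)) _

theorem move {F : IntermediateField k Ω} (hF : QFull F) {r : ℕ} {x : Fin r → Ω}
    (h0 : ∀ i, x i ≠ 0) (hx : LinearIndependent ℤ fun i => nu (x i)) :
    ∃ b : Fin r → Ω, (∀ i, b i ∈ F ∧ b i ≠ 0) ∧ LinearIndependent ℤ fun i => nu (b i) := by
  have h1 : ∀ i, ∃ d : ℕ, 0 < d ∧ ∃ b ∈ F, b ≠ 0 ∧ nu b = d * nu (x i) := fun i => by
    obtain ⟨d, hd, h⟩ := exists_mul_mem_closure (hF _ (h0 i))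
    rw [AddSubgroup.closure_eq] at h
    exact ⟨d, hd, h⟩
  choose d hd b hb hb0 e using h1
  refine ⟨b, fun i => ⟨hb i, hb0 i⟩, Fintype.linearIndependent_iff.2 fun g hg i => ?_⟩
  have h2 := Fintype.linearIndependent_iff.1 hx (fun i => g i * d i) (by
    rw [← hg]
    refine Finset.sum_congr rfl fun j _ => ?_
    simp only [e, zsmul_eq_mul]
    push_cast
    ring) i
  exact (mul_eq_zero.1 h2).resolve_right (by exact_mod_cast (hd i).ne')

end Ind

theorem ind4 [IsUltrametricDist Ω] [IsAlgClosed k] [IsAlgClosed Ω] [Ctx k Ω] (p : ℕ)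
    [Fact p.Prime] (hP : ∀ n, PfStmt k Ω n) (hR : RulStmt k Ω) (hT : TameS k Ω p)
    (hM : MonoS k Ω) : IndS k Ω := by
  intro r x h0 hx hr
  have hp : (1 : Cardinal.{u}) < p := by exact_mod_cast (Fact.out : p.Prime).one_lt
  have tm : ∀ K0 K : IntermediateField k Ω, K0.FG → K.FG → K0 ≤ hens K → K ≤ hens K0 →
      SG k K0 → SG k K := fun K0 K h1 h2 h3 h4 =>
    hT K0 K h1 h2 h3 (by rwa [relrank_eq_one_iff.2 (hens_le_hens h4)])
  suffices h : ∀ d, d ≤ r + 2 → IHF k Ω d from h _ le_rfl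
  intro d
  induction d using Nat.strong_induction_on with
  | _ d ih =>
    intro hd F hF hn hq
    obtain ⟨b, hb, hbi⟩ := Ind.move hq h0 hx
    rcases hR F hF hq r b hb hbi hr (hn.trans (by exact_mod_cast hd)) with
      ⟨m, y, y0, yi, y1, y2⟩ | ⟨B, t, b1, b2, b3, b4, b5⟩
    · exact tm _ F (fg_adjoin_of_finite (Set.finite_range y)) hF y1 y2
        (hM m y (ind _ y y0 yi) yi)
    · have h1 := b4.trans (Pd.hens_le_acl F)
      have h2 := (Ind.drop (le_sup_left.trans h1) (h1 (Pd.self_mem B t)) b3).trans hn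
      obtain ⟨e, he⟩ := Cardinal.lt_aleph0.1
        ((le_self_add.trans h2).trans_lt Cardinal.natCast_lt_aleph0)
      rw [he] at h2
      have h3 : e + 1 ≤ d := by exact_mod_cast h2
      exact tm _ F (fg_sup b1 (fg_adjoin_of_finite (Set.finite_singleton t))) hF b4 b5
        (hP e (ih e h3 (by omega)) B t b1 he.le b3 b2)

end Pool.Agent.MP_19ffc6_ag.LU4

/-! PROJECT LU4: transport of the structure of the henselization. -/

namespace Pool.Agent.MP_19ffc6_ag.LU4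

open Polynomial IntermediateField Pool.Agent.MP_19ffc6_ag.LU Pool.Agent.MP_19ffc6_ag.LU3

universe u

namespace RulT

theorem big {k : Type*} {Ω : Type u} [Field k] [NontriviallyNormedField Ω] [Algebra k Ω]
    {F : IntermediateField k Ω} {a : Ω} (ha : a ∈ F) (h0 : a ≠ 0) (h1 : nu a ≠ 0) :
    ∃ m ∈ F, 1 < ‖m‖ := by
  have h2 : ‖a‖ ≠ 1 := fun e => h1 (by simp [nu, e])
  rcases h2.lt_or_gt with c | c
  · exact ⟨a⁻¹, inv_mem ha, by rw [norm_inv]; exact (one_lt_inv₀ (norm_pos_iff.2 h0)).2 c⟩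
  · exact ⟨a, ha, c⟩

end RulT

theorem rulT {k : Type*} {Ω : Type u} [Field k] [NontriviallyNormedField Ω] [Algebra k Ω]
    [IsUltrametricDist Ω] [IsAlgClosed k] [IsAlgClosed Ω] [Ctx k Ω]
    (h : ∀ (W : Type u) [NontriviallyNormedField W] [IsUltrametricDist W] [Algebra k W]
      [IsAlgClosed W] [Ctx k W], RulW k W) : RulStmt k Ω := by
  classical
  intro K hK hq r x hx hli hr htr
  obtain ⟨m, hm, hm1⟩ := RulT.big (hx ⟨0, by omega⟩).1 (hx ⟨0, by omega⟩).2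
    (hli.ne_zero ⟨0, by omega⟩)
  let W := (algebraicClosure K Ω).restrictScalars k
  have hW : ∀ a, a ∈ W ↔ IsAlgebraic K a := fun a => mem_algebraicClosure_iff
  let : NontriviallyNormedField W :=
    { (inferInstance : NormedField W) with non_trivial := ⟨⟨m, (hW m).2 (alg_of_mem hm)⟩, hm1⟩ }
  have : IsAlgClosed W := (algebraicClosure.isAlgClosure K Ω).isAlgClosed
  have : Ctx k W := ⟨fun c hc => Ctx.norm_alg (Ω := Ω) c hc, fun a ha => Ctx.res (a : Ω) ha⟩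
  have h1 := h W
  let j : W →ₐ[k] Ω := W.val
  have hj : ∀ x, ‖j x‖ = ‖x‖ := fun _ => rfl
  obtain ⟨Z, hZ⟩ := hK
  have hKW : ∀ z ∈ K, z ∈ W := fun z hz => (hW z).2 (alg_of_mem hz)
  have hZW : ∀ z ∈ Z, z ∈ W := fun z hz => hKW z (hZ ▸ subset_adjoin _ _ hz)
  let K' : IntermediateField k W := adjoin k (Set.range fun z : Z => (⟨z, hZW z z.2⟩ : W))
  have hK' : K'.map j = K := by
    rw [adjoin_map, ← Set.range_comp, ← hZ]
    congr 1
    exact Subtype.range_coe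
  have halg : Algebra.IsAlgebraic K' W := ⟨fun a => (alg_map_iff j).1 (hK' ▸ (hW _).1 a.2)⟩
  have hn' : Algebra.trdeg k K' ≤ r + 2 := by rwa [(equivMap K' j).trdeg_eq, hK']
  have hx' : ∀ i, (⟨x i, hKW _ (hx i).1⟩ : W) ∈ K' ∧ (⟨x i, hKW _ (hx i).1⟩ : W) ≠ 0 := fun i => by
    refine ⟨?_, fun e => (hx i).2 (congrArg Subtype.val e)⟩
    obtain ⟨b, hb, e⟩ : x i ∈ K'.map j := hK' ▸ (hx i).1
    have e' : b = ⟨x i, hKW _ (hx i).1⟩ := Subtype.ext e
    exact e' ▸ hb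
  have push : ∀ A B : IntermediateField k W, A ≤ hens B → A.map j ≤ hens (B.map j) :=
    fun A B hab => hens_map hj B ▸ map_mono j hab
  rcases h1 K' (fg_adjoin_of_finite (Set.finite_range _)) halg r _ hx' hli hr hn' with
    ⟨n, y, y0, yl, y1, y2⟩ | ⟨B, t, b1, b2, b3, b4, b5⟩
  · have e : (adjoin k (Set.range y)).map j = adjoin k (Set.range fun i => j (y i)) := by
      rw [adjoin_map, ← Set.range_comp]; rfl
    refine Or.inl ⟨n, fun i => j (y i), fun i => (_root_.map_ne_zero j).2 (y0 i), yl, ?_, ?_⟩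
    · rw [← e, ← hK']
      exact push _ _ y1
    · rw [← e, ← hK']
      exact push _ _ y2
  · have e : (B ⊔ adjoin k {t}).map j = B.map j ⊔ adjoin k {j t} := by
      rw [IntermediateField.map_sup, adjoin_map, Set.image_singleton]
    refine Or.inr ⟨B.map j, j t, ?_, fun a ha => ?_, fun c => b3 ((alg_map_iff j).1 c), ?_, ?_⟩
    · obtain ⟨S, rfl⟩ := b1
      rw [adjoin_map]
      exact fg_adjoin_of_finite (S.finite_toSet.image _)
    · refine Submodule.span_le.2 ?_ (hq a ha)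
      rintro _ ⟨b, hb, h0, rfl⟩
      exact qv_map hj B (b2 ⟨b, hKW b hb⟩ fun c => h0 (congrArg Subtype.val c))
    · rw [← e, ← hK']
      exact push _ _ b4
    · rw [← e, ← hK']
      exact push _ _ b5

end Pool.Agent.MP_19ffc6_ag.LU4

/-! PROJECT LU4, module DLA: a twisted derivation that kills the new coordinates kills the old
ones. -/

namespace Pool.Agent.MP_19ffc6_ag.LU4

open IntermediateField Pool.Agent.MP_19ffc6_ag.LU Pool.Agent.MP_19ffc6_ag.LU3 LatM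

namespace Dl

variable {k Ω : Type*} [Field k] [NontriviallyNormedField Ω] [Algebra k Ω]

/-- What is used about derivations and about `τ - 1` for an isometry `τ`. -/
structure Th (K : IntermediateField k Ω) (θ : Ω → Ω) : Prop where
  add : ∀ a ∈ K, ∀ b ∈ K, θ (a + b) = θ a + θ b
  mul : ∀ a ∈ K, ∀ b ∈ K, ‖θ (a * b)‖ ≤ max (‖a‖ * ‖θ b‖) (‖b‖ * ‖θ a‖)
  inv : ∀ a ∈ K, a ≠ 0 → ‖θ a⁻¹‖ = ‖a‖⁻¹ * ‖a‖⁻¹ * ‖θ a‖
  one : θ 1 = 0

variable {K : IntermediateField k Ω} {θ : Ω → Ω} {Δ : ℝ}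

theorem Th.zero (h : Th K θ) : θ 0 = 0 := by
  simpa using h.add 0 (zero_mem _) 0 (zero_mem _)

/-- Logarithmic size at most `Δ`. -/
def Le (h : Th K θ) (h0 : 0 ≤ Δ) : Submonoid Ω where
  carrier := {a | a ∈ K ∧ ‖θ a‖ ≤ Δ * ‖a‖}
  one_mem' := ⟨one_mem _, by simpa [h.one] using h0⟩
  mul_mem' := by
    rintro a b ⟨ha, ha'⟩ ⟨hb, hb'⟩
    refine ⟨mul_mem ha hb, (h.mul a ha b hb).trans (max_le ?_ ?_)⟩ <;> rw [norm_mul]
    · nlinarith [norm_nonneg a]
    · nlinarith [norm_nonneg b]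

theorem Le.inv {h : Th K θ} {h0 : 0 ≤ Δ} {a : Ω} (ha : a ∈ Le h h0) : a⁻¹ ∈ Le h h0 := by
  refine ⟨inv_mem ha.1, ?_⟩
  by_cases h1 : a = 0
  · simp [h1, h.zero]
  have h2 : 0 < ‖a‖ := norm_pos_iff.2 h1
  rw [h.inv a ha.1 h1, norm_inv]
  calc _ ≤ ‖a‖⁻¹ * ‖a‖⁻¹ * (Δ * ‖a‖) := mul_le_mul_of_nonneg_left ha.2 (by positivity)
    _ = _ := by field_simp

/-- Units of size less than `Δ`. -/
def Un (h : Th K θ) (h0 : 0 < Δ) : Submonoid Ω where
  carrier := {a | a ∈ K ∧ ‖a‖ = 1 ∧ ‖θ a‖ < Δ}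
  one_mem' := ⟨one_mem _, norm_one, by simpa [h.one] using h0⟩
  mul_mem' := by
    rintro a b ⟨ha, ha1, ha'⟩ ⟨hb, hb1, hb'⟩
    refine ⟨mul_mem ha hb, by rw [norm_mul, ha1, hb1, one_mul],
      (h.mul a ha b hb).trans_lt (max_lt ?_ ?_)⟩
    · rwa [ha1, one_mul]
    · rwa [hb1, one_mul]

theorem Un.inv {h : Th K θ} {h0 : 0 < Δ} {a : Ω} (ha : a ∈ Un h h0) : a⁻¹ ∈ Un h h0 :=
  ⟨inv_mem ha.1, by rw [norm_inv, ha.2.1, inv_one], by
    rw [h.inv a ha.1 (ne_zero_of_norm_eq_one ha.2.1), ha.2.1]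
    simpa using ha.2.2⟩

variable [IsUltrametricDist Ω]

/-- Small elements of size less than `Δ`. -/
def Sm (h : Th K θ) (h0 : 0 < Δ) : AddSubmonoid Ω where
  carrier := {a | a ∈ K ∧ ‖a‖ < 1 ∧ ‖θ a‖ < Δ}
  zero_mem' := ⟨zero_mem _, by simp, by simpa [h.zero] using h0⟩
  add_mem' := by
    rintro a b ⟨ha, ha1, ha'⟩ ⟨hb, hb1, hb'⟩
    exact ⟨add_mem ha hb, norm_add_lt_of ha1 hb1, by
      rw [h.add a ha b hb]; exact norm_add_lt_of ha' hb'⟩

theorem Sm.un {h : Th K θ} {h0 : 0 < Δ} {a : Ω} (ha : a ∈ Sm h h0) : 1 + a ∈ Un h h0 := by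
  refine ⟨add_mem (one_mem _) ha.1, ?_, ?_⟩
  · have : ‖(1 : Ω)‖ ≠ ‖a‖ := by rw [norm_one]; exact ha.2.1.ne'
    rw [IsUltrametricDist.norm_add_eq_max_of_norm_ne_norm this, norm_one, max_eq_left ha.2.1.le]
  · rw [h.add _ (one_mem _) _ ha.1, h.one, zero_add]
    exact ha.2.2

variable {I α : Type} [Fintype I] [Fintype α]

/-- An expansion whose coefficients are monomials times units. -/
def Ex (x : I → Ω) (ρ : α → Ω) (U : Set Ω) (t : Ω) : Prop :=
  ∃ c : α → Ω, (∀ l, c l = 0 ∨ ∃ e, ∃ w ∈ U, c l = mon x e * w) ∧ t = ∑ l, c l * ρ l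

variable {x : I → Ω} {ρ : α → Ω} {U : Set Ω}

theorem rep {h : Th K θ} {h0 : 0 < Δ} (hx : ∀ i, x i ∈ Le h h0.le)
    (hρ : ∀ l, ρ l ∈ Le h h0.le) (hU : ∀ w ∈ U, w ∈ Un h h0)
    (hinc : ∀ e e' l l', ‖mon x e * ρ l‖ = ‖mon x e' * ρ l'‖ → l = l' ∧ e = e') {t : Ω}
    (ht : Ex x ρ U t) (ht0 : t ≠ 0) : ∃ e l, t / (mon x e * ρ l) ∈ Un h h0 := by
  classical
  obtain ⟨c, hc, rfl⟩ := ht
  obtain ⟨l1, -, h1⟩ := Finset.exists_ne_zero_of_sum_ne_zero ht0
  obtain ⟨l0, -, hm⟩ := Finset.exists_max_image Finset.univ (fun l => ‖c l * ρ l‖) ⟨l1, by simp⟩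
  have h2 : 0 < ‖c l0 * ρ l0‖ := (norm_pos_iff.2 h1).trans_le (hm l1 (by simp))
  have h3 : c l0 * ρ l0 ≠ 0 := norm_pos_iff.1 h2
  have hs : ∀ l, c l * ρ l ∈ Le h h0.le := fun l => by
    rcases hc l with h4 | ⟨e, w, hw, h4⟩ <;> rw [h4]
    · exact ⟨by simp, by simp [h.zero]⟩
    · have := hU w hw
      exact mul_mem (mul_mem (mon_mem hx (fun i => Le.inv (hx i)) e)
        ⟨this.1, by rw [this.2.1, mul_one]; exact this.2.2.le⟩) (hρ l)
  have hn : ∀ e, ∀ w ∈ U, ∀ l, ‖mon x e * w * ρ l‖ = ‖mon x e * ρ l‖ := fun e w hw l => by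
    rw [norm_mul, norm_mul, (hU w hw).2.1, mul_one, norm_mul]
  obtain ⟨e, w, hw, h4⟩ := (hc l0).resolve_left (left_ne_zero_of_mul h3)
  have h5 : ∑ l ∈ Finset.univ.erase l0, c l * ρ l / (c l0 * ρ l0) ∈ Sm h h0 :=
    sum_mem fun l hl => by
      have h6 : c l * ρ l / (c l0 * ρ l0) ∈ Le h h0.le := by
        rw [div_eq_mul_inv]; exact mul_mem (hs l) (Le.inv (hs l0))
      have h7 : ‖c l * ρ l / (c l0 * ρ l0)‖ < 1 := by
        rw [norm_div, div_lt_one h2]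
        refine lt_of_le_of_ne (hm l (by simp)) fun h8 => ?_
        rcases hc l with h9 | ⟨e', w', hw', h9⟩
        · rw [h9, zero_mul, norm_zero] at h8
          exact h2.ne h8
        · rw [h9, h4, hn _ _ hw', hn _ _ hw] at h8
          exact (Finset.mem_erase.1 hl).1 (hinc _ _ _ _ h8).1
      exact ⟨h6.1, h7, h6.2.trans_lt (mul_lt_of_lt_one_right h0 h7)⟩
  refine ⟨e, l0, ?_⟩
  have h6 := mul_mem (hU w hw) (Sm.un h5)
  have hw0 : w ≠ 0 := ne_zero_of_norm_eq_one (hU w hw).2.1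
  rwa [← div_self h3, ← Finset.sum_div, ← add_div,
    Finset.add_sum_erase _ (fun l => c l * ρ l) (Finset.mem_univ l0), h4, mul_right_comm,
    ← div_div, mul_div_cancel₀ _ hw0] at h6

theorem un_of_mon {h : Th K θ} {h0 : 0 < Δ} (hx0 : ∀ i, x i ≠ 0) (hρ0 : ∀ l, ρ l ≠ 0)
    (hx : ∀ i, x i ∈ Le h h0.le) (hρ : ∀ l, ρ l ∈ Le h h0.le) (hU : ∀ w ∈ U, w ∈ Un h h0)
    (hinc : ∀ e e' l l', ‖mon x e * ρ l‖ = ‖mon x e' * ρ l'‖ → l = l' ∧ e = e')
    (e1 : Ex x ρ U 1) (e2 : ∀ i j, Ex x ρ U (ρ i * ρ j)) (e3 : ∀ i, Ex x ρ U (ρ i)⁻¹)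
    (a : I ⊕ α → ℤ) (ha : ‖mon (Sum.elim x ρ) a‖ = 1) : mon (Sum.elim x ρ) a ∈ Un h h0 := by
  classical
  obtain ⟨e0, l0, h1⟩ := rep hx hρ hU hinc e1 one_ne_zero
  let R : Submonoid Ω :=
    { carrier := {t | ∃ e l, t / (mon x e * ρ l) ∈ Un h h0}
      one_mem' := ⟨e0, l0, h1⟩
      mul_mem' := by
        rintro s t ⟨e, l, hs⟩ ⟨f, m, ht⟩
        obtain ⟨g, n, hg⟩ := rep hx hρ hU hinc (e2 l m) (mul_ne_zero (hρ0 l) (hρ0 m))
        refine ⟨e + f + g, n, ?_⟩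
        have h2 := mul_mem (mul_mem hs ht) hg
        have h3 := mon_ne hx0
        rwa [show s / (mon x e * ρ l) * (t / (mon x f * ρ m)) * (ρ l * ρ m / (mon x g * ρ n)) =
          s * t / (mon x (e + f + g) * ρ n) by
            rw [mon_add hx0, mon_add hx0]
            field_simp [h3 e, h3 f, h3 g, hρ0 l, hρ0 m, hρ0 n]] at h2 }
  have h2 : ∀ e, mon x e ∈ R := fun e => ⟨e + e0, l0, by
    rwa [mon_add hx0, mul_assoc, div_mul_eq_div_div, div_self (mon_ne hx0 e)]⟩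
  have h3 : mon (Sum.elim x ρ) a ∈ R := by
    refine mon_mem ?_ ?_ a
    · rintro (i | l)
      · have := h2 (Pi.single i 1)
        rwa [mon_single] at this
      · exact ⟨0, l, by
          rw [mon_zero, one_mul, Sum.elim_inr, div_self (hρ0 l)]; exact one_mem _⟩
    · rintro (i | l)
      · have := h2 (-Pi.single i 1)
        rwa [mon_neg, mon_single] at this
      · exact rep hx hρ hU hinc (e3 l) (inv_ne_zero (hρ0 l))
  obtain ⟨e, l, h4⟩ := h3
  have h5 := h4.2.1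
  have h6 := h1.2.1
  rw [norm_div, ha] at h5
  rw [norm_div, norm_one] at h6
  obtain ⟨rfl, rfl⟩ := hinc e e0 l l0 (inv_injective (by simp only [← one_div, h5, h6]))
  have h7 := mul_mem h4 (Un.inv h1)
  rwa [one_div, inv_inv, div_mul_cancel₀ _ (mul_ne_zero (mon_ne hx0 e) (hρ0 l))] at h7

theorem key (h : Th K θ) (hx : ∀ i, x i ∈ K ∧ x i ≠ 0 ∧ ‖x i‖ < 1) (hρ : ∀ l, ρ l ∈ K ∧ ρ l ≠ 0)
    (hU : ∀ w ∈ U, w ∈ K ∧ ‖w‖ = 1)
    (hUθ : ∀ m : ℝ, 0 ≤ m → (∀ i, ‖θ (x i)‖ ≤ m) → ∀ w ∈ U, ‖θ w‖ ≤ m)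
    (hinc : ∀ e e' l l', ‖mon x e * ρ l‖ = ‖mon x e' * ρ l'‖ → l = l' ∧ e = e')
    (e1 : Ex x ρ U 1) (e2 : ∀ i j, Ex x ρ U (ρ i * ρ j)) (e3 : ∀ i, Ex x ρ U (ρ i)⁻¹)
    {y : I → Ω} (hy : ∀ j, y j ∈ K ∧ θ (y j) = 0)
    (hm : ∀ i, ∃ n a, ‖mon (Sum.elim x ρ) a‖ = 1 ∧
      Sum.elim x ρ i = mon y n * mon (Sum.elim x ρ) a) (i : I ⊕ α) : θ (Sum.elim x ρ i) = 0 := by
  by_contra hi
  have hg : ∀ i, 0 < ‖Sum.elim x ρ i‖ := by
    rintro (i | i)
    exacts [norm_pos_iff.2 (hx i).2.1, norm_pos_iff.2 (hρ i).2]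
  obtain ⟨i0, -, hmax⟩ := Finset.exists_max_image Finset.univ
    (fun i => ‖θ (Sum.elim x ρ i)‖ / ‖Sum.elim x ρ i‖) ⟨i, by simp⟩
  have h0 : 0 < ‖θ (Sum.elim x ρ i0)‖ / ‖Sum.elim x ρ i0‖ :=
    (div_pos (norm_pos_iff.2 hi) (hg i)).trans_le (hmax i (by simp))
  have h1 : ∀ i, ‖θ (Sum.elim x ρ i)‖ ≤ _ * ‖Sum.elim x ρ i‖ := fun i =>
    (div_le_iff₀ (hg i)).1 (hmax i (by simp))
  have h2 : ‖fun i => θ (x i)‖ < _ := (pi_norm_lt_iff h0).2 fun i =>
    (h1 (.inl i)).trans_lt (mul_lt_of_lt_one_right h0 (hx i).2.2)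
  obtain ⟨n, a, ha, hi0⟩ := hm i0
  have h3 := un_of_mon (h := h) (h0 := h0) (fun i => (hx i).2.1) (fun l => (hρ l).2)
    (fun i => ⟨(hx i).1, h1 (.inl i)⟩) (fun l => ⟨(hρ l).1, h1 (.inr l)⟩)
    (fun w hw => ⟨(hU w hw).1, (hU w hw).2, (hUθ _ (norm_nonneg _)
      (norm_le_pi_norm fun i => θ (x i)) w hw).trans_lt h2⟩) hinc e1 e2 e3 a ha
  have h4 : ∀ j, y j ∈ Le h le_rfl := fun j => ⟨(hy j).1, by simp [(hy j).2]⟩
  have h5 := mon_mem h4 (fun j => Le.inv (h4 j)) n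
  have h6 := h.mul _ h5.1 _ h3.1
  have h7 : ‖θ (mon y n)‖ = 0 := le_antisymm (by simpa using h5.2) (norm_nonneg _)
  have h8 : ‖Sum.elim x ρ i0‖ = ‖mon y n‖ := by rw [hi0, norm_mul, ha, mul_one]
  rw [← hi0, h7, mul_zero, max_eq_left (by positivity), ← h8] at h6
  have h9 := (lt_div_iff₀' (hg i0)).1 h3.2.2
  exact absurd h6 h9.not_ge

theorem th_der {D : Ω → Ω} (hD : IsDer K D) : Th K D where
  add := hD.add
  mul a ha b hb := by
    rw [hD.mul a ha b hb, ← norm_mul, ← norm_mul]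
    exact IsUltrametricDist.norm_add_le_max _ _
  inv a ha h0 := by rw [Desc.D_inv hD ha h0, norm_neg, norm_mul, norm_pow, norm_inv, sq]
  one := Desc.D_one hD

theorem th_iso (τ : Ω →+* Ω) (hτ : ∀ a ∈ K, ‖τ a‖ = ‖a‖) : Th K fun a => τ a - a where
  add a _ b _ := by rw [map_add]; ring
  mul a ha b _ := by
    rw [map_mul, show τ a * τ b - a * b = τ a * (τ b - b) + b * (τ a - a) by ring, ← hτ a ha,
      ← norm_mul, ← norm_mul]
    exact IsUltrametricDist.norm_add_le_max _ _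
  inv a ha h0 := by
    have h1 : τ a ≠ 0 := (map_ne_zero τ).2 h0
    rw [map_inv₀, show (τ a)⁻¹ - a⁻¹ = -((τ a)⁻¹ * a⁻¹ * (τ a - a)) by field_simp; ring,
      norm_neg, norm_mul, norm_mul, norm_inv, norm_inv, hτ a ha]
  one := by simp

end Dl

end Pool.Agent.MP_19ffc6_ag.LU4
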