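import Pool.Agent.MP_19ffc6_ag.LU3.MainA
import Pool.Agent.MP_19ffc6_ag.LU4.MA

/-! PROJECT LU4, module TOW: the inductive statement goes up along towers of radical extensions
of exponent prime to `p` and of extensions of Weierstrass degree less than `p`. -/

namespace Pool.Agent.MP_19ffc6_ag.LU4

open Polynomial IntermediateField Pool.Agent.MP_19ffc6_ag.LU Pool.Agent.MP_19ffc6_ag.LU3
open Pool.Agent.MP_19ffc6_ag.LU3.Mv Pool.Agent.MP_19ffc6_ag.LU3.Pd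

universe u

variable {k : Type*} {Ω : Type u} [Field k] [NontriviallyNormedField Ω] [Algebra k Ω]

/-- One tame step. -/
def Stp (p : ℕ) (A B : IntermediateField k Ω) : Prop :=
  ∃ z : Ω, B = A ⊔ adjoin k {z} ∧ ((∃ a : ℕ, ¬ p ∣ a ∧ z ^ a ∈ A) ∨
    (‖z‖ < 1 ∧ ∃ (P : Polynomial Ω) (d : ℕ), d < p ∧ (∀ i, P.coeff i ∈ A ∧ ‖P.coeff i‖ ≤ 1) ∧
      ‖P.coeff d‖ = 1 ∧ P.eval z = 0))

namespace Tow

variable [IsUltrametricDist Ω] [Ctx k Ω] [IsAlgClosed Ω] [IsAlgClosed k] {p : ℕ} [Fact p.Prime]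
  [CharP k p]

omit [Fact p.Prime] in
/-- Ascent along an extension whose henselization is spanned by radicals. -/
theorem tame_bas (hA : AscStmt k Ω) (hD : LU3.DescStmt k Ω)
    (K0 K : IntermediateField k Ω) (h0 : K0.FG) (hK : K.FG) (hle : K0 ≤ hens K)
    {N : ℕ} {α : Type} [Fintype α] (ρ : α → Ω) (hN : ¬ p ∣ N)
    (h1 : ∀ i, ρ i ∈ hens K ∧ ρ i ≠ 0 ∧ ρ i ^ N ∈ K0)
    (h2 : ∀ i j, ∀ b ∈ hens K0, ‖ρ i‖ = ‖b‖ * ‖ρ j‖ → i = j)
    (h3 : ∀ a ∈ hens K, a ∈ Submodule.span (hens K0) (Set.range ρ))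
    (hs : SG k K0) : SG k K := by
  classical
  obtain ⟨Z0, hZ0⟩ := h0
  set K2 := K ⊔ (K0 ⊔ adjoin k (Set.range ρ)) with hK2
  have hρ2 : ∀ j, ρ j ∈ K2 := fun j =>
    (le_sup_right.trans le_sup_right : adjoin k (Set.range ρ) ≤ K2) (subset_adjoin _ _ ⟨j, rfl⟩)
  have h02 : K0 ≤ K2 := le_sup_left.trans le_sup_right
  have h2K : K2 ≤ hens K := sup_le (le_hens K)
    (sup_le hle (adjoin_le_iff.2 (Set.range_subset_iff.2 fun j => (h1 j).1)))
  refine hD K K2 le_sup_left h2K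
    (fg_sup hK (fg_sup ⟨Z0, hZ0⟩ (fg_adjoin_of_finite (Set.finite_range ρ))))
    (sg_of (Z0 ∪ Finset.univ.image ρ) (fun z hz => ?_) fun W hW => ?_)
  · rcases Finset.mem_union.1 hz with hz | hz
    · exact h02 (hZ0 ▸ subset_adjoin _ _ hz)
    · obtain ⟨j, -, rfl⟩ := Finset.mem_image.1 hz
      exact hρ2 j
  choose! c hc using fun w (hw : w ∈ W) =>
    (Submodule.mem_span_range_iff_exists_fun _).1 (h3 w (h2K (hW w hw).1))
  obtain ⟨ι, _, ξ, I, g1, g2, g3, g4⟩ := hA K0 hs Z0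
    (((W ×ˢ Finset.univ).image fun x : Ω × α => (c x.1 x.2 : Ω)).erase 0 ∪
      Finset.univ.image fun j => ρ j ^ N) hZ0 (by
      intro w hw
      rcases Finset.mem_union.1 hw with hw | hw
      · obtain ⟨x, -, rfl⟩ := Finset.mem_image.1 (Finset.mem_erase.1 hw).2
        exact ⟨(c x.1 x.2).2, (Finset.mem_erase.1 hw).1⟩
      · obtain ⟨j, -, rfl⟩ := Finset.mem_image.1 hw
        exact ⟨le_hens _ (h1 j).2.2, pow_ne_zero _ (h1 j).2.1⟩)
  obtain ⟨ξ1, a1, a2, a3, a4, a5⟩ := gd_rad g1 hN ρ fun j =>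
    g3 _ (Finset.mem_union_right _ (Finset.mem_image_of_mem _ (Finset.mem_univ j)))
  obtain ⟨ξ2, b1, b2, b3, b4, b5⟩ := gd_sum a1 W (fun w j => (c w j : Ω) * ρ j) fun w hw => by
    refine ⟨(hW w hw).2, (hc w hw).symm, fun j hj => ?_, fun i j hi hij => ?_⟩
    · refine ((g3 _ (Finset.mem_union_left _ (Finset.mem_erase.2 ⟨left_ne_zero_of_mul hj,
        Finset.mem_image_of_mem _ (a := (w, j))
          (Finset.mem_product.2 ⟨hw, Finset.mem_univ _⟩)⟩))).mono a1 a2).mul a1 (a3 j)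
    · refine h2 i j (c w j / c w i : Ω) (div_mem (c w j).2 (c w i).2) ?_
      rw [norm_mul, norm_mul] at hij
      rw [norm_div, div_mul_eq_mul_div, ← hij,
        mul_div_cancel_left₀ _ (norm_ne_zero_iff.2 (left_ne_zero_of_mul hi))]
  refine ⟨ι, inferInstance, ξ2, I, b1, fun i => ?_, b5, Sp.gn a1 b1 b2 (fun C hC hZ => ?_) b3⟩
  · refine (b4.trans_le (adjoin_le_iff.2 (Set.range_subset_iff.2 ?_))) (subset_adjoin _ _ ⟨i, rfl⟩)
    exact a5 _ (isH_hens K2) (fun i => hens_le_hens (h02.trans (le_hens _)) (g2 i))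
      fun j => le_hens _ (hρ2 j)
  · refine a4 C hC (Set.union_subset (Set.range_subset_iff.2
      (g4 C (hC.mono g1 a1 a2) fun z hz => hZ (Or.inl ?_))) ?_)
    · exact Finset.mem_union_left _ hz
    · rintro _ ⟨j, rfl⟩
      exact hZ (Or.inl (Finset.mem_union_right _ (Finset.mem_image_of_mem _ (Finset.mem_univ j))))

omit [IsAlgClosed k] [Fact p.Prime] in
/-- The least power of a radical whose norm is a norm of the henselization lies in it. -/
theorem exists_pow (K0 : IntermediateField k Ω) {z : Ω} (hz : z ≠ 0) {a : ℕ} (ha : ¬ p ∣ a)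
    (h : z ^ a ∈ K0) : ∃ e : ℕ, 0 < e ∧ z ^ e ∈ hens K0 ∧
      ∀ n : ℕ, 0 < n → n < e → ∀ b ∈ hens K0, ‖z‖ ^ n ≠ ‖b‖ := by
  classical
  have ha0 : 0 < a := Nat.pos_of_ne_zero (by rintro rfl; exact ha (dvd_zero p))
  have hex : ∃ n : ℕ, 0 < n ∧ ∃ b ∈ hens K0, ‖z‖ ^ n = ‖b‖ :=
    ⟨a, ha0, z ^ a, le_hens _ h, (norm_pow _ _).symm⟩
  obtain ⟨he0, b, hb, hbe⟩ := Nat.find_spec hex
  have hmin : ∀ n : ℕ, 0 < n → n < Nat.find hex → ∀ b ∈ hens K0, ‖z‖ ^ n ≠ ‖b‖ :=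
    fun n h0 hn b hb h => Nat.find_min hex hn ⟨h0, b, hb, h⟩
  generalize Nat.find hex = e at he0 hbe hmin
  have hz' : ‖z‖ ≠ 0 := norm_ne_zero_iff.2 hz
  have hb0 : ‖b‖ ≠ 0 := hbe ▸ pow_ne_zero _ hz'
  have hd : a % e = 0 := by
    by_contra h1
    refine hmin _ (Nat.pos_of_ne_zero h1) (Nat.mod_lt _ he0) (z ^ a / b ^ (a / e))
      (div_mem (le_hens _ h) (pow_mem hb _)) ?_
    rw [norm_div, norm_pow, norm_pow, ← hbe, ← pow_mul, eq_div_iff (pow_ne_zero _ hz'), ← pow_add,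
      Nat.mod_add_div]
  obtain ⟨q, rfl⟩ := Nat.dvd_of_mod_eq_zero hd
  have hu : z ^ e / b ∈ hens K0 := (isH_hens K0).rad (p := p) (n := q)
    (fun h1 => ha (h1.mul_left e))
    (by rw [div_pow, ← pow_mul]; exact div_mem (le_hens _ h) (pow_mem hb _))
    (by rw [norm_div, norm_pow, hbe, div_self hb0])
  refine ⟨e, he0, ?_, hmin⟩
  have := mul_mem hu hb
  rwa [div_mul_cancel₀ _ (norm_ne_zero_iff.1 hb0)] at this

omit [IsUltrametricDist Ω] [Ctx k Ω] [IsAlgClosed Ω] [IsAlgClosed k] in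
theorem alg_of_pow {K0 : IntermediateField k Ω} {z : Ω} {a : ℕ} (ha : 0 < a) (h : z ^ a ∈ K0) :
    IsAlgebraic K0 z := IsAlgebraic.of_pow ha (alg_of_mem h)

omit [Fact p.Prime] in
/-- Ascent along a radical extension of exponent prime to `p`. -/
theorem kummer (hA : AscStmt k Ω) (hD : LU3.DescStmt k Ω) (K0 : IntermediateField k Ω)
    (h0 : K0.FG) {z : Ω} {a : ℕ} (ha : ¬ p ∣ a) (h : z ^ a ∈ K0) (hs : SG k K0) :
    SG k (K0 ⊔ adjoin k {z}) := by
  by_cases hz : z = 0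
  · rwa [sup_eq_left.2 (simple_le (hz ▸ zero_mem K0))]
  obtain ⟨e, he0, he, hmin⟩ := exists_pow K0 hz ha h
  have hz' : ‖z‖ ≠ 0 := norm_ne_zero_iff.2 hz
  have hlt : ∀ i j : Fin e, (j : ℕ) < i → ∀ b ∈ hens K0, ‖z ^ (i : ℕ)‖ ≠ ‖b‖ * ‖z ^ (j : ℕ)‖ :=
    fun i j hij b hb h1 => hmin (i - j) (by omega) (by omega) b hb (by
      rw [norm_pow, norm_pow] at h1
      rw [pow_sub₀ _ hz' hij.le, h1, mul_inv_cancel_right₀ (pow_ne_zero _ hz')])
  refine tame_bas hA hD K0 _ h0 (fg_sup h0 (fg_adjoin_of_finite (Set.finite_singleton z)))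
    (le_sup_left.trans (le_hens _)) (fun i : Fin e => z ^ (i : ℕ)) ha
    (fun i => ⟨le_hens _ (pow_mem (self_mem K0 z) _), pow_ne_zero _ hz, by
      rw [← pow_mul, mul_comm, pow_mul]; exact pow_mem h _⟩) (fun i j b hb h1 => ?_)
    (fun w hw => ?_) hs
  · rcases lt_trichotomy (i : ℕ) j with h2 | h2 | h2
    · have hb0 : ‖b‖ ≠ 0 := fun h3 =>
        pow_ne_zero _ hz (norm_eq_zero.1 (by rw [h1, h3, zero_mul]))
      exact absurd (by rw [h1, norm_inv, inv_mul_cancel_left₀ hb0])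
        (hlt j i h2 b⁻¹ (inv_mem hb))
    · exact Fin.ext h2
    · exact absurd h1 (hlt i j h2 b hb)
  have hza : IsAlgebraic (hens K0) z := alg_of_pow he0 he
  let K' : IntermediateField k Ω := (adjoin (hens K0) {z}).restrictScalars k
  have hL : hens K0 ≤ K' := fun x hx =>
    (adjoin (hens K0) {z}).algebraMap_mem (⟨x, hx⟩ : hens K0)
  have hK' : IsH K' := (isH_hens K0).mono hL fun x hx =>
    isAlgebraic_iff.1 ((isAlgebraic_adjoin_simple hza.isIntegral).isAlgebraic ⟨x, hx⟩)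
  have h1 : w ∈ adjoin (hens K0) {z} := hK'.hens_le (sup_le ((le_hens K0).trans hL)
    (simple_le (mem_adjoin_simple_self (hens K0) z))) hw
  rw [← mem_toSubalgebra, adjoin_simple_toSubalgebra_of_isAlgebraic hza,
    ← Subalgebra.mem_toSubmodule, Algebra.adjoin_eq_span] at h1
  refine Submodule.span_le.2 (fun x hx => ?_) h1
  obtain ⟨n, rfl⟩ := Submonoid.mem_closure_singleton.1 hx
  have h2 := (Submodule.span (hens K0) (Set.range fun i : Fin e => z ^ (i : ℕ))).smul_mem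
    (⟨_, pow_mem he (n / e)⟩ : hens K0) (Submodule.subset_span ⟨⟨n % e, Nat.mod_lt _ he0⟩, rfl⟩)
  change (z ^ e) ^ (n / e) * z ^ (n % e) ∈ _ at h2
  rwa [← pow_mul, ← pow_add, Nat.div_add_mod] at h2

/-- One step. -/
theorem stp (hA : AscStmt k Ω) (hD : LU3.DescStmt k Ω) (hd : DegS k Ω)
    {A B : IntermediateField k Ω} (h : Stp p A B) (h0 : A.FG) :
    B.FG ∧ A ≤ B ∧ B ≤ acl A ∧ (SG k A → SG k B) := by
  obtain ⟨z, rfl, h⟩ := h
  have hB : (A ⊔ adjoin k {z}).FG := fg_sup h0 (fg_adjoin_of_finite (Set.finite_singleton z))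
  rcases h with ⟨a, ha, h⟩ | ⟨hz, P, d, hdp, h1, h2, h3⟩
  · exact ⟨hB, le_sup_left, sup_le (le_acl A) (simple_le (mem_acl.2 (alg_of_pow
      (Nat.pos_of_ne_zero (by rintro rfl; exact ha (dvd_zero p))) h))), kummer hA hD A h0 ha h⟩
  · obtain ⟨g1, g2⟩ := hd A z P d h1 h2 hz h3
    exact ⟨hB, le_sup_left, sup_le (le_acl A) (simple_le (mem_acl.2 g1)),
      tame_of (p := p) hA hD A _ h0 hB (le_sup_left.trans (le_hens _))
        (g2.trans_lt (by exact_mod_cast hdp))⟩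

end Tow

end Pool.Agent.MP_19ffc6_ag.LU4

/-! PROJECT LU4, module TOW2: towers that also contain steps without defect. -/

namespace Pool.Agent.MP_19ffc6_ag.LU4

open Polynomial IntermediateField Pool.Agent.MP_19ffc6_ag.LU Pool.Agent.MP_19ffc6_ag.LU3
open Pool.Agent.MP_19ffc6_ag.LU3.Mv Pool.Agent.MP_19ffc6_ag.LU3.Pd

universe u

variable {k : Type*} {Ω : Type u} [Field k] [NontriviallyNormedField Ω] [Algebra k Ω]

/-- One step: a radical of exponent prime to `p`, or a root of Weierstrass degree `d` where `d` is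
less than `p` or at most the ramification index. -/
def Stp2 (p : ℕ) (A B : IntermediateField k Ω) : Prop :=
  ∃ z : Ω, B = A ⊔ adjoin k {z} ∧ ((∃ a : ℕ, ¬ p ∣ a ∧ z ^ a ∈ A) ∨
    (‖z‖ < 1 ∧ ∃ (P : Polynomial Ω) (d : ℕ), (∀ i, P.coeff i ∈ A ∧ ‖P.coeff i‖ ≤ 1) ∧
      ‖P.coeff d‖ = 1 ∧ P.eval z = 0 ∧ (d < p ∨ ∃ ρ : Fin d → Ω, (∀ i, ρ i ∈ B ∧ ρ i ≠ 0) ∧
        ∀ i j, ∀ b ∈ A, ‖ρ i‖ = ‖b‖ * ‖ρ j‖ → i = j)))

variable (k Ω) in
/-- DL: ascent along an extension without defect. -/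
def DlS (n : ℕ) : Prop :=
  ∀ A B : IntermediateField k Ω, A.FG → B.FG → A ≤ B → QFull A →
    Algebra.trdeg k B ≤ (n + 1 : ℕ) → ∀ (α : Type) [Fintype α] (ρ : α → Ω),
    (∀ i, ρ i ∈ hens B ∧ ρ i ≠ 0) → (∀ i j, ∀ b ∈ hens A, ‖ρ i‖ = ‖b‖ * ‖ρ j‖ → i = j) →
    (∀ a ∈ hens B, a ∈ Submodule.span (hens A) (Set.range ρ)) → SG k A → SG k B

namespace Tow

variable [IsUltrametricDist Ω] [Ctx k Ω] [IsAlgClosed Ω] [IsAlgClosed k] {p : ℕ} [Fact p.Prime]
  [CharP k p]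

omit [Ctx k Ω] [IsAlgClosed Ω] [IsAlgClosed k] in
theorem span_of_rank {L E : IntermediateField k Ω} (hle : L ≤ E) {d : ℕ} (hd : relrank L E ≤ d)
    {ρ : Fin d → Ω} (h1 : ∀ i, ρ i ∈ E ∧ ρ i ≠ 0)
    (h2 : ∀ i j, ∀ b ∈ L, ‖ρ i‖ = ‖b‖ * ‖ρ j‖ → i = j) {a : Ω} (ha : a ∈ E) :
    a ∈ Submodule.span L (Set.range ρ) := by
  by_contra h
  have h3 := (card_le_relrank hle (fun o => by cases o; exacts [ha, (h1 _).1])
    ((linearIndependent_of_class (fun i => (h1 i).2) h2).option h)).trans hd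
  rw [Cardinal.mk_fintype, Fintype.card_option, Fintype.card_fin, Cardinal.lift_natCast,
    Nat.cast_le] at h3
  omega

/-- One step. -/
theorem stp2 (hA : AscStmt k Ω) (hD : LU3.DescStmt k Ω) (hd : DegS k Ω)
    {A B : IntermediateField k Ω} (h : Stp2 p A B) (h0 : A.FG) :
    B.FG ∧ A ≤ B ∧ B ≤ acl A ∧ ∀ n : ℕ, DlS k Ω n → QFull A →
      Algebra.trdeg k A ≤ (n + 1 : ℕ) → SG k A → SG k B := by
  obtain ⟨z, hB, h⟩ := h
  rcases h with h | ⟨hz, P, d, h1, h2, h3, h | ⟨ρ, g1, g2⟩⟩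
  · obtain ⟨a1, a2, a3, a4⟩ := stp (p := p) hA hD hd ⟨z, hB, Or.inl h⟩ h0
    exact ⟨a1, a2, a3, fun _ _ _ _ => a4⟩
  · obtain ⟨a1, a2, a3, a4⟩ := stp (p := p) hA hD hd ⟨z, hB, Or.inr ⟨hz, P, d, h, h1, h2, h3⟩⟩ h0
    exact ⟨a1, a2, a3, fun _ _ _ _ => a4⟩
  obtain ⟨b1, b2⟩ := hd A z P d h1 h2 hz h3
  rw [← hB] at b2
  have a1 : B.FG := hB ▸ CoreL.fg_adj h0 z
  have a2 : A ≤ B := hB ▸ le_sup_left
  have a3 : B ≤ acl A := hB ▸ sup_le (le_acl A) (simple_le (mem_acl.2 b1))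
  have g3 : ∀ i, ρ i ∈ hens B ∧ ρ i ≠ 0 := fun i => ⟨le_hens _ (g1 i).1, (g1 i).2⟩
  have g4 : ∀ i j, ∀ b ∈ hens A, ‖ρ i‖ = ‖b‖ * ‖ρ j‖ → i = j := fun i j b hb h => by
    obtain ⟨c, hc, hcb⟩ := exists_norm_eq_of_mem_hens hb
    exact g2 i j c hc (by rwa [hcb])
  exact ⟨a1, a2, a3, fun n hn hq ht => hn A B h0 a1 a2 hq ((trdeg_le_of_alg a3).trans ht)
    (Fin d) ρ g3 g4 fun a ha => span_of_rank (hens_mono a2) b2 g3 g4 ha⟩

/-- A tower of steps. -/
theorem tower2 (hA : AscStmt k Ω) (hD : LU3.DescStmt k Ω) (hd : DegS k Ω)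
    {A B : IntermediateField k Ω} (h : Relation.ReflTransGen (Stp2 p) A B) (h0 : A.FG) :
    B.FG ∧ A ≤ B ∧ B ≤ acl A ∧ ∀ n : ℕ, DlS k Ω n → QFull A →
      Algebra.trdeg k A ≤ (n + 1 : ℕ) → SG k A → SG k B := by
  induction h with
  | refl => exact ⟨h0, le_rfl, le_acl A, fun _ _ _ _ => id⟩
  | tail _ h ih =>
    obtain ⟨a1, a2, a3, a4⟩ := ih
    obtain ⟨b1, b2, b3, b4⟩ := stp2 hA hD hd h a1
    exact ⟨b1, a2.trans b2, fun x hx => mem_acl_of_alg a3 (mem_acl.1 (b3 hx)),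
      fun n hn hq ht hs => b4 n hn (fun a ha => qv_mono a2 (hq a ha))
        ((trdeg_le_of_alg a3).trans ht) (a4 n hn hq ht hs)⟩

end Tow

end Pool.Agent.MP_19ffc6_ag.LU4

/-! PROJECT LU4, module EMBA: smooth models whose centre is generated by given coordinates. -/

namespace Pool.Agent.MP_19ffc6_ag.LU4

open Polynomial IntermediateField Pool.Agent.MP_19ffc6_ag.LU Pool.Agent.MP_19ffc6_ag.LU3
open Pool.Agent.MP_19ffc6_ag.LU3.FinalA Pool.Agent.MP_19ffc6_ag.LU3.Hr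

namespace Emb

variable {k Ω : Type*} [Field k] [NontriviallyNormedField Ω] [Algebra k Ω] {ι : Type} [Fintype ι]

/-- A smooth model whose centre is generated by `x`. -/
def CM (K : IntermediateField k Ω) (Z : Finset Ω) (x : ι → Ω) : Prop :=
  ∃ A, Model K Z A ∧ (∀ i, x i ∈ A) ∧ ∀ a ∈ A, ‖a‖ < 1 → JJ A x a

/-- The elements of `A` that are constants modulo the coordinates. -/
def SS (A : Subalgebra k Ω) (x : ι → Ω) : Subalgebra k Ω where
  carrier := {a | a ∈ A ∧ ∃ c : k, JJ A x (a - algebraMap k Ω c)}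
  mul_mem' := by
    rintro a b ⟨ha, c, hc⟩ ⟨hb, d, hd⟩
    refine ⟨mul_mem ha hb, c * d, ?_⟩
    have := (hc.mul hb).add (hd.mul (A.algebraMap_mem c))
    rwa [show b * (a - algebraMap k Ω c) + algebraMap k Ω c * (b - algebraMap k Ω d) =
      a * b - algebraMap k Ω (c * d) by rw [map_mul]; ring] at this
  add_mem' := by
    rintro a b ⟨ha, c, hc⟩ ⟨hb, d, hd⟩
    refine ⟨add_mem ha hb, c + d, ?_⟩
    have := hc.add hd
    rwa [show a - algebraMap k Ω c + (b - algebraMap k Ω d) =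
      a + b - algebraMap k Ω (c + d) by rw [map_add]; ring] at this
  algebraMap_mem' c := ⟨A.algebraMap_mem c, c, 1, one_mem _, norm_one, 0, fun _ => zero_mem _,
    by simp⟩

variable [IsUltrametricDist Ω] [Ctx k Ω] {A : Subalgebra k Ω} {x : ι → Ω}

omit [Ctx k Ω] in
theorem jj_lt (hA : ∀ a ∈ A, ‖a‖ ≤ 1) (hx : ∀ i, ‖x i‖ < 1) {a : Ω} (h : JJ A x a) : ‖a‖ < 1 := by
  obtain ⟨t, -, ht, c, hc, e⟩ := h
  have := congrArg norm e
  rw [norm_mul, ht, one_mul] at this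
  rw [this]
  refine norm_sum_lt_of one_pos fun i _ => ?_
  rw [norm_mul]
  exact mul_lt_one_of_nonneg_of_lt_one_right (hA _ (hc i)) (norm_nonneg _) (hx i)

theorem SS.small (hA : ∀ a ∈ A, ‖a‖ ≤ 1) (hx : ∀ i, ‖x i‖ < 1) {a : Ω} (h : a ∈ SS A x)
    (ha : ‖a‖ < 1) : JJ A x a := by
  obtain ⟨-, c, hc⟩ := h
  have h2 : ‖algebraMap k Ω c‖ < 1 := by
    have := norm_sub_lt_of ha (jj_lt hA hx hc)
    rwa [sub_sub_cancel] at this
  rwa [eq_zero_of_norm_alg_lt h2, map_zero, sub_zero] at hc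

omit [Ctx k Ω] in
theorem SS.inv (hA : ∀ a ∈ A, ‖a‖ ≤ 1) (hx : ∀ i, ‖x i‖ < 1) {u : Ω} (h : u ∈ SS A x)
    (huA : u⁻¹ ∈ A) (hu1 : ‖u‖ = 1) : u⁻¹ ∈ SS A x := by
  obtain ⟨-, c, hc⟩ := h
  have hu0 := ne_zero_of_norm_eq_one hu1
  have hc0 : algebraMap k Ω c ≠ 0 := by
    intro h
    have := jj_lt hA hx hc
    rw [h, sub_zero, hu1] at this
    exact lt_irrefl _ this
  refine ⟨huA, c⁻¹, ?_⟩
  have := hc.mul (neg_mem (mul_mem huA (A.algebraMap_mem c⁻¹)))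
  rwa [show -(u⁻¹ * algebraMap k Ω c⁻¹) * (u - algebraMap k Ω c) =
    u⁻¹ - algebraMap k Ω c⁻¹ by rw [map_inv₀]; field_simp; ring] at this

theorem SS.root (hA : ∀ a ∈ A, ‖a‖ ≤ 1) (hx : ∀ i, ‖x i‖ < 1) {η : Ω} {P : Polynomial Ω}
    (hP : ∀ i, P.coeff i ∈ SS A x) (hη : η ∈ A) (h0 : P.eval η = 0)
    (h1 : ‖P.derivative.eval η‖ = 1) : η ∈ SS A x := by
  obtain ⟨c, hc⟩ := Ctx.res (k := k) η (hA η hη)
  rw [norm_sub_rev] at hc
  have hδ : algebraMap k Ω c - η ∈ A := sub_mem (A.algebraMap_mem c) hη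
  obtain ⟨κ, hκ, h⟩ := Desc.taylor A P (fun i => (hP i).1) hη hδ
  rw [add_sub_cancel, h0, zero_add] at h
  have h4 : ‖P.derivative.eval η + κ * (algebraMap k Ω c - η)‖ = 1 := by
    rw [norm_add_eq_left, h1]
    rw [h1, norm_mul]
    exact mul_lt_one_of_nonneg_of_lt_one_right (hA κ hκ) (norm_nonneg _) hc
  have h5 : P.derivative.eval η + κ * (algebraMap k Ω c - η) ∈ A :=
    add_mem (Desc.eval_mem _ _ (Desc.der_coeff _ P fun i => (hP i).1) hη) (mul_mem hκ hδ)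
  have h6 : (P.derivative.eval η + κ * (algebraMap k Ω c - η)) * (η - algebraMap k Ω c) =
      -1 * P.eval (algebraMap k Ω c) := by rw [h]; ring
  refine ⟨hη, c, JJ.div h5 h4 ?_⟩
  rw [h6]
  refine JJ.mul (neg_mem (one_mem _))
    (SS.small hA hx (Desc.eval_mem _ P hP ((SS A x).algebraMap_mem c)) ?_)
  have := congrArg norm h6
  rw [norm_mul, h4, one_mul, neg_one_mul, norm_neg, norm_sub_rev] at this
  rwa [← this]

omit [IsUltrametricDist Ω] [Ctx k Ω] in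
theorem shift {R : Subalgebra k Ω} {M : IntermediateField k Ω} {θ : Ω} {P : Polynomial Ω}
    (h : Hr.Min R M θ P) : Hr.Min R M (θ + 1) (taylor (-1) P) := by
  have hc : ∀ (S : Subalgebra k Ω) (Q : Polynomial Ω) (r : S), (∀ i, Q.coeff i ∈ S) →
      ∀ i, (taylor (r : Ω) Q).coeff i ∈ S := fun S Q r hQ i => by
    obtain ⟨q, rfl⟩ := (mem_lifts Q).1 ((lifts_iff_coeff_lifts (f := algebraMap S Ω) Q).2
      fun n => ⟨⟨_, hQ n⟩, rfl⟩)
    have := map_taylor q r (algebraMap S Ω)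
    rw [show algebraMap S Ω r = r from rfl] at this
    rw [← this, coeff_map]
    exact Subtype.property _
  refine ⟨h.monic.comp_X_add_C _, hc R P (-1) h.coeff, by rw [taylor_eval]; simpa using h.root,
    ?_, fun Q hQ h0 hd => ?_⟩
  · rw [← taylor_coeff_one, taylor_taylor, add_neg_cancel_right, taylor_coeff_one]
    exact h.der
  · refine (taylor_eq_zero 1 Q).1 (h.min _ (hc M.toSubalgebra Q 1 hQ) (by rwa [taylor_eval]) ?_)
    rwa [degree_taylor] at hd ⊢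

theorem finish (F : IntermediateField k Ω) (Z : Finset Ω) (hF : F ≤ adjoin k (Z : Set Ω))
    (hx : AlgebraicIndependent k x) (hx1 : ∀ i, ‖x i‖ < 1) (hxF : ∀ i, x i ∈ F) {η : Ω}
    {P : Polynomial Ω} (hηF : η ∈ F) (hη : ‖η‖ = 1)
    (hP : Hr.Min (Algebra.adjoin k (Set.range x)) (adjoin k (Set.range x)) η P)
    (hZ : ∀ z ∈ Z, z ∈ loc (A1 (Algebra.adjoin k (Set.range x)) η)) : CM F Z x := by
  obtain ⟨u, hu, hu1, huz⟩ := cden _ Z hZ
  have hu0 := ne_zero_of_norm_eq_one hu1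
  have hd1 : ‖η * P.derivative.eval η‖ = 1 := by rw [norm_mul, hη, hP.der, one_mul]
  set A := Algebra.adjoin k
    (Set.range x ∪ {η, (η * P.derivative.eval η)⁻¹} ∪ {u⁻¹}) with hA
  have key : ∀ S : Subalgebra k Ω, (∀ i, x i ∈ S) → η ∈ S →
      A1 (Algebra.adjoin k (Set.range x)) η ≤ S ∧ η * P.derivative.eval η ∈ S := fun S h1 h2 =>
    have h3 := Algebra.adjoin_le (S := S) (Set.range_subset_iff.2 h1)
    ⟨A1_le h3 h2, mul_mem h2 (Desc.eval_mem _ _ (Desc.der_coeff _ P fun i => h3 (hP.coeff i)) h2)⟩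
  have le : ∀ S : Subalgebra k Ω, (∀ i, x i ∈ S) → η ∈ S →
      (∀ b ∈ S, ‖b‖ = 1 → b⁻¹ ∈ A → b⁻¹ ∈ S) → A ≤ S := fun S h1 h2 h3 => by
    refine Algebra.adjoin_le ?_
    rintro a ((⟨i, rfl⟩ | rfl | rfl) | rfl)
    · exact h1 i
    · exact h2
    · exact h3 _ (key S h1 h2).2 hd1 (Algebra.subset_adjoin (Or.inl (Or.inr (Or.inr rfl))))
    · exact h3 _ ((key S h1 h2).1 hu) hu1 (Algebra.subset_adjoin (Or.inr rfl))
  have hxA : ∀ i, x i ∈ A := fun i => Algebra.subset_adjoin (Or.inl (Or.inl ⟨i, rfl⟩))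
  have hηA : η ∈ A := Algebra.subset_adjoin (Or.inl (Or.inr (Or.inl rfl)))
  have hA1 : ∀ a ∈ A, ‖a‖ ≤ 1 := le (intAlg k Ω) (fun i => (hx1 i).le) hη.le fun b _ h _ => by
    rw [mem_intAlg, norm_inv, h, inv_one]
  have hZA : ∀ z ∈ Z, z ∈ A := fun z hz => by
    rw [← inv_mul_cancel_left₀ hu0 z]
    exact mul_mem (Algebra.subset_adjoin (Or.inr rfl)) ((key A hxA hηA).1 (huz z hz))
  have hxS : ∀ i, x i ∈ SS A x := fun i => ⟨hxA i, 0, by rw [map_zero, sub_zero]; exact JJ.gen i⟩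
  have hAS : A ≤ SS A x := le _ hxS (SS.root hA1 hx1 (fun i => Algebra.adjoin_le (S := SS A x)
    (Set.range_subset_iff.2 hxS) (hP.coeff i)) hηA hP.root hP.der)
    fun b hb h1 h2 => SS.inv hA1 hx1 hb h2 h1
  refine ⟨A, ⟨Subalgebra.fg_def.2 ⟨_, ((Set.finite_range x).union (Set.toFinite _)).union
    (Set.toFinite _), rfl⟩, le _ hxF hηF fun b hb _ _ => F.inv_mem hb, hA1, hZA, fun f hf => ?_,
    Smooth.smooth_away _ u ((key _ (fun i => Algebra.subset_adjoin (Or.inl ⟨i, rfl⟩))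
      (Algebra.subset_adjoin (Or.inr (Or.inl rfl)))).1 hu) hu0 (Smooth.smooth_etale _
      (Smooth.smooth_poly x hx) η P hP.monic hP.coeff hP.root (ne_zero_of_norm_eq_one hη)
      (ne_zero_of_norm_eq_one hP.der) fun Q hQ => hP.min Q fun i =>
        algebra_adjoin_le_adjoin k _ (hQ i))⟩, hxA, fun a ha => SS.small hA1 hx1 (hAS ha)⟩
  obtain ⟨a, ha, b, hb, rfl⟩ := mem_adjoin_iff_div.1 (hF hf)
  have le2 : Algebra.adjoin k (Z : Set Ω) ≤ A := Algebra.adjoin_le hZA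
  by_cases hb0 : b = 0
  · exact ⟨0, zero_mem _, 1, one_mem _, one_ne_zero, by simp [hb0]⟩
  · exact ⟨a, le2 ha, b, le2 hb, hb0, rfl⟩

variable [IsAlgClosed Ω] [Infinite k]

/-- A henselian root may be moved into any field generated by elements of its local ring. -/
theorem descent {R : Subalgebra k Ω} {M K : IntermediateField k Ω} (hB : Base R M) (hMK : M ≤ K)
    {η : Ω} (hη : HRoot R η) (Z : Finset Ω) (hK : K ≤ adjoin k (Z : Set Ω))
    (hZK : ∀ z ∈ Z, z ∈ K) (hZ : ∀ z ∈ Z, z ∈ loc (A1 R η)) :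
    ∃ θ ∈ K, ∃ P, Hr.Min R M θ P ∧ ∀ z ∈ Z, z ∈ loc (A1 R θ) := by
  classical
  have hsK : IsSeparable K η := isSeparable_of_le hMK (HRoot.sep hB.le hη)
  have hKs : K ≤ (separableClosure M Ω).restrictScalars k := hK.trans (adjoin_le_iff.2
    fun z hz => sep_of_mem_HH hB.le (loc_A1_le hη (hZ z hz)))
  obtain ⟨P, p1, p2, p3, p4⟩ := hη
  obtain ⟨u, hu, hu1, huz⟩ := cden (A1 R η) Z hZ
  obtain ⟨U, hU, rfl⟩ := exists_eval hu
  choose! G hG hGz using fun z hz => exists_eval (huz z hz)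
  have hr : ∀ ζ, P.eval ζ = 0 → IsIntegral R ζ := fun ζ h => isInt_iff.2 ⟨P, p1, p2, h⟩
  have hn : ∀ ζ, P.eval ζ = 0 → ∀ Q : Polynomial Ω, (∀ i, Q.coeff i ∈ R) →
      IsIntegral R (Q.eval ζ) := fun ζ h Q hQ => int_of_mem_A1 (hr ζ h) (eval_mem_A1 hQ ζ)
  choose! c hc using fun ζ (h : P.eval ζ = 0) =>
    Ctx.res (k := k) ζ (norm_le_of_int hB.norm (hr ζ h))
  obtain ⟨T, hT, hT1, hT2⟩ : ∃ T : Polynomial Ω, T ∈ cf R.toSubring ∧ ‖T.eval η‖ = 1 ∧
      ∀ ζ, P.eval ζ = 0 → ζ ≠ η → ‖T.eval ζ‖ < 1 := by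
    refine ⟨∏ ζ ∈ P.roots.toFinset.erase η, (X - C (algebraMap k Ω (c ζ))),
      prod_mem fun ζ _ => X_sub_C_mem_cf (R.algebraMap_mem _), ?_, fun ζ h0 h1 => ?_⟩
    · rw [eval_prod, norm_prod]
      refine Finset.prod_eq_one fun ζ hζ => ?_
      obtain ⟨h1, h2⟩ := Finset.mem_erase.1 hζ
      have h3 : P.eval ζ = 0 := isRoot_of_mem_roots (Multiset.mem_toFinset.1 h2)
      have h4 := norm_le_of_int hB.norm (hr η p3)
      rw [eval_sub, eval_X, eval_C]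
      refine le_antisymm (norm_sub_le_of h4 (norm_alg_le _)) (not_lt.1 fun h => h1 ?_)
      refine uni k (fun i => hB.norm _ (p2 i)) h4 ?_ p3 h3 p4
      simpa using norm_sub_lt_of (hc ζ h3) h
    · rw [eval_prod, ← Finset.mul_prod_erase _ _ (Finset.mem_erase.2 ⟨h1,
        Multiset.mem_toFinset.2 ((mem_roots p1.ne_zero).2 h0)⟩), norm_mul, norm_prod]
      simp only [eval_sub, eval_X, eval_C]
      exact mul_lt_one_of_nonneg_of_lt_one_left (norm_nonneg _) (hc ζ h0)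
        (Finset.prod_le_one (fun _ _ => norm_nonneg _) fun σ _ =>
          norm_sub_le_of (norm_le_of_int hB.norm (hr ζ h0)) (norm_alg_le _))
  obtain ⟨Rt, hRt⟩ : ∃ Rt : Finset Ω, ∀ ζ, ζ ∈ Rt ↔ aeval ζ (minpoly K η) = 0 :=
    ⟨((minpoly K η).aroots Ω).toFinset, fun ζ => by
      rw [Multiset.mem_toFinset, mem_aroots, and_iff_right (minpoly.ne_zero hsK.isIntegral)]⟩
  have hev : ∀ {L : IntermediateField k Ω}, M ≤ L → ∀ (σ : Ω →ₐ[L] Ω) (Q : Polynomial Ω),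
      (∀ i, Q.coeff i ∈ R) → ∀ a, σ (Q.eval a) = Q.eval (σ a) := fun hL σ Q hQ a =>
    hom_eval (σ : Ω →+* Ω) (fun i => hom_fix σ (hL (hB.le _ (hQ i)))) a
  have hcj : ∀ ζ ∈ Rt, ∃ σ : Ω →ₐ[K] Ω, σ η = ζ := fun ζ h => conj hsK.isIntegral ((hRt ζ).1 h)
  have hRP : ∀ ζ ∈ Rt, P.eval ζ = 0 := fun ζ h => by
    obtain ⟨σ, rfl⟩ := hcj ζ h
    rw [← hev hMK σ P p2, p3, map_zero]
  have hθ : ∀ Q : Polynomial Ω, (∀ i, Q.coeff i ∈ R) →
      IsIntegral R (∑ ζ ∈ Rt, Q.eval ζ) ∧ ∑ ζ ∈ Rt, Q.eval ζ ∈ K := fun Q hQ => by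
    refine ⟨IsIntegral.sum _ fun ζ h => hn ζ (hRP ζ h) Q hQ, mem_of_fix ?_ fun τ => ?_⟩
    · exact sum_mem (S := ((separableClosure K Ω).restrictScalars k).toSubalgebra) fun ζ h =>
        Desc.eval_mem _ Q (fun i => isSeparable_of_mem (hMK (hB.le _ (hQ i))))
          (Separable.of_dvd hsK (minpoly.dvd K ζ ((hRt ζ).1 h)))
    · have h0 : Function.Injective τ := τ.injective
      have h1 : Rt.image τ = Rt := Finset.eq_of_subset_of_card_le
        (Finset.image_subset_iff.2 fun ζ h => (hRt _).2 (by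
          rw [aeval_algHom_apply, (hRt ζ).1 h, map_zero]))
        (Finset.card_image_of_injective _ h0).ge
      conv_rhs => rw [← h1, Finset.sum_image h0.injOn]
      rw [map_sum]
      exact Finset.sum_congr rfl fun ζ _ => hev hMK τ Q hQ ζ
  have hTU : ∀ i, (T * U).coeff i ∈ R := mem_cf.1 (mul_mem hT (mem_cf.2 hU))
  have hsm : ∀ ζ, P.eval ζ = 0 → ζ ≠ η → ‖(T * U).eval ζ‖ < 1 := fun ζ h0 h1 => by
    rw [eval_mul, norm_mul]
    exact mul_lt_one_of_nonneg_of_lt_one_left (norm_nonneg _) (hT2 ζ h0 h1)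
      (norm_le_of_int hB.norm (hn ζ h0 U hU))
  obtain ⟨e, he⟩ : ∃ e, e = ∑ ζ ∈ Rt, (T * U).eval ζ := ⟨_, rfl⟩
  have he1 : ‖e‖ = 1 := by
    have h1 : ‖(T * U).eval η‖ = 1 := by rw [eval_mul, norm_mul, hT1, hu1, one_mul]
    rw [he, ← Finset.add_sum_erase _ _ ((hRt η).2 (minpoly.aeval K η)), norm_add_eq_left, h1]
    rw [h1]
    exact norm_sum_lt_of one_pos fun ζ h =>
      hsm ζ (hRP ζ (Finset.mem_of_mem_erase h)) (Finset.ne_of_mem_erase h)
  have hS : ∀ s ∈ insert e (Z.image fun z => e * z), IsIntegral R s ∧ s ∈ K := fun s hs => by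
    rcases Finset.mem_insert.1 hs with rfl | hs
    · exact he ▸ hθ _ hTU
    obtain ⟨z, hz, rfl⟩ := Finset.mem_image.1 hs
    have h1 : e * z = ∑ ζ ∈ Rt, (T * G z).eval ζ := by
      rw [he, Finset.sum_mul]
      refine Finset.sum_congr rfl fun ζ h => ?_
      obtain ⟨σ, rfl⟩ := hcj ζ h
      rw [eval_mul, eval_mul, ← hev hMK σ _ (hG z hz), hGz z hz, map_mul, hev hMK σ U hU,
        hom_fix σ (hZK z hz), mul_assoc]
    exact h1 ▸ hθ _ (mem_cf.1 (mul_mem hT (mem_cf.2 (hG z hz))))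
  obtain ⟨θ, h1, Q, h2, h3⟩ := gen' hB _ (fun s hs => (hS s hs).1) (fun s hs => hKs (hS s hs).2)
    fun τ hτ s hs => by
      obtain ⟨ζ, h, h4⟩ : ∃ ζ ∈ Rt, τ ζ = η := by
        by_contra hn
        push Not at hn
        have h5 : ‖τ e‖ < 1 := by
          rw [he, map_sum]
          refine norm_sum_lt_of one_pos fun ζ h => ?_
          rw [hev le_rfl τ _ hTU]
          exact hsm _ (by rw [← hev le_rfl τ P p2, hRP ζ h, map_zero]) (hn ζ h)
        have h6 := norm_sub_lt_of h5 (hτ e (Finset.mem_insert_self _ _))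
        rw [sub_sub_cancel, he1] at h6
        exact lt_irrefl _ h6
      obtain ⟨σ, rfl⟩ := hcj ζ h
      let ψ : Ω →ₐ[M] Ω := τ.comp { (σ : Ω →+* Ω) with commutes' := fun a => hom_fix σ (hMK a.2) }
      refine (hK.trans (adjoin_le_iff.2 fun z hz => ?_) : K ≤ fixF τ) (hS s hs).2
      have h5 : τ (σ z) = z := fix_loc hB.le (τ := ψ) h4 (hZ z hz)
      rwa [hom_fix σ (hZK z hz)] at h5
  refine ⟨θ, Submodule.span_le (p := K.toSubalgebra.toSubmodule).2 (fun s hs => (hS s hs).2) h1,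
    Q, h2, fun z hz => ?_⟩
  have h4 := fun s hs => h3 s (subset_adjoin _ _ hs) (hS s hs).1
  rw [← inv_mul_cancel_left₀ (ne_zero_of_norm_eq_one he1) z]
  exact mul_mem (inv_mem_loc (h4 e (Finset.mem_insert_self _ _)) he1)
    (h4 _ (Finset.mem_insert_of_mem (Finset.mem_image_of_mem _ hz)))

/-- The model attached to an algebra whose centre is generated by elements of `K`. -/
theorem of_centre (K : IntermediateField k Ω)
    (Z' : Finset Ω) (hK : K ≤ adjoin k (Z' : Set Ω)) (hZK : ∀ z ∈ Z', z ∈ K)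
    (x y : ι → Ω) (hy : AlgebraicIndependent k y) (hxK : ∀ i, x i ∈ K)
    (A : Subalgebra k Ω) (hfg : A.FG) (hA : ∀ a ∈ A, ‖a‖ ≤ 1) (hxA : ∀ i, x i ∈ A)
    (hyA : ∀ i, y i ∈ A) (hZA : ∀ z ∈ Z', z ∈ A) (hx : ∀ i, ‖x i‖ < 1)
    (hm : ∀ a ∈ A, ‖a‖ < 1 → JJ A x a) : AlgebraicIndependent k x ∧ CM K Z' x := by
  obtain ⟨η, P, hP, h0, h1, hall⟩ := unr x A hfg hA hxA hx hm
  have hc : ∀ (Q : (MvPolynomial ι k)[X]) i, (Q.map (MvPolynomial.aeval x).toRingHom).coeff i ∈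
      Algebra.adjoin k (Set.range x) := fun Q i => by
    rw [coeff_map]
    exact aeval_mem_R x _
  have hη : HRoot (Algebra.adjoin k (Set.range x)) η :=
    ⟨_, hP.map _, hc P, by rwa [eval_map], by rwa [derivative_map, eval_map]⟩
  have hl : ∀ a ∈ A, a ∈ loc (A1 (Algebra.adjoin k (Set.range x)) η) := fun a ha => by
    obtain ⟨U, G, hU, hG⟩ := hall a ha
    simp only [← eval_map] at hU hG
    exact ⟨_, eval_mem_A1 (hc G) η, _, eval_mem_A1 (hc U) η, hU,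
      eq_div_of_mul_eq (ne_zero_of_norm_eq_one hU) hG⟩
  have hx' : AlgebraicIndependent k x := LatM.indep_of_alg hy fun i =>
    (sep_of_mem_HH (fun _ h => algebra_adjoin_le_adjoin k _ h)
      (loc_A1_le hη (hl _ (hyA i)))).isIntegral.isAlgebraic
  obtain ⟨θ, h2, Q, h3, h4⟩ := descent (base_poly hx' fun i => (hx i).le)
    (adjoin_le_iff.2 (Set.range_subset_iff.2 hxK)) hη Z' hK hZK fun z hz => hl z (hZA z hz)
  refine ⟨hx', ?_⟩
  rcases (norm_le_of_int (base_poly hx' fun i => (hx i).le).norm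
    (HRoot.int h3.hroot)).eq_or_lt with h | h
  · exact finish K Z' hK hx' hx hxK h2 h h3 h4
  · refine finish K Z' hK hx' hx hxK (add_mem h2 (one_mem _)) ?_ (shift h3) fun z hz =>
      loc_mono (A1_le (le_A1 _ _) ?_) (h4 z hz)
    · rw [add_comm, norm_add_eq_left (by rwa [norm_one]), norm_one]
    · simpa using sub_mem (self_mem_A1 _ (θ + 1)) (one_mem _)

theorem of_approx (K : IntermediateField k Ω)
    (Z' : Finset Ω) (hK : K ≤ adjoin k (Z' : Set Ω)) (hZK : ∀ z ∈ Z', z ∈ K)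
    (x y : ι → Ω) (hy : AlgebraicIndependent k y) (hy1 : ∀ i, ‖y i‖ < 1)
    (hxK : ∀ i, x i ∈ K) (η : Ω) (P : Polynomial Ω) (hP : P.Monic)
    (hPc : ∀ i, P.coeff i ∈ Algebra.adjoin k (Set.range y)) (h0 : P.eval η = 0)
    (h1 : ‖P.derivative.eval η‖ = 1) (j : ι) (q : ι → Ω) (hq1 : ∀ i, ‖q i‖ < 1)
    (hq : ∀ i, y i - x i = q i * y j)
    (hqm : ∀ i, q i ∈ loc (Algebra.adjoin k (Set.range y) ⊔ Algebra.adjoin k {η}))
    (hZ : ∀ z ∈ Z', z ∈ loc (Algebra.adjoin k (Set.range y) ⊔ Algebra.adjoin k {η})) :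
    (∀ i, ‖x i‖ < 1) ∧ AlgebraicIndependent k x ∧ CM K Z' x := by
  classical
  let R := Algebra.adjoin k (Set.range y)
  let B := R ⊔ Algebra.adjoin k {η}
  obtain ⟨u, huB, hu1, hu⟩ := Final.common_den B (Z' ∪ Finset.univ.image q) (by
    intro b hb
    rcases Finset.mem_union.1 hb with hb | hb
    · exact hZ b hb
    · obtain ⟨i, -, rfl⟩ := Finset.mem_image.1 hb
      exact hqm i)
  have hu0 := ne_zero_of_norm_eq_one hu1
  let A := B ⊔ Algebra.adjoin k {u⁻¹}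
  have hBA : B ≤ A := le_sup_left
  have hRA : R ≤ A := le_sup_left.trans hBA
  have hηA : η ∈ A := hBA ((le_sup_right : _ ≤ B) (Algebra.self_mem_adjoin_singleton k η))
  have huA : u⁻¹ ∈ A := (le_sup_right : _ ≤ A) (Algebra.self_mem_adjoin_singleton k _)
  have hyA : ∀ i, y i ∈ A := fun i => hRA (Algebra.subset_adjoin ⟨i, rfl⟩)
  have hdiv : ∀ b ∈ Z' ∪ Finset.univ.image q, b ∈ A := fun b hb => by
    rw [← mul_inv_cancel_right₀ hu0 b]
    exact mul_mem (hBA (hu b hb)) huA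
  have hqA : ∀ i, q i ∈ A := fun i =>
    hdiv _ (Finset.mem_union_right _ (Finset.mem_image_of_mem q (Finset.mem_univ i)))
  have hxe : ∀ i, x i = y i - q i * y j := fun i => by rw [← hq, sub_sub_cancel]
  have hxA : ∀ i, x i ∈ A := fun i => hxe i ▸ sub_mem (hyA i) (mul_mem (hqA i) (hyA j))
  have hx1 : ∀ i, ‖x i‖ < 1 := fun i => by
    rw [hxe]
    refine norm_sub_lt_of (hy1 i) ?_
    rw [norm_mul]
    exact mul_lt_one_of_nonneg_of_lt_one_left (norm_nonneg _) (hq1 i) (hy1 j).le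
  have hR1 : R ≤ intAlg k Ω := Algebra.adjoin_le (Set.range_subset_iff.2 fun i => (hy1 i).le)
  have lift : ∀ D : Subalgebra k Ω, R ≤ D →
      ∃ Q : Polynomial D, Q.map (algebraMap D Ω) = P ∧ Q.Monic := by
    intro D hD
    obtain ⟨Q, e, -, hQ⟩ := lifts_and_degree_eq_and_monic
      ((lifts_iff_coeff_lifts (f := algebraMap D Ω) P).2 fun n => ⟨⟨_, hD (hPc n)⟩, rfl⟩) hP
    exact ⟨Q, e, hQ⟩
  have hη1 : ‖η‖ ≤ 1 := by
    obtain ⟨Q, e, hQ⟩ := lift R le_rfl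
    exact norm_le_of_integral hR1 ⟨Q, hQ, by rw [← eval_map, e, h0]⟩
  have hA1 : A ≤ intAlg k Ω := sup_le
    (sup_le hR1 (Algebra.adjoin_le (Set.singleton_subset_iff.2 hη1)))
    (Algebra.adjoin_le (Set.singleton_subset_iff.2 (by
      change ‖u⁻¹‖ ≤ 1
      rw [norm_inv, hu1, inv_one])))
  have hRS : R ≤ SS A x := by
    refine Algebra.adjoin_le (Set.range_subset_iff.2 fun i => ⟨hyA i, 0, ?_⟩)
    have h2 : ‖1 - q j‖ = 1 := by rw [norm_sub_eq_left (by rw [norm_one]; exact hq1 j), norm_one]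
    have h3 : 1 - q j ∈ A := sub_mem (one_mem _) (hqA j)
    refine JJ.div h3 h2 ?_
    have := ((JJ.gen (x := x) i).mul h3).add ((JJ.gen (x := x) j).mul (hqA i))
    rwa [show (1 - q j) * x i + q i * x j = (1 - q j) * (y i - algebraMap k Ω 0) by
      rw [hxe i, hxe j, map_zero]; ring] at this
  have hBS : B ≤ SS A x := sup_le hRS (Algebra.adjoin_le (Set.singleton_subset_iff.2
    (SS.root hA1 hx1 (fun i => hRS (hPc i)) hηA h0 h1)))
  have hAS : A ≤ SS A x := sup_le hBS (Algebra.adjoin_le (Set.singleton_subset_iff.2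
    (SS.inv hA1 hx1 (hBS huB) huA hu1)))
  have hfg : A.FG := ((Subalgebra.fg_def.2 ⟨_, Set.finite_range y, rfl⟩).sup
    (Subalgebra.fg_def.2 ⟨_, Set.finite_singleton _, rfl⟩)).sup
      (Subalgebra.fg_def.2 ⟨_, Set.finite_singleton _, rfl⟩)
  exact ⟨hx1, of_centre K Z' hK hZK x y hy hxK A hfg hA1 hxA hyA
    (fun z hz => hdiv z (Finset.mem_union_left _ hz)) hx1 fun a ha => SS.small hA1 hx1 (hAS ha)⟩

end Emb

end Pool.Agent.MP_19ffc6_ag.LU4

/-! PROJECT LU4, module EMB: the inductive statement gives embedded local uniformization. -/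

namespace Pool.Agent.MP_19ffc6_ag.LU4

open Pool.Agent.MP_19ffc6_ag.LU Pool.Agent.MP_19ffc6_ag.LU3 LatM Hr Mv FinalA

variable {k : Type*} {Ω : Type*} [Field k] [NontriviallyNormedField Ω] [Algebra k Ω]

/-- A smooth model with regular parameters in which the elements of `Z` are monomial. -/
def EM (K : IntermediateField k Ω) (Z : Finset Ω) : Prop :=
  ∃ A, Model K Z A ∧ ∃ (n : ℕ) (t : Fin n → Ω), AlgebraicIndependent k t ∧
    (∀ i, t i ∈ A ∧ ‖t i‖ < 1) ∧ (∀ a ∈ A, ‖a‖ < 1 → JJ A t a) ∧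
    ∀ z ∈ Z, z ≠ 0 → ∃ m : Fin n → ℕ, ∃ u ∈ A, ‖u‖ = 1 ∧ z = u * ∏ i, t i ^ m i

theorem EM.of {K : IntermediateField k Ω} {Z Z' : Finset Ω} (hZ : Z ⊆ Z') {ι : Type} [Fintype ι]
    {x : ι → Ω} (h1 : ∀ i, ‖x i‖ < 1) (h2 : AlgebraicIndependent k x) (h3 : Emb.CM K Z' x)
    (h4 : ∀ z ∈ Z, z ≠ 0 → ∃ m : ι → ℕ, ∃ u ∈ Z', ‖u‖ = 1 ∧ z = u * ∏ i, x i ^ m i) :
    EM K Z := by
  obtain ⟨A, ⟨a1, a2, a3, a4, a5⟩, a6, a7⟩ := h3
  let e := (Fintype.equivFin ι).symm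
  refine ⟨A, ⟨a1, a2, a3, fun z hz => a4 z (hZ hz), a5⟩, _, x ∘ e, h2.comp e e.injective,
    fun i => ⟨a6 _, h1 _⟩, fun a ha h => ?_, fun z hz h0 => ?_⟩
  · obtain ⟨u, hu, hu1, c, hc, h5⟩ := a7 a ha h
    exact ⟨u, hu, hu1, c ∘ e, fun i => hc _, h5.trans (e.sum_comp fun i => c i * x i).symm⟩
  · obtain ⟨m, u, hu, hu1, h5⟩ := h4 z hz h0
    exact ⟨m ∘ e, u, a4 u hu, hu1,
      h5.trans (congrArg _ (e.prod_comp fun i => x i ^ m i).symm)⟩

theorem EM.bot [IsUltrametricDist Ω] [Ctx k Ω] (Z : Finset Ω)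
    (hZ : ∀ z ∈ Z, z ∈ (⊥ : Subalgebra k Ω)) : EM (⊥ : IntermediateField k Ω) Z := by
  refine ⟨⊥, model_bot Z hZ, 0, Fin.elim0, algebraicIndependent_empty_type, fun i => i.elim0,
    fun a ha h => ?_, fun z hz h0 => ⟨0, z, hZ z hz, ?_, by simp⟩⟩
  · obtain ⟨c, rfl⟩ := Algebra.mem_bot.1 ha
    exact ⟨1, one_mem _, norm_one, 0, fun _ => zero_mem _, by simp [eq_zero_of_norm_alg_lt h]⟩
  · obtain ⟨c, rfl⟩ := Algebra.mem_bot.1 (hZ z hz)
    exact Ctx.norm_alg c fun h => h0 (by simp [h])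

variable [IsUltrametricDist Ω] [Ctx k Ω] [IsAlgClosed Ω] [Infinite k]

/-- FINAL. -/
theorem finalE {K : IntermediateField k Ω} (hK : K.FG) (h : SG k K) (Z : Finset Ω)
    (hZ : ∀ z ∈ Z, z ∈ K ∧ ‖z‖ ≤ 1) : EM K Z := by
  classical
  obtain ⟨t, ht⟩ := hK
  let Z' := Z ∪ t.image fun a => if ‖a‖ ≤ 1 then a else a⁻¹
  have hZ' : ∀ z ∈ Z', z ∈ K ∧ ‖z‖ ≤ 1 := by
    intro z hz
    rcases Finset.mem_union.1 hz with hz | hz
    · exact hZ z hz
    · obtain ⟨a, ha, rfl⟩ := Finset.mem_image.1 hz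
      have haK : a ∈ K := ht ▸ IntermediateField.subset_adjoin k _ ha
      split_ifs with h1
      · exact ⟨haK, h1⟩
      · exact ⟨inv_mem haK, by rw [norm_inv]; exact inv_le_one_of_one_le₀ (not_le.1 h1).le⟩
  have hgen : IntermediateField.adjoin k (Z' : Set Ω) = K := by
    refine le_antisymm (IntermediateField.adjoin_le_iff.2 fun z hz => (hZ' z hz).1) ?_
    rw [← ht]
    refine IntermediateField.adjoin_le_iff.2 fun a ha => ?_
    have := IntermediateField.subset_adjoin k (Z' : Set Ω)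
      (Finset.mem_union_right Z (Finset.mem_image_of_mem _ ha))
    split_ifs at this
    · exact this
    · exact inv_inv a ▸ (IntermediateField.adjoin k (Z' : Set Ω)).inv_mem this
  obtain ⟨ι, _, ξ, I, h1, -, h3, h4⟩ := h Z' (Z'.erase 0) hgen fun w hw =>
    ⟨(hZ' w (Finset.mem_of_mem_erase hw)).1, Finset.ne_of_mem_erase hw⟩
  obtain ⟨ξ1, I', g1, g2, g3, g4, -⟩ := step_all h1
  obtain ⟨y, e1, e2, e3, -, -, -, e4⟩ := ref g1 (Z'.erase 0 ∪ Finset.univ.image ξ) (by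
    intro b hb
    rcases Finset.mem_union.1 hb with hb | hb
    · exact ⟨(h3 b hb).mono g1 g2, (hZ' b (Finset.mem_of_mem_erase hb)).2⟩
    · obtain ⟨i, -, rfl⟩ := Finset.mem_image.1 hb
      exact ⟨g4 i, (h1.small i).le⟩)
  have hZH : ∀ z ∈ Z', z ∈ H k y := fun z hz => by
    by_cases h0 : z = 0
    · exact h0 ▸ zero_mem _
    · exact (e4 z (Finset.mem_union_left _ (Finset.mem_erase.2 ⟨h0, hz⟩))).1
  rcases isEmpty_or_nonempty ι with hι | ⟨⟨i0⟩⟩
  · have hb : ∀ z ∈ Z', z ∈ (⊥ : Subalgebra k Ω) := fun z hz => by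
      obtain ⟨c, hc⟩ := exists_const e1.small (hZH z hz)
      rw [mm, Set.range_eq_empty, Submodule.span_empty, Submodule.mem_bot, sub_eq_zero] at hc
      exact hc ▸ Subalgebra.algebraMap_mem _ c
    obtain rfl : K = ⊥ := hgen ▸ eq_bot_iff.2 (IntermediateField.adjoin_le_iff.2 hb)
    exact EM.bot Z fun z hz => hb z (Finset.mem_union_left _ hz)
  have hI : I'.Nonempty := by
    rw [Finset.nonempty_iff_ne_empty]
    rintro rfl
    obtain ⟨a, w, -, hw, e⟩ := g4 i0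
    rw [Subsingleton.elim a 0, mon_zero, one_mul] at e
    exact (h1.small i0).ne (e ▸ hw)
  have h0 := (Gd.pi e1).ne e1
  have hd : ∀ i, ξ i / ∏ i ∈ I', y i ∈ H k y := fun i => by
    obtain ⟨w, hw, e⟩ := (e4 _ (Finset.mem_union_right _
      (Finset.mem_image_of_mem ξ (Finset.mem_univ i)))).2.1 (h1.small i)
    rwa [e, mul_div_cancel_left₀ _ h0]
  have hy : ∀ i, y i ∈ apx (H k y) K pi_mem_H h0 :=
    g3.trans e1 e2 e3 _ (fun b => apx_inv e1 hI K)
      (h4 _ (apx_cl h1 e1 hI (g2.trans e1 e2) hd K) fun z hz =>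
        ⟨⟨0, by rw [pow_zero, one_mul]; exact hZH z hz⟩,
          fun N => ⟨z, (hZ' z hz).1, by rw [sub_self, zero_div]; exact zero_mem _⟩⟩)
  choose x hx hx2 using fun i => (hy i).2 2
  have hq : ∀ i, ∀ j ∈ I', (y i - x i) / y j ∈ H k y ∧ ‖(y i - x i) / y j‖ < 1 := by
    intro i j hj
    have h5 : (y i - x i) / y j = (∏ i ∈ I', y i) *
        ((∏ i ∈ I'.erase j, y i) * ((y i - x i) / (∏ i ∈ I', y i) ^ 2)) := by
      have h5 := e1.ne j
      have h6 := Finset.mul_prod_erase I' y hj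
      field_simp
      rw [mul_assoc, h6]
    have h6 : (∏ i ∈ I'.erase j, y i) * ((y i - x i) / (∏ i ∈ I', y i) ^ 2) ∈ H k y :=
      mul_mem pi_mem_H (hx2 i)
    rw [h5, norm_mul]
    exact ⟨mul_mem pi_mem_H h6, mul_lt_one_of_nonneg_of_lt_one_left (norm_nonneg _)
      (norm_pi_lt e1 hI) (e1.norm_le h6)⟩
  have hu : ∀ i ∈ I', y i / x i ∈ H k y ∧ ‖y i / x i‖ = 1 := fun i hi => by
    have h5 : x i / y i = 1 - (y i - x i) / y i := by
      have := e1.ne i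
      field_simp
      ring
    have h6 : ‖x i / y i‖ = 1 := by
      rw [h5, norm_sub_eq_left (by rw [norm_one]; exact (hq i i hi).2), norm_one]
    rw [← inv_div]
    exact ⟨inv_mem_H (h5 ▸ sub_mem (one_mem _) (hq i i hi).1) h6, by rw [norm_inv, h6, inv_one]⟩
  have hm : ∀ z ∈ Z.erase 0, ∃ u, (u ∈ K ∧ u ∈ H k y) ∧ ‖u‖ = 1 ∧
      ∃ m : ι → ℕ, z = u * ∏ i, x i ^ m i := fun z hz => by
    obtain ⟨h5, hz⟩ := Finset.mem_erase.1 hz
    obtain ⟨a, w, hw, hw1, e⟩ := (e4 z (Finset.mem_union_left _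
      (Finset.mem_erase.2 ⟨h5, Finset.mem_union_left _ hz⟩))).2.2
    have h6 : ∀ i : I', x i ≠ 0 := fun i h => by simpa [h] using (hu i i.2).2
    have h7 : z = (w * ∏ i : I', (y i / x i) ^ a i) * ∏ i : I', x i ^ a i := by
      rw [mul_assoc, ← Finset.prod_mul_distrib, e, mul_comm]
      exact congrArg _ (Finset.prod_congr rfl fun i _ => by
        rw [← mul_pow, div_mul_cancel₀ _ (h6 i)])
    refine ⟨w * ∏ i : I', (y i / x i) ^ a i, ⟨?_,
      mul_mem hw (prod_mem fun i _ => pow_mem (hu i i.2).1 _)⟩, ?_,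
      fun i => if h : i ∈ I' then a ⟨i, h⟩ else 0, h7.trans (congrArg _ ?_)⟩
    · rw [← div_eq_of_eq_mul (Finset.prod_ne_zero_iff.2 fun i _ => pow_ne_zero _ (h6 i)) h7]
      exact div_mem (hZ z hz).1 (prod_mem fun i _ => pow_mem (hx i) _)
    · rw [norm_mul, hw1, one_mul, norm_prod]
      exact Finset.prod_eq_one fun i _ => by rw [norm_pow, (hu i i.2).2, one_pow]
    · rw [← Finset.prod_subset (Finset.subset_univ I')
        fun i _ hi => by simp only [dif_neg hi, pow_zero],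
        ← Finset.prod_coe_sort I']
      exact Finset.prod_congr rfl fun i _ => by simp only [dif_pos i.2]
  choose! u hu1 hu2 hu3 using hm
  obtain ⟨j, hj⟩ := hI
  obtain ⟨η, P, hP, hW⟩ := H_one e1.ind e1.small
    ((Z' ∪ (Z.erase 0).image u) ∪ Finset.univ.image fun i => (y i - x i) / y j) (by
      intro w hw
      rcases Finset.mem_union.1 hw with hw | hw
      · rcases Finset.mem_union.1 hw with hw | hw
        · exact hZH w hw
        · obtain ⟨z, hz, rfl⟩ := Finset.mem_image.1 hw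
          exact (hu1 z hz).2
      · obtain ⟨i, -, rfl⟩ := Finset.mem_image.1 hw
        exact (hq i j hj).1)
  obtain ⟨b1, b2, b3⟩ := Emb.of_approx K (Z' ∪ (Z.erase 0).image u)
    (hgen.ge.trans (IntermediateField.adjoin.mono _ _ _
      (Finset.coe_subset.2 Finset.subset_union_left)))
    (fun z hz => (Finset.mem_union.1 hz).elim (fun hz => (hZ' z hz).1) fun hz => by
      obtain ⟨w, hw, rfl⟩ := Finset.mem_image.1 hz
      exact (hu1 w hw).1)
    x y e1.ind e1.small hx η P hP.monic hP.coeff hP.root hP.der j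
    (fun i => (y i - x i) / y j) (fun i => (hq i j hj).2)
    (fun i => (div_mul_cancel₀ _ (e1.ne j)).symm)
    (fun i => hW _ (Finset.mem_union_right _ (Finset.mem_image_of_mem _ (Finset.mem_univ i))))
    fun z hz => hW z (Finset.mem_union_left _ hz)
  refine EM.of (Finset.subset_union_left.trans Finset.subset_union_left) b1 b2 b3 fun z hz h5 => ?_
  have h6 := Finset.mem_erase.2 ⟨h5, hz⟩
  obtain ⟨m, hm⟩ := hu3 z h6
  exact ⟨m, u z, Finset.mem_union_right _ (Finset.mem_image_of_mem u h6), hu2 z h6, hm⟩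

end Pool.Agent.MP_19ffc6_ag.LU4

/-! PROJECT LU4, module GLUEE: embedded local uniformization, from norms to valuations. -/

namespace Pool.Agent.MP_19ffc6_ag.LU4

open Polynomial IntermediateField NNReal Pool.Agent.MP_19ffc6_ag.LU Pool.Agent.MP_19ffc6_ag.LU3

universe v

/-- The conclusion: a smooth model with regular parameters that makes `Z` monomial. -/
def ELU (k : Type*) {K : Type*} [Field k] [Field K] [Algebra k K] (v : Valuation K ℝ≥0)
    (Z : Finset K) : Prop :=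
  ∃ A : Subalgebra k K, A.FG ∧ (∀ a ∈ A, v a ≤ 1) ∧ (∀ z ∈ Z, z ∈ A) ∧
    IsFractionRing A K ∧ Algebra.Smooth k A ∧
    ∃ (n : ℕ) (t : Fin n → K), AlgebraicIndependent k t ∧ (∀ i, t i ∈ A ∧ v (t i) < 1) ∧
      (∀ a ∈ A, v a < 1 → ∃ u ∈ A, v u = 1 ∧
        ∃ c : Fin n → K, (∀ i, c i ∈ A) ∧ u * a = ∑ i, c i * t i) ∧
      ∀ z ∈ Z, z ≠ 0 → ∃ m : Fin n → ℕ, ∃ u ∈ A, v u = 1 ∧ z = u * ∏ i, t i ^ m i

theorem transferE {k : Type*} {K Ω : Type v} [Field k] [Field K] [Algebra k K]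
    [NontriviallyNormedField Ω] [Algebra k Ω] [DecidableEq Ω] (φ : K →ₐ[k] Ω)
    (v : Valuation K ℝ≥0) (hv : ∀ a, ‖φ a‖ = v a) (Z : Finset K)
    (h : EM φ.fieldRange (Z.image φ)) : ELU k v Z := by
  have hinj : Function.Injective φ := φ.injective
  obtain ⟨A, ⟨hA, hAF, hA1, hAZ, hAq, hAs⟩, n, t, t1, t2, t3, t4⟩ := h
  choose s hs using fun i => hAF (t2 i).1
  replace hs : ∀ i, φ (s i) = t i := hs
  have hone : ∀ a, ‖φ a‖ = 1 → v a = 1 := fun a h => by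
    rw [hv] at h
    exact_mod_cast h
  have hmap : (A.comap φ).map φ = A := by
    rw [Subalgebra.map_comap_eq]
    exact inf_eq_left.2 hAF
  refine ⟨A.comap φ, Subalgebra.fg_of_fg_map _ φ hinj (by rwa [hmap]), fun a ha => ?_,
    fun z hz => hAZ _ (Finset.mem_image_of_mem _ hz), ?_, ?_, n, s,
    AlgebraicIndependent.of_comp φ ((funext hs : φ ∘ s = t) ▸ t1), fun i => ⟨?_, ?_⟩,
    fun a ha h => ?_, fun z hz h => ?_⟩
  · have : ‖φ a‖ ≤ 1 := hA1 _ ha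
    rw [hv] at this
    exact_mod_cast this
  · refine IsFractionRing.of_field _ _ fun z => ?_
    obtain ⟨a, ha, b, hb, -, h⟩ := hAq (φ z) ⟨z, rfl⟩
    obtain ⟨a', rfl⟩ := hAF ha
    obtain ⟨b', rfl⟩ := hAF hb
    refine ⟨⟨a', ha⟩, ⟨b', hb⟩, hinj ?_⟩
    rw [map_div₀]
    exact h
  · exact Algebra.Smooth.of_equiv
      (((A.comap φ).equivMapOfInjective φ hinj).trans (Subalgebra.equivOfEq _ _ hmap)).symm
  · rw [Subalgebra.mem_comap, hs]
    exact (t2 i).1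
  · have := (t2 i).2
    rw [← hs, hv] at this
    exact_mod_cast this
  · obtain ⟨u, hu, hu1, c, hc, e⟩ := t3 (φ a) ha (by rw [hv]; exact_mod_cast h)
    obtain ⟨u', rfl⟩ := hAF hu
    choose d hd using fun i => hAF (hc i)
    replace hd : ∀ i, φ (d i) = c i := hd
    refine ⟨u', hu, hone _ hu1, d, fun i => ?_, hinj ?_⟩
    · rw [Subalgebra.mem_comap, hd]
      exact hc i
    · simp only [map_mul, map_sum, hd, hs]
      exact e
  · obtain ⟨m, u, hu, hu1, e⟩ := t4 (φ z) (Finset.mem_image_of_mem _ hz) (by simpa using h)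
    obtain ⟨u', rfl⟩ := hAF hu
    refine ⟨m, u', hu, hone _ hu1, hinj ?_⟩
    simp only [map_mul, map_prod, map_pow, hs]
    exact e

/-- Reduction to the normed algebraically closed setting. -/
theorem glueE (k : Type*) (K : Type v) [Field k] [IsAlgClosed k] [Field K] [Algebra k K]
    (v : Valuation K ℝ≥0) (h1 : ∀ c : k, c ≠ 0 → v (algebraMap k K c) = 1)
    (h2 : ∀ a : K, v a ≤ 1 → ∃ c : k, v (a - algebraMap k K c) < 1)
    (core : ∀ (Ω : Type v) [NontriviallyNormedField Ω] [IsUltrametricDist Ω] [Algebra k Ω]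
      [IsAlgClosed Ω] [Ctx k Ω] (φ : K →ₐ[k] Ω), (∀ a, ‖φ a‖ = v a) →
      Algebra.IsAlgebraic φ.fieldRange Ω → φ.fieldRange.FG ∧ Mv.SG k φ.fieldRange)
    (Z : Finset K) (hZ : ∀ z ∈ Z, v z ≤ 1) : ELU k v Z := by
  classical
  by_cases hn : ∃ a, 1 < v a
  · let f : AbsoluteValue K ℝ :=
      { toFun := fun a => v a
        map_mul' := fun a b => by simp
        nonneg' := fun a => (v a).2
        eq_zero' := fun a => by simp
        add_le' := fun a b => by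
          have := v.map_add a b
          have h : v (a + b) ≤ v a + v b :=
            this.trans (max_le (le_add_of_nonneg_right bot_le) (le_add_of_nonneg_left bot_le))
          exact_mod_cast h }
    have hf : IsNonarchimedean f := fun a b => by
      change ((v (a + b) : ℝ≥0) : ℝ) ≤ max (v a : ℝ) (v b : ℝ)
      exact_mod_cast v.map_add a b
    obtain ⟨a0, ha0⟩ := hn
    have ha1 : 1 < f a0 := by
      change (1 : ℝ) < ((v a0 : ℝ≥0) : ℝ)
      exact_mod_cast ha0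
    obtain ⟨g, hg, hgf⟩ := Glue.exists_abs K f hf ⟨a0, ha1⟩
    let : NontriviallyNormedField (AlgebraicClosure K) :=
      { g.toNormedField with
        non_trivial := ⟨algebraMap K _ a0, by
          change 1 < g _
          rw [hgf]; exact ha1⟩ }
    have hv : ∀ a, ‖algebraMap K (AlgebraicClosure K) a‖ = v a := hgf
    have : IsUltrametricDist (AlgebraicClosure K) :=
      IsUltrametricDist.isUltrametricDist_of_forall_norm_add_le_max_norm hg
    have hk : ∀ c : k, c ≠ 0 → ‖algebraMap k (AlgebraicClosure K) c‖ = 1 := fun c hc => by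
      rw [IsScalarTower.algebraMap_apply k K, hv, h1 c hc]; rfl
    have : Ctx k (AlgebraicClosure K) :=
      ⟨hk, Glue.res_of_algebraic (F := K) hk fun b hb => by
        rw [hv] at hb
        obtain ⟨c, hc⟩ := h2 b (by exact_mod_cast hb)
        refine ⟨c, ?_⟩
        rw [IsScalarTower.algebraMap_apply k K, ← map_sub, hv]
        exact_mod_cast hc⟩
    let φ : K →ₐ[k] AlgebraicClosure K := IsScalarTower.toAlgHom k K _
    let e : K ≃ₐ[k] φ.fieldRange := AlgEquiv.ofInjectiveField φ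
    obtain ⟨c1, c2⟩ := core (AlgebraicClosure K) φ hv ⟨fun a =>
      (Algebra.IsAlgebraic.isAlgebraic (R := K) a).ringHom_of_comp_eq (e : K →+* φ.fieldRange)
        (RingHom.id _) e.injective (RingHom.ext fun _ => rfl)⟩
    refine transferE φ v hv Z (finalE c1 c2 _ fun z hz => ?_)
    obtain ⟨w, hw, rfl⟩ := Finset.mem_image.1 hz
    refine ⟨⟨w, rfl⟩, ?_⟩
    change ‖algebraMap K _ w‖ ≤ 1
    rw [hv]
    exact_mod_cast hZ w hw
  · push Not at hn
    have hz : ∀ a : K, v a < 1 → a = 0 := fun a hc => by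
      by_contra h0
      have h3 := hn a⁻¹
      rw [map_inv₀, inv_le_one₀ (pos_iff_ne_zero.2 ((Valuation.ne_zero_iff v).2 h0))] at h3
      exact absurd hc (not_lt.2 h3)
    have hall : ∀ a : K, a ∈ (⊥ : Subalgebra k K) := by
      intro a
      obtain ⟨c, hc⟩ := h2 a (hn a)
      rw [sub_eq_zero.1 (hz _ hc)]
      exact Subalgebra.algebraMap_mem _ c
    refine ⟨⊥, Subalgebra.fg_bot, fun a _ => hn a, fun z _ => hall z, ?_,
      Algebra.Smooth.of_equiv (Algebra.botEquiv k K).symm, 0, Fin.elim0,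
      algebraicIndependent_empty_type, fun i => i.elim0,
      fun a _ h => ⟨1, one_mem _, map_one v, 0, fun _ => zero_mem _, by simp [hz a h]⟩,
      fun z _ h => ⟨0, z, hall z, le_antisymm (hn z) (not_lt.1 fun h' => h (hz z h')), by simp⟩⟩
    exact IsFractionRing.of_field _ _ fun z => ⟨⟨z, hall z⟩, 1, by simp⟩

end Pool.Agent.MP_19ffc6_ag.LU4
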