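import Pool.Agent.MP_19ffc6_ag.LU3.Kn
import Pool.Agent.MP_19ffc6_ag.LU2.All
import Pool.Agent.MP_19ffc6_ag.LU4.MB

/-! PROJECT LU4, module RULW: the structure of the henselization. -/

namespace Pool.Agent.MP_19ffc6_ag.LU4

open Polynomial IntermediateField Pool.Agent.MP_19ffc6_ag.LU

universe u

variable {k : Type*} {Ω : Type u} [Field k] [NontriviallyNormedField Ω] [Algebra k Ω]

namespace RulWM

theorem M_eq (s : Stage Ω) : s.M k = adjoin k (s.mon '' s.Λ) ⊔ adjoin k {s.y} := by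
  rw [Stage.M, Stage.gens, adjoin_union]

theorem qfull (s : Stage Ω) {B : IntermediateField k Ω} (h : ∀ α ∈ s.Λ, s.mon α ∈ B) :
    LU3.QFull B := fun a ha => by
  obtain ⟨d, hd, h1⟩ := s.full a ha
  have h2 := LU3.nu_mem_qv (h _ h1)
  rw [s.nu_mon h1] at h2
  exact LU3.mem_of_mul_mem (d := d) (by omega) (by simpa using h2)

theorem basis (s : Stage Ω) : ∃ (m : ℕ) (x : Fin m → Ω), (∀ i, x i ≠ 0) ∧
    LinearIndependent ℤ (fun i => nu (x i)) ∧
    adjoin k (Set.range x) = adjoin k (s.mon '' s.Λ) := by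
  obtain ⟨m, b, -⟩ := exists_lattice_basis s.fg
  refine ⟨m, fun i => s.mon (b i), fun i => s.mon_ne_zero (b i).2, ?_, le_antisymm
    (adjoin.mono _ _ _ (by rintro _ ⟨i, rfl⟩; exact ⟨_, (b i).2, rfl⟩)) (adjoin_le_iff.2 ?_)⟩
  · have e : (fun i => nu (s.mon (b i))) = s.Λ.subtype.toIntLinearMap ∘ b :=
      funext fun i => s.nu_mon (b i).2
    rw [e]
    exact b.linearIndependent.map' _ (LinearMap.ker_eq_bot.2 Subtype.val_injective)
  · rintro _ ⟨α, hα, rfl⟩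
    have e : α = ∑ i, ((b.repr ⟨α, hα⟩ i : ℤ) : ℝ) * (b i : ℝ) := by
      have := congrArg s.Λ.subtype (b.sum_repr ⟨α, hα⟩)
      rw [map_sum] at this
      refine this.symm.trans (Finset.sum_congr rfl fun i _ => ?_)
      rw [map_zsmul, zsmul_eq_mul]
      rfl
    rw [e, s.mon_sum _ _ fun i _ => intCast_mul_mem (b i).2 _]
    refine prod_mem fun i _ => ?_
    rw [s.mon_intCast_mul (b i).2]
    exact zpow_mem (subset_adjoin _ _ (Set.mem_range_self i)) _

theorem rul1 {F : IntermediateField k Ω} (s : Stage Ω) (ha : Algebra.IsAlgebraic (s.M k) Ω)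
    (h1 : s.M k ≤ hens F) (h2 : F ≤ hens (s.M k)) (h : s.y = 0 ∨ NA k Ω) : Rul F := by
  obtain ⟨m, x, x1, x2, x3⟩ := basis (k := k) s
  rcases h with h | h
  · have e : s.M k = adjoin k (Set.range x) := by
      rw [M_eq, x3, h, sup_eq_left, adjoin_le_iff, Set.singleton_subset_iff]
      exact zero_mem _
    exact Or.inl ⟨m, x, x1, x2, e ▸ h1, e ▸ h2⟩
  · exact Or.inr ⟨_, s.y, x3 ▸ fg_adjoin_of_finite (Set.finite_range x),
      qfull s fun α hα => subset_adjoin _ _ (Set.mem_image_of_mem _ hα), h s ha, M_eq (k := k) s ▸ h1,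
      M_eq (k := k) s ▸ h2⟩

theorem rul2 {F : IntermediateField k Ω} (s : LU2.St Ω) (h : LU2.Weak F s) (hna : LU2.NA2 k Ω) :
    Rul F := by
  refine Or.inr ⟨s.toStage.M k, s.z, s.toStage.M_fg k,
    qfull s.toStage fun α hα => s.toStage.mon_mem_M k hα, fun ha => ?_, s.M_eq_sup k ▸ h.2.1,
    s.M_eq_sup k ▸ h.2.2⟩
  refine (hna s h.1).transcendental_adjoin (s := {0}) (i := 1) (by simp) ?_
  rw [← isAlgebraic_adjoin_iff, Set.image_singleton]
  rw [M_eq, ← restrictScalars_adjoin_eq_sup] at ha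
  exact ha

variable [IsUltrametricDist Ω] [IsAlgClosed k] [IsAlgClosed Ω] [Ctx k Ω]

theorem weak1 (p : ℕ) [Fact p.Prime] [CharP k p] [CharP Ω p] (F : IntermediateField k Ω)
    (hF : F.FG) (halg : Algebra.IsAlgebraic F Ω) (r : ℕ)
    (x : Fin r → Ω) (hx : ∀ i, x i ∈ F ∧ x i ≠ 0) (hind : LinearIndependent ℤ fun i => nu (x i))
    (htr : Algebra.trdeg k F ≤ r + 1) : Rul F := by
  have hb' : HB k Ω p := hb
  have hh : HensStmt k Ω := hens_isHens
  have hle : LeStmt k Ω p := le_props hb'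
  have hen : LU.EngineStmt k Ω p := engine (chain p) clean hle trans
  have hmon : MonStmt k Ω := mon_props p hle hen
  have hl : LineStmt k Ω p := lines hb' hh
  have hd : DStmt k Ω := lemD hb'
  have hs : SepStmt k Ω := sep_crit
  obtain ⟨s0, h1, h2, h3⟩ := init p hs F hF halg r x hx hind htr
  have haE : Algebra.IsAlgebraic (hens F) Ω := alg_hens halg
  have hE : IsHens (hens F) := hh F halg
  have ha0 : Algebra.IsAlgebraic (s0.M k) Ω := alg_of_sepOver h1 h2 halg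
  have hfin0 : relrank (hens (s0.M k)) (hens F) < Cardinal.aleph0 := by
    refine (Main.relrank_le_of_le_right (hens_mono h1) ?_).trans_lt
      (Main.relrank_sup_lt_aleph0 (alg_hens ha0) hF)
    exact hb'.hens_le _ (alg_of_le le_sup_right halg) ((hh _ ha0).mono le_sup_left) _ le_sup_right
  let S : Set Cardinal := {c | ∃ s : Stage Ω, s.M k ≤ hens F ∧ SepOver (s.M k) (hens F) ∧
    (s0.y = 0 → s.y = 0) ∧ c = relrank (hens (s.M k)) (hens F)}
  have hS0 : relrank (hens (s0.M k)) (hens F) ∈ S :=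
    ⟨s0, h1.trans (le_hens F), h2.trans h1 (sepOver_hens F), id, rfl⟩
  obtain ⟨c, ⟨s, g1, g2, g3, rfl⟩, hmin⟩ := wellFounded_lt.has_min S ⟨_, hS0⟩
  have hfin : relrank (hens (s.M k)) (hens F) < Cardinal.aleph0 :=
    (not_lt.1 (hmin _ hS0)).trans_lt hfin0
  refine rul1 s (alg_of_sepOver g1 g2 haE) g1 ((le_hens F).trans ?_) (h3.imp_left g3)
  by_contra hne
  obtain ⟨s', f1, f2, f3, f4⟩ := step_of hb' hh hle (gal hb')
    (wild hb' hh hle hen hmon hl (deg_bound hb')) (termA hb' hh ext hd hs) (termB hb' hh hd hs)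
    (down hb' hh hl) haE hE s g1 g2 hfin hne
  exact hmin _ ⟨s', f1, f2, fun h => f3 (g3 h), rfl⟩ f4

end RulWM

variable [IsUltrametricDist Ω] [IsAlgClosed k] [IsAlgClosed Ω] [Ctx k Ω]

open Pool.Agent.MP_19ffc6_ag.LU2 in
theorem rulW (p : ℕ) [Fact p.Prime] [CharP k p] : RulW k Ω := by
  have : CharP Ω p := charP_of_injective_algebraMap (algebraMap k Ω).injective p
  have ho : OrdStmt k p := ord
  have hl : LucStmt k p := luc
  have hsh : ShStmt k p := sh
  have hshs : ShsStmt k p := shs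
  have hs' : HS k Ω := hs p
  have hr : RS k Ω p := rs hs'
  have hi : IsoStmt k Ω p := iso hr
  have hi2 : Init2Stmt k Ω p := init2 hs' hr hi
  have hap : AprStmt k Ω p := apr hs'
  have hrho : RhoStmt k Ω p := rho ho hr hi
  have hn : NfdStmt k Ω p := nfd hs' hr
  have hmv : MoveStmt k Ω p := move hshs sc (solve hshs) (prep hl hshs)
    (step2 hl (bound ho hl) (arith p) face) hap hrho (exc hr hi) hn (real2 hs' hr hsh)
  have he : LU2.EngineStmt k Ω p :=
    engine2 (start hs' hr hn) hmv (run conv hap) (lowb hsh hr hi hrho (x0 hr))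
  have hpe : PertStmt k Ω := pert p hs'
  have hm : Mon2Stmt k Ω := mon2 p hs' hr hi2 he (lin hr)
  have hpi : PIStmt k Ω p := pi2 hs' derEx hm hi2 he (term2 hs' hr hpe)
  intro F hF halg r x hx hind hr2 htr
  rcases initK F hF halg r x hx hind hr2 htr with ⟨r', x', h1, h2, h3⟩ | ⟨hna, s, h1, h2⟩
  · exact RulWM.weak1 p F hF halg r' x' h1 h2 h3
  obtain ⟨K', N, s1, g1, g2, g3, g4⟩ := rOf (p := p) rel (low p) F s hF h2 h1
  obtain ⟨s2, g5⟩ := tower hpi hna F K' N s1 hF g1 g2 g3 g4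
  exact RulWM.rul2 s2 g5 hna

end Pool.Agent.MP_19ffc6_ag.LU4

/-! Module PF of PROJECT LU4: the step for transcendental extensions, with the inductive
hypothesis only for fields that see all values. -/

namespace Pool.Agent.MP_19ffc6_ag.LU4

open Polynomial IntermediateField Pool.Agent.MP_19ffc6_ag.LU Pool.Agent.MP_19ffc6_ag.LU3

universe u

variable {k : Type*} {Ω : Type u} [Field k] [NontriviallyNormedField Ω] [Algebra k Ω]

namespace Pf

/-- The data of the induction with a base that sees all values. -/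
def DatF (n : ℕ) (F : IntermediateField k Ω) (y : Ω) (Z : Finset Ω) : Prop :=
  Dat n F y Z ∧ QFull F

theorem qfull_mono {F E : IntermediateField k Ω} (h : QFull F) (hE : F ≤ E) : QFull E :=
  fun a ha => qv_mono hE (h a ha)

theorem vfull_of {F : IntermediateField k Ω} (h : QFull F) (K : IntermediateField k Ω) :
    VFull F K := fun a _ => by
  by_cases h0 : a = 0
  · simp [h0, nu]
  · exact h a h0

theorem qfull_swap {F : IntermediateField k Ω} (h : QFull F) {ι : Type} [DecidableEq ι]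
    {ξ : ι → Ω} (i0 : ι) (w : Ω)
    (hfull : ∀ α ∈ qv F, α ∈ Submodule.span ℚ (Set.range fun i => nu (ξ i))) {th : Ω}
    (hn : ‖th‖ = ‖ξ i0‖) :
    QFull (adjoin k (Set.range (Function.update ξ i0 w)) ⊔ adjoin k {th}) := fun a ha => by
  refine Submodule.span_le.2 (Set.forall_mem_range.2 fun i => ?_) (hfull _ (h a ha))
  by_cases hi : i = i0
  · rw [hi, ← nu_eq_of_norm_eq hn]
    exact nu_mem_qv (Pd.self_mem _ th)
  · refine nu_mem_qv ((le_sup_left : _ ≤ _ ⊔ adjoin k {th}) (subset_adjoin _ _ ⟨i, ?_⟩))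
    simp [hi]

section

open Orth Mv TermM

variable [IsAlgClosed Ω] [Ctx k Ω]

theorem pfin {n : ℕ} (hq : ∀ q, PQa (DatF (k := k) (Ω := Ω) n) PD q) {F : IntermediateField k Ω} {y : Ω} (hF : F.FG)
    (hd : Algebra.trdeg k F ≤ n) (hy : Transcendental F y) (hQ : QFull F) :
    SG k (F ⊔ adjoin k {y}) := by
  classical
  have hf : VFull F (F ⊔ adjoin k {y}) := vfull_of hQ _
  obtain ⟨Z, hZ⟩ := hF
  refine sg_of (insert y Z) (fun z hz => ?_) fun W hW => ?_
  · rcases Finset.mem_insert.1 hz with rfl | hz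
    · exact (le_sup_right : adjoin k {z} ≤ _) (mem_adjoin_simple_self k z)
    · exact (le_sup_left : F ≤ _) (hZ ▸ subset_adjoin k _ hz)
  choose! f g hf1 hg1 hf0 hg0 hfg using fun w (hw : w ∈ W) => exists_quot (hW w hw).1 (hW w hw).2
  have h3 : ∀ P ∈ W.image f ∪ W.image g, (∀ i, P.coeff i ∈ F) ∧ P ≠ 0 := fun P hP => by
    rcases Finset.mem_union.1 hP with hP | hP <;> obtain ⟨w, hw, rfl⟩ := Finset.mem_image.1 hP
    exacts [⟨hf1 w hw, hf0 w hw⟩, ⟨hg1 w hw, hg0 w hw⟩]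
  obtain ⟨R, a, ha, haR, hR⟩ := exists_disc hy hf _ h3
  obtain ⟨ι, _, ξ, I, hs, hξ, hgd, hsp⟩ := hq _ F y Z R a ⟨⟨hZ, hd, hy, hf⟩, hQ⟩ ha haR le_rfl _
    fun P hP => ⟨(h3 P hP).1, hR P hP⟩
  refine ⟨ι, inferInstance, ξ, I, hs, hξ, fun w hw => ?_, hsp.mono ?_⟩
  · rw [hfg w hw]
    exact (hgd _ (Finset.mem_union_left _ (Finset.mem_image_of_mem _ hw))).div hs
      (hgd _ (Finset.mem_union_right _ (Finset.mem_image_of_mem _ hw)))
  · rw [Finset.coe_insert]; exact Set.subset_union_left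

variable [IsUltrametricDist Ω] [Infinite k]

theorem term {n : ℕ} {F : IntermediateField k Ω} (ih : SG k F) {y c : Ω} {Z : Finset Ω} {R : ℝ}
    (hD : Dat n F y Z) (hc : c ∈ F) (hcR : ‖c - y‖ < R) : PD F y R Z := by
  classical
  intro GG hG
  obtain ⟨v, hv, hv0, Hv⟩ := denom hD.gen hc
  obtain ⟨ι, _, ξ, I, hs, hξ, hgd, hsp⟩ := ih Z
    (insert v (GG.biUnion fun g => (taylor c g).coeffs)) hD.gen (by
      simp only [Finset.forall_mem_insert, Finset.mem_biUnion]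
      refine ⟨⟨hv, hv0⟩, ?_⟩
      rintro _ ⟨g, hg, h⟩
      obtain ⟨i, hi, rfl⟩ := mem_coeffs_iff.1 h
      exact ⟨Phi.taylor_mem (hG g hg).1 hc i, mem_support_iff.1 hi⟩)
  simp only [Finset.forall_mem_insert, Finset.mem_biUnion] at hgd
  obtain ⟨gv, gG⟩ := hgd
  have hz : Transcendental (adjoin k (Set.range ξ)) (y - c) := fun ha => hD.tr (by
    simpa using (isAlgebraic_trans (fun z hz => alg_of_mem_hens
      ((adjoin_le_iff.2 (Set.range_subset_iff.2 hξ) : adjoin k _ ≤ _) hz)) ha).add (alg_of_mem hc))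
  obtain ⟨ξ1, I1, s1, s2, s3, s5, s4⟩ := addz hs hz
  have h0 : ∀ g ∈ GG, (taylor c g).coeff 0 ≠ 0 := fun g hg => by
    rw [taylor_coeff_zero]; exact (hG g hg).2 c hcR
  have hlt : ∀ g ∈ GG, ∀ i, i ≠ 0 →
      ‖((taylor c g).coeff 0)⁻¹ * ((taylor c g).coeff i * (y - c) ^ i)‖ < 1 := fun g hg i hi => by
    rw [norm_mul, norm_inv, inv_mul_lt_iff₀ (norm_pos_iff.2 (h0 g hg)), mul_one]
    exact taylor_lt (hG g hg).2 hcR hi
  have hg0 : ∀ g ∈ GG, ∀ i ∈ (taylor c g).support, Gd k ξ1 I1 ((taylor c g).coeff i) :=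
    fun g hg i hi => (gG _ ⟨g, hg, coeff_mem_coeffs (mem_support_iff.1 hi)⟩).mono s1 s2
  obtain ⟨ξ2, t1, t2, t4, -, -, t3, t5⟩ := ref s1 (GG.biUnion fun g =>
      ((taylor c g).support.erase 0).image
        fun i => ((taylor c g).coeff 0)⁻¹ * ((taylor c g).coeff i * (y - c) ^ i)) (by
    simp only [Finset.mem_biUnion, Finset.mem_image, Finset.mem_erase]
    rintro _ ⟨g, hg, i, ⟨hi0, hi⟩, rfl⟩
    exact ⟨(hg0 g hg 0 (mem_support_iff.2 (h0 g hg))).inv.mul s1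
      ((hg0 g hg i hi).mul s1 (s5.pow s1 i)), (hlt g hg i hi0).le⟩)
  have hK : adjoin k (insert (y - c) (Set.range ξ)) ≤ hens (F ⊔ adjoin k {y}) := by
    refine adjoin_le_iff.2 (Set.insert_subset (le_hens _ (sub_mem ?_ ?_))
      (Set.range_subset_iff.2 fun i => hens_le_hens (le_sup_left.trans (le_hens _)) (hξ i)))
    exacts [(le_sup_right : adjoin k {y} ≤ _) (mem_adjoin_simple_self k y),
      (le_sup_left : F ≤ _) hc]
  refine ⟨_, inferInstance, ξ2, I1, t1, fun i => hK ((adjoin_le_iff.2 (Set.range_subset_iff.2 s3) :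
    adjoin k _ ≤ _) (t3 ▸ subset_adjoin k _ ⟨i, rfl⟩)), fun g hg => ?_, fun A hA hZA => ?_⟩
  · set P := taylor c g with hP
    have e1 : g.eval y = P.coeff 0 *
        (1 + ∑ i ∈ P.support.erase 0, (P.coeff 0)⁻¹ * (P.coeff i * (y - c) ^ i)) := by
      rw [← Finset.mul_sum, mul_add, mul_inv_cancel_left₀ (h0 g hg), ← taylor_eval_sub c,
        eval_eq_sum, sum_def, ← Finset.add_sum_erase _ _ (mem_support_iff.2 (h0 g hg)), pow_zero]
    rw [e1]
    refine ((hg0 g hg 0 (mem_support_iff.2 (h0 g hg))).mono t1 t2).mul t1 (Gd.unit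
      (add_mem (one_mem _) (sum_mem fun i hi => (t5 _ ?_).1)) ?_)
    · exact Finset.mem_biUnion.2 ⟨g, hg, Finset.mem_image_of_mem _ hi⟩
    · have := norm_sum_lt_of (s := P.support.erase 0) one_pos
        fun i hi => hlt g hg i (Finset.ne_of_mem_erase hi)
      rw [IsUltrametricDist.norm_add_eq_max_of_norm_ne_norm (by rw [norm_one]; exact this.ne'),
        norm_one, max_eq_left this.le]
  · have h1 : (Z : Set Ω) ⊆ A := (Set.subset_insert _ _).trans hZA
    have hA1 := hA.mono s1 t1 t2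
    have hA0 := hA1.mono hs s1 s2
    exact t4 A hA.1 (s4 A hA1.1 (sub_mem (hZA (Set.mem_insert _ _)) (Hv hA0 h1 gv))
      (hsp A hA0 h1))

end

section

open Mv Hr Pd Sw Swp

variable [IsUltrametricDist Ω] [Ctx k Ω] [IsAlgClosed Ω] [Infinite k]

theorem base_chart {n : ℕ} {F : IntermediateField k Ω} (ih : SG k F) {y : Ω} {Z : Finset Ω}
    (h : Dat n F y Z) (S : Finset (Polynomial Ω)) (hS : ∀ g ∈ S, ∀ i, g.coeff i ∈ F) :
    ∃ (ι : Type) (_ : Fintype ι) (ξ : ι → Ω) (I : Finset ι), IsChart k ξ I ∧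
      (∀ i, ξ i ∈ hens F) ∧ Sp k ξ I Z ∧
      (∀ α ∈ qv F, α ∈ Submodule.span ℚ (Set.range fun i => nu (ξ i))) ∧
      ∀ g ∈ S, ∀ i, (g.coeff i ≠ 0 → Gd k ξ I (g.coeff i)) ∧
        (‖g.coeff i‖ ≤ 1 → NG k ξ (g.coeff i)) := by
  classical
  obtain ⟨B, hB, hB'⟩ := exists_finset_qv (F := F) (h.dim.trans_lt (Cardinal.natCast_lt_aleph0))
  obtain ⟨ι, _, ξ, I, h1, h2, h3, h4⟩ := ih.ref Z (B ∪ S.biUnion coeffs) h.gen (by
    intro w hw
    rcases Finset.mem_union.1 hw with hw | hw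
    · exact hB w hw
    · obtain ⟨g, hg, hw⟩ := Finset.mem_biUnion.1 hw
      obtain ⟨i, hi, rfl⟩ := mem_coeffs_iff.1 hw
      exact ⟨hS g hg i, mem_support_iff.1 hi⟩)
  have h5 : ∀ g ∈ S, ∀ i, g.coeff i ≠ 0 → g.coeff i ∈ B ∪ S.biUnion coeffs := fun g hg i hi =>
    Finset.mem_union_right _ (Finset.mem_biUnion.2 ⟨g, hg, coeff_mem_coeffs hi⟩)
  refine ⟨ι, inferInstance, ξ, I, h1, h2, h4, fun α hα => ?_, fun g hg i =>
    ⟨fun hi => (h3 _ (h5 g hg i hi)).1, fun hi => ?_⟩⟩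
  · obtain ⟨d, hd, h6⟩ := hB' α hα
    refine mem_of_mul_mem (d := d) (by omega) ?_
    rw [Int.cast_natCast]
    refine (AddSubgroup.closure_le (Submodule.span ℚ
      (Set.range fun i => nu (ξ i))).toAddSubgroup).2 ?_ h6
    rintro _ ⟨b, hb, rfl⟩
    exact nu_mem_span h1 (h3 b (Finset.mem_union_left _ hb)).1
  · by_cases h0 : g.coeff i = 0
    · exact Or.inl h0
    · exact ng_of_nt ((h3 _ (h5 g hg i h0)).2.1 hi)

variable [DecidableEq Ω]

theorem swap (p : ℕ) [hp : Fact p.Prime] [CharP k p] {n q : ℕ} (kn : KnStmt k Ω p)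
    (ih : IHF k Ω n) (adj : AdjStmt k Ω) (pq : PQa (DatF (k := k) (Ω := Ω) n) PD q)
    (F : IntermediateField k Ω) (y : Ω) (Z : Finset Ω) (R : ℝ) (a : Ω) (s : ℕ) (ψ : Ω) (rr : ℝ)
    (hDF : DatF n F y Z) (hs : 0 < s) (hψ : ψ ∈ F) (hy : ‖y‖ ≤ 1) (ha : IsAlgebraic F a)
    (hay : ‖a - y‖ < R) (hq : (minpoly (hens F) a).natDegree ≤ q + 1) (hw : ‖y ^ p ^ s - ψ‖ < rr)
    (hroot : ∀ b, aeval b (minpoly (hens F) a) = 0 → ‖b ^ p ^ s - ψ‖ < rr ∧ ‖b‖ ≤ 1)
    (hc : ∀ c ∈ hens F, rr ≤ ‖ψ - c ^ p‖)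
    (hinf : ∀ r, rr < r → ∃ c ∈ F, ‖y - c‖ ^ p ^ s < r) : PD F y R Z := by
  classical
  have : CharP Ω p := charP_of_injective_algebraMap (algebraMap k Ω).injective p
  have : ExpChar Ω p := ExpChar.prime hp.out
  intro GG hGG
  have hD := hDF.1
  have hS : SG k F := ih F hD.fg hD.dim hDF.2
  have hψ1 : ‖ψ‖ ≤ 1 := not_lt.1 fun h => by
    have h1 := hc 0 (zero_mem _)
    rw [zero_pow hp.out.ne_zero, sub_zero] at h1
    rw [norm_sub_rev, norm_sub_eq_left (lt_of_le_of_lt (by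
      rw [norm_pow]; exact pow_le_one₀ (norm_nonneg _) hy) h)] at hw
    exact h1.not_gt hw
  have hrr1 : rr ≤ 1 := by
    have h1 := hc 0 (zero_mem _)
    rw [zero_pow hp.out.ne_zero, sub_zero] at h1
    exact h1.trans hψ1
  -- scaling of `GG`
  obtain ⟨b, hb, hb0, hb1⟩ := Phi.exists_scale F.toSubfield (GG.biUnion coeffs) fun x hx => by
    obtain ⟨g, hg, hx⟩ := Finset.mem_biUnion.1 hx
    obtain ⟨i, -, rfl⟩ := mem_coeffs_iff.1 hx
    exact (hGG g hg).1 i
  have hG1 : ∀ g ∈ GG.image (C b * ·), (∀ i, g.coeff i ∈ F ∧ ‖g.coeff i‖ ≤ 1) ∧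
      ∀ T, ‖T - y‖ < R → g.eval T ≠ 0 := by
    intro g' hg'
    obtain ⟨g, hg, rfl⟩ := Finset.mem_image.1 hg'
    refine ⟨fun i => ?_, fun T hT => ?_⟩
    · rw [coeff_C_mul]
      refine ⟨F.mul_mem hb ((hGG g hg).1 i), ?_⟩
      by_cases h : g.coeff i = 0
      · simp [h]
      · exact hb1 _ (Finset.mem_biUnion.2 ⟨g, hg, coeff_mem_coeffs h⟩)
    · rw [eval_mul, eval_C]
      exact mul_ne_zero hb0 ((hGG g hg).2 T hT)
  have hai : IsIntegral (hens F) a := (isAlgebraic_of_le (le_hens F) ha).isIntegral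
  obtain ⟨Φ, G, r1, r2, rP, -, Gm, d1, d2, hΦ, hG, hid, w1, h12, h2r, hGi, hP, -, hN⟩ :=
    phi F p s hai hay hψ hw hroot _ (fun g hg i => ((hG1 g hg).1 i).1) fun g hg => (hG1 g hg).2
  choose! Ng gs n1 n2 n3 n4 n5 using hN
  have hr1 : 0 < r1 := (norm_nonneg _).trans_lt w1
  have hr2 : 0 < r2 := hr1.trans h12
  have hlt : rr < rr ^ 2 / r2 := by
    rw [lt_div_iff₀ hr2, pow_two]
    exact mul_lt_mul_of_pos_left h2r (hr2.trans h2r)
  obtain ⟨c, hcF, c1, c2⟩ : ∃ c ∈ F, ‖c‖ ≤ 1 ∧ ‖y - c‖ ^ p ^ s < rr ^ 2 / r2 := by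
    obtain ⟨c, hcF, h⟩ := hinf _ hlt
    by_cases h1 : ‖y - c‖ ≤ 1
    · refine ⟨c, hcF, ?_, h⟩
      rw [← sub_sub_cancel y c]
      exact norm_sub_le_of hy h1
    · refine ⟨0, F.zero_mem, by simp, lt_of_le_of_lt ?_ h⟩
      rw [sub_zero]
      exact pow_le_pow_left₀ (norm_nonneg _) (hy.trans (not_le.1 h1).le) _
  set e := ψ - c ^ p ^ s with he
  have hψe : c ^ p ^ s + e = ψ := add_sub_cancel _ _
  have e1 : ‖e‖ ≤ 1 :=
    norm_sub_le_of hψ1 (by rw [norm_pow]; exact pow_le_one₀ (norm_nonneg _) c1)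
  have e2 : r2 * ‖e‖ < rr ^ 2 := by
    rw [← lt_div_iff₀' hr2, show e = (y - c) ^ p ^ s - (y ^ p ^ s - ψ) by
      rw [sub_pow_expChar_pow, he]; ring]
    exact norm_sub_lt_of (by rwa [norm_pow]) (hw.trans hlt)
  have hG1' : ∀ i, ‖G.coeff i‖ ≤ 1 := fun i => by
    rcases lt_trichotomy i G.natDegree with h | rfl | h
    · exact (hGi i h).le.trans (pow_le_one₀ hr1.le ((h12.trans h2r).le.trans hrr1))
    · rw [Gm.coeff_natDegree, norm_one]
    · rw [coeff_eq_zero_of_natDegree_lt h, norm_zero]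
      exact zero_le_one
  have hC : ∀ x ∈ F, ∀ i, (C x).coeff i ∈ F := fun x hx i => by
    rw [coeff_C]
    split_ifs
    exacts [hx, F.zero_mem]
  set G1 := GG.image (C b * ·) with hG1d
  obtain ⟨ι, _, ξ, I, a1, a2, a3, a4, a5⟩ := base_chart hS hD
    ({C b, C c, C e, Φ, G} ∪ (G1 ∪ (G1.image Ng ∪ G1.image gs))) (by
      intro g hg
      simp only [Finset.mem_union, Finset.mem_insert, Finset.mem_singleton] at hg
      rcases hg with (rfl | rfl | rfl | rfl | rfl) | hg | hg | hg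
      · exact hC b hb
      · exact hC c hcF
      · exact hC e (F.sub_mem hψ (pow_mem hcF _))
      · exact fun i => (hΦ i).1
      · exact hG
      · exact fun i => ((hG1 g hg).1 i).1
      · obtain ⟨g', hg', rfl⟩ := Finset.mem_image.1 hg
        exact fun i => (n1 g' hg' i).1
      · obtain ⟨g', hg', rfl⟩ := Finset.mem_image.1 hg
        exact fun i => (n2 g' hg' i).1)
  have hq0 : 0 < G.natDegree := by
    rw [d2, d1]
    exact minpoly.natDegree_pos hai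
  obtain ⟨i0, ct, N, hcore⟩ := Sw.core (fun K1 E Ph zz y1 sg A rb r1 r2 rP j q t1 t2 t3 t4 t5 _ =>
      annulus t1 t2 t3 t4 t5) p hs a1.ind a1.small hy (c := c) (e := e)
    (by simpa using (a5 (C c) (by simp) 0).2 (by simpa using c1))
    (by simpa using (a5 (C e) (by simp) 0).2 (by simpa using e1))
    (fun i => (a5 Φ (by simp) i).2 (hΦ i).2) (fun i => (a5 G (by simp) i).2 (hG1' i)) Gm hq0
    (by rwa [hψe]) (by rwa [hψe]) h12 h2r e2 hGi hP G1
    (fun g hg => ⟨fun i => (a5 g (by simp [hg]) i).2 ((hG1 g hg).1 i).2, Ng g, gs g,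
      fun i => (a5 _ (Finset.mem_union_right _ (Finset.mem_union_right _ (Finset.mem_union_left _
        (Finset.mem_image_of_mem _ hg)))) i).2 (n1 g hg i).2,
      fun i => (a5 _ (Finset.mem_union_right _ (Finset.mem_union_right _ (Finset.mem_union_right _
        (Finset.mem_image_of_mem _ hg)))) i).2 (n2 g hg i).2, n3 g hg, n4 g hg, n5 g hg⟩)
    (fun f hf => by
      by_contra h
      obtain ⟨x, hx, h1⟩ := kn F hD.fg hS ι ξ
        (fun i => ⟨a2 i, a1.ne i, (a1.small i).le⟩) f rr (hr2.trans h2r)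
        fun i => not_le.1 fun h1 => h ⟨i, h1⟩
      refine (hc x hx).not_gt ?_
      rw [hψe] at hf
      rw [← sub_add_sub_cancel _ (MvPolynomial.aeval ξ f)]
      exact norm_add_lt_of hf h1)
  have hct : MvPolynomial.aeval ξ ct ∈ hens F :=
    Algebra.adjoin_le (S := (hens F).toSubalgebra) (Set.forall_mem_range.2 a2) (aeval_mem_R ξ ct)
  set z := y - MvPolynomial.aeval ξ ct with hz
  have hzK : z ∈ adjoin k (Set.range (Function.update ξ i0 z)) :=
    subset_adjoin _ _ ⟨i0, Function.update_self ..⟩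
  obtain ⟨E, th, a', R', b1, b2, b3, b4, b5, b6, b7, b8, b9, b10⟩ :=
    hcore (adjoin k (Set.range (Function.update ξ i0 z)))
      (fun i hi => subset_adjoin _ _ ⟨i, Function.update_of_ne hi ..⟩) hzK
  have hR' : 0 < R' := (norm_nonneg _).trans_lt b5
  have hm : ∀ i, (E - C (z ^ p ^ s)).coeff i ∈ adjoin k (Set.range (Function.update ξ i0 z)) :=
    fun i => by
      rw [coeff_sub, coeff_C]
      refine sub_mem (b1 i) ?_
      split_ifs
      exacts [pow_mem hzK _, zero_mem _]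
  have hm0 : (E - C (z ^ p ^ s)).eval th = 0 := by rw [eval_sub, eval_C, b2, sub_self]
  have hmd : (E - C (z ^ p ^ s)).derivative = E.derivative := by
    rw [derivative_sub, derivative_C, sub_zero]
  have hth : IsAlgebraic (adjoin k (Set.range (Function.update ξ i0 z))) th := by
    obtain ⟨Q, hQ⟩ := Phi.exists_lift hm
    refine ⟨Q, fun h => (b9 (ξ i0) (by rwa [sub_self, norm_zero])).1 ?_, ?_⟩
    · rw [← hmd, ← hQ, h, Polynomial.map_zero, derivative_zero, eval_zero]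
    · rw [← eval_map_algebraMap, hQ, hm0]
  have hPD := adj _ (ξ i0) (Finset.univ.image (Function.update ξ i0 z)) R' _ X th (by simp) hm
    (fun i => by rw [coeff_X]; split_ifs; exacts [one_mem _, zero_mem _]) hm0 b4 hR'
    (fun T hT => by
      rw [eval_X, hmd]
      refine ⟨?_, (b9 T hT).1, fun l hl => ?_⟩
      · rintro rfl
        rw [zero_sub, norm_neg] at hT
        exact b6.not_gt hT
      · rw [map_sub, hasseDeriv_C _ _ (by omega), sub_zero]
        exact (b9 T hT).2 l hl)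
    (pq _ _ _ R' a' ⟨hD.swap a1.ind a2 i0 hct a4 hth b3, qfull_swap hDF.2 i0 _ a4 b3⟩
      (isAlgebraic_of_le le_sup_left b7) b5
      (by omega))
  choose! gh g1 g2 g3 d g4 g5 using b10
  obtain ⟨ι', _, ξ', I', f1, f2, f3, f4, f5⟩ := back hy a1 a2 a3 i0 ct b6 (fun h => hD.tr (by
    rw [sub_eq_zero.1 h]
    exact alg_of_mem_hens hct)) hPD G1 gh d (fun g hg => ⟨g1 g hg, g2 g hg⟩) g3 g4 g5
  refine ⟨ι', inferInstance, ξ', I', f1, f3, fun g hg => ?_, f5⟩
  have h1 : Gd k ξ I b := by simpa using (a5 (C b) (by simp) 0).1 (by simpa using hb0)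
  have h2 := (f4 _ (Finset.mem_image_of_mem _ hg)).div f1 (h1.mono f1 f2)
  rwa [eval_mul, eval_C, mul_div_cancel_left₀ _ hb0] at h2

end

end Pf

open Pf in
theorem pf [IsUltrametricDist Ω] [IsAlgClosed k] [IsAlgClosed Ω] [Ctx k Ω] (p : ℕ) [Fact p.Prime]
    [CharP k p] (n : ℕ) : PfStmt k Ω n := by
  classical
  exact fun ih _ _ => pfin (pq_of p (Dat := DatF n) (PD := PD) (fun _ _ _ h => h.1.full)
    (fun _ _ _ _ h ht => ⟨h.1.adj ht, qfull_mono h.2 le_sup_left⟩)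
    (fun _ _ _ _ _ h hb h0 hc => ⟨h.1.aff hb hc h0, h.2⟩)
    (fun F _ _ _ _ h => term (ih F h.1.fg h.1.dim h.2) h.1)
    (fun F y Z R b c h hb h0 hc => affStmt F y Z R b c h.1.gen hb hc h0)
    (fun F y Z R m U th h => adjStmt F y Z R m U th h.1.gen)
    fun _ hq => swap p (kn p) ih adjStmt hq)

end Pool.Agent.MP_19ffc6_ag.LU4

/-! PROJECT LU4, module PRJ: a separable function field in one variable inside the closure of the
algebraic closure of the base has a rational henselization. -/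

namespace Pool.Agent.MP_19ffc6_ag.LU4

open Polynomial IntermediateField Pool.Agent.MP_19ffc6_ag.LU Pool.Agent.MP_19ffc6_ag.LU3 Pd Filter
  Topology

universe u

variable {k : Type*} {Ω : Type u} [Field k] [NontriviallyNormedField Ω] [Algebra k Ω]

/-- A limit of algebraic elements. -/
def Lim (E : IntermediateField k Ω) (y : Ω) : Prop :=
  ∀ ε : ℝ, 0 < ε → ∃ a, IsAlgebraic E a ∧ ‖y - a‖ < ε

namespace Prj

variable {E : IntermediateField k Ω} {y z : Ω}

/-- The value of a polynomial in two variables. -/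
noncomputable def ev (P : E[X][X]) (u w : Ω) : Ω := P.eval₂ (aeval u : E[X] →ₐ[E] Ω) w

theorem ev_map (P : E[X][X]) (u w : Ω) :
    ev P u w = (P.map ((aeval u : E[X] →ₐ[E] Ω) : E[X] →+* Ω)).eval w := (eval_map _ _).symm

theorem exists_poly (hz : IsSeparable ↥(E ⊔ adjoin k {y}) z) :
    ∃ P : E[X][X], ev P y z = 0 ∧ ev (derivative P) y z ≠ 0 := by
  classical
  set m := minpoly ↥(E ⊔ adjoin k {y}) z
  have h1 : ∀ i, ∃ r s : E[X], aeval y s ≠ 0 ∧ aeval y s * (m.coeff i : Ω) = aeval y r := fun i => by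
    obtain ⟨r, s, h⟩ := (mem_adjoin_simple_iff _ _).1 (mem_sup_iff_mem_adjoin.1 (m.coeff i).2)
    by_cases h0 : aeval y s = 0
    · exact ⟨0, 1, by simp, by simp [h, h0]⟩
    · exact ⟨r, s, h0, by rw [h, mul_div_cancel₀ _ h0]⟩
  choose r s hs hr using h1
  obtain ⟨P, hP⟩ : ∃ P : E[X][X], P.map ((aeval y : E[X] →ₐ[E] Ω) : E[X] →+* Ω) =
      C (∏ i ∈ m.support, aeval y (s i)) * m.map (algebraMap _ Ω) := by
    refine (lifts_iff_coeff_lifts _).2 fun i => ?_
    rw [coeff_C_mul, coeff_map]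
    by_cases hi : i ∈ m.support
    · refine ⟨(∏ j ∈ m.support.erase i, s j) * r i, ?_⟩
      rw [← Finset.prod_erase_mul _ _ hi, mul_assoc]
      simp only [RingHom.coe_coe, map_mul, map_prod, ← hr]
      rfl
    · exact ⟨0, by simp [notMem_support_iff.1 hi]⟩
  refine ⟨P, ?_, ?_⟩
  · rw [ev_map, hP, eval_mul, eval_map_algebraMap, minpoly.aeval, mul_zero]
  · rw [ev_map, ← derivative_map, hP, derivative_C_mul, derivative_map, eval_mul, eval_C,
      eval_map_algebraMap]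
    exact mul_ne_zero (Finset.prod_ne_zero_iff.2 fun i _ => hs i)
      (Separable.aeval_derivative_ne_zero hz (minpoly.aeval _ _))

theorem ev_hom (τ : Ω →ₐ[E] Ω) (P : E[X][X]) (u w : Ω) : τ (ev P u w) = ev P (τ u) (τ w) := by
  simp only [ev, eval₂_eq_sum, Polynomial.sum, map_sum, map_mul, map_pow, RingHom.coe_coe,
    aeval_algHom_apply]

theorem diff_ev (P : E[X][X]) : Differentiable Ω fun x : Ω × Ω => ev P x.1 x.2 := by
  simp only [ev, eval₂_eq_sum, Polynomial.sum, RingHom.coe_coe]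
  refine Differentiable.fun_sum fun i _ => Differentiable.mul ?_ (differentiable_snd.pow i)
  exact Differentiable.comp (g := fun u : Ω => aeval u (P.coeff i))
    (P.coeff i).differentiable_aeval differentiable_fst

variable [IsUltrametricDist Ω] [IsAlgClosed Ω]

theorem root_near {g : Polynomial Ω} {w : Ω} {ε : ℝ} (hε : 0 ≤ ε) {j : ℕ}
    (h : ‖g.eval w‖ < ε ^ j * ‖(taylor w g).coeff j‖) : ∃ a, g.eval a = 0 ∧ ‖w - a‖ < ε := by
  by_contra hc
  push Not at hc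
  have h1 := Phi.coeff_le_coeff_zero (P := taylor w g) hε (fun x hx => by
    have h2 := isRoot_of_mem_roots hx
    rw [IsRoot.def, taylor_eval] at h2
    simpa using hc _ h2) j
  rw [taylor_coeff_zero, mul_comm] at h1
  exact h.not_ge h1

omit [IsUltrametricDist Ω] [IsAlgClosed Ω] in
theorem alg_root {M : IntermediateField k Ω} {g : Polynomial Ω} (hg : ∀ i, g.coeff i ∈ M) (h0 : g ≠ 0)
    {a : Ω} (ha : g.eval a = 0) : IsAlgebraic M a := by
  obtain ⟨Q, rfl⟩ : ∃ Q : M[X], Q.map (algebraMap M Ω) = g :=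
    (lifts_iff_coeff_lifts g).2 fun i => ⟨⟨_, hg i⟩, rfl⟩
  rw [eval_map_algebraMap] at ha
  exact ⟨Q, by rintro rfl; simp at h0, ha⟩

theorem lim_root (hy : Lim E y) {P : E[X][X]} (h0 : ev P y z = 0)
    (h1 : ev (derivative P) y z ≠ 0) : Lim E z := by
  intro ε hε
  have hc : ∀ Q : E[X][X], Continuous fun u => ‖ev Q u z‖ := fun Q =>
    ((diff_ev Q).continuous.comp (Continuous.prodMk_left z)).norm
  have h2 := (isOpen_lt (hc P) (continuous_const.mul (hc (derivative P)))).mem_nhds (x := y)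
    (show ‖ev P y z‖ < ε * ‖ev (derivative P) y z‖ by rw [h0, norm_zero]; positivity)
  obtain ⟨δ, hδ, h3⟩ := Metric.mem_nhds_iff.1 h2
  obtain ⟨a, ha, hay⟩ := hy δ hδ
  have h4 : ‖ev P a z‖ < ε * ‖ev (derivative P) a z‖ :=
    h3 (by rwa [Metric.mem_ball, dist_eq_norm, norm_sub_rev])
  rw [ev_map, ev_map, ← derivative_map, ← taylor_coeff_one, ← pow_one ε] at h4
  obtain ⟨b, hb, hbz⟩ := root_near hε.le h4
  refine ⟨b, mem_acl.1 (mem_acl_of_alg le_rfl (alg_root (fun i => ?_) (fun h => ?_) hb)), hbz⟩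
  · rw [coeff_map]
    exact mem_acl.2 (IsIntegral.isAlgebraic (adjoin_le_integralClosure ha.isIntegral
      (Polynomial.aeval_mem_adjoin_singleton _ a)))
  · simp [h] at h4

omit [IsAlgClosed Ω] in
theorem sub_const [Ctx k Ω] (A B : Ω) :
    {c : k | ‖A + algebraMap k Ω c * B‖ < ‖B‖}.Subsingleton := fun c hc d hd => by
  by_contra h
  have h1 := norm_sub_lt_of hc hd
  rw [add_sub_add_left_eq_sub, ← sub_mul, ← map_sub, norm_mul,
    Ctx.norm_alg _ (sub_ne_zero.2 h), one_mul] at h1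
  exact lt_irrefl _ h1

end Prj

open Prj in
/-- PRJ: a generic projection. -/
theorem prj [IsUltrametricDist Ω] [IsAlgClosed Ω] [Ctx k Ω] [Infinite k]
    {E : IntermediateField k Ω} {y z : Ω} (hy : Lim E y)
    (hz : IsSeparable ↥(E ⊔ adjoin k {y}) z) :
    ∃ c : k, y ∈ hens (E ⊔ adjoin k {z - algebraMap k Ω c * y}) := by
  classical
  obtain ⟨P, h0, h1⟩ := exists_poly hz
  have hd := (diff_ev P (y, z)).hasFDerivAt
  set L := fderiv Ω (fun x : Ω × Ω => ev P x.1 x.2) (y, z)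
  have hB : L (0, 1) = ev (derivative P) y z := by
    have h2 := hd.comp_hasDerivAt z ((hasDerivAt_const z y).prodMk (hasDerivAt_id z))
    have h3 := (P.map ((aeval y : E[X] →ₐ[E] Ω) : E[X] →+* Ω)).hasDerivAt z
    rw [derivative_map, ← ev_map] at h3
    simp only [← ev_map] at h3
    exact h2.unique h3
  have hL : ∀ c : Ω, L (1, c) = L (1, 0) + c * L (0, 1) := fun c => by
    rw [← smul_eq_mul, ← map_smul, ← map_add]
    simp
  have hB0 : 0 < ‖L (0, 1)‖ := by rw [hB]; exact norm_pos_iff.2 h1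
  obtain ⟨ε, hε, h2⟩ := Metric.eventually_nhds_iff.1 (hd.isLittleO.def (half_pos hB0))
  obtain ⟨a, ha, hay⟩ := hy ε hε
  obtain ⟨b, hb, hbz⟩ := lim_root hy h0 h1 ε hε
  obtain ⟨c, hc⟩ := ((sub_const (k := k) (L (1, 0)) (L (0, 1))).finite.union
    (((rootSet_finite (minpoly E a) Ω).prod (rootSet_finite (minpoly E b) Ω)).biUnion
      fun x _ => (sub_const (k := k) (b - x.2) (x.1 - a)).finite)).exists_notMem
  rw [Set.mem_union, not_or] at hc
  have hc1 : ‖L (0, 1)‖ ≤ ‖L (1, algebraMap k Ω c)‖ := by rw [hL]; exact not_lt.1 hc.1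
  refine ⟨c, ?_⟩
  set M := E ⊔ adjoin k {z - algebraMap k Ω c * y}
  have hE : E ≤ M := le_sup_left
  have hs : IsSeparable M y := by
    let g : M[X] := P.eval₂ (mapRingHom (inclusion hE : E →+* M))
      (C ⟨_, self_mem E _⟩ + C (algebraMap k M c) * X)
    have hg : ∀ u, aeval u g =
        ev P u (z - algebraMap k Ω c * y + algebraMap k Ω c * u) := fun u => by
      simp only [g, ev, eval₂_eq_sum, Polynomial.sum, map_sum, map_mul, map_pow, map_add, aeval_C,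
        aeval_X, RingHom.coe_coe, coe_mapRingHom]
      refine Finset.sum_congr rfl fun i _ => ?_
      rw [aeval_def, eval₂_map]
      rfl
    have h3 := (hasDerivAt_id y).prodMk (((hasDerivAt_id y).const_mul
      (algebraMap k Ω c)).const_add (z - algebraMap k Ω c * y))
    have h4 := hd.comp_hasDerivAt_of_eq y h3 (by simp)
    have h5 := g.hasDerivAt_aeval y
    simp only [hg] at h5
    refine Hr.sep_of_simple (P := g) (by rw [hg, sub_add_cancel, h0]) ?_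
    rw [h5.unique h4, mul_one]
    exact norm_pos_iff.1 (hB0.trans_le hc1)
  have hM := le_hens M
  refine mem_of_fix (isSeparable_of_le hM hs) fun τ => by_contra fun hne => ?_
  have hδ : 0 < ‖τ y - y‖ := norm_pos_iff.2 (sub_ne_zero.2 hne)
  let σ : Ω →ₐ[E] Ω := { (τ : Ω →+* Ω) with commutes' := fun x => Hr.hom_fix τ (hM (hE x.2)) }
  have hσ : ∀ x, σ x = τ x := fun _ => rfl
  have hcM : algebraMap k Ω c ∈ hens M := (hens M).algebraMap_mem c
  have h3 : τ z - z = algebraMap k Ω c * (τ y - y) := by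
    have := Hr.hom_fix τ (hM (self_mem E _))
    rw [map_sub, map_mul, Hr.hom_fix τ hcM] at this
    linear_combination this
  have hc2 : ‖algebraMap k Ω c‖ ≤ 1 := (intAlg k Ω).algebraMap_mem c
  have h4 : (τ y, τ z) - (y, z) = (τ y - y) • ((1, algebraMap k Ω c) : Ω × Ω) := by
    simp [h3, mul_comm]
  have h5 : ‖(τ y, τ z) - (y, z)‖ = ‖τ y - y‖ := by
    rw [h4, norm_smul, Prod.norm_def, norm_one, max_eq_left hc2, mul_one]
  have h6 : ε ≤ ‖τ y - y‖ := not_lt.1 fun h => by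
    have h7 := h2 (y := (τ y, τ z)) (by rwa [dist_eq_norm, h5])
    have h8 := ev_hom σ P y z
    rw [h0, map_zero, hσ, hσ] at h8
    simp only [← h8, h0, h5] at h7
    rw [h4, map_smul, sub_zero, zero_sub, norm_neg, norm_smul] at h7
    nlinarith
  have hy' : IsAlgebraic (hens M) y := (isSeparable_of_le hM hs).isIntegral.isAlgebraic
  have hz' : IsAlgebraic (hens M) z := by
    have := (alg_of_mem (hM (self_mem E _))).add ((alg_of_mem hcM).mul hy')
    rwa [sub_add_cancel] at this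
  have h7 : ∀ u v : Ω, IsAlgebraic (hens M) u → IsAlgebraic E v → ‖u - v‖ < ε →
      ‖τ v - v - (τ u - u)‖ < ‖τ y - y‖ := fun u v hu hv h => by
    rw [show τ v - v - (τ u - u) = u - v - τ (u - v) by rw [map_sub]; ring]
    exact (norm_sub_lt_of h (by
      rwa [isH_hens M τ _ (hu.sub (isAlgebraic_of_le (hE.trans hM) hv))])).trans_le h6
  have h8 : ∀ v : Ω, IsAlgebraic E v → τ v ∈ (minpoly E v).rootSet Ω := fun v hv =>
    (mem_rootSet_of_ne (minpoly.ne_zero hv.isIntegral)).2 (by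
      rw [← hσ, aeval_algHom_apply, minpoly.aeval, map_zero])
  have h9 := h7 y a hy' ha hay
  refine hc.2 (Set.mem_biUnion (x := (τ a, τ b)) ⟨h8 a ha, h8 b hb⟩ ?_)
  have h10 : ‖τ a - a‖ = ‖τ y - y‖ := norm_eq_of_norm_sub_lt (by rwa [norm_sub_rev])
  change ‖b - τ b + algebraMap k Ω c * (τ a - a)‖ < ‖τ a - a‖
  rw [h10, show b - τ b + algebraMap k Ω c * (τ a - a) = algebraMap k Ω c *
    (τ a - a - (τ y - y)) - (τ b - b - (τ z - z)) by rw [h3]; ring]
  refine norm_sub_lt_of ?_ (h7 z b hz' hb hbz)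
  rw [norm_mul]
  exact (mul_le_of_le_one_left (norm_nonneg _) hc2).trans_lt h9

end Pool.Agent.MP_19ffc6_ag.LU4

/-! PROJECT LU4, module DL: the inductive statement goes up along defectless extensions. -/

namespace Pool.Agent.MP_19ffc6_ag.LU4

open IntermediateField Pool.Agent.MP_19ffc6_ag.LU Pool.Agent.MP_19ffc6_ag.LU3 LatM Mv Hr

universe u

variable {k : Type*} {Ω : Type u} [Field k] [NontriviallyNormedField Ω] [Algebra k Ω]
  [IsUltrametricDist Ω] [Ctx k Ω] [IsAlgClosed Ω] [IsAlgClosed k]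

namespace Dl

/-- Integral elements on which `θ` is bounded by `m`. -/
def Bd {K : IntermediateField k Ω} {θ : Ω → Ω} (h : Th K θ) (hc : ∀ c, θ (algebraMap k Ω c) = 0)
    {m : ℝ} (hm : 0 ≤ m) : Subalgebra k Ω where
  carrier := {s | s ∈ K ∧ ‖s‖ ≤ 1 ∧ ‖θ s‖ ≤ m}
  mul_mem' := by
    rintro a b ⟨ha, ha1, ha2⟩ ⟨hb, hb1, hb2⟩
    exact ⟨mul_mem ha hb, by rw [norm_mul]; exact mul_le_one₀ ha1 (norm_nonneg _) hb1,
      (h.mul a ha b hb).trans (max_le ((mul_le_of_le_one_left (norm_nonneg _) ha1).trans hb2)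
        ((mul_le_of_le_one_left (norm_nonneg _) hb1).trans ha2))⟩
  add_mem' := by
    rintro a b ⟨ha, ha1, ha2⟩ ⟨hb, hb1, hb2⟩
    exact ⟨add_mem ha hb, norm_add_le_of ha1 hb1, by
      rw [h.add a ha b hb]; exact norm_add_le_of ha2 hb2⟩
  algebraMap_mem' c := ⟨K.algebraMap_mem c, (intAlg k Ω).algebraMap_mem c, by
    rw [hc, norm_zero]; exact hm⟩

variable {ι α : Type} [Fintype ι] [Fintype α] {ξ : ι → Ω} {I : Finset ι} {ρ : α → Ω}

omit [IsAlgClosed k] in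
theorem fixd (hξ : IsChart k ξ I) (hρ : ∀ l, ρ l ≠ 0) {U : Finset Ω}
    (hU : ∀ w ∈ U, w ∈ H k ξ ∧ ‖w‖ = 1)
    (hinc : ∀ e e' l l', ‖mon (fun i : I => ξ i) e * ρ l‖ = ‖mon (fun i : I => ξ i) e' * ρ l'‖ →
      l = l' ∧ e = e')
    (e1 : Ex (fun i : I => ξ i) ρ U 1) (e2 : ∀ i j, Ex (fun i : I => ξ i) ρ U (ρ i * ρ j))
    (e3 : ∀ i, Ex (fun i : I => ξ i) ρ U (ρ i)⁻¹) {m : I → I ⊕ α → ℤ}
    (hm : ∀ i, ∃ n a, ‖mon (Sum.elim (fun i : I => ξ i) ρ) a‖ = 1 ∧
      Sum.elim (fun i : I => ξ i) ρ i = mon (fun j => mon (Sum.elim (fun i : I => ξ i) ρ) (m j)) n *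
        mon (Sum.elim (fun i : I => ξ i) ρ) a) {M : IntermediateField k Ω}
    (h1 : ∀ j, mon (Sum.elim (fun i : I => ξ i) ρ) (m j) ∈ M) (h2 : ∀ i ∉ I, ξ i ∈ M) :
    ∀ a ∈ Set.range ξ ∪ Set.range ρ, a ∈ hens M := by
  classical
  choose! T hT hT' using fun w (hw : w ∈ U) => exists_finset (hU w hw).1
  set S := Set.range ξ ∪ Set.range ρ with hS
  set S' := (Set.range fun j => mon (Sum.elim (fun i : I => ξ i) ρ) (m j)) ∪ ξ '' (I : Set ι)ᶜ
  set K := adjoin k (S ∪ U.biUnion T) with hK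
  have hr : ∀ t ∈ U.biUnion T, HRoot (Algebra.adjoin k (Set.range ξ)) t := fun t ht => by
    obtain ⟨w, hw, h⟩ := Finset.mem_biUnion.1 ht
    exact hT w hw t h
  have hSK : S ⊆ K := fun a ha => subset_adjoin _ _ (Or.inl ha)
  have hTK : ∀ t ∈ U.biUnion T, t ∈ K := fun a ha => subset_adjoin _ _ (Or.inr ha)
  have hx : ∀ i, ξ i ∈ K := fun i => hSK (Or.inl ⟨i, rfl⟩)
  have hg : ∀ i, Sum.elim (fun i : I => ξ i) ρ i ∈ K := by
    rintro (i | l)
    exacts [hx i, hSK (Or.inr ⟨l, rfl⟩)]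
  have hS'K : S' ⊆ K := by
    rintro _ (⟨j, rfl⟩ | ⟨i, -, rfl⟩)
    exacts [mon_mem hg (fun i => inv_mem (hg i)) _, hx i]
  have hC : ∀ C : Subalgebra k Ω, (∀ i, ξ i ∈ C) → (∀ t ∈ U.biUnion T, t ∈ C) →
      (∀ b ∈ C, ‖b‖ = 1 → b⁻¹ ∈ C) → ∀ w ∈ U, w ∈ C := fun C c1 c2 c3 w hw =>
    loc_le (sup_le (Algebra.adjoin_le (Set.forall_mem_range.2 c1))
      (Algebra.adjoin_le fun t ht => c2 t (Finset.mem_biUnion.2 ⟨w, hw, ht⟩))) c3 (hT' w hw)
  have hUK := hC K.toSubalgebra hx hTK fun b hb _ => K.inv_mem hb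
  have main : ∀ θ, Th K θ → (∀ a ∈ S', θ a = 0) →
      (∀ μ : ℝ, 0 ≤ μ → (∀ i, ‖θ (ξ i)‖ ≤ μ) → ∀ w ∈ U, ‖θ w‖ ≤ μ) → ∀ a ∈ S, θ a = 0 := by
    intro θ h h0 hb
    have h3 := key h (fun i : I => ⟨hx i, hξ.ne i, hξ.small i⟩) (fun l => ⟨hg (.inr l), hρ l⟩)
      (fun w hw => ⟨hUK w hw, (hU w hw).2⟩) (fun μ hμ h4 => hb μ hμ fun i => by
        by_cases hi : i ∈ I
        · exact h4 ⟨i, hi⟩
        · rwa [h0 _ (Or.inr ⟨i, hi, rfl⟩), norm_zero]) hinc e1 e2 e3
      (fun j => ⟨hS'K (Or.inl ⟨j, rfl⟩), h0 _ (Or.inl ⟨j, rfl⟩)⟩) hm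
    rintro _ (⟨i, rfl⟩ | ⟨l, rfl⟩)
    · by_cases hi : i ∈ I
      · exact h3 (.inl ⟨i, hi⟩)
      · exact h0 _ (Or.inr ⟨i, hi, rfl⟩)
    · exact h3 (.inr l)
  have hsep : SepOver (adjoin k S') K := by
    refine sep_crit K (fg_adjoin_of_finite (((Set.finite_range ξ).union
      (Set.finite_range ρ)).union (Finset.finite_toSet _))) S S' hSK hS'K
      (fun a ha => (mem_hens_iff.1 ((adjoin_le_iff.2 ?_ : K ≤ hens (adjoin k S)) ha)).1)
      fun D hD h0 => main D (th_der hD) h0 fun μ hμ h3 w hw => ?_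
    · rintro a (ha | ha)
      · exact le_hens _ (subset_adjoin _ _ ha)
      · exact hens_le_hens ((adjoin.mono _ _ _ Set.subset_union_left).trans (le_hens _))
          (mem_hens hξ.small (mem_HH_of_hroot (hr a ha)))
    · have h4 : ∀ i, ξ i ∈ Desc.Bdd hD μ hμ := fun i => ⟨hx i, (hξ.small i).le, h3 i⟩
      refine (hC _ h4 (fun t ht => ?_) (fun b => Desc.Bdd_inv hD) w hw).2.2
      obtain ⟨P, -, p2, p3, p4⟩ := hr t ht
      exact Desc.Bdd_root hD P (fun i => Algebra.adjoin_le (Set.forall_mem_range.2 h4) (p2 i))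
        (hTK t ht) (norm_H (fun i => (hξ.small i).le) (mem_HH_of_hroot (hr t ht))) p3 p4
  have hle : adjoin k S' ≤ hens M := (adjoin_le_iff.2 (by
    rintro _ (⟨j, rfl⟩ | ⟨i, hi, rfl⟩)
    exacts [h1 j, h2 i hi])).trans (le_hens M)
  intro a ha
  refine mem_of_fix (isSeparable_of_le hle (hsep a (hSK ha))) fun τ => sub_eq_zero.1 ?_
  have hτ : ∀ b ∈ K, ‖(τ : Ω →+* Ω) b‖ = ‖b‖ := fun b hb =>
    isH_hens M τ b (isSeparable_of_le hle (hsep b hb)).isIntegral.isAlgebraic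
  refine main _ (th_iso _ hτ) (fun b hb => sub_eq_zero.2
    (hom_fix τ (hle (subset_adjoin _ _ hb)))) (fun μ hμ h3 w hw => ?_) a ha
  by_contra hlt
  have hlt := not_le.1 hlt
  obtain ⟨r, r0, r1, r2⟩ := exists_rho hξ.small
  obtain ⟨N, hN⟩ := exists_pow_lt_of_lt_one (hμ.trans_lt hlt) r1
  obtain ⟨f, hf⟩ := jet1 hξ.small N (hU w hw).1
  have h4 := (norm_le_pow r0 r1.le r2 hf).trans_lt hN
  have h5 : MvPolynomial.aeval ξ f ∈ Bd (th_iso _ hτ) (fun c => sub_eq_zero.2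
      (hom_fix τ ((hens M).algebraMap_mem c))) hμ := by
    refine Algebra.adjoin_le (Set.forall_mem_range.2 fun i => ?_) (aeval_mem_R ξ f)
    exact ⟨hx i, (hξ.small i).le, h3 i⟩
  have h6 := norm_add_lt_of (h5.2.2.trans_lt hlt)
    (norm_sub_lt_of ((hτ _ (sub_mem (hUK w hw) h5.1)).trans_lt h4) h4)
  rw [map_sub] at h6
  exact h6.ne (congrArg norm (by ring))

omit [IsAlgClosed k] in
theorem gd_hens (hξ : IsChart k ξ I) {b : Ω} (hb : Gd k ξ I b) {M : IntermediateField k Ω}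
    (h : ∀ i, ξ i ∈ hens M) : b ∈ hens M := by
  obtain ⟨a, w, hw, -, rfl⟩ := hb
  exact mul_mem (mon_mem (fun i : I => h i) (fun i => inv_mem (h i)) a)
    (hens_le_hens (adjoin_le_iff.2 (Set.forall_mem_range.2 h)) (mem_hens hξ.small hw))

/-- A chart of the henselization of a defectless extension. -/
theorem chart {A B : IntermediateField k Ω} (hA : A.FG) (hle : A ≤ B) (hq : QFull A)
    (htr : Algebra.trdeg k A < Cardinal.aleph0) (h1 : ∀ i, ρ i ∈ hens B ∧ ρ i ≠ 0)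
    (h2 : ∀ i j, ∀ b ∈ hens A, ‖ρ i‖ = ‖b‖ * ‖ρ j‖ → i = j)
    (h3 : ∀ a ∈ hens B, a ∈ Submodule.span (hens A) (Set.range ρ)) (hs : SG k A) :
    ∃ (ι : Type) (_ : Fintype ι) (ξ : ι → Ω) (I : Finset ι) (y : I → Ω),
      AlgebraicIndependent k ξ ∧ (∀ i, ξ i ∈ hens B) ∧ (∀ j, y j ∈ hens B ∧ y j ≠ 0) ∧
      LinearIndependent ℤ (fun j => nu (y j)) ∧
      (∀ a : Ω, a ≠ 0 → nu a ∈ Submodule.span ℚ (Set.range fun j => nu (y j))) ∧
      ∀ M : IntermediateField k Ω, (∀ j, y j ∈ M) → (∀ i ∉ I, ξ i ∈ M) →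
        (∀ i, ξ i ∈ hens M) ∧ B ≤ hens M := by
  classical
  obtain ⟨Z, hZ⟩ := hA
  obtain ⟨Q, hQ, hQ'⟩ := exists_finset_qv htr
  choose! c hc using fun w (hw : w ∈ hens B) =>
    (Submodule.mem_span_range_iff_exists_fun _).1 (h3 w hw)
  let T : Finset Ω := insert 1 ((Finset.univ.image fun x : α × α => ρ x.1 * ρ x.2) ∪
    Finset.univ.image fun i => (ρ i)⁻¹)
  let W := (Z ∪ Q ∪ (T ×ˢ Finset.univ).image fun x : Ω × α => (c x.1 x.2 : Ω)).erase 0
  obtain ⟨ι, _, ξ, I, g1, g2, g3, -⟩ := asc hs Z W hZ (by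
    intro w hw
    obtain ⟨h0, hw⟩ := Finset.mem_erase.1 hw
    refine ⟨?_, h0⟩
    rcases Finset.mem_union.1 hw with hw | hw
    · rcases Finset.mem_union.1 hw with hw | hw
      · exact le_hens _ (hZ ▸ subset_adjoin _ _ hw)
      · exact le_hens _ (hQ w hw).1
    · obtain ⟨x, -, rfl⟩ := Finset.mem_image.1 hw
      exact (c x.1 x.2).2)
  choose! e u hu hu1 hue using id g3
  have x0 : ∀ i : I, ξ i ≠ 0 := fun i => g1.ne i
  have hAB : hens A ≤ hens B := hens_le_hens (hle.trans (le_hens B))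
  have hxA : ∀ a, mon (fun i : I => ξ i) a ∈ hens A :=
    mon_mem (fun i : I => g2 i) fun i => inv_mem (g2 i)
  have hex : ∀ t ∈ T, t ∈ hens B → Ex (fun i : I => ξ i) ρ (W.image u : Finset Ω) t :=
    fun t ht hB => ⟨fun l => c t l, fun l => or_iff_not_imp_left.2 fun h0 => by
      have hw : (c t l : Ω) ∈ W := Finset.mem_erase.2 ⟨h0, Finset.mem_union_right _
        (Finset.mem_image_of_mem _ (a := (t, l)) (Finset.mem_product.2 ⟨ht, Finset.mem_univ _⟩))⟩
      exact ⟨_, _, Finset.mem_image_of_mem u hw, hue _ hw⟩, (hc t hB).symm⟩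
  have hv : ∀ a : Ω, a ≠ 0 → nu a ∈ Submodule.span ℚ (Set.range fun i : I => nu (ξ i)) := by
    intro a ha
    obtain ⟨d, hd, h⟩ := hQ' _ (hq a ha)
    refine mem_of_mul_mem (d := d) (by omega) ((AddSubgroup.closure_le
      (Submodule.span ℚ (Set.range fun i : I => nu (ξ i))).toAddSubgroup).2 ?_ h)
    rintro _ ⟨b, hb, rfl⟩
    have hw : b ∈ W := Finset.mem_erase.2
      ⟨(hQ b hb).2, Finset.mem_union_left _ (Finset.mem_union_right _ hb)⟩
    have h0 := ne_zero_of_norm_eq_one (hu1 b hw)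
    rw [hue b hw, nu_mul (mon_ne x0 _) h0, (nu_eq_zero_iff h0).2 (hu1 b hw), add_zero, nu_mon x0]
    exact sum_mem fun i _ => int_mul_mem _ (Submodule.subset_span ⟨i, rfl⟩)
  have g0 : ∀ i, Sum.elim (fun i : I => ξ i) ρ i ≠ 0 := by
    rintro (i | l)
    exacts [x0 i, (h1 l).2]
  have gB : ∀ i, Sum.elim (fun i : I => ξ i) ρ i ∈ hens B := by
    rintro (i | l)
    exacts [hAB (g2 i), (h1 l).1]
  obtain ⟨m, -, m2, m3, -⟩ := lat g0 (fun i : I => nu (ξ i)) g1.li (le_antisymm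
    (Submodule.span_mono (by rintro _ ⟨i, rfl⟩; exact ⟨.inl i, rfl⟩))
    (Submodule.span_le.2 (Set.forall_mem_range.2 fun i => hv _ (g0 i)))) ∅ (by simp)
  have hm := fun i => mon_single (g := Sum.elim (fun i : I => ξ i) ρ) i ▸ m3 (Pi.single i 1)
  refine ⟨ι, inferInstance, ξ, I, fun j => mon _ (m j), g1.ind, fun i => hAB (g2 i),
    fun j => ⟨mon_mem gB (fun i => inv_mem (gB i)) _, mon_ne g0 _⟩, m2, fun a ha => ?_,
    fun M M1 M2 => ?_⟩
  · refine Submodule.span_le.2 (Set.forall_mem_range.2 fun i => ?_) (hv a ha)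
    obtain ⟨n, a', h4, h5⟩ := hm (.inl i)
    have h0 := ne_zero_of_norm_eq_one h4
    have h6 := fun j => mon_ne g0 (m j)
    rw [Sum.elim_inl] at h5
    rw [h5, nu_mul (mon_ne h6 _) h0, (nu_eq_zero_iff h0).2 h4, add_zero, nu_mon h6]
    exact sum_mem fun i _ => int_mul_mem _ (Submodule.subset_span ⟨i, rfl⟩)
  have h4 := fixd g1 (fun l => (h1 l).2) (U := W.image u) (fun w hw => by
      obtain ⟨b, hb, rfl⟩ := Finset.mem_image.1 hw
      exact ⟨hu b hb, hu1 b hb⟩) (fun a a' l l' h => by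
      have h5 := norm_ne_zero_iff.2 (mon_ne x0 a)
      rw [norm_mul, norm_mul] at h
      obtain rfl := h2 l l' _ (div_mem (hxA a') (hxA a)) (by
        rw [norm_div, div_mul_eq_mul_div, ← h, mul_div_cancel_left₀ _ h5])
      refine ⟨rfl, (add_neg_eq_zero.1 (eq_zero_of_norm_mon x0 g1.li ?_)).symm⟩
      rw [mon_add x0, mon_neg, norm_mul, norm_inv,
        ← mul_right_cancel₀ (norm_ne_zero_iff.2 (h1 l).2) h, mul_inv_cancel₀ h5])
    (hex _ (Finset.mem_insert_self _ _) (one_mem _))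
    (fun i j => hex _ (Finset.mem_insert_of_mem (Finset.mem_union_left _
      (Finset.mem_image_of_mem _ (Finset.mem_univ (i, j))))) (mul_mem (h1 i).1 (h1 j).1))
    (fun i => hex _ (Finset.mem_insert_of_mem (Finset.mem_union_right _
      (Finset.mem_image_of_mem _ (Finset.mem_univ i)))) (inv_mem (h1 i).1)) hm M1 M2
  have h5 : ∀ i, ξ i ∈ hens M := fun i => h4 _ (Or.inl ⟨i, rfl⟩)
  have h6 : hens A ≤ hens M := hens_le_hens (hZ ▸ adjoin_le_iff.2 fun z hz => by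
    by_cases h0 : z = 0
    · exact h0 ▸ zero_mem _
    · exact gd_hens g1 (g3 z (Finset.mem_erase.2
        ⟨h0, Finset.mem_union_left _ (Finset.mem_union_left _ hz)⟩)) h5)
  refine ⟨h5, fun a ha => ?_⟩
  rw [← hc a (le_hens B ha)]
  exact sum_mem fun l _ => mul_mem (h6 (c a l).2) (h4 _ (Or.inr ⟨l, rfl⟩))

end Dl

/-- DL: ascent along a defectless extension of a field that sees all values. -/
theorem dl (p : ℕ) [Fact p.Prime] (n : ℕ) (hP : PfStmt k Ω n) (hT : TameS k Ω p)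
    (H : IHF k Ω n) (A B : IntermediateField k Ω) (hA : A.FG) (hB : B.FG) (hle : A ≤ B)
    (hq : QFull A) (htr : Algebra.trdeg k B ≤ (n + 1 : ℕ)) (α : Type) [Fintype α] (ρ : α → Ω)
    (h1 : ∀ i, ρ i ∈ hens B ∧ ρ i ≠ 0)
    (h2 : ∀ i j, ∀ b ∈ hens A, ‖ρ i‖ = ‖b‖ * ‖ρ j‖ → i = j)
    (h3 : ∀ a ∈ hens B, a ∈ Submodule.span (hens A) (Set.range ρ)) (hs : SG k A) : SG k B := by
  classical
  have hp : (1 : Cardinal.{u}) < p := by exact_mod_cast (Fact.out : p.Prime).one_lt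
  have tm : ∀ K0 : IntermediateField k Ω, K0.FG → K0 ≤ hens B → B ≤ hens K0 →
      SG k K0 → SG k B := fun K0 a1 a3 a4 =>
    hT K0 B a1 hB a3 (by rwa [relrank_eq_one_iff.2 (hens_le_hens a4)])
  obtain ⟨ι, _, ξ, I, y, c1, c2, c3, c4, c5, c6⟩ := Dl.chart hA hle hq
    (((Pd.trdeg_le_of_alg (hle.trans (Pd.le_acl B))).trans htr).trans_lt
      Cardinal.natCast_lt_aleph0) h1 h2 h3 hs
  by_cases hI : ∀ i, i ∈ I
  · exact tm _ (fg_adjoin_of_finite (Set.finite_range y))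
      (adjoin_le_iff.2 (Set.forall_mem_range.2 fun j => (c3 j).1))
      (c6 _ (fun j => subset_adjoin k (Set.range y) ⟨j, rfl⟩) fun i hi => absurd (hI i) hi).2
      (Mv.mono (ind _ y (fun j => (c3 j).2) c4) c4)
  obtain ⟨j, hj⟩ := not_forall.1 hI
  obtain ⟨f, f1, f2⟩ : ∃ f : {i // i ≠ j} → Ω,
      (∀ i : {i // i ≠ j}, ∀ h : i.1 ∈ I, f i = y ⟨i.1, h⟩) ∧
      ∀ i : {i // i ≠ j}, i.1 ∉ I → f i = ξ i.1 :=
    ⟨fun i => if h : i.1 ∈ I then y ⟨i, h⟩ else ξ i, fun _ h => dif_pos h, fun _ h => dif_neg h⟩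
  have hf : ∀ i, f i ∈ adjoin k (Set.range f) := fun i => subset_adjoin k (Set.range f) ⟨i, rfl⟩
  have hy : ∀ i, y i ∈ adjoin k (Set.range f) := fun i => by
    have := hf ⟨i, fun h => hj (h ▸ i.2)⟩
    rwa [f1 _ i.2] at this
  obtain ⟨d1, d2⟩ := c6 (adjoin k (Set.range f) ⊔ adjoin k {ξ j})
    (fun i => (le_sup_left : adjoin k (Set.range f) ≤ _) (hy i)) fun i hi => by
      by_cases h : i = j
      · rw [h]
        exact Pd.self_mem _ _
      · have := hf ⟨i, h⟩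
        rw [f2 _ hi] at this
        exact (le_sup_left : adjoin k (Set.range f) ≤ _) this
  have hfB : adjoin k (Set.range f) ≤ hens B :=
    adjoin_le_iff.2 (Set.forall_mem_range.2 fun i => by
      by_cases h : i.1 ∈ I
      · rw [f1 i h]
        exact (c3 _).1
      · rw [f2 i h]
        exact c2 _)
  have ht : Transcendental (adjoin k (Set.range f)) (ξ j) := fun h => by
    have h4 := (Pd.card_le c1 fun i => Pd.mem_acl_of_alg (sup_le (Pd.le_acl _)
      (Pd.simple_le (Pd.mem_acl.2 h))) (alg_of_mem_hens (d1 i))).trans (Pd.trdeg_adjoin_le f)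
    have h5 : Fintype.card {i // i ≠ j} < Fintype.card ι :=
      Fintype.card_subtype_lt (x := j) (by simp)
    exact absurd (by exact_mod_cast h4) h5.not_ge
  have h4 := (Ind.drop (hfB.trans (Pd.hens_le_acl B)) (Pd.hens_le_acl B (c2 j)) ht).trans htr
  obtain ⟨e, he⟩ := Cardinal.lt_aleph0.1
    ((le_self_add.trans h4).trans_lt Cardinal.natCast_lt_aleph0)
  rw [he] at h4
  have h5 : e + 1 ≤ n + 1 := by exact_mod_cast h4
  have hg := fg_adjoin_of_finite (F := k) (Set.finite_range f)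
  exact tm _ (fg_sup hg (fg_adjoin_of_finite (Set.finite_singleton _)))
    (sup_le hfB (Pd.simple_le (c2 j))) d2
    (hP H _ _ hg (he.le.trans (by exact_mod_cast Nat.le_of_succ_le_succ h5)) ht fun a ha =>
      Submodule.span_le.2 (Set.forall_mem_range.2 fun i => nu_mem_qv (hy i)) (c5 a ha))

end Pool.Agent.MP_19ffc6_ag.LU4

/-! PROJECT LU4, module ALL: the modules put together. -/

namespace Pool.Agent.MP_19ffc6_ag.LU4

open Pool.Agent.MP_19ffc6_ag.LU Pool.Agent.MP_19ffc6_ag.LU3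

universe u

variable {k : Type*} {Ω : Type u} [Field k] [NontriviallyNormedField Ω] [Algebra k Ω]
  [IsUltrametricDist Ω] [IsAlgClosed k] [IsAlgClosed Ω] [Ctx k Ω] (p : ℕ) [Fact p.Prime]
  [CharP k p]

theorem ascS : AscStmt k Ω := fun _ h => asc h

theorem descS : LU3.DescStmt k Ω := fun _ _ => descT

theorem tameS : TameS k Ω p := tame_of ascS descS

theorem monoS : MonoS k Ω := fun _ _ => Mv.mono

include p in
theorem indS : IndS k Ω := ind4 p (pf p) (rulT fun _ _ _ _ _ _ => rulW p) (tameS p) monoS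

end Pool.Agent.MP_19ffc6_ag.LU4

/-! PROJECT LU4, module SG: the inductive statement for all fields covered by the project. -/

namespace Pool.Agent.MP_19ffc6_ag.LU4

open Polynomial IntermediateField NNReal Pool.Agent.MP_19ffc6_ag.LU Pool.Agent.MP_19ffc6_ag.LU3
open Pool.Agent.MP_19ffc6_ag.LU3.Mv Pool.Agent.MP_19ffc6_ag.LU3.Pd

universe u

section omega

variable {k : Type*} {Ω : Type u} [Field k] [NontriviallyNormedField Ω] [Algebra k Ω]
  [IsUltrametricDist Ω] [IsAlgClosed k] [IsAlgClosed Ω] [Ctx k Ω] (p : ℕ) [Fact p.Prime]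
  [CharP k p]

theorem ihF {n : ℕ} (h : n.factorial < p) : IH k Ω n := by
  classical
  exact sg_all ascS descS (fun _ => pstmt p fun ih adj _ pq => swap p (kn p) ih adj pq) h

open CoreL in
theorem sgO (E K : IntermediateField k Ω) (y z : Ω) (hE : E.FG)
    (hb : z = 0 ∨ IsSeparable ↥(E ⊔ adjoin k {y}) z ∧ Lim E y)
    (hK : Relation.ReflTransGen (Stp2 p) (E ⊔ adjoin k {y, z}) K) (halg : Algebra.IsAlgebraic K Ω)
    (hd : (∃ (r : ℕ) (x : Fin r → Ω), (∀ i, x i ∈ E ∧ x i ≠ 0) ∧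
        LinearIndependent ℤ (fun i => nu (x i)) ∧ 2 ≤ r ∧ Algebra.trdeg k E ≤ r + 2) ∨
      ∃ n : ℕ, Algebra.trdeg k E ≤ n ∧ n.factorial < p ∧ (n ≤ 3 ∨ QFull E)) :
    K.FG ∧ SG k K := by
  have hp := (Fact.out : p.Prime).one_lt
  have hy : y ∈ E ⊔ adjoin k {y, z} :=
    (le_sup_right : _ ≤ E ⊔ adjoin k {y, z}) (subset_adjoin _ _ (by simp))
  have hz : z ∈ E ⊔ adjoin k {y, z} :=
    (le_sup_right : _ ≤ E ⊔ adjoin k {y, z}) (subset_adjoin _ _ (by simp))
  obtain ⟨b, hb1, hb2⟩ : ∃ b ∈ E ⊔ adjoin k {y, z},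
      E ⊔ adjoin k {y, z} ≤ hens (E ⊔ adjoin k {b}) := by
    have h1 : ∀ b, y ∈ hens (E ⊔ adjoin k {b}) → z ∈ hens (E ⊔ adjoin k {b}) →
        E ⊔ adjoin k {y, z} ≤ hens (E ⊔ adjoin k {b}) := fun b h1 h2 =>
      sup_le (le_sup_left.trans (le_hens _)) (adjoin_le_iff.2 (by
        rintro _ (rfl | rfl)
        exacts [h1, h2]))
    rcases hb with rfl | ⟨h2, h3⟩
    · exact ⟨y, hy, h1 y (le_hens _ (self_mem E y)) (zero_mem _)⟩
    · obtain ⟨c, hc⟩ := prj h3 h2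
      refine ⟨_, sub_mem hz (mul_mem (IntermediateField.algebraMap_mem _ c) hy), h1 _ hc ?_⟩
      have := add_mem (le_hens _ (self_mem E (z - algebraMap k Ω c * y)))
        (mul_mem (IntermediateField.algebraMap_mem _ c) hc)
      rwa [sub_add_cancel] at this
  have hA : (E ⊔ adjoin k {y, z}).FG := fg_sup hE (fg_adjoin_of_finite (Set.toFinite _))
  generalize hA0 : E ⊔ adjoin k {y, z} = A at *
  have hEA : E ≤ A := hA0 ▸ le_sup_left
  obtain ⟨a1, a2, a3, a4⟩ := Tow.tower2 ascS descS deg hK hA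
  refine ⟨a1, ?_⟩
  have hq : QFull K := fun a _ => vfull_self K a (halg.1 a)
  have t0 := trdeg_le_of_alg (hb2.trans (hens_le_acl _))
  have t1 := (trdeg_le_of_alg a3).trans t0
  have t2 : ∀ n : ℕ, Algebra.trdeg k E ≤ n →
      Algebra.trdeg k ↥(E ⊔ adjoin k {b}) ≤ (n + 1 : ℕ) := fun n h =>
    (trdeg_sup_le E b).trans ((add_le_add h le_rfl).trans (le_of_eq (by push_cast; rfl)))
  have full : ∀ n : ℕ, IHF k Ω n → Algebra.trdeg k E ≤ n → QFull E → SG k K := fun n H h hE' => by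
    by_cases h1 : IsAlgebraic E b
    · exact H K a1 (t1.trans ((trdeg_sup_alg h1).trans h)) hq
    · refine a4 n (dl p n (pf p n) (tameS p) H) (Pf.qfull_mono hE' hEA) (t0.trans (t2 n h))
        (tameS p _ A (fg_adj hE b) hA ((sup_le hEA (simple_le hb1)).trans (le_hens A)) ?_
          (pf p n H E b hE h h1 hE'))
      rw [relrank_eq_one_iff.2 (hens_le_hens hb2)]
      exact_mod_cast hp
  have half : ∀ (r : ℕ) (x : Fin r → Ω), (∀ i, x i ∈ E ∧ x i ≠ 0) →
      LinearIndependent ℤ (fun i => nu (x i)) → 1 ≤ r → Algebra.trdeg k E ≤ (r + 2 : ℕ) →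
      ¬ QFull E → SG k K := fun r x hx hli hr h hE' => by
    simp only [QFull, not_forall] at hE'
    obtain ⟨a, ha, hna⟩ := hE'
    exact indS p (r + 1) (Fin.cons a x) (fun i => Fin.cases ha (fun j => (hx j).2) i)
      (indep_cons (fun i => (hx i).1) hli hna) (by omega) K a1 (t1.trans (t2 _ h)) hq
  by_cases hE' : QFull E
  · rcases hd with ⟨r, x, hx, hli, hr, h⟩ | ⟨n, h, hn, -⟩
    · exact full _ (indS p r x (fun i => (hx i).2) hli hr) (by exact_mod_cast h) hE'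
    · exact full n (fun F h1 h2 _ => ihF p hn F h1 h2) h hE'
  rcases hd with ⟨r, x, hx, hli, hr, h⟩ | ⟨n, h, -, hn⟩
  · exact half r x hx hli (by omega) (by exact_mod_cast h) hE'
  by_cases hm : ∃ m ∈ E, 1 < ‖m‖
  · obtain ⟨m, hm, hm1⟩ := hm
    have h0 : m ≠ 0 := norm_pos_iff.1 (one_pos.trans hm1)
    exact half 1 (fun _ => m) (fun _ => ⟨hm, h0⟩) (linearIndependent_unique_iff.2 fun h1 =>
      hm1.ne' ((nu_eq_zero_iff h0).1 h1)) le_rfl
      (h.trans (by exact_mod_cast hn.resolve_right hE')) hE'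
  · obtain rfl := eq_bot_of_trivial hm
    exact ihF p (n := 1) hp K a1 (t1.trans (t2 0 (by rw [trdeg_eq_zero]; simp)))

end omega

/-- One step inside a valued field. -/
def StepW {k K : Type*} [Field k] [Field K] [Algebra k K] (p : ℕ) (v : Valuation K ℝ≥0)
    (A B : IntermediateField k K) : Prop :=
  ∃ z : K, B = A ⊔ IntermediateField.adjoin k {z} ∧ ((∃ a : ℕ, ¬ p ∣ a ∧ z ^ a ∈ A) ∨
    (v z < 1 ∧ ∃ (P : Polynomial K) (d : ℕ), (∀ i, P.coeff i ∈ A ∧ v (P.coeff i) ≤ 1) ∧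
      v (P.coeff d) = 1 ∧ P.eval z = 0 ∧ (d < p ∨ ∃ ρ : Fin d → K, (∀ i, ρ i ∈ B ∧ ρ i ≠ 0) ∧
        ∀ i j, ∀ b ∈ A, v (ρ i) = v b * v (ρ j) → i = j)))

variable {k : Type*} {K Ω : Type u} [Field k] [Field K] [Algebra k K]
  [NontriviallyNormedField Ω] [Algebra k Ω]

theorem StepW.map (φ : K →ₐ[k] Ω) {p : ℕ} {v : Valuation K ℝ≥0}
    (hv : ∀ a, ‖φ a‖ = v a) {A B : IntermediateField k K} (h : StepW p v A B) :
    Stp2 p (A.map φ) (B.map φ) := by
  obtain ⟨z, hB, h⟩ := h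
  refine ⟨φ z, by rw [hB, IntermediateField.map_sup, adjoin_map, Set.image_singleton], ?_⟩
  rcases h with ⟨a, ha, h⟩ | ⟨hz, P, d, h1, h2, h3, hd⟩
  · exact Or.inl ⟨a, ha, z ^ a, h, map_pow φ z a⟩
  · refine Or.inr ⟨by rw [hv]; exact_mod_cast hz, P.map (φ : K →+* Ω), d, fun i => ?_, ?_, ?_,
      hd.imp id fun ⟨ρ, g1, g2⟩ => ⟨fun i => φ (ρ i),
        fun i => ⟨⟨_, (g1 i).1, rfl⟩, by simpa using (g1 i).2⟩, ?_⟩⟩
    · rw [coeff_map]
      refine ⟨⟨_, (h1 i).1, rfl⟩, ?_⟩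
      change ‖φ _‖ ≤ 1
      rw [hv]
      exact_mod_cast (h1 i).2
    · rw [coeff_map]
      change ‖φ _‖ = 1
      rw [hv, h2]
      rfl
    · change (P.map (φ : K →+* Ω)).eval ((φ : K →+* Ω) z) = 0
      rw [eval_map, eval₂_hom, h3, map_zero]
    · rintro i j _ ⟨b, hb, rfl⟩ h
      refine g2 i j b hb ?_
      change ‖φ (ρ i)‖ = ‖φ b‖ * ‖φ (ρ j)‖ at h
      rw [hv, hv, hv] at h
      exact_mod_cast h

theorem sep_map (φ : K →ₐ[k] Ω) {M : IntermediateField k K} {a : K} (h : IsSeparable M a) :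
    IsSeparable (M.map φ) (φ a) := by
  refine (Separable.map h (f := (equivMap M φ : M →+* M.map φ))).of_dvd (minpoly.dvd _ _ ?_)
  refine (map_aeval_eq_aeval_map (φ := (equivMap M φ : M →+* M.map φ)) (ψ := (φ : K →+* Ω)) rfl
    _ a).symm.trans ?_
  rw [minpoly.aeval, map_zero]

/-- The inductive statement for the image of a valued field. -/
theorem sgV [IsUltrametricDist Ω] [IsAlgClosed k] [IsAlgClosed Ω] [Ctx k Ω] (p : ℕ) [Fact p.Prime]
    [CharP k p] (φ : K →ₐ[k] Ω) (halg : Algebra.IsAlgebraic φ.fieldRange Ω)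
    (v : Valuation K ℝ≥0) (hv : ∀ a, ‖φ a‖ = v a) (E : IntermediateField k K) (hE : E.FG)
    (y z : K) (hb : z = 0 ∨ IsSeparable ↥(E ⊔ adjoin k {y}) z ∧ ∀ ε : ℝ≥0, 0 < ε →
      ∃ (g : Polynomial K) (j : ℕ), (∀ i, g.coeff i ∈ E) ∧
        v (g.eval y) < ε ^ j * v ((taylor y g).coeff j))
    (hK : Relation.ReflTransGen (StepW p v) (E ⊔ adjoin k {y, z}) ⊤)
    (hd : (∃ (r : ℕ) (x : Fin r → K), (∀ i, x i ∈ E ∧ x i ≠ 0) ∧
        (∀ m : Fin r → ℤ, ∏ i, v (x i) ^ m i = 1 → m = 0) ∧ 2 ≤ r ∧ Algebra.trdeg k E ≤ r + 2) ∨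
      ∃ n : ℕ, Algebra.trdeg k E ≤ n ∧ n.factorial < p ∧
        (n ≤ 3 ∨ ∀ a : K, ∃ m : ℕ, 0 < m ∧ ∃ b ∈ E, v a ^ m = v b)) :
    φ.fieldRange.FG ∧ SG k φ.fieldRange := by
  classical
  have htr := (E.equivMap φ).trdeg_eq (R := k)
  refine sgO p (E.map φ) _ (φ y) (φ z) ?_ (hb.imp (fun h => by rw [h, map_zero])
    fun h => ⟨?_, fun ε hε => ?_⟩) ?_ halg (hd.imp ?_ ?_)
  · obtain ⟨t, ht⟩ := hE
    exact ⟨t.image φ, by rw [Finset.coe_image, ← IntermediateField.adjoin_map, ht]⟩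
  · have := sep_map φ h.1
    rwa [IntermediateField.map_sup, adjoin_map, Set.image_singleton] at this
  · obtain ⟨g, j, g1, g2⟩ := h.2 ⟨ε, hε.le⟩ hε
    have g3 : ‖(g.map (φ : K →+* Ω)).eval ((φ : K →+* Ω) y)‖ <
        ε ^ j * ‖(taylor ((φ : K →+* Ω) y) (g.map (φ : K →+* Ω))).coeff j‖ := by
      rw [← map_taylor, coeff_map, eval_map, eval₂_hom, RingHom.coe_coe, hv, hv]
      exact_mod_cast g2
    obtain ⟨a, ha, h⟩ := Prj.root_near hε.le g3
    exact ⟨a, Prj.alg_root (fun i => by rw [coeff_map]; exact ⟨_, g1 i, rfl⟩)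
      (fun h0 => by simp [h0] at g3) ha, h⟩
  · have h0 : ∀ A B : IntermediateField k K, Relation.ReflTransGen (StepW p v) A B →
        Relation.ReflTransGen (Stp2 p) (A.map φ) (B.map φ) := fun A B h => by
      induction h with
      | refl => exact .refl
      | tail _ h ih => exact ih.tail (StepW.map φ hv h)
    have h1 := h0 _ _ hK
    rwa [IntermediateField.map_sup, adjoin_map, Set.image_pair, ← AlgHom.fieldRange_eq_map] at h1
  · rintro ⟨r, x, hx, hind, hr, h⟩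
    refine ⟨r, fun i => φ (x i), fun i => ⟨⟨_, (hx i).1, rfl⟩, by simpa using (hx i).2⟩, ?_, hr,
      htr ▸ h⟩
    have hpos : ∀ i, (0 : ℝ) < v (x i) := fun i => by
      rw [← hv]; exact norm_pos_iff.2 (by simpa using (hx i).2)
    rw [Fintype.linearIndependent_iff]
    intro m hm i
    have h1 : Real.log (∏ i, (v (x i) : ℝ) ^ m i) = 0 := by
      rw [Real.log_prod (fun i _ => (zpow_pos (hpos i) _).ne')]
      simp only [nu, hv, zsmul_eq_mul, mul_neg, Finset.sum_neg_distrib, neg_eq_zero] at hm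
      simpa only [Real.log_zpow] using hm
    have h2 : ∏ i, (v (x i) : ℝ) ^ m i = 1 :=
      Real.eq_one_of_pos_of_log_eq_zero (Finset.prod_pos fun i _ => zpow_pos (hpos i) _) h1
    exact congrFun (hind m (NNReal.coe_injective (by simpa using h2))) i
  · rintro ⟨n, h, hn, h1⟩
    refine ⟨n, htr ▸ h, hn, h1.imp id fun h2 a _ => vfull_iff.2 ?_ a (halg.1 a)⟩
    rintro _ ⟨a, rfl⟩
    obtain ⟨m, hm, b, hb, h3⟩ := h2 a
    refine mem_of_mul_mem (d := m) (by omega) ?_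
    have h4 : ((m : ℤ) : ℝ) * nu (φ a) = nu (φ b) := by
      simp only [nu, hv, ← h3, NNReal.coe_pow, Real.log_pow]
      push_cast
      ring
    exact h4 ▸ nu_mem_qv ⟨b, hb, rfl⟩

end Pool.Agent.MP_19ffc6_ag.LU4

/-! PROJECT LU4, module MAIN: embedded local uniformization. -/

namespace Pool.Agent.MP_19ffc6_ag.LU4

open Polynomial IntermediateField NNReal

theorem mainF (p : ℕ) [Fact p.Prime] (k : Type*) [Field k] [IsAlgClosed k] [CharP k p]
    (K : Type*) [Field K] [Algebra k K]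
    (v : Valuation K ℝ≥0) (hk : ∀ c : k, c ≠ 0 → v (algebraMap k K c) = 1)
    (hres : ∀ a : K, v a ≤ 1 → ∃ c : k, v (a - algebraMap k K c) < 1)
    (E : IntermediateField k K) (hE : E.FG) (n : ℕ) (htr : Algebra.trdeg k E ≤ n)
    (hfull : ∀ a : K, ∃ m : ℕ, 0 < m ∧ ∃ b ∈ E, v a ^ m = v b)
    (r : ℕ) (x : Fin r → K) (hx : ∀ i, x i ≠ 0)
    (hind : ∀ m : Fin r → ℤ, ∏ i, v (x i) ^ m i = 1 → m = 0)
    (hn : n.factorial < p ∨ 2 ≤ r ∧ n ≤ r + 2) (y z : K)
    (hz : z = 0 ∨ IsSeparable ↥(E ⊔ adjoin k {y}) z ∧ ∀ ε : ℝ≥0, 0 < ε →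
      ∃ (g : Polynomial K) (j : ℕ), (∀ i, g.coeff i ∈ E) ∧
        v (g.eval y) < ε ^ j * v ((taylor y g).coeff j))
    (hK : Relation.ReflTransGen (StepW p v) (E ⊔ adjoin k {y, z}) ⊤)
    (Z : Finset K) (hZ : ∀ a ∈ Z, v a ≤ 1) : ELU k v Z := by
  refine glueE k K v hk hres
    (fun _ _ _ _ _ _ φ hv halg => sgV p φ halg v hv E hE y z hz hK ?_) Z hZ
  refine hn.symm.imp (fun h => ?_) fun h => ⟨n, htr, h, Or.inr hfull⟩
  choose m hm b hb e using fun i => hfull (x i)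
  refine ⟨r, b, fun i => ⟨hb i, fun h0 => ?_⟩, fun g hg => funext fun i => ?_, h.1,
    htr.trans (by exact_mod_cast h.2)⟩
  · have := e i
    rw [h0, map_zero] at this
    exact pow_ne_zero _ ((Valuation.ne_zero_iff v).2 (hx i)) this
  · have h1 := congrFun (hind (fun i => m i * g i) (by
      simpa only [← e, zpow_mul, zpow_natCast] using hg)) i
    exact (mul_eq_zero.1 h1).resolve_left (by exact_mod_cast (hm i).ne')

end Pool.Agent.MP_19ffc6_ag.LU4
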