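import Pool.Agent.MP_19ffc6_ag.LU3.Term
import Pool.Agent.MP_19ffc6_ag.LU4.Spec

/-! PROJECT LU4, module PRJ: a separable function field in one variable inside the closure of the
algebraic closure of the base has a rational henselization. -/

namespace Pool.Agent.MP_19ffc6_ag.LU4

open Polynomial IntermediateField Pool.Agent.MP_19ffc6_ag.LU Pool.Agent.MP_19ffc6_ag.LU3 Pd Filter
  Topology

universe u

variable {k : Type*} {Ω : Type u} [Field k] [NontriviallyNormedField Ω] [Algebra k Ω]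

/-- A limit of algebraic elements. -/
def Lim (E : IntermediateField k Ω) (y : Ω) : Prop :=
  ∀ ε : ℝ, 0 < ε → ∃ a, IsAlgebraic E a ∧ ‖y - a‖ < ε

namespace Prj

variable {E : IntermediateField k Ω} {y z : Ω}

/-- The value of a polynomial in two variables. -/
noncomputable def ev (P : E[X][X]) (u w : Ω) : Ω := P.eval₂ (aeval u : E[X] →ₐ[E] Ω) w

theorem ev_map (P : E[X][X]) (u w : Ω) :
    ev P u w = (P.map ((aeval u : E[X] →ₐ[E] Ω) : E[X] →+* Ω)).eval w := (eval_map _ _).symm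

theorem exists_poly (hz : IsSeparable ↥(E ⊔ adjoin k {y}) z) :
    ∃ P : E[X][X], ev P y z = 0 ∧ ev (derivative P) y z ≠ 0 := by
  classical
  set m := minpoly ↥(E ⊔ adjoin k {y}) z
  have h1 : ∀ i, ∃ r s : E[X], aeval y s ≠ 0 ∧ aeval y s * (m.coeff i : Ω) = aeval y r := fun i => by
    obtain ⟨r, s, h⟩ := (mem_adjoin_simple_iff _ _).1 (mem_sup_iff_mem_adjoin.1 (m.coeff i).2)
    by_cases h0 : aeval y s = 0
    · exact ⟨0, 1, by simp, by simp [h, h0]⟩
    · exact ⟨r, s, h0, by rw [h, mul_div_cancel₀ _ h0]⟩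
  choose r s hs hr using h1
  obtain ⟨P, hP⟩ : ∃ P : E[X][X], P.map ((aeval y : E[X] →ₐ[E] Ω) : E[X] →+* Ω) =
      C (∏ i ∈ m.support, aeval y (s i)) * m.map (algebraMap _ Ω) := by
    refine (lifts_iff_coeff_lifts _).2 fun i => ?_
    rw [coeff_C_mul, coeff_map]
    by_cases hi : i ∈ m.support
    · refine ⟨(∏ j ∈ m.support.erase i, s j) * r i, ?_⟩
      rw [← Finset.prod_erase_mul _ _ hi, mul_assoc]
      simp only [RingHom.coe_coe, map_mul, map_prod, ← hr]
      rfl
    · exact ⟨0, by simp [notMem_support_iff.1 hi]⟩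
  refine ⟨P, ?_, ?_⟩
  · rw [ev_map, hP, eval_mul, eval_map_algebraMap, minpoly.aeval, mul_zero]
  · rw [ev_map, ← derivative_map, hP, derivative_C_mul, derivative_map, eval_mul, eval_C,
      eval_map_algebraMap]
    exact mul_ne_zero (Finset.prod_ne_zero_iff.2 fun i _ => hs i)
      (Separable.aeval_derivative_ne_zero hz (minpoly.aeval _ _))

theorem ev_hom (τ : Ω →ₐ[E] Ω) (P : E[X][X]) (u w : Ω) : τ (ev P u w) = ev P (τ u) (τ w) := by
  simp only [ev, eval₂_eq_sum, Polynomial.sum, map_sum, map_mul, map_pow, RingHom.coe_coe,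
    aeval_algHom_apply]

theorem diff_ev (P : E[X][X]) : Differentiable Ω fun x : Ω × Ω => ev P x.1 x.2 := by
  simp only [ev, eval₂_eq_sum, Polynomial.sum, RingHom.coe_coe]
  refine Differentiable.fun_sum fun i _ => Differentiable.mul ?_ (differentiable_snd.pow i)
  exact Differentiable.comp (g := fun u : Ω => aeval u (P.coeff i))
    (P.coeff i).differentiable_aeval differentiable_fst

variable [IsUltrametricDist Ω] [IsAlgClosed Ω]

theorem root_near {g : Polynomial Ω} {w : Ω} {ε : ℝ} (hε : 0 ≤ ε) {j : ℕ}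
    (h : ‖g.eval w‖ < ε ^ j * ‖(taylor w g).coeff j‖) : ∃ a, g.eval a = 0 ∧ ‖w - a‖ < ε := by
  by_contra hc
  push Not at hc
  have h1 := Phi.coeff_le_coeff_zero (P := taylor w g) hε (fun x hx => by
    have h2 := isRoot_of_mem_roots hx
    rw [IsRoot.def, taylor_eval] at h2
    simpa using hc _ h2) j
  rw [taylor_coeff_zero, mul_comm] at h1
  exact h.not_ge h1

omit [IsUltrametricDist Ω] [IsAlgClosed Ω] in
theorem alg_root {M : IntermediateField k Ω} {g : Polynomial Ω} (hg : ∀ i, g.coeff i ∈ M) (h0 : g ≠ 0)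
    {a : Ω} (ha : g.eval a = 0) : IsAlgebraic M a := by
  obtain ⟨Q, rfl⟩ : ∃ Q : M[X], Q.map (algebraMap M Ω) = g :=
    (lifts_iff_coeff_lifts g).2 fun i => ⟨⟨_, hg i⟩, rfl⟩
  rw [eval_map_algebraMap] at ha
  exact ⟨Q, by rintro rfl; simp at h0, ha⟩

theorem lim_root (hy : Lim E y) {P : E[X][X]} (h0 : ev P y z = 0)
    (h1 : ev (derivative P) y z ≠ 0) : Lim E z := by
  intro ε hε
  have hc : ∀ Q : E[X][X], Continuous fun u => ‖ev Q u z‖ := fun Q =>
    ((diff_ev Q).continuous.comp (Continuous.prodMk_left z)).norm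
  have h2 := (isOpen_lt (hc P) (continuous_const.mul (hc (derivative P)))).mem_nhds (x := y)
    (show ‖ev P y z‖ < ε * ‖ev (derivative P) y z‖ by rw [h0, norm_zero]; positivity)
  obtain ⟨δ, hδ, h3⟩ := Metric.mem_nhds_iff.1 h2
  obtain ⟨a, ha, hay⟩ := hy δ hδ
  have h4 : ‖ev P a z‖ < ε * ‖ev (derivative P) a z‖ :=
    h3 (by rwa [Metric.mem_ball, dist_eq_norm, norm_sub_rev])
  rw [ev_map, ev_map, ← derivative_map, ← taylor_coeff_one, ← pow_one ε] at h4
  obtain ⟨b, hb, hbz⟩ := root_near hε.le h4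
  refine ⟨b, mem_acl.1 (mem_acl_of_alg le_rfl (alg_root (fun i => ?_) (fun h => ?_) hb)), hbz⟩
  · rw [coeff_map]
    exact mem_acl.2 (IsIntegral.isAlgebraic (adjoin_le_integralClosure ha.isIntegral
      (Polynomial.aeval_mem_adjoin_singleton _ a)))
  · simp [h] at h4

omit [IsAlgClosed Ω] in
theorem sub_const [Ctx k Ω] (A B : Ω) :
    {c : k | ‖A + algebraMap k Ω c * B‖ < ‖B‖}.Subsingleton := fun c hc d hd => by
  by_contra h
  have h1 := norm_sub_lt_of hc hd
  rw [add_sub_add_left_eq_sub, ← sub_mul, ← map_sub, norm_mul,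
    Ctx.norm_alg _ (sub_ne_zero.2 h), one_mul] at h1
  exact lt_irrefl _ h1

end Prj

open Prj in
/-- PRJ: a generic projection. -/
theorem prj [IsUltrametricDist Ω] [IsAlgClosed Ω] [Ctx k Ω] [Infinite k]
    {E : IntermediateField k Ω} {y z : Ω} (hy : Lim E y)
    (hz : IsSeparable ↥(E ⊔ adjoin k {y}) z) :
    ∃ c : k, y ∈ hens (E ⊔ adjoin k {z - algebraMap k Ω c * y}) := by
  classical
  obtain ⟨P, h0, h1⟩ := exists_poly hz
  have hd := (diff_ev P (y, z)).hasFDerivAt
  set L := fderiv Ω (fun x : Ω × Ω => ev P x.1 x.2) (y, z)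
  have hB : L (0, 1) = ev (derivative P) y z := by
    have h2 := hd.comp_hasDerivAt z ((hasDerivAt_const z y).prodMk (hasDerivAt_id z))
    have h3 := (P.map ((aeval y : E[X] →ₐ[E] Ω) : E[X] →+* Ω)).hasDerivAt z
    rw [derivative_map, ← ev_map] at h3
    simp only [← ev_map] at h3
    exact h2.unique h3
  have hL : ∀ c : Ω, L (1, c) = L (1, 0) + c * L (0, 1) := fun c => by
    rw [← smul_eq_mul, ← map_smul, ← map_add]
    simp
  have hB0 : 0 < ‖L (0, 1)‖ := by rw [hB]; exact norm_pos_iff.2 h1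
  obtain ⟨ε, hε, h2⟩ := Metric.eventually_nhds_iff.1 (hd.isLittleO.def (half_pos hB0))
  obtain ⟨a, ha, hay⟩ := hy ε hε
  obtain ⟨b, hb, hbz⟩ := lim_root hy h0 h1 ε hε
  obtain ⟨c, hc⟩ := ((sub_const (k := k) (L (1, 0)) (L (0, 1))).finite.union
    (((rootSet_finite (minpoly E a) Ω).prod (rootSet_finite (minpoly E b) Ω)).biUnion
      fun x _ => (sub_const (k := k) (b - x.2) (x.1 - a)).finite)).exists_notMem
  rw [Set.mem_union, not_or] at hc
  have hc1 : ‖L (0, 1)‖ ≤ ‖L (1, algebraMap k Ω c)‖ := by rw [hL]; exact not_lt.1 hc.1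
  refine ⟨c, ?_⟩
  set M := E ⊔ adjoin k {z - algebraMap k Ω c * y}
  have hE : E ≤ M := le_sup_left
  have hs : IsSeparable M y := by
    let g : M[X] := P.eval₂ (mapRingHom (inclusion hE : E →+* M))
      (C ⟨_, self_mem E _⟩ + C (algebraMap k M c) * X)
    have hg : ∀ u, aeval u g =
        ev P u (z - algebraMap k Ω c * y + algebraMap k Ω c * u) := fun u => by
      simp only [g, ev, eval₂_eq_sum, Polynomial.sum, map_sum, map_mul, map_pow, map_add, aeval_C,
        aeval_X, RingHom.coe_coe, coe_mapRingHom]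
      refine Finset.sum_congr rfl fun i _ => ?_
      rw [aeval_def, eval₂_map]
      rfl
    have h3 := (hasDerivAt_id y).prodMk (((hasDerivAt_id y).const_mul
      (algebraMap k Ω c)).const_add (z - algebraMap k Ω c * y))
    have h4 := hd.comp_hasDerivAt_of_eq y h3 (by simp)
    have h5 := g.hasDerivAt_aeval y
    simp only [hg] at h5
    refine Hr.sep_of_simple (P := g) (by rw [hg, sub_add_cancel, h0]) ?_
    rw [h5.unique h4, mul_one]
    exact norm_pos_iff.1 (hB0.trans_le hc1)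
  have hM := le_hens M
  refine mem_of_fix (isSeparable_of_le hM hs) fun τ => by_contra fun hne => ?_
  have hδ : 0 < ‖τ y - y‖ := norm_pos_iff.2 (sub_ne_zero.2 hne)
  let σ : Ω →ₐ[E] Ω := { (τ : Ω →+* Ω) with commutes' := fun x => Hr.hom_fix τ (hM (hE x.2)) }
  have hσ : ∀ x, σ x = τ x := fun _ => rfl
  have hcM : algebraMap k Ω c ∈ hens M := (hens M).algebraMap_mem c
  have h3 : τ z - z = algebraMap k Ω c * (τ y - y) := by
    have := Hr.hom_fix τ (hM (self_mem E _))
    rw [map_sub, map_mul, Hr.hom_fix τ hcM] at this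
    linear_combination this
  have hc2 : ‖algebraMap k Ω c‖ ≤ 1 := (intAlg k Ω).algebraMap_mem c
  have h4 : (τ y, τ z) - (y, z) = (τ y - y) • ((1, algebraMap k Ω c) : Ω × Ω) := by
    simp [h3, mul_comm]
  have h5 : ‖(τ y, τ z) - (y, z)‖ = ‖τ y - y‖ := by
    rw [h4, norm_smul, Prod.norm_def, norm_one, max_eq_left hc2, mul_one]
  have h6 : ε ≤ ‖τ y - y‖ := not_lt.1 fun h => by
    have h7 := h2 (y := (τ y, τ z)) (by rwa [dist_eq_norm, h5])
    have h8 := ev_hom σ P y z
    rw [h0, map_zero, hσ, hσ] at h8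
    simp only [← h8, h0, h5] at h7
    rw [h4, map_smul, sub_zero, zero_sub, norm_neg, norm_smul] at h7
    nlinarith
  have hy' : IsAlgebraic (hens M) y := (isSeparable_of_le hM hs).isIntegral.isAlgebraic
  have hz' : IsAlgebraic (hens M) z := by
    have := (alg_of_mem (hM (self_mem E _))).add ((alg_of_mem hcM).mul hy')
    rwa [sub_add_cancel] at this
  have h7 : ∀ u v : Ω, IsAlgebraic (hens M) u → IsAlgebraic E v → ‖u - v‖ < ε →
      ‖τ v - v - (τ u - u)‖ < ‖τ y - y‖ := fun u v hu hv h => by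
    rw [show τ v - v - (τ u - u) = u - v - τ (u - v) by rw [map_sub]; ring]
    exact (norm_sub_lt_of h (by
      rwa [isH_hens M τ _ (hu.sub (isAlgebraic_of_le (hE.trans hM) hv))])).trans_le h6
  have h8 : ∀ v : Ω, IsAlgebraic E v → τ v ∈ (minpoly E v).rootSet Ω := fun v hv =>
    (mem_rootSet_of_ne (minpoly.ne_zero hv.isIntegral)).2 (by
      rw [← hσ, aeval_algHom_apply, minpoly.aeval, map_zero])
  have h9 := h7 y a hy' ha hay
  refine hc.2 (Set.mem_biUnion (x := (τ a, τ b)) ⟨h8 a ha, h8 b hb⟩ ?_)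
  have h10 : ‖τ a - a‖ = ‖τ y - y‖ := norm_eq_of_norm_sub_lt (by rwa [norm_sub_rev])
  change ‖b - τ b + algebraMap k Ω c * (τ a - a)‖ < ‖τ a - a‖
  rw [h10, show b - τ b + algebraMap k Ω c * (τ a - a) = algebraMap k Ω c *
    (τ a - a - (τ y - y)) - (τ b - b - (τ z - z)) by rw [h3]; ring]
  refine norm_sub_lt_of ?_ (h7 z b hz' hb hbz)
  rw [norm_mul]
  exact (mul_le_of_le_one_left (norm_nonneg _) hc2).trans_lt h9

end Pool.Agent.MP_19ffc6_ag.LU4
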