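import Pool.Agent.MP_19ffc6_ag.LU4.All
import Pool.Agent.MP_19ffc6_ag.LU4.Dl
import Pool.Agent.MP_19ffc6_ag.LU4.Prj
import Pool.Agent.MP_19ffc6_ag.LU4.Tow2

/-! PROJECT LU4, module SG: the inductive statement for all fields covered by the project. -/

namespace Pool.Agent.MP_19ffc6_ag.LU4

open Polynomial IntermediateField NNReal Pool.Agent.MP_19ffc6_ag.LU Pool.Agent.MP_19ffc6_ag.LU3
open Pool.Agent.MP_19ffc6_ag.LU3.Mv Pool.Agent.MP_19ffc6_ag.LU3.Pd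

universe u

section omega

variable {k : Type*} {Ω : Type u} [Field k] [NontriviallyNormedField Ω] [Algebra k Ω]
  [IsUltrametricDist Ω] [IsAlgClosed k] [IsAlgClosed Ω] [Ctx k Ω] (p : ℕ) [Fact p.Prime]
  [CharP k p]

theorem ihF {n : ℕ} (h : n.factorial < p) : IH k Ω n := by
  classical
  exact sg_all ascS descS (fun _ => pstmt p fun ih adj _ pq => swap p (kn p) ih adj pq) h

open CoreL in
theorem sgO (E K : IntermediateField k Ω) (y z : Ω) (hE : E.FG)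
    (hb : z = 0 ∨ IsSeparable ↥(E ⊔ adjoin k {y}) z ∧ Lim E y)
    (hK : Relation.ReflTransGen (Stp2 p) (E ⊔ adjoin k {y, z}) K) (halg : Algebra.IsAlgebraic K Ω)
    (hd : (∃ (r : ℕ) (x : Fin r → Ω), (∀ i, x i ∈ E ∧ x i ≠ 0) ∧
        LinearIndependent ℤ (fun i => nu (x i)) ∧ 2 ≤ r ∧ Algebra.trdeg k E ≤ r + 2) ∨
      ∃ n : ℕ, Algebra.trdeg k E ≤ n ∧ n.factorial < p ∧ (n ≤ 3 ∨ QFull E)) :
    K.FG ∧ SG k K := by
  have hp := (Fact.out : p.Prime).one_lt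
  have hy : y ∈ E ⊔ adjoin k {y, z} :=
    (le_sup_right : _ ≤ E ⊔ adjoin k {y, z}) (subset_adjoin _ _ (by simp))
  have hz : z ∈ E ⊔ adjoin k {y, z} :=
    (le_sup_right : _ ≤ E ⊔ adjoin k {y, z}) (subset_adjoin _ _ (by simp))
  obtain ⟨b, hb1, hb2⟩ : ∃ b ∈ E ⊔ adjoin k {y, z},
      E ⊔ adjoin k {y, z} ≤ hens (E ⊔ adjoin k {b}) := by
    have h1 : ∀ b, y ∈ hens (E ⊔ adjoin k {b}) → z ∈ hens (E ⊔ adjoin k {b}) →
        E ⊔ adjoin k {y, z} ≤ hens (E ⊔ adjoin k {b}) := fun b h1 h2 =>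
      sup_le (le_sup_left.trans (le_hens _)) (adjoin_le_iff.2 (by
        rintro _ (rfl | rfl)
        exacts [h1, h2]))
    rcases hb with rfl | ⟨h2, h3⟩
    · exact ⟨y, hy, h1 y (le_hens _ (self_mem E y)) (zero_mem _)⟩
    · obtain ⟨c, hc⟩ := prj h3 h2
      refine ⟨_, sub_mem hz (mul_mem (IntermediateField.algebraMap_mem _ c) hy), h1 _ hc ?_⟩
      have := add_mem (le_hens _ (self_mem E (z - algebraMap k Ω c * y)))
        (mul_mem (IntermediateField.algebraMap_mem _ c) hc)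
      rwa [sub_add_cancel] at this
  have hA : (E ⊔ adjoin k {y, z}).FG := fg_sup hE (fg_adjoin_of_finite (Set.toFinite _))
  generalize hA0 : E ⊔ adjoin k {y, z} = A at *
  have hEA : E ≤ A := hA0 ▸ le_sup_left
  obtain ⟨a1, a2, a3, a4⟩ := Tow.tower2 ascS descS deg hK hA
  refine ⟨a1, ?_⟩
  have hq : QFull K := fun a _ => vfull_self K a (halg.1 a)
  have t0 := trdeg_le_of_alg (hb2.trans (hens_le_acl _))
  have t1 := (trdeg_le_of_alg a3).trans t0
  have t2 : ∀ n : ℕ, Algebra.trdeg k E ≤ n →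
      Algebra.trdeg k ↥(E ⊔ adjoin k {b}) ≤ (n + 1 : ℕ) := fun n h =>
    (trdeg_sup_le E b).trans ((add_le_add h le_rfl).trans (le_of_eq (by push_cast; rfl)))
  have full : ∀ n : ℕ, IHF k Ω n → Algebra.trdeg k E ≤ n → QFull E → SG k K := fun n H h hE' => by
    by_cases h1 : IsAlgebraic E b
    · exact H K a1 (t1.trans ((trdeg_sup_alg h1).trans h)) hq
    · refine a4 n (dl p n (pf p n) (tameS p) H) (Pf.qfull_mono hE' hEA) (t0.trans (t2 n h))
        (tameS p _ A (fg_adj hE b) hA ((sup_le hEA (simple_le hb1)).trans (le_hens A)) ?_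
          (pf p n H E b hE h h1 hE'))
      rw [relrank_eq_one_iff.2 (hens_le_hens hb2)]
      exact_mod_cast hp
  have half : ∀ (r : ℕ) (x : Fin r → Ω), (∀ i, x i ∈ E ∧ x i ≠ 0) →
      LinearIndependent ℤ (fun i => nu (x i)) → 1 ≤ r → Algebra.trdeg k E ≤ (r + 2 : ℕ) →
      ¬ QFull E → SG k K := fun r x hx hli hr h hE' => by
    simp only [QFull, not_forall] at hE'
    obtain ⟨a, ha, hna⟩ := hE'
    exact indS p (r + 1) (Fin.cons a x) (fun i => Fin.cases ha (fun j => (hx j).2) i)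
      (indep_cons (fun i => (hx i).1) hli hna) (by omega) K a1 (t1.trans (t2 _ h)) hq
  by_cases hE' : QFull E
  · rcases hd with ⟨r, x, hx, hli, hr, h⟩ | ⟨n, h, hn, -⟩
    · exact full _ (indS p r x (fun i => (hx i).2) hli hr) (by exact_mod_cast h) hE'
    · exact full n (fun F h1 h2 _ => ihF p hn F h1 h2) h hE'
  rcases hd with ⟨r, x, hx, hli, hr, h⟩ | ⟨n, h, -, hn⟩
  · exact half r x hx hli (by omega) (by exact_mod_cast h) hE'
  by_cases hm : ∃ m ∈ E, 1 < ‖m‖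
  · obtain ⟨m, hm, hm1⟩ := hm
    have h0 : m ≠ 0 := norm_pos_iff.1 (one_pos.trans hm1)
    exact half 1 (fun _ => m) (fun _ => ⟨hm, h0⟩) (linearIndependent_unique_iff.2 fun h1 =>
      hm1.ne' ((nu_eq_zero_iff h0).1 h1)) le_rfl
      (h.trans (by exact_mod_cast hn.resolve_right hE')) hE'
  · obtain rfl := eq_bot_of_trivial hm
    exact ihF p (n := 1) hp K a1 (t1.trans (t2 0 (by rw [trdeg_eq_zero]; simp)))

end omega

/-- One step inside a valued field. -/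
def StepW {k K : Type*} [Field k] [Field K] [Algebra k K] (p : ℕ) (v : Valuation K ℝ≥0)
    (A B : IntermediateField k K) : Prop :=
  ∃ z : K, B = A ⊔ IntermediateField.adjoin k {z} ∧ ((∃ a : ℕ, ¬ p ∣ a ∧ z ^ a ∈ A) ∨
    (v z < 1 ∧ ∃ (P : Polynomial K) (d : ℕ), (∀ i, P.coeff i ∈ A ∧ v (P.coeff i) ≤ 1) ∧
      v (P.coeff d) = 1 ∧ P.eval z = 0 ∧ (d < p ∨ ∃ ρ : Fin d → K, (∀ i, ρ i ∈ B ∧ ρ i ≠ 0) ∧
        ∀ i j, ∀ b ∈ A, v (ρ i) = v b * v (ρ j) → i = j)))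

variable {k : Type*} {K Ω : Type u} [Field k] [Field K] [Algebra k K]
  [NontriviallyNormedField Ω] [Algebra k Ω]

theorem StepW.map (φ : K →ₐ[k] Ω) {p : ℕ} {v : Valuation K ℝ≥0}
    (hv : ∀ a, ‖φ a‖ = v a) {A B : IntermediateField k K} (h : StepW p v A B) :
    Stp2 p (A.map φ) (B.map φ) := by
  obtain ⟨z, hB, h⟩ := h
  refine ⟨φ z, by rw [hB, IntermediateField.map_sup, adjoin_map, Set.image_singleton], ?_⟩
  rcases h with ⟨a, ha, h⟩ | ⟨hz, P, d, h1, h2, h3, hd⟩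
  · exact Or.inl ⟨a, ha, z ^ a, h, map_pow φ z a⟩
  · refine Or.inr ⟨by rw [hv]; exact_mod_cast hz, P.map (φ : K →+* Ω), d, fun i => ?_, ?_, ?_,
      hd.imp id fun ⟨ρ, g1, g2⟩ => ⟨fun i => φ (ρ i),
        fun i => ⟨⟨_, (g1 i).1, rfl⟩, by simpa using (g1 i).2⟩, ?_⟩⟩
    · rw [coeff_map]
      refine ⟨⟨_, (h1 i).1, rfl⟩, ?_⟩
      change ‖φ _‖ ≤ 1
      rw [hv]
      exact_mod_cast (h1 i).2
    · rw [coeff_map]
      change ‖φ _‖ = 1
      rw [hv, h2]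
      rfl
    · change (P.map (φ : K →+* Ω)).eval ((φ : K →+* Ω) z) = 0
      rw [eval_map, eval₂_hom, h3, map_zero]
    · rintro i j _ ⟨b, hb, rfl⟩ h
      refine g2 i j b hb ?_
      change ‖φ (ρ i)‖ = ‖φ b‖ * ‖φ (ρ j)‖ at h
      rw [hv, hv, hv] at h
      exact_mod_cast h

theorem sep_map (φ : K →ₐ[k] Ω) {M : IntermediateField k K} {a : K} (h : IsSeparable M a) :
    IsSeparable (M.map φ) (φ a) := by
  refine (Separable.map h (f := (equivMap M φ : M →+* M.map φ))).of_dvd (minpoly.dvd _ _ ?_)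
  refine (map_aeval_eq_aeval_map (φ := (equivMap M φ : M →+* M.map φ)) (ψ := (φ : K →+* Ω)) rfl
    _ a).symm.trans ?_
  rw [minpoly.aeval, map_zero]

/-- The inductive statement for the image of a valued field. -/
theorem sgV [IsUltrametricDist Ω] [IsAlgClosed k] [IsAlgClosed Ω] [Ctx k Ω] (p : ℕ) [Fact p.Prime]
    [CharP k p] (φ : K →ₐ[k] Ω) (halg : Algebra.IsAlgebraic φ.fieldRange Ω)
    (v : Valuation K ℝ≥0) (hv : ∀ a, ‖φ a‖ = v a) (E : IntermediateField k K) (hE : E.FG)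
    (y z : K) (hb : z = 0 ∨ IsSeparable ↥(E ⊔ adjoin k {y}) z ∧ ∀ ε : ℝ≥0, 0 < ε →
      ∃ (g : Polynomial K) (j : ℕ), (∀ i, g.coeff i ∈ E) ∧
        v (g.eval y) < ε ^ j * v ((taylor y g).coeff j))
    (hK : Relation.ReflTransGen (StepW p v) (E ⊔ adjoin k {y, z}) ⊤)
    (hd : (∃ (r : ℕ) (x : Fin r → K), (∀ i, x i ∈ E ∧ x i ≠ 0) ∧
        (∀ m : Fin r → ℤ, ∏ i, v (x i) ^ m i = 1 → m = 0) ∧ 2 ≤ r ∧ Algebra.trdeg k E ≤ r + 2) ∨
      ∃ n : ℕ, Algebra.trdeg k E ≤ n ∧ n.factorial < p ∧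
        (n ≤ 3 ∨ ∀ a : K, ∃ m : ℕ, 0 < m ∧ ∃ b ∈ E, v a ^ m = v b)) :
    φ.fieldRange.FG ∧ SG k φ.fieldRange := by
  classical
  have htr := (E.equivMap φ).trdeg_eq (R := k)
  refine sgO p (E.map φ) _ (φ y) (φ z) ?_ (hb.imp (fun h => by rw [h, map_zero])
    fun h => ⟨?_, fun ε hε => ?_⟩) ?_ halg (hd.imp ?_ ?_)
  · obtain ⟨t, ht⟩ := hE
    exact ⟨t.image φ, by rw [Finset.coe_image, ← IntermediateField.adjoin_map, ht]⟩
  · have := sep_map φ h.1
    rwa [IntermediateField.map_sup, adjoin_map, Set.image_singleton] at this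
  · obtain ⟨g, j, g1, g2⟩ := h.2 ⟨ε, hε.le⟩ hε
    have g3 : ‖(g.map (φ : K →+* Ω)).eval ((φ : K →+* Ω) y)‖ <
        ε ^ j * ‖(taylor ((φ : K →+* Ω) y) (g.map (φ : K →+* Ω))).coeff j‖ := by
      rw [← map_taylor, coeff_map, eval_map, eval₂_hom, RingHom.coe_coe, hv, hv]
      exact_mod_cast g2
    obtain ⟨a, ha, h⟩ := Prj.root_near hε.le g3
    exact ⟨a, Prj.alg_root (fun i => by rw [coeff_map]; exact ⟨_, g1 i, rfl⟩)
      (fun h0 => by simp [h0] at g3) ha, h⟩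
  · have h0 : ∀ A B : IntermediateField k K, Relation.ReflTransGen (StepW p v) A B →
        Relation.ReflTransGen (Stp2 p) (A.map φ) (B.map φ) := fun A B h => by
      induction h with
      | refl => exact .refl
      | tail _ h ih => exact ih.tail (StepW.map φ hv h)
    have h1 := h0 _ _ hK
    rwa [IntermediateField.map_sup, adjoin_map, Set.image_pair, ← AlgHom.fieldRange_eq_map] at h1
  · rintro ⟨r, x, hx, hind, hr, h⟩
    refine ⟨r, fun i => φ (x i), fun i => ⟨⟨_, (hx i).1, rfl⟩, by simpa using (hx i).2⟩, ?_, hr,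
      htr ▸ h⟩
    have hpos : ∀ i, (0 : ℝ) < v (x i) := fun i => by
      rw [← hv]; exact norm_pos_iff.2 (by simpa using (hx i).2)
    rw [Fintype.linearIndependent_iff]
    intro m hm i
    have h1 : Real.log (∏ i, (v (x i) : ℝ) ^ m i) = 0 := by
      rw [Real.log_prod (fun i _ => (zpow_pos (hpos i) _).ne')]
      simp only [nu, hv, zsmul_eq_mul, mul_neg, Finset.sum_neg_distrib, neg_eq_zero] at hm
      simpa only [Real.log_zpow] using hm
    have h2 : ∏ i, (v (x i) : ℝ) ^ m i = 1 :=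
      Real.eq_one_of_pos_of_log_eq_zero (Finset.prod_pos fun i _ => zpow_pos (hpos i) _) h1
    exact congrFun (hind m (NNReal.coe_injective (by simpa using h2))) i
  · rintro ⟨n, h, hn, h1⟩
    refine ⟨n, htr ▸ h, hn, h1.imp id fun h2 a _ => vfull_iff.2 ?_ a (halg.1 a)⟩
    rintro _ ⟨a, rfl⟩
    obtain ⟨m, hm, b, hb, h3⟩ := h2 a
    refine mem_of_mul_mem (d := m) (by omega) ?_
    have h4 : ((m : ℤ) : ℝ) * nu (φ a) = nu (φ b) := by
      simp only [nu, hv, ← h3, NNReal.coe_pow, Real.log_pow]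
      push_cast
      ring
    exact h4 ▸ nu_mem_qv ⟨b, hb, rfl⟩

end Pool.Agent.MP_19ffc6_ag.LU4
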