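import Pool.Agent.MP_19ffc6_ag.LU4.GlueE
import Pool.Agent.MP_19ffc6_ag.LU4.Sg

/-! PROJECT LU4, module MAIN: embedded local uniformization. -/

namespace Pool.Agent.MP_19ffc6_ag.LU4

open Polynomial IntermediateField NNReal

theorem mainF (p : ℕ) [Fact p.Prime] (k : Type*) [Field k] [IsAlgClosed k] [CharP k p]
    (K : Type*) [Field K] [Algebra k K]
    (v : Valuation K ℝ≥0) (hk : ∀ c : k, c ≠ 0 → v (algebraMap k K c) = 1)
    (hres : ∀ a : K, v a ≤ 1 → ∃ c : k, v (a - algebraMap k K c) < 1)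
    (E : IntermediateField k K) (hE : E.FG) (n : ℕ) (htr : Algebra.trdeg k E ≤ n)
    (hfull : ∀ a : K, ∃ m : ℕ, 0 < m ∧ ∃ b ∈ E, v a ^ m = v b)
    (r : ℕ) (x : Fin r → K) (hx : ∀ i, x i ≠ 0)
    (hind : ∀ m : Fin r → ℤ, ∏ i, v (x i) ^ m i = 1 → m = 0)
    (hn : n.factorial < p ∨ 2 ≤ r ∧ n ≤ r + 2) (y z : K)
    (hz : z = 0 ∨ IsSeparable ↥(E ⊔ adjoin k {y}) z ∧ ∀ ε : ℝ≥0, 0 < ε →
      ∃ (g : Polynomial K) (j : ℕ), (∀ i, g.coeff i ∈ E) ∧
        v (g.eval y) < ε ^ j * v ((taylor y g).coeff j))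
    (hK : Relation.ReflTransGen (StepW p v) (E ⊔ adjoin k {y, z}) ⊤)
    (Z : Finset K) (hZ : ∀ a ∈ Z, v a ≤ 1) : ELU k v Z := by
  refine glueE k K v hk hres
    (fun _ _ _ _ _ _ φ hv halg => sgV p φ halg v hv E hE y z hz hK ?_) Z hZ
  refine hn.symm.imp (fun h => ?_) fun h => ⟨n, htr, h, Or.inr hfull⟩
  choose m hm b hb e using fun i => hfull (x i)
  refine ⟨r, b, fun i => ⟨hb i, fun h0 => ?_⟩, fun g hg => funext fun i => ?_, h.1,
    htr.trans (by exact_mod_cast h.2)⟩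
  · have := e i
    rw [h0, map_zero] at this
    exact pow_ne_zero _ ((Valuation.ne_zero_iff v).2 (hx i)) this
  · have h1 := congrFun (hind (fun i => m i * g i) (by
      simpa only [← e, zpow_mul, zpow_natCast] using hg)) i
    exact (mul_eq_zero.1 h1).resolve_left (by exact_mod_cast (hm i).ne')

end Pool.Agent.MP_19ffc6_ag.LU4
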